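import Mathlib

/-!
# Generic smooth roots of polynomials with analytic coefficients
-/

open Set Filter Topology Function Polynomial
open scoped ContDiff

namespace Pool.Agent.Work.MP_375441_an

variable {E : Type*} [NormedAddCommGroup E] [NormedSpace ℝ E]

lemma mul_isInvertible {a : ℂ} (ha : a ≠ 0) {T : ℂ →L[ℝ] ℂ} (hT : ∀ z, T z = z * a) :
    T.IsInvertible := by
  refine ⟨ContinuousLinearEquiv.equivOfInverse T ((a⁻¹ : ℂ) • ContinuousLinearMap.id ℝ ℂ) ?_ ?_, ?_⟩
  · intro z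
    simp [hT]
    field_simp
  · intro z
    simp [hT]
    field_simp
  · ext z <;> rfl

lemma exists_root_of_simple [CompleteSpace E] {N : ℕ} {G : ℕ → E → ℂ} {x₀ : E} {n : WithTop ℕ∞}
    (hn : n ≠ 0) (hG : ∀ k, ContDiffAt ℝ n (G k) x₀) {z₀ : ℂ}
    (h0 : ∑ k ∈ Finset.range N, G k x₀ * z₀ ^ k = 0)
    (h1 : ∑ k ∈ Finset.range N, G k x₀ * ((k:ℂ) * z₀ ^ (k - 1)) ≠ 0) :
    ∃ lam : E → ℂ, ContDiffAt ℝ n lam x₀ ∧ lam x₀ = z₀ ∧
      ∀ᶠ x in 𝓝 x₀, ∑ k ∈ Finset.range N, G k x * lam x ^ k = 0 := by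
  set F : E × ℂ → ℂ := fun y => ∑ k ∈ Finset.range N, G k y.1 * y.2 ^ k with hF
  have hFc : ContDiffAt ℝ n F (x₀, z₀) := by
    refine ContDiffAt.sum fun k _ => ContDiffAt.mul ?_ ?_
    · exact ContDiffAt.comp (x₀, z₀) (hG k) contDiffAt_fst
    · exact contDiffAt_snd.pow k
  have hFd : HasFDerivAt F (fderiv ℝ F (x₀, z₀)) (x₀, z₀) :=
    (hFc.differentiableAt hn).hasFDerivAt
  have hd1 : HasFDerivAt (fun z : ℂ => F (x₀, z))
      ((fderiv ℝ F (x₀, z₀)).comp (ContinuousLinearMap.inr ℝ E ℂ)) z₀ := by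
    have h2 : HasFDerivAt (fun z : ℂ => (x₀, z)) (ContinuousLinearMap.inr ℝ E ℂ) z₀ :=
      hasFDerivAt_prodMk_right x₀ z₀
    exact hFd.comp z₀ h2
  have hd2 : HasDerivAt (fun z : ℂ => F (x₀, z))
      (∑ k ∈ Finset.range N, G k x₀ * ((k:ℂ) * z₀ ^ (k - 1))) z₀ := by
    refine HasDerivAt.fun_sum fun k _ => ?_
    exact (hasDerivAt_pow k z₀).const_mul (G k x₀)
  have hd3 := hd2.hasFDerivAt.restrictScalars ℝ
  have hd4 := hd1.unique hd3
  have hinv : ((fderiv ℝ F (x₀, z₀)).comp (ContinuousLinearMap.inr ℝ E ℂ)).IsInvertible := by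
    rw [hd4]
    refine mul_isInvertible h1 fun z => ?_
    simp
  refine ⟨hFc.implicitFunction hn hinv, hFc.contDiffAt_implicitFunction hn hinv,
    hFc.implicitFunction_apply_self hn hinv, ?_⟩
  filter_upwards [hFc.eventually_apply_implicitFunction hn hinv] with x hx
  simp only [hF] at hx
  rw [hx]
  exact h0

/-- the ring of restrictions to `B` of functions analytic on `B` -/
def anRing (B : Set E) : Subring (↥B → ℂ) where
  carrier := {g | ∃ G : E → ℂ, AnalyticOnNhd ℝ G B ∧ ∀ x : B, G x = g x}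
  mul_mem' := by
    rintro a b ⟨G, hG, h1⟩ ⟨G', hG', h2⟩
    exact ⟨fun x => G x * G' x, fun x hx => (hG x hx).mul (hG' x hx), fun x => by simp [h1, h2]⟩
  one_mem' := ⟨fun _ => 1, fun x _ => analyticAt_const, fun x => rfl⟩
  add_mem' := by
    rintro a b ⟨G, hG, h1⟩ ⟨G', hG', h2⟩
    exact ⟨fun x => G x + G' x, fun x hx => (hG x hx).add (hG' x hx), fun x => by simp [h1, h2]⟩
  zero_mem' := ⟨fun _ => 0, fun x _ => analyticAt_const, fun x => rfl⟩
  neg_mem' := by
    rintro a ⟨G, hG, h1⟩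
    exact ⟨fun x => - G x, fun x hx => (hG x hx).neg, fun x => by simp [h1]⟩

lemma anRing_isDomain {B : Set E} (hB : IsOpen B) (hBc : IsPreconnected B) (hBn : B.Nonempty) :
    IsDomain (anRing B) := by
  haveI : Nonempty B := hBn.to_subtype
  haveI : Nontrivial (anRing B) := by
    refine ⟨⟨0, 1, fun h => ?_⟩⟩
    have h1 := congrArg (fun g : anRing B => g.1 (Classical.arbitrary B)) h
    simp at h1
  haveI : NoZeroDivisors (anRing B) := by
    refine ⟨fun {a b} hab => ?_⟩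
    obtain ⟨G, hG, h1⟩ := a.2
    obtain ⟨G', hG', h2⟩ := b.2
    by_contra hcon
    push Not at hcon
    obtain ⟨ha, hb⟩ := hcon
    have hx : ∃ x : B, a.1 x ≠ 0 := by
      by_contra h
      push Not at h
      exact ha (Subtype.ext (funext h))
    obtain ⟨x, hx⟩ := hx
    have h3 : ∀ᶠ y in 𝓝 (x : E), G y ≠ 0 := by
      refine (hG x x.2).continuousAt.eventually_ne ?_
      rw [h1 x]; exact hx
    have h4 : G' =ᶠ[𝓝 (x : E)] 0 := by
      filter_upwards [h3, hB.mem_nhds x.2] with y hy hyB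
      have h5 := congrArg (fun g : anRing B => g.1 ⟨y, hyB⟩) hab
      simp only [Subring.coe_mul, Pi.mul_apply, ZeroMemClass.coe_zero, Pi.zero_apply] at h5
      rcases mul_eq_zero.mp h5 with h6 | h6
      · exact absurd ((h1 ⟨y, hyB⟩).trans h6) hy
      · exact (h2 ⟨y, hyB⟩).trans h6
    have h5 := hG'.eqOn_zero_of_preconnected_of_eventuallyEq_zero hBc x.2 h4
    apply hb
    refine Subtype.ext (funext fun y => ?_)
    rw [← h2 y]
    exact h5 y.2
  exact NoZeroDivisors.to_isDomain _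

/-- evaluation -/
def anEv {B : Set E} (x : B) : anRing B →+* ℂ := (Pi.evalRingHom (fun _ : B => ℂ) x).comp
  (anRing B).subtype

lemma anEv_apply {B : Set E} (x : B) (g : anRing B) : anEv x g = g.1 x := rfl

lemma clear_denom {A : Type*} [CommRing A] [IsDomain A] (r : (FractionRing A)[X]) :
    ∃ (r' : A[X]) (d : A), d ≠ 0 ∧
      r'.map (algebraMap A (FractionRing A)) = C (algebraMap A (FractionRing A) d) * r := by
  obtain ⟨b, hb⟩ := IsLocalization.integerNormalization_map_to_map (nonZeroDivisors A) r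
  refine ⟨IsLocalization.integerNormalization (nonZeroDivisors A) r, b,
    nonZeroDivisors.ne_zero b.2, ?_⟩
  rw [hb, ← IsScalarTower.algebraMap_smul (FractionRing A) (b : A) r, smul_eq_C_mul]

/-- the algebraic heart: a factorisation with controlled denominators -/
lemma alg_factor {A : Type*} [CommRing A] [IsDomain A] [CharZero A] {q : A[X]} {p : ℕ}
    (hp : 1 ≤ p) (hq : q.coeff p ≠ 0) (hdeg : q.natDegree ≤ p) :
    ∃ (h g a b : A[X]) (n : ℕ) (D e₁ e₂ : A), 1 ≤ n ∧ D ≠ 0 ∧ e₁ ∣ D ∧ e₂ ∣ D ∧ h.coeff n ∣ D ∧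
      C e₁ * q = h * g ∧ a * h + b * derivative h = C e₂ := by
  classical
  set K := FractionRing A with hK
  haveI : CharZero K := charZero_of_injective_algebraMap (IsFractionRing.injective A K)
  have hinj : Injective (algebraMap A K) := IsFractionRing.injective A K
  set qK : K[X] := q.map (algebraMap A K) with hqK
  have hqKc : qK.coeff p ≠ 0 := by
    rw [hqK, coeff_map]
    exact fun h => hq (hinj (by rw [h, map_zero]))
  have hnu : ¬ IsUnit qK := by
    intro hu
    have h1 := natDegree_eq_zero_of_isUnit hu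
    have h2 := le_natDegree_of_ne_zero hqKc
    omega
  obtain ⟨hK', hm, hirr, g', hg'⟩ := exists_monic_irreducible_factor qK hnu
  have hsep : hK'.Separable := hirr.separable
  obtain ⟨a', b', hab⟩ := hsep
  obtain ⟨h, dh, hdh, hh⟩ := clear_denom hK'
  obtain ⟨g, dg, hdg, hg⟩ := clear_denom g'
  obtain ⟨a, da, hda, ha⟩ := clear_denom a'
  obtain ⟨b, db, hdb, hb⟩ := clear_denom b'
  have hminj : Injective (Polynomial.map (algebraMap A K)) := Polynomial.map_injective _ hinj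
  refine ⟨h, g, C db * a, C da * b, hK'.natDegree, dh * dg * da * db, dh * dg, da * db * dh, ?_, ?_,
    ?_, ?_, ?_, ?_, ?_⟩
  · exact hirr.natDegree_pos
  · simp [hdh, hdg, hda, hdb]
  · exact ⟨da * db, by ring⟩
  · exact ⟨dg, by ring⟩
  · have h1 : h.coeff hK'.natDegree = dh := by
      apply hinj
      rw [← coeff_map, hh, coeff_C_mul, hm.coeff_natDegree, mul_one]
    rw [h1]
    exact ⟨dg * da * db, by ring⟩
  · apply hminj
    rw [Polynomial.map_mul, Polynomial.map_mul, hh, hg, map_C, map_mul, C_mul, ← hqK, hg']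
    ring
  · apply hminj
    rw [Polynomial.map_add, Polynomial.map_mul, Polynomial.map_mul, Polynomial.map_mul,
      Polynomial.map_mul, ← derivative_map, hh, ha, hb, map_C, map_C, map_C, derivative_C_mul,
      map_mul, C_mul, map_mul, C_mul]
    linear_combination (C (algebraMap A K da) * C (algebraMap A K db) * C (algebraMap A K dh)) * hab

theorem exists_generic_root [CompleteSpace E] {B : Set E} (hB : IsOpen B)
    (hBc : IsPreconnected B) (hBn : B.Nonempty) {p : ℕ} (hp : 1 ≤ p) {c : ℕ → E → ℂ}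
    (hc : ∀ k, AnalyticOnNhd ℝ (c k) B) (hcp : ∃ x ∈ B, c p x ≠ 0) :
    ∃ D : E → ℂ, AnalyticOnNhd ℝ D B ∧ (∃ x ∈ B, D x ≠ 0) ∧ ∀ x₀ ∈ B, D x₀ ≠ 0 →
      ∃ lam : E → ℂ, ContDiffAt ℝ 1 lam x₀ ∧
        ∀ᶠ x in 𝓝 x₀, ∑ k ∈ Finset.range (p + 1), c k x * lam x ^ k = 0 := by
  classical
  haveI := anRing_isDomain hB hBc hBn
  obtain ⟨x₁, hx₁, hcx₁⟩ := hcp
  haveI : CharZero (anRing B) := RingHom.charZero (anEv (⟨x₁, hx₁⟩ : B))
  set cA : ℕ → anRing B := fun k => ⟨fun x => c k x, c k, hc k, fun _ => rfl⟩ with hcA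
  set q : (anRing B)[X] := ∑ k ∈ Finset.range (p + 1), C (cA k) * X ^ k with hq
  have hqc : ∀ k ≤ p, q.coeff k = cA k := by
    intro k hk
    rw [hq, finset_sum_coeff, Finset.sum_eq_single k]
    · simp
    · intro j _ hj
      rw [coeff_C_mul, coeff_X_pow, if_neg (Ne.symm hj), mul_zero]
    · intro h
      exact absurd (Finset.mem_range.mpr (by omega)) h
  have hqd : q.natDegree ≤ p := by
    refine natDegree_sum_le_of_forall_le _ _ fun k hk => ?_
    exact (natDegree_C_mul_X_pow_le _ _).trans (by simpa using Finset.mem_range_succ_iff.mp hk)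
  have hqp : q.coeff p ≠ 0 := by
    rw [hqc p le_rfl]
    intro h
    have := congrArg (fun g : anRing B => g.1 ⟨x₁, hx₁⟩) h
    exact hcx₁ this
  obtain ⟨h, g, a, b, n, D, e₁, e₂, hn, hD, he₁, he₂, hhn, hfac, hcop⟩ := alg_factor hp hqp hqd
  obtain ⟨DG, hDG, hDG'⟩ := D.2
  have hqev : ∀ (x : B) (z : ℂ), (q.map (anEv x)).eval z =
      ∑ k ∈ Finset.range (p + 1), c k x * z ^ k := by
    intro x z
    rw [hq, Polynomial.map_sum, eval_finset_sum]
    refine Finset.sum_congr rfl fun k _ => ?_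
    simp [anEv_apply, hcA]
  refine ⟨DG, hDG, ?_, ?_⟩
  · by_contra hcon
    push Not at hcon
    apply hD
    refine Subtype.ext (funext fun x => ?_)
    rw [← hDG' x]
    exact hcon x x.2
  intro x₀ hx₀ hDx₀
  have hev : ∀ e : anRing B, e ∣ D → ∀ x : B, DG x ≠ 0 → anEv x e ≠ 0 := by
    rintro e ⟨e', he'⟩ x hx h0
    apply hx
    rw [hDG' x, ← anEv_apply, he', map_mul, h0, zero_mul]
  set y₀ : B := ⟨x₀, hx₀⟩ with hy₀
  -- root of `h` at `x₀`
  have hdeg : 0 < (h.map (anEv y₀)).degree := by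
    rw [← natDegree_pos_iff_degree_pos]
    have h1 : (h.map (anEv y₀)).coeff n ≠ 0 := by
      rw [coeff_map]
      exact hev _ hhn y₀ hDx₀
    exact lt_of_lt_of_le (by omega) (le_natDegree_of_ne_zero h1)
  obtain ⟨z₀, hz₀⟩ := Complex.exists_root hdeg
  rw [IsRoot.def] at hz₀
  have hder : (derivative (h.map (anEv y₀))).eval z₀ ≠ 0 := by
    intro h0
    have h1 := congrArg (fun r => (r.map (anEv y₀)).eval z₀) hcop
    simp only [Polynomial.map_add, Polynomial.map_mul, eval_add, eval_mul, ← derivative_map, map_C,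
      eval_C, hz₀, h0, mul_zero, add_zero] at h1
    exact hev e₂ he₂ y₀ hDx₀ h1.symm
  -- coefficients of `h`
  choose G hG hG' using fun k => (h.coeff k).2
  set N := h.natDegree + 1 with hN
  have hhev : ∀ (x : B) (z : ℂ), (h.map (anEv x)).eval z = ∑ k ∈ Finset.range N, G k x * z ^ k := by
    intro x z
    rw [eval_map, eval₂_eq_sum_range]
    refine Finset.sum_congr rfl fun k _ => ?_
    rw [anEv_apply, ← hG' k x]
  have hhder : (derivative (h.map (anEv y₀))).eval z₀ =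
      ∑ k ∈ Finset.range N, G k x₀ * ((k:ℂ) * z₀ ^ (k - 1)) := by
    have h1 : h.map (anEv y₀) = ∑ k ∈ Finset.range N, C (G k x₀) * X ^ k := by
      conv_lhs => rw [as_sum_range_C_mul_X_pow h, Polynomial.map_sum]
      refine Finset.sum_congr rfl fun k _ => ?_
      rw [Polynomial.map_mul, map_C, Polynomial.map_pow, map_X, anEv_apply, ← hG' k y₀]
    rw [h1, derivative_sum, eval_finset_sum]
    refine Finset.sum_congr rfl fun k _ => ?_
    rw [derivative_C_mul, derivative_X_pow, eval_mul, eval_C, eval_mul, eval_C, eval_pow, eval_X]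
  obtain ⟨lam, hlam, -, hroot⟩ := exists_root_of_simple (x₀ := x₀) (G := G) (N := N) (z₀ := z₀)
    (n := 1) one_ne_zero (fun k => (hG k x₀ hx₀).contDiffAt) ((hhev y₀ z₀).symm.trans hz₀)
    (by rw [← hhder]; exact hder)
  refine ⟨lam, hlam, ?_⟩
  filter_upwards [hroot, hB.mem_nhds hx₀, (hDG x₀ hx₀).continuousAt.eventually_ne hDx₀] with
    x hx hxB hxD
  have h1 := congrArg (fun r => (r.map (anEv (⟨x, hxB⟩ : B))).eval (lam x)) hfac
  simp only [Polynomial.map_mul, eval_mul, map_C, eval_C, hqev, hhev] at h1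
  rw [hx, zero_mul] at h1
  exact (mul_eq_zero.mp h1).resolve_left (hev e₁ he₁ ⟨x, hxB⟩ hxD)

end Pool.Agent.Work.MP_375441_an
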