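import Mathlib

/-!
# Test functions, first order functionals, and integration by parts
-/

open MeasureTheory Set Filter Topology Function
open scoped ContDiff

namespace Pool.Agent.Work.MP_375441_an

variable {E : Type*} [NormedAddCommGroup E] [NormedSpace ℝ E]

lemma contDiff_mul_of_tsupport {n : WithTop ℕ∞} {g φ : E → ℂ} {O : Set E} (hO : IsOpen O)
    (hg : ContDiffOn ℝ n g O) (hφ : ContDiff ℝ n φ) (hs : tsupport φ ⊆ O) :
    ContDiff ℝ n (fun x => g x * φ x) := by
  rw [contDiff_iff_contDiffAt]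
  intro x
  by_cases hx : x ∈ tsupport φ
  · exact (hg.contDiffAt (hO.mem_nhds (hs hx))).mul hφ.contDiffAt
  · rw [notMem_tsupport_iff_eventuallyEq] at hx
    refine (contDiffAt_const (c := (0 : ℂ))).congr_of_eventuallyEq ?_
    filter_upwards [hx] with y hy
    simp [hy]

lemma continuous_mul_of_tsupport {g φ : E → ℂ} {O : Set E} (hO : IsOpen O)
    (hg : ContinuousOn g O) (hφ : Continuous φ) (hs : tsupport φ ⊆ O) :
    Continuous (fun x => g x * φ x) := by
  rw [continuous_iff_continuousAt]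
  intro x
  by_cases hx : x ∈ tsupport φ
  · exact (hg.continuousAt (hO.mem_nhds (hs hx))).mul hφ.continuousAt
  · rw [notMem_tsupport_iff_eventuallyEq] at hx
    refine (continuousAt_const (y := (0 : ℂ))).congr ?_
    filter_upwards [hx] with y hy
    simp [hy]

lemma tsupport_mul_subset_right' (g φ : E → ℂ) : tsupport (fun x => g x * φ x) ⊆ tsupport φ :=
  closure_mono fun x hx => by
    simp only [mem_support] at hx ⊢
    exact right_ne_zero_of_mul hx

/-- directional derivative -/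
noncomputable def pd (v : E) (g : E → ℂ) (x : E) : ℂ := fderiv ℝ g x v

lemma pd_contDiff {n m : WithTop ℕ∞} (v : E) {g : E → ℂ} (hg : ContDiff ℝ n g) (hn : m + 1 ≤ n) :
    ContDiff ℝ m (pd v g) :=
  (hg.fderiv_right hn).clm_apply contDiff_const

lemma pd_contDiffOn {n m : WithTop ℕ∞} (v : E) {g : E → ℂ} {O : Set E} (hO : IsOpen O)
    (hg : ContDiffOn ℝ n g O) (hn : m + 1 ≤ n) : ContDiffOn ℝ m (pd v g) O :=
  (hg.fderiv_of_isOpen hO hn).clm_apply contDiffOn_const

lemma pd_tsupport (v : E) (g : E → ℂ) : tsupport (pd v g) ⊆ tsupport g := by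
  refine closure_minimal (fun x hx => ?_) (isClosed_tsupport g)
  by_contra hcon
  apply hx
  have h : fderiv ℝ g x = 0 := by
    rw [notMem_tsupport_iff_eventuallyEq] at hcon
    rw [hcon.fderiv_eq]
    simp
  simp [pd, h]

lemma pd_mul {v : E} {f g : E → ℂ} {x : E} (hf : DifferentiableAt ℝ f x)
    (hg : DifferentiableAt ℝ g x) :
    pd v (fun y => f y * g y) x = pd v f x * g x + f x * pd v g x := by
  unfold pd
  rw [fderiv_fun_mul hf hg]
  simp only [ContinuousLinearMap.add_apply, ContinuousLinearMap.smul_apply, smul_eq_mul]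
  ring

lemma pd_add {v : E} {f g : E → ℂ} {x : E} (hf : DifferentiableAt ℝ f x)
    (hg : DifferentiableAt ℝ g x) : pd v (fun y => f y + g y) x = pd v f x + pd v g x := by
  unfold pd
  rw [fderiv_fun_add hf hg]
  rfl

lemma pd_sum {ι : Type*} {v : E} {s : Finset ι} {f : ι → E → ℂ} {x : E}
    (hf : ∀ i ∈ s, DifferentiableAt ℝ (f i) x) :
    pd v (fun y => ∑ i ∈ s, f i y) x = ∑ i ∈ s, pd v (f i) x := by
  unfold pd
  rw [fderiv_fun_sum hf]
  simp

lemma pd_const_mul {v : E} {f : E → ℂ} {x : E} (c : ℂ) (hf : DifferentiableAt ℝ f x) :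
    pd v (fun y => c * f y) x = c * pd v f x := by
  unfold pd
  rw [fderiv_const_mul hf]
  rfl

lemma pd_congr {v : E} {f g : E → ℂ} {x : E} (h : f =ᶠ[𝓝 x] g) : pd v f x = pd v g x := by
  unfold pd
  rw [h.fderiv_eq]

/-- smooth test functions supported in `U` -/
structure IsTest (U : Set E) (φ : E → ℂ) : Prop where
  smooth : ContDiff ℝ ∞ φ
  comp : HasCompactSupport φ
  supp : tsupport φ ⊆ U

/-- `C¹` test functions supported in `U` -/
structure IsTestOne (U : Set E) (φ : E → ℂ) : Prop where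
  smooth : ContDiff ℝ 1 φ
  comp : HasCompactSupport φ
  supp : tsupport φ ⊆ U

lemma IsTest.one {U : Set E} {φ : E → ℂ} (h : IsTest U φ) : IsTestOne U φ :=
  ⟨h.smooth.of_le (by exact_mod_cast le_top), h.comp, h.supp⟩

lemma IsTest.mono {U V : Set E} {φ : E → ℂ} (h : IsTest U φ) (hUV : U ⊆ V) : IsTest V φ :=
  ⟨h.smooth, h.comp, h.supp.trans hUV⟩

lemma IsTestOne.mono {U V : Set E} {φ : E → ℂ} (h : IsTestOne U φ) (hUV : U ⊆ V) :
    IsTestOne V φ :=
  ⟨h.smooth, h.comp, h.supp.trans hUV⟩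

lemma IsTest.mul_left {U O : Set E} {φ g : E → ℂ} (h : IsTest U φ) (hO : IsOpen O) (hUO : U ⊆ O)
    (hg : ContDiffOn ℝ ∞ g O) : IsTest U (fun x => g x * φ x) :=
  ⟨contDiff_mul_of_tsupport hO hg h.smooth (h.supp.trans hUO), h.comp.mul_left,
    (tsupport_mul_subset_right' g φ).trans h.supp⟩

lemma IsTestOne.mul_left {U O : Set E} {φ g : E → ℂ} (h : IsTestOne U φ) (hO : IsOpen O)
    (hUO : U ⊆ O) (hg : ContDiffOn ℝ 1 g O) : IsTestOne U (fun x => g x * φ x) :=
  ⟨contDiff_mul_of_tsupport hO hg h.smooth (h.supp.trans hUO), h.comp.mul_left,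
    (tsupport_mul_subset_right' g φ).trans h.supp⟩

lemma IsTest.pd {U : Set E} {φ : E → ℂ} (h : IsTest U φ) (v : E) : IsTest U (pd v φ) :=
  ⟨pd_contDiff v h.smooth (by simp), h.comp.of_isClosed_subset (isClosed_tsupport _)
    (pd_tsupport v φ), (pd_tsupport v φ).trans h.supp⟩

lemma IsTest.add {U : Set E} {φ ψ : E → ℂ} (h : IsTest U φ) (h' : IsTest U ψ) :
    IsTest U (fun x => φ x + ψ x) :=
  ⟨h.smooth.add h'.smooth, h.comp.add h'.comp,
    (tsupport_add φ ψ).trans (union_subset h.supp h'.supp)⟩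

variable [MeasurableSpace E] [BorelSpace E]

lemma integrable_mul_test {μ : Measure E} [IsFiniteMeasureOnCompacts μ] {O : Set E}
    (hO : IsOpen O) {g φ : E → ℂ} (hg : ContinuousOn g O) (hφ : Continuous φ)
    (hc : HasCompactSupport φ) (hs : tsupport φ ⊆ O) : Integrable (fun x => g x * φ x) μ :=
  (continuous_mul_of_tsupport hO hg hφ hs).integrable_of_hasCompactSupport hc.mul_left

variable [FiniteDimensional ℝ E]

/-- integration by parts -/
lemma int_pd {μ : Measure E} [μ.IsAddHaarMeasure] {O : Set E} (hO : IsOpen O) {f g : E → ℂ}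
    (hf : ContDiffOn ℝ 1 f O) (hg : IsTestOne O g) (v : E) :
    ∫ x, f x * pd v g x ∂μ = - ∫ x, pd v f x * g x ∂μ := by
  have hpc : HasCompactSupport (pd v g) :=
    hg.comp.of_isClosed_subset (isClosed_tsupport _) (pd_tsupport v g)
  have hpg : Continuous (pd v g) := (pd_contDiff (m := 0) v hg.smooth (by simp)).continuous
  have hpf : ContinuousOn (pd v f) O := (pd_contDiffOn (m := 0) v hO hf (by simp)).continuousOn
  refine integral_bilinear_hasLineDerivAt_right_eq_neg_left_of_integrable (v := v)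
    (B := ContinuousLinearMap.mul ℝ ℂ) (f := f) (f' := pd v f) (g := g) (g' := pd v g)
    ?_ ?_ ?_ ?_ ?_
  · exact integrable_mul_test hO hpf hg.smooth.continuous hg.comp hg.supp
  · exact integrable_mul_test hO hf.continuousOn hpg hpc ((pd_tsupport v g).trans hg.supp)
  · exact integrable_mul_test hO hf.continuousOn hg.smooth.continuous hg.comp hg.supp
  · intro x hx
    have hd : DifferentiableAt ℝ f x :=
      (hf.differentiableOn (by simp)).differentiableAt (hO.mem_nhds (hg.supp hx))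
    exact hd.hasFDerivAt.hasLineDerivAt v
  · intro x _
    exact ((hg.smooth.differentiable (by simp)) x).hasFDerivAt.hasLineDerivAt v

lemma int_pd_test {μ : Measure E} [μ.IsAddHaarMeasure] {g : E → ℂ} (hg : IsTestOne univ g)
    (v : E) : ∫ x, pd v g x ∂μ = 0 := by
  have h := int_pd (μ := μ) isOpen_univ (f := fun _ => (1:ℂ)) contDiffOn_const hg v
  simpa [pd] using h

/-- The functional `φ ↦ ∫ (H φ - ∑ G_i ∂_{e_i} φ)`. -/
noncomputable def TF (μ : Measure E) {ι : Type*} [Fintype ι] (e : ι → E) (G : ι → E → ℂ)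
    (H : E → ℂ) (φ : E → ℂ) : ℂ :=
  ∫ x, (H x * φ x - ∑ i, G i x * pd (e i) φ x) ∂μ

end Pool.Agent.Work.MP_375441_an
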