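import Pool.Agent.Work.MP_375441_an.Comm

/-!
# Removal of the zero set for a first order equation in two variables
-/

open MeasureTheory Set Filter Topology Function Metric Module
open scoped ContDiff

namespace Pool.Agent.Work.MP_375441_an

set_option linter.unusedSectionVars false

variable {E : Type*} [NormedAddCommGroup E] [NormedSpace ℝ E] [MeasurableSpace E] [BorelSpace E]
  [FiniteDimensional ℝ E] {μ : Measure E} [μ.IsAddHaarMeasure]

lemma claim_bound {v w : E} {B U : Set E} (hB : IsOpen B) (hU : IsOpen U)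
    {W lam h : E → ℂ} (hW : Continuous W) (hWc : HasCompactSupport W) (hh : Continuous h)
    (hhc : HasCompactSupport h) (hlam : ContDiff ℝ 1 lam) (hlc : HasCompactSupport lam) {s c : ℝ}
    (hs : |s| ≤ 1) (hc : 0 < c) (hlamB : ∀ x ∈ B, s * (lam x).im ≤ -c)
    (hWU : ∀ x ∈ B, x ∉ U → W x = 0) (heq : ∀ ψ, IsTest U ψ → WeakEq μ v w W lam h ψ)
    {ψ : E → ℂ} (hψ : IsTest B ψ) :
    ∃ A D₁ D₂ F : ℝ, 0 ≤ F ∧ ∀ ε : ℝ, 0 < ε → ε ≤ 1 → ∀ η : ℝ, 0 < η →
      ‖(- ∫ x, W x * pd v ψ x ∂μ + ∫ x, W x * pd w (fun y => lam y * ψ y) x ∂μ)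
        - ∫ x, {x | W x ≠ 0}.indicator h x * ψ x ∂μ‖ ≤
      A * ε + (D₁ + D₂ / η) * μ.real {x ∈ tsupport ψ | W x ≠ 0 ∧ ‖W x‖ ≤ 3 * ε} + F * η := by
  obtain ⟨φ, hφs, hφc, hφB, hφ01, V, hV, hKV, hφ1⟩ := exists_cutoff hψ.comp hB hψ.supp
  obtain ⟨MW, hMW⟩ := hW.bounded_above_of_compact_support hWc
  obtain ⟨Mh, hMh⟩ := hh.bounded_above_of_compact_support hhc
  obtain ⟨Mψ, hMψ⟩ := hψ.smooth.continuous.bounded_above_of_compact_support hψ.comp
  obtain ⟨Λ, hΛ⟩ := hlam.continuous.bounded_above_of_compact_support hlc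
  have hMW0 : 0 ≤ MW := (norm_nonneg _).trans (hMW 0)
  have hMh0 : 0 ≤ Mh := (norm_nonneg _).trans (hMh 0)
  have hMψ0 : 0 ≤ Mψ := (norm_nonneg _).trans (hMψ 0)
  have hΛ0 : 0 ≤ Λ := (norm_nonneg _).trans (hΛ 0)
  obtain ⟨C₁, hC₁0, hC₁⟩ := commutator μ v w hW hh hlam hlc
  obtain ⟨Md, hMd0, hMd⟩ := kap_deriv_bdd
  obtain ⟨C, hC⟩ := energy_bound (μ := μ) hφs hφc v w (c := c) (Λ := Λ) (Mv := MW + 1)
    (Ml := C₁ + Mh + 1) (Ck := 1 + 4 * Md) hc hΛ0 (by positivity) (by positivity) (by positivity)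
  -- make the energy constant nonnegative
  set C' := max C 0 with hC'
  have hC'0 : 0 ≤ C' := le_max_right _ _
  set A1 : ℝ := ∫ x, ‖pd v ψ x‖ ∂μ + ∫ x, ‖pd w (fun y => lam y * ψ y) x‖ ∂μ with hA1
  set Iψ : ℝ := ∫ x, ‖ψ x‖ ∂μ with hIψ
  refine ⟨3 * A1 + (C₁ + 1) * Iψ, Mψ * Mh, Mψ * (8 * Md) * ((1 + Λ) / 2),
    Mψ * (8 * Md) * ((1 + Λ) * C' / 2), by positivity, fun ε hε hε1 η hη => ?_⟩
  -- choice of δ
  obtain ⟨δa, hδa, ha⟩ := mol_unif μ hW hWc (ε := ε / 4) (by positivity)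
  obtain ⟨δb, hδb, hb⟩ := mol_unif μ hh hhc hε
  have huc : UniformContinuous W := hW.uniformContinuous_of_tendsto_cocompact hWc.is_zero_at_infty
  obtain ⟨δc, hδc, hcc⟩ := Metric.uniformContinuous_iff.mp huc ε hε
  have hKe : IsCompact {x ∈ tsupport φ | ε / 4 ≤ ‖W x‖} :=
    hφc.inter_right (isClosed_le continuous_const hW.norm)
  have hKeU : {x ∈ tsupport φ | ε / 4 ≤ ‖W x‖} ⊆ U := by
    rintro x ⟨hx1, hx2⟩
    by_contra hcon
    have := hWU x (hφB hx1) hcon
    rw [this, norm_zero] at hx2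
    linarith
  obtain ⟨δd, hδd, hd⟩ := hKe.exists_cthickening_subset_open hU hKeU
  obtain ⟨δ, hδ, hle⟩ : ∃ δ > 0, δ ≤ δa ∧ δ ≤ δb ∧ δ ≤ δc / 2 ∧ δ ≤ δd := by
    refine ⟨min (min δa δb) (min (δc / 2) δd), by positivity, ?_, ?_, ?_, ?_⟩
    · exact (min_le_left _ _).trans (min_le_left _ _)
    · exact (min_le_left _ _).trans (min_le_right _ _)
    · exact (min_le_right _ _).trans (min_le_left _ _)
    · exact (min_le_right _ _).trans (min_le_right _ _)
  obtain ⟨hδ1, hδ2, hδ3, hδ4⟩ := hle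
  set u := mol μ δ W with hu
  set hd' := mol μ δ h with hhd'
  have hus : ContDiff ℝ ∞ u := mol_contDiff μ hδ hW
  have huW : ∀ x, ‖u x - W x‖ ≤ ε / 4 := fun x => by
    rw [← dist_eq_norm]; exact ha δ hδ hδ1 x
  have hhh : ∀ x, ‖hd' x - h x‖ ≤ ε := fun x => by
    rw [← dist_eq_norm]; exact hb δ hδ hδ2 x
  have huW1 : ∀ x, ‖u x‖ ≤ ‖W x‖ + ε / 4 := fun x => by
    have := norm_sub_norm_le (u x) (W x)
    linarith [huW x]
  have huW2 : ∀ x, ‖W x‖ ≤ ‖u x‖ + ε / 4 := fun x => by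
    have := norm_sub_norm_le (W x) (u x)
    rw [norm_sub_rev] at this
    linarith [huW x]
  -- the commutator estimate
  have hcomm : ∀ x, φ x ≠ 0 → ε / 2 ≤ ‖u x‖ →
      ‖pd v u x - lam x * pd w u x - hd' x‖ ≤ C₁ * ε := by
    intro x hx hux
    have hxK : x ∈ {x ∈ tsupport φ | ε / 4 ≤ ‖W x‖} :=
      ⟨subset_tsupport _ hx, by linarith [huW1 x]⟩
    refine hC₁ U heq δ hδ x ?_ ε fun y hy => ?_
    · exact ((closedBall_subset_closedBall hδ4).trans (closedBall_subset_cthickening hxK δd)).trans hd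
    · rw [← dist_eq_norm]
      exact (hcc ((mem_closedBall.mp hy).trans_lt (by linarith))).le
  -- the energy estimate
  obtain ⟨hEw, hEv⟩ := hC u (kape (ε / 2)) lam s hus (kape_contDiff _) (kape_mem _)
    (kape_deriv_nonneg _) (fun t ht => by
      have := kape_mul_deriv hMd (ε := ε / 2) (by positivity) ht
      linarith [(kape_mem (ε / 2) t).2]) hs
    (fun x _ => by linarith [huW1 x, hMW x]) (fun x hx hk => by
      have h1 := kape_ne (ε := ε / 2) (by positivity) (norm_nonneg (u x)) hk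
      refine ⟨hlamB x (hφB (subset_tsupport _ hx)), hΛ x, ?_⟩
      have h2 := hcomm x hx h1
      have h3 : pd v u x - lam x * pd w u x = (pd v u x - lam x * pd w u x - hd' x) +
          (hd' x - h x) + h x := by ring
      rw [h3]
      refine (norm_add_le _ _).trans ?_
      refine (add_le_add (norm_add_le _ _) le_rfl).trans ?_
      have h4 : C₁ * ε ≤ C₁ * 1 := mul_le_mul_of_nonneg_left hε1 hC₁0
      linarith [hhh x, hMh x])
  have hEw' := hEw.trans (le_max_left C 0)
  have hEv' := hEv.trans (le_max_left C 0)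
  rw [← hC'] at hEw' hEv'
  -- the identity
  set g := trunc ε u with hg
  have hgs : ContDiff ℝ 1 g := trunc_contDiff ε (by simp) (hus.of_le (by simp))
  have hψ1 : IsTestOne univ ψ := hψ.one.mono (subset_univ _)
  have hlψ : IsTestOne univ (fun y => lam y * ψ y) :=
    ⟨hlam.mul hψ1.smooth, hψ.comp.mul_left, subset_univ _⟩
  have hid : - ∫ x, g x * pd v ψ x ∂μ + ∫ x, g x * pd w (fun y => lam y * ψ y) x ∂μ =
      ∫ x, (pd v g x - lam x * pd w g x) * ψ x ∂μ := by
    have h1 := int_pd (μ := μ) isOpen_univ hgs.contDiffOn hψ1 v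
    have h2 := int_pd (μ := μ) isOpen_univ hgs.contDiffOn hlψ w
    rw [h1, h2, neg_neg, ← sub_eq_add_neg, ← integral_sub]
    · exact integral_congr_ae (Eventually.of_forall fun x => by ring)
    · exact ((pd_contDiff (m := 0) v hgs (by simp)).continuous.mul
        hψ.smooth.continuous).integrable_of_hasCompactSupport hψ.comp.mul_left
    · exact ((pd_contDiff (m := 0) w hgs (by simp)).continuous.mul
        hlψ.smooth.continuous).integrable_of_hasCompactSupport hlψ.comp.mul_left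
  -- the pointwise estimate
  set A : Set E := {x ∈ tsupport ψ | W x ≠ 0 ∧ ‖W x‖ ≤ 3 * ε} with hA
  set Pv : E → ℝ := fun x => φ x ^ 2 * (kape (ε / 2) (‖u x‖ ^ 2) * ‖pd v u x‖ ^ 2) with hPv
  set Pw : E → ℝ := fun x => φ x ^ 2 * (kape (ε / 2) (‖u x‖ ^ 2) * ‖pd w u x‖ ^ 2) with hPw
  have hPv0 : ∀ x, 0 ≤ Pv x := fun x =>
    mul_nonneg (sq_nonneg _) (mul_nonneg (kape_mem _ _).1 (sq_nonneg _))
  have hPw0 : ∀ x, 0 ≤ Pw x := fun x =>
    mul_nonneg (sq_nonneg _) (mul_nonneg (kape_mem _ _).1 (sq_nonneg _))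
  have hind0 : ∀ x, 0 ≤ A.indicator (fun _ => (1:ℝ)) x := fun x =>
    indicator_nonneg (fun _ _ => zero_le_one) x
  have hpt : ∀ x, ‖(pd v g x - lam x * pd w g x) * ψ x - {x | W x ≠ 0}.indicator h x * ψ x‖ ≤
      (C₁ + 1) * ε * ‖ψ x‖ + (Mψ * Mh + Mψ * (8 * Md) * ((1 + Λ) / 2) / η) *
        A.indicator (fun _ => (1:ℝ)) x + Mψ * (8 * Md) * (η / 2) * (Pv x + Λ * Pw x) := by
    intro x
    have hRHS : 0 ≤ (C₁ + 1) * ε * ‖ψ x‖ + (Mψ * Mh + Mψ * (8 * Md) * ((1 + Λ) / 2) / η) *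
        A.indicator (fun _ => (1:ℝ)) x + Mψ * (8 * Md) * (η / 2) * (Pv x + Λ * Pw x) := by
      have h1 := hPv0 x
      have h2 := hPw0 x
      have h3 := hind0 x
      positivity
    by_cases hx : x ∈ tsupport ψ
    swap
    · rw [image_eq_zero_of_notMem_tsupport hx] at hRHS ⊢
      rw [mul_zero, mul_zero, sub_zero, norm_zero]
      rw [norm_zero] at hRHS
      exact hRHS
    have hφx : φ x = 1 := hφ1 x (hKV hx)
    have hφx0 : φ x ≠ 0 := by rw [hφx]; exact one_ne_zero
    have hpg : ∀ y, pd y g x = _ := fun y => trunc_pd ε (hus.of_le (by simp)) y x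
    rw [hpg v, hpg w]
    set κ : ℝ := kape ε (‖u x‖ ^ 2) with hκ
    set κ' : ℝ := deriv (kape ε) (‖u x‖ ^ 2) with hκ'
    set p := pd v u x with hp
    set q := pd w u x with hq
    have hκ0 : 0 ≤ κ := (kape_mem _ _).1
    have hκ1 : κ ≤ 1 := (kape_mem _ _).2
    have hnκ : ‖(κ : ℂ)‖ = κ := by rw [Complex.norm_real, Real.norm_of_nonneg hκ0]
    set Er : ℂ := ((κ' * (2 * (starRingEnd ℂ (u x) * p).re) : ℝ) : ℂ) * u x -
      lam x * (((κ' * (2 * (starRingEnd ℂ (u x) * q).re) : ℝ) : ℂ) * u x) with hEr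
    have hdec : ((κ : ℂ) * p + ((κ' * (2 * (starRingEnd ℂ (u x) * p).re) : ℝ) : ℂ) * u x -
        lam x * ((κ : ℂ) * q + ((κ' * (2 * (starRingEnd ℂ (u x) * q).re) : ℝ) : ℂ) * u x)) * ψ x -
        {x | W x ≠ 0}.indicator h x * ψ x =
        ((κ : ℂ) * (p - lam x * q - hd' x) + (κ : ℂ) * (hd' x - h x) +
          ((κ : ℂ) * h x - {x | W x ≠ 0}.indicator h x) + Er) * ψ x := by
      rw [hEr]; ring
    rw [hdec, norm_mul]
    have b1 : ‖(κ : ℂ) * (p - lam x * q - hd' x)‖ ≤ C₁ * ε := by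
      rw [norm_mul, hnκ]
      by_cases hk : κ = 0
      · rw [hk, zero_mul]; positivity
      · have h1 : ε ≤ ‖u x‖ := kape_ne hε (norm_nonneg _) (Or.inl hk)
        have h2 := hcomm x hφx0 (by linarith)
        calc κ * ‖p - lam x * q - hd' x‖ ≤ 1 * (C₁ * ε) :=
              mul_le_mul hκ1 h2 (norm_nonneg _) zero_le_one
          _ = _ := one_mul _
    have b2 : ‖(κ : ℂ) * (hd' x - h x)‖ ≤ ε := by
      rw [norm_mul, hnκ]
      calc κ * ‖hd' x - h x‖ ≤ 1 * ε := mul_le_mul hκ1 (hhh x) (norm_nonneg _) zero_le_one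
        _ = _ := one_mul _
    have b3 : ‖(κ : ℂ) * h x - {x | W x ≠ 0}.indicator h x‖ ≤
        Mh * A.indicator (fun _ => (1:ℝ)) x := by
      by_cases hW0 : W x = 0
      · have h1 : x ∉ {x | W x ≠ 0} := fun h => h hW0
        have h2 : κ = 0 := by
          refine kape_zero hε (norm_nonneg _) ?_
          have := huW1 x
          rw [hW0, norm_zero] at this
          linarith
        rw [indicator_of_notMem h1, h2]
        simp only [Complex.ofReal_zero, zero_mul, sub_zero, norm_zero]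
        exact mul_nonneg hMh0 (hind0 x)
      · have h1 : x ∈ {x | W x ≠ 0} := hW0
        rw [indicator_of_mem h1]
        by_cases hW3 : ‖W x‖ ≤ 3 * ε
        · have h2 : x ∈ A := ⟨hx, hW0, hW3⟩
          rw [indicator_of_mem h2, mul_one]
          have h3 : (κ : ℂ) * h x - h x = (((κ - 1 : ℝ)) : ℂ) * h x := by push_cast; ring
          rw [h3, norm_mul, Complex.norm_real, Real.norm_eq_abs]
          have h4 : |κ - 1| ≤ 1 := by rw [abs_le]; constructor <;> linarith
          calc |κ - 1| * ‖h x‖ ≤ 1 * Mh := mul_le_mul h4 (hMh x) (norm_nonneg _) zero_le_one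
            _ = Mh := one_mul _
        · push Not at hW3
          have h2 : κ = 1 := kape_one hε (by linarith [huW2 x])
          rw [h2]
          simp only [Complex.ofReal_one, one_mul, sub_self, norm_zero]
          exact mul_nonneg hMh0 (hind0 x)
    have b4 : ‖Er‖ ≤ 8 * Md * ((1 + Λ) / 2 / η * A.indicator (fun _ => (1:ℝ)) x +
        η / 2 * (Pv x + Λ * Pw x)) := by
      by_cases hk : κ' = 0
      · have h1 : Er = 0 := by rw [hEr, hk]; simp
        rw [h1, norm_zero]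
        have h1 := hPv0 x
        have h2 := hPw0 x
        have h3 := hind0 x
        positivity
      · obtain ⟨h1, h2⟩ := kape_deriv_supp hε (norm_nonneg (u x)) hk
        have hxA : x ∈ A := by
          refine ⟨hx, fun h0 => ?_, by linarith [huW2 x]⟩
          have := huW1 x
          rw [h0, norm_zero] at this
          linarith
        have hk1 : kape (ε / 2) (‖u x‖ ^ 2) = 1 :=
          kape_one (ε := ε / 2) (by positivity) (by linarith)
        have hPvx : Pv x = ‖p‖ ^ 2 := by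
          simp only [hPv, hφx, hk1]; ring
        have hPwx : Pw x = ‖q‖ ^ 2 := by
          simp only [hPw, hφx, hk1]; ring
        rw [indicator_of_mem hxA, hPvx, hPwx, mul_one]
        have hκ'0 : 0 ≤ κ' := kape_deriv_nonneg _ _
        have h3 : ‖u x‖ ^ 2 * κ' ≤ 4 * Md := kape_mul_deriv hMd hε (sq_nonneg _)
        have h4 : ∀ z : ℂ, |(starRingEnd ℂ (u x) * z).re| ≤ ‖u x‖ * ‖z‖ := by
          intro z
          refine (Complex.abs_re_le_norm _).trans ?_
          rw [norm_mul, RCLike.norm_conj]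
        have h5 : ∀ z : ℂ, ‖((κ' * (2 * (starRingEnd ℂ (u x) * z).re) : ℝ) : ℂ) * u x‖ ≤
            8 * Md * ‖z‖ := by
          intro z
          rw [norm_mul, Complex.norm_real, Real.norm_eq_abs, abs_mul, abs_mul,
            abs_of_nonneg hκ'0, abs_of_pos (by norm_num : (0:ℝ) < 2)]
          calc κ' * (2 * |(starRingEnd ℂ (u x) * z).re|) * ‖u x‖
              ≤ κ' * (2 * (‖u x‖ * ‖z‖)) * ‖u x‖ := by
                have := h4 z
                gcongr
            _ = 2 * (‖u x‖ ^ 2 * κ') * ‖z‖ := by ring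
            _ ≤ 2 * (4 * Md) * ‖z‖ := by gcongr
            _ = 8 * Md * ‖z‖ := by ring
        have h6 : ‖Er‖ ≤ 8 * Md * (‖p‖ + Λ * ‖q‖) := by
          rw [hEr]
          refine (norm_sub_le _ _).trans ?_
          rw [norm_mul (lam x)]
          have e1 := h5 p
          have e2 := h5 q
          have e3 : ‖lam x‖ * ‖((κ' * (2 * (starRingEnd ℂ (u x) * q).re) : ℝ) : ℂ) * u x‖ ≤
              Λ * (8 * Md * ‖q‖) := mul_le_mul (hΛ x) e2 (norm_nonneg _) hΛ0
          linarith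
        have h7 : ∀ r : ℝ, r ≤ 1 / 2 / η + η / 2 * r ^ 2 := by
          intro r
          have : 0 ≤ (η * r - 1) ^ 2 / (2 * η) := by positivity
          have h8 : (η * r - 1) ^ 2 / (2 * η) = 1 / 2 / η + η / 2 * r ^ 2 - r := by
            field_simp; ring
          linarith
        refine h6.trans (mul_le_mul_of_nonneg_left ?_ (by positivity))
        have e1 := h7 ‖p‖
        have e2 := mul_le_mul_of_nonneg_left (h7 ‖q‖) hΛ0
        calc ‖p‖ + Λ * ‖q‖ ≤ (1 / 2 / η + η / 2 * ‖p‖ ^ 2) + Λ * (1 / 2 / η + η / 2 * ‖q‖ ^ 2) :=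
              add_le_add e1 e2
          _ = _ := by ring
    have hsum : ‖(κ : ℂ) * (p - lam x * q - hd' x) + (κ : ℂ) * (hd' x - h x) +
          ((κ : ℂ) * h x - {x | W x ≠ 0}.indicator h x) + Er‖ ≤
        (C₁ * ε + ε) + (Mh * A.indicator (fun _ => (1:ℝ)) x +
          8 * Md * ((1 + Λ) / 2 / η * A.indicator (fun _ => (1:ℝ)) x +
        η / 2 * (Pv x + Λ * Pw x))) := by
      refine (norm_add_le _ _).trans ?_
      refine (add_le_add ((norm_add_le _ _).trans (add_le_add (norm_add_le _ _) le_rfl)) le_rfl).trans ?_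
      linarith
    have hnn : 0 ≤ Mh * A.indicator (fun _ => (1:ℝ)) x +
          8 * Md * ((1 + Λ) / 2 / η * A.indicator (fun _ => (1:ℝ)) x +
        η / 2 * (Pv x + Λ * Pw x)) := by
      have h1 := hPv0 x
      have h2 := hPw0 x
      have h3 := hind0 x
      positivity
    refine (mul_le_mul_of_nonneg_right hsum (norm_nonneg _)).trans ?_
    rw [add_mul]
    have hψx := mul_le_mul_of_nonneg_left (hMψ x) hnn
    calc _ ≤ (C₁ * ε + ε) * ‖ψ x‖ + (Mh * A.indicator (fun _ => (1:ℝ)) x +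
          8 * Md * ((1 + Λ) / 2 / η * A.indicator (fun _ => (1:ℝ)) x +
        η / 2 * (Pv x + Λ * Pw x))) * Mψ := add_le_add le_rfl hψx
      _ = _ := by ring
  -- integrate
  have hpcv : Continuous (pd v u) := (pd_contDiff (m := 0) v hus (by simp)).continuous
  have hpcw : Continuous (pd w u) := (pd_contDiff (m := 0) w hus (by simp)).continuous
  have hκc : Continuous fun x => kape (ε / 2) (‖u x‖ ^ 2) :=
    (kape_contDiff (ε / 2)).continuous.comp (hus.continuous.norm.pow 2)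
  have hPvi : Integrable Pv μ :=
    ((hφs.continuous.pow 2).mul (hκc.mul (hpcv.norm.pow 2))).integrable_of_hasCompactSupport
      (HasCompactSupport.intro hφc fun x hx => by
        change φ x ^ 2 * _ = 0
        rw [image_eq_zero_of_notMem_tsupport hx]; simp)
  have hPwi : Integrable Pw μ :=
    ((hφs.continuous.pow 2).mul (hκc.mul (hpcw.norm.pow 2))).integrable_of_hasCompactSupport
      (HasCompactSupport.intro hφc fun x hx => by
        change φ x ^ 2 * _ = 0
        rw [image_eq_zero_of_notMem_tsupport hx]; simp)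
  have hAm : MeasurableSet A := by
    refine (isClosed_tsupport ψ).measurableSet.inter (MeasurableSet.inter ?_ ?_)
    · exact (isOpen_ne_fun hW continuous_const).measurableSet
    · exact (isClosed_le hW.norm continuous_const).measurableSet
  have hAfin : μ A < ⊤ :=
    (measure_mono (fun x hx => hx.1)).trans_lt hψ.comp.measure_lt_top
  have hAi : Integrable (A.indicator (fun _ => (1:ℝ))) μ :=
    (integrableOn_const hAfin.ne).integrable_indicator hAm
  have hψi : Integrable (fun x => ‖ψ x‖) μ :=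
    (hψ.smooth.continuous.integrable_of_hasCompactSupport hψ.comp).norm
  have hindi : Integrable (fun x => {x | W x ≠ 0}.indicator h x * ψ x) μ := by
    have h1 : (fun x => {x | W x ≠ 0}.indicator h x * ψ x) =
        {x | W x ≠ 0}.indicator (fun x => h x * ψ x) := by
      funext x
      by_cases hx : x ∈ {x | W x ≠ 0}
      · rw [indicator_of_mem hx, indicator_of_mem hx]
      · rw [indicator_of_notMem hx, indicator_of_notMem hx, zero_mul]
    rw [h1]
    exact ((hh.mul hψ.smooth.continuous).integrable_of_hasCompactSupport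
      hψ.comp.mul_left).indicator (isOpen_ne_fun hW continuous_const).measurableSet
  have hgi : Integrable (fun x => (pd v g x - lam x * pd w g x) * ψ x) μ := by
    refine Continuous.integrable_of_hasCompactSupport ?_ hψ.comp.mul_left
    exact (((pd_contDiff (m := 0) v hgs (by simp)).continuous).sub
      (hlam.continuous.mul (pd_contDiff (m := 0) w hgs (by simp)).continuous)).mul
      hψ.smooth.continuous
  have hI1 : ‖∫ x, ((pd v g x - lam x * pd w g x) * ψ x -
      {x | W x ≠ 0}.indicator h x * ψ x) ∂μ‖ ≤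
      (C₁ + 1) * ε * Iψ + (Mψ * Mh + Mψ * (8 * Md) * ((1 + Λ) / 2) / η) * μ.real A +
        Mψ * (8 * Md) * (η / 2) * (C' + Λ * C') := by
    have i1 : Integrable (fun x => (C₁ + 1) * ε * ‖ψ x‖) μ := hψi.const_mul _
    have i2 : Integrable (fun x => (Mψ * Mh + Mψ * (8 * Md) * ((1 + Λ) / 2) / η) *
        A.indicator (fun _ => (1:ℝ)) x) μ := hAi.const_mul _
    have i3 : Integrable (fun x => Λ * Pw x) μ := hPwi.const_mul _
    have i4 : Integrable (fun x => Mψ * (8 * Md) * (η / 2) * (Pv x + Λ * Pw x)) μ :=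
      (hPvi.add i3).const_mul _
    have i5 : Integrable (fun x => (C₁ + 1) * ε * ‖ψ x‖ +
        (Mψ * Mh + Mψ * (8 * Md) * ((1 + Λ) / 2) / η) * A.indicator (fun _ => (1:ℝ)) x) μ :=
      i1.add i2
    have hRi : Integrable (fun x => (C₁ + 1) * ε * ‖ψ x‖ +
        (Mψ * Mh + Mψ * (8 * Md) * ((1 + Λ) / 2) / η) * A.indicator (fun _ => (1:ℝ)) x +
        Mψ * (8 * Md) * (η / 2) * (Pv x + Λ * Pw x)) μ := i5.add i4
    refine (norm_integral_le_of_norm_le hRi (Eventually.of_forall hpt)).trans ?_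
    rw [integral_add i5 i4, integral_add i1 i2, integral_const_mul, integral_const_mul,
      integral_const_mul, integral_add hPvi i3, integral_const_mul, integral_indicator hAm,
      setIntegral_const, smul_eq_mul, mul_one]
    refine add_le_add le_rfl (mul_le_mul_of_nonneg_left ?_ (by positivity))
    exact add_le_add hEv' (mul_le_mul_of_nonneg_left hEw' hΛ0)
  have hWg : ∀ x, ‖W x - g x‖ ≤ 3 * ε := by
    intro x
    have h1 : W x - g x = -(u x - W x) - (g x - u x) := by ring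
    rw [h1]
    refine (norm_sub_le _ _).trans ?_
    rw [norm_neg]
    have h2 := trunc_dist hε u x
    rw [← hg] at h2
    linarith [huW x]
  have hcmp : ∀ k : E → ℂ, Continuous k → HasCompactSupport k →
      ‖∫ x, W x * k x ∂μ - ∫ x, g x * k x ∂μ‖ ≤ 3 * ε * ∫ x, ‖k x‖ ∂μ := by
    intro k hk hkc
    have j1 : Integrable (fun x => W x * k x) μ :=
      (hW.mul hk).integrable_of_hasCompactSupport hkc.mul_left
    have j2 : Integrable (fun x => g x * k x) μ :=
      (hgs.continuous.mul hk).integrable_of_hasCompactSupport hkc.mul_left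
    rw [← integral_sub j1 j2, ← integral_const_mul]
    refine norm_integral_le_of_norm_le
      ((hk.integrable_of_hasCompactSupport hkc).norm.const_mul _) (Eventually.of_forall fun x => ?_)
    rw [← sub_mul, norm_mul]
    exact mul_le_mul_of_nonneg_right (hWg x) (norm_nonneg _)
  have hc1 := hcmp (pd v ψ) (hψ1.continuous_pd v)
    (hψ.comp.of_isClosed_subset (isClosed_tsupport _) (pd_tsupport v ψ))
  have hc2 := hcmp (pd w (fun y => lam y * ψ y)) (hlψ.continuous_pd w)
    (hlψ.comp.of_isClosed_subset (isClosed_tsupport _) (pd_tsupport w _))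
  rw [integral_sub hgi hindi, ← hid] at hI1
  have hfin : (- ∫ x, W x * pd v ψ x ∂μ + ∫ x, W x * pd w (fun y => lam y * ψ y) x ∂μ)
        - ∫ x, {x | W x ≠ 0}.indicator h x * ψ x ∂μ =
      -(∫ x, W x * pd v ψ x ∂μ - ∫ x, g x * pd v ψ x ∂μ) +
      (∫ x, W x * pd w (fun y => lam y * ψ y) x ∂μ - ∫ x, g x * pd w (fun y => lam y * ψ y) x ∂μ) +
      ((- ∫ x, g x * pd v ψ x ∂μ + ∫ x, g x * pd w (fun y => lam y * ψ y) x ∂μ) -
        ∫ x, {x | W x ≠ 0}.indicator h x * ψ x ∂μ) := by ring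
  rw [hfin]
  refine (norm_add_le _ _).trans ?_
  refine (add_le_add (norm_add_le _ _) le_rfl).trans ?_
  rw [norm_neg]
  have hA1' : 3 * ε * A1 = 3 * ε * ∫ x, ‖pd v ψ x‖ ∂μ +
      3 * ε * ∫ x, ‖pd w (fun y => lam y * ψ y) x‖ ∂μ := by rw [hA1]; ring
  calc _ ≤ 3 * ε * ∫ x, ‖pd v ψ x‖ ∂μ + 3 * ε * ∫ x, ‖pd w (fun y => lam y * ψ y) x‖ ∂μ +
        ((C₁ + 1) * ε * Iψ + (Mψ * Mh + Mψ * (8 * Md) * ((1 + Λ) / 2) / η) * μ.real A +
        Mψ * (8 * Md) * (η / 2) * (C' + Λ * C')) := add_le_add (add_le_add hc1 hc2) hI1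
    _ = _ := by rw [← hA1']; ring

/-- **Removal of the zero set for a first order complex equation in two directions.** -/
theorem claim {v w : E} {B U : Set E} (hB : IsOpen B) (hU : IsOpen U)
    {W lam h : E → ℂ} (hW : Continuous W) (hWc : HasCompactSupport W) (hh : Continuous h)
    (hhc : HasCompactSupport h) (hlam : ContDiff ℝ 1 lam) (hlc : HasCompactSupport lam) {s c : ℝ}
    (hs : |s| ≤ 1) (hc : 0 < c) (hlamB : ∀ x ∈ B, s * (lam x).im ≤ -c)
    (hWU : ∀ x ∈ B, x ∉ U → W x = 0) (heq : ∀ ψ, IsTest U ψ → WeakEq μ v w W lam h ψ)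
    {ψ : E → ℂ} (hψ : IsTest B ψ) : WeakEq μ v w W lam ({x | W x ≠ 0}.indicator h) ψ := by
  obtain ⟨A, D₁, D₂, F, hF, hmain⟩ := claim_bound hB hU hW hWc hh hhc hlam hlc hs hc hlamB hWU
    heq hψ
  set X : ℝ := ‖(- ∫ x, W x * pd v ψ x ∂μ + ∫ x, W x * pd w (fun y => lam y * ψ y) x ∂μ)
        - ∫ x, {x | W x ≠ 0}.indicator h x * ψ x ∂μ‖ with hX
  set S : ℕ → Set E := fun n => {x ∈ tsupport ψ | W x ≠ 0 ∧ ‖W x‖ ≤ 3 * (1 / ((n:ℝ) + 1))} with hS
  have hSm : ∀ n, MeasurableSet (S n) := by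
    intro n
    refine (isClosed_tsupport ψ).measurableSet.inter (MeasurableSet.inter ?_ ?_)
    · exact (isOpen_ne_fun hW continuous_const).measurableSet
    · exact (isClosed_le hW.norm continuous_const).measurableSet
  have hSanti : Antitone S := by
    intro m n hmn x hx
    refine ⟨hx.1, hx.2.1, hx.2.2.trans ?_⟩
    have : (m:ℝ) ≤ n := by exact_mod_cast hmn
    gcongr
  have hSe : ⋂ n, S n = ∅ := by
    rw [eq_empty_iff_forall_notMem]
    intro x hx
    rw [mem_iInter] at hx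
    have h0 : 0 < ‖W x‖ := norm_pos_iff.mpr (hx 0).2.1
    obtain ⟨n, hn⟩ := exists_nat_one_div_lt (show (0:ℝ) < ‖W x‖ / 3 by positivity)
    have := (hx n).2.2
    linarith
  have hlim : Tendsto (fun n => μ.real (S n)) atTop (𝓝 0) := by
    have h1 : Tendsto (μ ∘ S) atTop (𝓝 (μ (⋂ n, S n))) :=
      tendsto_measure_iInter_atTop (fun n => (hSm n).nullMeasurableSet) hSanti
        ⟨0, ((measure_mono (fun x hx => hx.1)).trans_lt hψ.comp.measure_lt_top).ne⟩
    rw [hSe, measure_empty] at h1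
    exact (ENNReal.tendsto_toReal ENNReal.zero_ne_top).comp h1
  have hle : ∀ η : ℝ, 0 < η → X ≤ F * η := by
    intro η hη
    have h1 : ∀ n : ℕ, X ≤ A * (1 / ((n:ℝ) + 1)) + (D₁ + D₂ / η) * μ.real (S n) + F * η := by
      intro n
      exact hmain (1 / ((n:ℝ) + 1)) (by positivity) (by
        rw [div_le_one (by positivity)]; linarith [(Nat.cast_nonneg n : (0:ℝ) ≤ n)]) η hη
    have h2 : Tendsto (fun n : ℕ => A * (1 / ((n:ℝ) + 1)) + (D₁ + D₂ / η) * μ.real (S n) + F * η)
        atTop (𝓝 (A * 0 + (D₁ + D₂ / η) * 0 + F * η)) :=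
      ((tendsto_one_div_add_atTop_nhds_zero_nat.const_mul A).add (hlim.const_mul _)).add
        tendsto_const_nhds
    have h3 := ge_of_tendsto' h2 h1
    simpa using h3
  have hX0 : X ≤ 0 := by
    have h1 : Tendsto (fun n : ℕ => F * (1 / ((n:ℝ) + 1))) atTop (𝓝 (F * 0)) :=
      tendsto_one_div_add_atTop_nhds_zero_nat.const_mul F
    have h2 := ge_of_tendsto' h1 (fun n => hle (1 / ((n:ℝ) + 1)) (by positivity))
    simpa using h2
  have hX1 : X = 0 := le_antisymm hX0 (norm_nonneg _)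
  rw [hX, norm_eq_zero, sub_eq_zero] at hX1
  exact hX1

end Pool.Agent.Work.MP_375441_an
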