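import Pool.Agent.Work.MP_375441_an.Energy

/-!
# The energy estimate for second order equations with real coefficients
-/

open MeasureTheory Set Filter Topology Function Metric Module
open scoped ContDiff

namespace Pool.Agent.Work.MP_375441_an

set_option linter.unusedSectionVars false

variable {E : Type*} [NormedAddCommGroup E] [NormedSpace ℝ E]

/-- directional derivative of a real function -/
noncomputable def rd (v : E) (g : E → ℝ) (x : E) : ℝ := fderiv ℝ g x v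

lemma rd_smooth (v : E) {g : E → ℝ} (hg : ContDiff ℝ ∞ g) : ContDiff ℝ ∞ (rd v g) :=
  (hg.fderiv_right (m := ∞) (by simp)).clm_apply contDiff_const

lemma rd_comm {g : E → ℝ} (hg : ContDiff ℝ ∞ g) (v w x : E) :
    rd v (rd w g) x = rd w (rd v g) x := by
  have h2t : (2 : WithTop ℕ∞) ≤ ∞ :=
    show ((2 : ℕ∞) : WithTop ℕ∞) ≤ ((⊤ : ℕ∞) : WithTop ℕ∞) from WithTop.coe_le_coe.2 le_top
  have h2 : ContDiffAt ℝ 2 g x := (hg.of_le h2t).contDiffAt
  have hd : DifferentiableAt ℝ (fderiv ℝ g) x :=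
    (h2.fderiv_right (m := 1) (by norm_num)).differentiableAt (by simp)
  have e1 : ∀ a b : E, rd a (rd b g) x = fderiv ℝ (fderiv ℝ g) x a b := by
    intro a b
    have h3 : HasFDerivAt (fun y => fderiv ℝ g y b)
      ((ContinuousLinearMap.apply ℝ ℝ b).comp (fderiv ℝ (fderiv ℝ g) x)) x :=
      (ContinuousLinearMap.apply ℝ ℝ b).hasFDerivAt.comp x hd.hasFDerivAt
    change fderiv ℝ (fun y => fderiv ℝ g y b) x a = _
    rw [h3.fderiv]
    rfl
  rw [e1, e1]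
  exact h2.isSymmSndFDerivAt (by simp) v w

lemma rd_mul {f g : E → ℝ} {x : E} (v : E) (hf : DifferentiableAt ℝ f x)
    (hg : DifferentiableAt ℝ g x) :
    rd v (fun y => f y * g y) x = rd v f x * g x + f x * rd v g x := by
  unfold rd
  rw [fderiv_fun_mul hf hg]
  simp only [ContinuousLinearMap.add_apply, ContinuousLinearMap.smul_apply, smul_eq_mul]
  ring

lemma rd_zero_off {g : E → ℝ} {x : E} (v : E) (hx : x ∉ tsupport g) : rd v g x = 0 := by
  rw [notMem_tsupport_iff_eventuallyEq] at hx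
  unfold rd
  rw [hx.fderiv_eq]; simp

lemma abs_sum_le_card {ι : Type*} [Fintype ι] {F : ι → ℝ} {B : ℝ} (h : ∀ i, |F i| ≤ B) :
    |∑ i, F i| ≤ Fintype.card ι * B := by
  refine (Finset.abs_sum_le_sum_abs _ _).trans ?_
  refine (Finset.sum_le_card_nsmul _ _ B fun i _ => h i).trans ?_
  rw [nsmul_eq_mul, Finset.card_univ]

lemma abs_le_sqrt_of_sq_le {a b : ℝ} (h : a ^ 2 ≤ b) : |a| ≤ Real.sqrt b := by
  rw [← Real.sqrt_sq_eq_abs]
  exact Real.sqrt_le_sqrt h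

lemma pointwiseB {ι τ : Type*} [Fintype ι] [Fintype τ] {a : ι → ι → ℝ} {da : ι → ι → ι → ℝ}
    {V : τ → ι → ℝ} {V2 : τ → ι → ι → ℝ} (hsymm : ∀ σ k i, V2 σ k i = V2 σ i k)
    {φ κ κ' θ A M Mg Ck : ℝ} {dφ dS : ι → ℝ}
    (hdS : ∀ i, dS i = ∑ σ, ∑ k, 2 * V σ k * V2 σ k i) (hθ : 0 < θ) (hA0 : 0 ≤ A)
    (hM0 : 0 ≤ M) (hMg0 : 0 ≤ Mg) (hκ0 : 0 ≤ κ) (hκ1 : κ ≤ 1) (hκ' : 0 ≤ κ')
    (hCk : (∑ σ, ∑ k, V σ k ^ 2) * κ' ≤ Ck) (hA : ∀ i j, |a i j| ≤ A)
    (hdA : ∀ k i j, |da k i j| ≤ A)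
    (hco : ∀ ξ : ι → ℝ, θ * ∑ i, ξ i ^ 2 ≤ ∑ i, ∑ j, a i j * ξ i * ξ j)
    (hV : ∀ σ k, |V σ k| ≤ M) (hg : ∀ σ, |∑ i, ∑ j, a i j * V2 σ j i| ≤ Mg) :
    θ / 2 * (φ ^ 2 * (κ * ∑ σ, ∑ k, ∑ i, V2 σ k i ^ 2)) ≤
      (2 * (Fintype.card τ * Fintype.card ι * Mg) * |φ| * (∑ k, |dφ k|) * M +
        φ ^ 2 * (Fintype.card τ * Fintype.card ι * Mg) ^ 2 * Ck / (2 * θ) +
        2 * φ ^ 2 * (Fintype.card τ * Fintype.card ι * Mg) ^ 2 / θ +
        2 * φ ^ 2 * (2 * Fintype.card τ * Fintype.card ι ^ 3 * A * M) ^ 2 / θ +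
        2 * ((2 * Fintype.card τ * Fintype.card ι ^ 3 * A * M) * ∑ k, |dφ k|) ^ 2 / θ) +
      ((∑ σ, ∑ i, ∑ j, ∑ k, a i j * V2 σ j k *
          ((2 * φ * dφ i * κ + φ ^ 2 * κ' * dS i) * V σ k + φ ^ 2 * κ * V2 σ k i)) +
        (∑ σ, ∑ i, ∑ j, ∑ k, (da i i j * V2 σ j k - da k i j * V2 σ j i) * (φ ^ 2 * κ * V σ k)) -
        ∑ σ, ∑ i, ∑ j, ∑ k, a i j * V2 σ j i *
          ((2 * φ * dφ k * κ + φ ^ 2 * κ' * dS k) * V σ k + φ ^ 2 * κ * V2 σ k k)) := by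
  classical
  set N1 : ℝ := (Fintype.card τ : ℝ) with hN1
  set N2 : ℝ := (Fintype.card ι : ℝ) with hN2
  have hN1' : 0 ≤ N1 := Nat.cast_nonneg _
  have hN2' : 0 ≤ N2 := Nat.cast_nonneg _
  set h2 : ℝ := ∑ σ, ∑ k, ∑ i, V2 σ k i ^ 2 with hh2
  set s2 : ℝ := ∑ i, dS i ^ 2 with hs2
  set S : ℝ := ∑ σ, ∑ k, V σ k ^ 2 with hS
  set D : ℝ := ∑ k, |dφ k| with hD
  set K : ℝ := N1 * N2 * Mg with hK
  set K3 : ℝ := 2 * N1 * N2 ^ 3 * A * M with hK3
  have hD0 : 0 ≤ D := Finset.sum_nonneg fun _ _ => abs_nonneg _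
  have hK0 : 0 ≤ K := by positivity
  have hK30 : 0 ≤ K3 := by positivity
  have hh20 : 0 ≤ h2 := Finset.sum_nonneg fun _ _ => Finset.sum_nonneg fun _ _ =>
    Finset.sum_nonneg fun _ _ => sq_nonneg _
  have hs20 : 0 ≤ s2 := Finset.sum_nonneg fun _ _ => sq_nonneg _
  have hS0 : 0 ≤ S := Finset.sum_nonneg fun _ _ => Finset.sum_nonneg fun _ _ => sq_nonneg _
  set H := Real.sqrt h2 with hH
  set s := Real.sqrt s2 with hs
  set v := Real.sqrt S with hv
  have hH0 : 0 ≤ H := Real.sqrt_nonneg _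
  have hs0 : 0 ≤ s := Real.sqrt_nonneg _
  have hv0 : 0 ≤ v := Real.sqrt_nonneg _
  have hHsq : H ^ 2 = h2 := Real.sq_sqrt hh20
  have hssq : s ^ 2 = s2 := Real.sq_sqrt hs20
  have hvsq : v ^ 2 = S := Real.sq_sqrt hS0
  have bV2 : ∀ σ k i, |V2 σ k i| ≤ H := by
    intro σ k i
    refine abs_le_sqrt_of_sq_le ?_
    have e1 : V2 σ k i ^ 2 ≤ ∑ i, V2 σ k i ^ 2 :=
      Finset.single_le_sum (f := fun i => V2 σ k i ^ 2) (fun _ _ => sq_nonneg _) (Finset.mem_univ i)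
    have e2 : ∑ i, V2 σ k i ^ 2 ≤ ∑ k, ∑ i, V2 σ k i ^ 2 :=
      Finset.single_le_sum (f := fun k => ∑ i, V2 σ k i ^ 2)
        (fun _ _ => Finset.sum_nonneg fun _ _ => sq_nonneg _) (Finset.mem_univ k)
    have e3 : ∑ k, ∑ i, V2 σ k i ^ 2 ≤ h2 :=
      Finset.single_le_sum (f := fun σ => ∑ k, ∑ i, V2 σ k i ^ 2)
        (fun _ _ => Finset.sum_nonneg fun _ _ => Finset.sum_nonneg fun _ _ => sq_nonneg _)
        (Finset.mem_univ σ)
    linarith
  have bV : ∀ σ k, |V σ k| ≤ v := by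
    intro σ k
    refine abs_le_sqrt_of_sq_le ?_
    have e2 : V σ k ^ 2 ≤ ∑ k, V σ k ^ 2 :=
      Finset.single_le_sum (f := fun k => V σ k ^ 2)
        (fun _ _ => sq_nonneg _) (Finset.mem_univ k)
    have e3 : ∑ k, V σ k ^ 2 ≤ S :=
      Finset.single_le_sum (f := fun σ => ∑ k, V σ k ^ 2)
        (fun _ _ => Finset.sum_nonneg fun _ _ => sq_nonneg _)
        (Finset.mem_univ σ)
    linarith
  have bS : ∀ i, |dS i| ≤ s := by
    intro i
    refine abs_le_sqrt_of_sq_le ?_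
    exact Finset.single_le_sum (f := fun i => dS i ^ 2) (fun _ _ => sq_nonneg _) (Finset.mem_univ i)
  have bD : ∀ k, |dφ k| ≤ D := fun k =>
    Finset.single_le_sum (f := fun k => |dφ k|) (fun _ _ => abs_nonneg _) (Finset.mem_univ k)
  have bS' : ∀ i, |dS i| ≤ 2 * N1 * N2 * M * H := by
    intro i
    rw [hdS i]
    have : |∑ σ, ∑ k, 2 * V σ k * V2 σ k i| ≤ N1 * (N2 * (2 * M * H)) := by
      refine abs_sum_le_card fun σ => abs_sum_le_card fun k => ?_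
      rw [abs_mul, abs_mul, abs_of_pos (by norm_num : (0:ℝ) < 2)]
      have := hV σ k
      have := bV2 σ k i
      gcongr
    linarith
  -- term L
  have hL : (∑ σ, ∑ i, ∑ j, ∑ k, a i j * V2 σ j i *
          ((2 * φ * dφ k * κ + φ ^ 2 * κ' * dS k) * V σ k + φ ^ 2 * κ * V2 σ k k)) ≤
      K * (2 * |φ| * D * M + φ ^ 2 * κ' * (s * v) + φ ^ 2 * κ * H) := by
    have e1 : (∑ σ, ∑ i, ∑ j, ∑ k, a i j * V2 σ j i *
          ((2 * φ * dφ k * κ + φ ^ 2 * κ' * dS k) * V σ k + φ ^ 2 * κ * V2 σ k k)) =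
        ∑ σ, (∑ i, ∑ j, a i j * V2 σ j i) *
          ∑ k, ((2 * φ * dφ k * κ + φ ^ 2 * κ' * dS k) * V σ k + φ ^ 2 * κ * V2 σ k k) := by
      refine Finset.sum_congr rfl fun σ _ => ?_
      rw [Finset.sum_mul]
      refine Finset.sum_congr rfl fun i _ => ?_
      rw [Finset.sum_mul]
      refine Finset.sum_congr rfl fun j _ => ?_
      rw [Finset.mul_sum]
    rw [e1]
    refine (le_abs_self _).trans ?_
    have e2 : |∑ σ, (∑ i, ∑ j, a i j * V2 σ j i) *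
          ∑ k, ((2 * φ * dφ k * κ + φ ^ 2 * κ' * dS k) * V σ k + φ ^ 2 * κ * V2 σ k k)| ≤
        N1 * (Mg * (N2 * (2 * |φ| * D * M + φ ^ 2 * κ' * (s * v) + φ ^ 2 * κ * H))) := by
      refine abs_sum_le_card fun σ => ?_
      rw [abs_mul]
      refine mul_le_mul (hg σ) (abs_sum_le_card fun k => ?_) (abs_nonneg _) hMg0
      have e3 : (2 * φ * dφ k * κ + φ ^ 2 * κ' * dS k) * V σ k + φ ^ 2 * κ * V2 σ k k =
          2 * φ * dφ k * κ * V σ k + φ ^ 2 * κ' * (dS k * V σ k) + φ ^ 2 * κ * V2 σ k k := by ring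
      rw [e3]
      refine (abs_add_le _ _).trans (add_le_add ((abs_add_le _ _).trans (add_le_add ?_ ?_)) ?_)
      · rw [abs_mul, abs_mul, abs_mul, abs_mul, abs_of_pos (by norm_num : (0:ℝ) < 2),
          abs_of_nonneg hκ0]
        have b1 := bD k
        have b2 := hV σ k
        calc 2 * |φ| * |dφ k| * κ * |V σ k| ≤ 2 * |φ| * D * 1 * M := by gcongr
          _ = 2 * |φ| * D * M := by ring
      · rw [abs_mul, abs_mul, abs_mul, abs_of_nonneg (sq_nonneg φ), abs_of_nonneg hκ']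
        have b1 := bS k
        have b2 := bV σ k
        gcongr
      · rw [abs_mul, abs_mul, abs_of_nonneg (sq_nonneg φ), abs_of_nonneg hκ0]
        have b1 := bV2 σ k k
        gcongr
    refine e2.trans (le_of_eq ?_)
    rw [hK]; ring
  -- term R2
  have hR2 : |∑ σ, ∑ i, ∑ j, ∑ k, (da i i j * V2 σ j k - da k i j * V2 σ j i) *
      (φ ^ 2 * κ * V σ k)| ≤ K3 * (φ ^ 2 * κ * H) := by
    have e1 : |∑ σ, ∑ i, ∑ j, ∑ k, (da i i j * V2 σ j k - da k i j * V2 σ j i) *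
      (φ ^ 2 * κ * V σ k)| ≤ N1 * (N2 * (N2 * (N2 * ((A * H + A * H) * (φ ^ 2 * κ * M))))) := by
      refine abs_sum_le_card fun σ => abs_sum_le_card fun i => abs_sum_le_card fun j =>
        abs_sum_le_card fun k => ?_
      rw [abs_mul]
      refine mul_le_mul ((abs_sub _ _).trans (add_le_add ?_ ?_)) ?_ (abs_nonneg _) (by positivity)
      · rw [abs_mul]
        exact mul_le_mul (hdA i i j) (bV2 σ j k) (abs_nonneg _) hA0
      · rw [abs_mul]
        exact mul_le_mul (hdA k i j) (bV2 σ j i) (abs_nonneg _) hA0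
      · rw [abs_mul, abs_mul, abs_of_nonneg (sq_nonneg φ), abs_of_nonneg hκ0]
        have b2 := hV σ k
        gcongr
    refine e1.trans (le_of_eq ?_)
    rw [hK3]; ring
  -- term R1
  have hR1 : (∑ σ, ∑ i, ∑ j, ∑ k, a i j * V2 σ j k *
          ((2 * φ * dφ i * κ + φ ^ 2 * κ' * dS i) * V σ k + φ ^ 2 * κ * V2 σ k i)) =
      φ * κ * (∑ i, ∑ j, a i j * dφ i * dS j) +
      1 / 2 * (φ ^ 2 * κ') * (∑ i, ∑ j, a i j * dS i * dS j) +
      φ ^ 2 * κ * ∑ σ, ∑ k, ∑ i, ∑ j, a i j * V2 σ k i * V2 σ k j := by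
    have e1 : (∑ σ, ∑ i, ∑ j, ∑ k, a i j * V2 σ j k *
          ((2 * φ * dφ i * κ + φ ^ 2 * κ' * dS i) * V σ k + φ ^ 2 * κ * V2 σ k i)) =
        (∑ σ, ∑ i, ∑ j, ∑ k, a i j * (φ * dφ i * κ + 1 / 2 * (φ ^ 2 * κ') * dS i) *
          (2 * V σ k * V2 σ k j)) +
        ∑ σ, ∑ i, ∑ j, ∑ k, φ ^ 2 * κ * (a i j * V2 σ k i * V2 σ k j) := by
      simp only [← Finset.sum_add_distrib]
      refine Finset.sum_congr rfl fun σ _ => Finset.sum_congr rfl fun i _ =>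
        Finset.sum_congr rfl fun j _ => Finset.sum_congr rfl fun k _ => ?_
      rw [hsymm σ j k]
      ring
    have e2 : (∑ σ, ∑ i, ∑ j, ∑ k, a i j * (φ * dφ i * κ + 1 / 2 * (φ ^ 2 * κ') * dS i) *
          (2 * V σ k * V2 σ k j)) =
        ∑ i, ∑ j, a i j * (φ * dφ i * κ + 1 / 2 * (φ ^ 2 * κ') * dS i) * dS j := by
      rw [Finset.sum_comm]
      refine Finset.sum_congr rfl fun i _ => ?_
      rw [Finset.sum_comm]
      refine Finset.sum_congr rfl fun j _ => ?_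
      rw [hdS j, Finset.mul_sum]
      refine Finset.sum_congr rfl fun σ _ => ?_
      rw [Finset.mul_sum]
    have e3 : ∑ σ, ∑ i, ∑ j, ∑ k, φ ^ 2 * κ * (a i j * V2 σ k i * V2 σ k j) =
        φ ^ 2 * κ * ∑ σ, ∑ k, ∑ i, ∑ j, a i j * V2 σ k i * V2 σ k j := by
      rw [Finset.mul_sum]
      refine Finset.sum_congr rfl fun σ _ => ?_
      have e4 : ∑ k, ∑ i, ∑ j, a i j * V2 σ k i * V2 σ k j =
          ∑ i, ∑ j, ∑ k, a i j * V2 σ k i * V2 σ k j := by
        rw [Finset.sum_comm]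
        refine Finset.sum_congr rfl fun i _ => ?_
        rw [Finset.sum_comm]
      rw [e4, Finset.mul_sum]
      refine Finset.sum_congr rfl fun i _ => ?_
      rw [Finset.mul_sum]
      refine Finset.sum_congr rfl fun j _ => ?_
      rw [Finset.mul_sum]
    rw [e1, e2, e3]
    congr 1
    rw [Finset.mul_sum, Finset.mul_sum, ← Finset.sum_add_distrib]
    refine Finset.sum_congr rfl fun i _ => ?_
    rw [Finset.mul_sum, Finset.mul_sum, ← Finset.sum_add_distrib]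
    refine Finset.sum_congr rfl fun j _ => ?_
    ring
  have hR1a : |φ * κ * (∑ i, ∑ j, a i j * dφ i * dS j)| ≤ κ * (|φ| * H * (K3 * D)) := by
    rw [abs_mul, abs_mul, abs_of_nonneg hκ0]
    have e1 : |∑ i, ∑ j, a i j * dφ i * dS j| ≤ N2 * (N2 * (A * D * (2 * N1 * N2 * M * H))) := by
      refine abs_sum_le_card fun i => abs_sum_le_card fun j => ?_
      rw [abs_mul, abs_mul]
      have b1 := hA i j
      have b2 := bD i
      have b3 := bS' j
      gcongr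
    calc |φ| * κ * |∑ i, ∑ j, a i j * dφ i * dS j| ≤
        |φ| * κ * (N2 * (N2 * (A * D * (2 * N1 * N2 * M * H)))) :=
          mul_le_mul_of_nonneg_left e1 (by positivity)
      _ = _ := by rw [hK3]; ring
  have hR1b : θ * s2 ≤ ∑ i, ∑ j, a i j * dS i * dS j := hco dS
  have hR1c : θ * h2 ≤ ∑ σ, ∑ k, ∑ i, ∑ j, a i j * V2 σ k i * V2 σ k j := by
    rw [hh2, Finset.mul_sum]
    refine Finset.sum_le_sum fun σ _ => ?_
    rw [Finset.mul_sum]
    exact Finset.sum_le_sum fun k _ => hco (V2 σ k)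
  have p1 : 1 / 2 * (φ ^ 2 * κ') * (θ * s2) ≤
      1 / 2 * (φ ^ 2 * κ') * (∑ i, ∑ j, a i j * dS i * dS j) :=
    mul_le_mul_of_nonneg_left hR1b (by positivity)
  have p2 : φ ^ 2 * κ * (θ * h2) ≤
      φ ^ 2 * κ * ∑ σ, ∑ k, ∑ i, ∑ j, a i j * V2 σ k i * V2 σ k j :=
    mul_le_mul_of_nonneg_left hR1c (by positivity)
  -- arithmetic-geometric means
  have q1 : K * (φ ^ 2 * κ' * (s * v)) ≤ 1 / 2 * (φ ^ 2 * κ') * (θ * s2) +
      φ ^ 2 * K ^ 2 * Ck / (2 * θ) := by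
    have e1 : K * (s * v) ≤ θ / 2 * s ^ 2 + K ^ 2 * v ^ 2 / (2 * θ) := by
      have h0 : 0 ≤ (θ * s - K * v) ^ 2 / (2 * θ) := by positivity
      have h1 : (θ * s - K * v) ^ 2 / (2 * θ) = θ / 2 * s ^ 2 + K ^ 2 * v ^ 2 / (2 * θ) -
          K * (s * v) := by field_simp; ring
      linarith
    have e2 := mul_le_mul_of_nonneg_left e1 (by positivity : 0 ≤ φ ^ 2 * κ')
    have e3 : φ ^ 2 * κ' * (K ^ 2 * v ^ 2 / (2 * θ)) ≤ φ ^ 2 * K ^ 2 * Ck / (2 * θ) := by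
      rw [hvsq]
      have e4 : φ ^ 2 * κ' * (K ^ 2 * S / (2 * θ)) = φ ^ 2 * K ^ 2 * (S * κ') / (2 * θ) := by ring
      rw [e4]
      gcongr
    rw [hssq] at e2
    calc K * (φ ^ 2 * κ' * (s * v)) = φ ^ 2 * κ' * (K * (s * v)) := by ring
      _ ≤ φ ^ 2 * κ' * (θ / 2 * s2 + K ^ 2 * v ^ 2 / (2 * θ)) := e2
      _ = 1 / 2 * (φ ^ 2 * κ') * (θ * s2) + φ ^ 2 * κ' * (K ^ 2 * v ^ 2 / (2 * θ)) := by ring
      _ ≤ _ := by linarith
  have q2 : ∀ y : ℝ, 0 ≤ y → y * (φ ^ 2 * κ * H) ≤ θ / 8 * (φ ^ 2 * (κ * h2)) + 2 * φ ^ 2 * y ^ 2 / θ := by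
    intro y hy
    have e1 : y * H ≤ θ / 8 * H ^ 2 + 2 * y ^ 2 / θ := by
      have h0 : 0 ≤ (θ * H - 4 * y) ^ 2 / (8 * θ) := by positivity
      have h1 : (θ * H - 4 * y) ^ 2 / (8 * θ) = θ / 8 * H ^ 2 + 2 * y ^ 2 / θ - y * H := by
        field_simp; ring
      linarith
    have e2 := mul_le_mul_of_nonneg_left e1 (by positivity : 0 ≤ φ ^ 2 * κ)
    have e3 : φ ^ 2 * κ * (2 * y ^ 2 / θ) ≤ φ ^ 2 * 1 * (2 * y ^ 2 / θ) := by gcongr
    rw [hHsq] at e2
    calc y * (φ ^ 2 * κ * H) = φ ^ 2 * κ * (y * H) := by ring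
      _ ≤ _ := e2
      _ = θ / 8 * (φ ^ 2 * (κ * h2)) + φ ^ 2 * κ * (2 * y ^ 2 / θ) := by ring
      _ ≤ θ / 8 * (φ ^ 2 * (κ * h2)) + φ ^ 2 * 1 * (2 * y ^ 2 / θ) := by linarith
      _ = _ := by ring
  have q3 : κ * (|φ| * H * (K3 * D)) ≤ θ / 8 * (φ ^ 2 * (κ * h2)) + 2 * (K3 * D) ^ 2 / θ := by
    have e1 : |φ| * H * (K3 * D) ≤ θ / 8 * (φ ^ 2 * H ^ 2) + 2 * (K3 * D) ^ 2 / θ := by
      have h0 : 0 ≤ (θ * (|φ| * H) - 4 * (K3 * D)) ^ 2 / (8 * θ) := by positivity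
      have h1 : (θ * (|φ| * H) - 4 * (K3 * D)) ^ 2 / (8 * θ) =
          θ / 8 * (|φ| ^ 2 * H ^ 2) + 2 * (K3 * D) ^ 2 / θ - |φ| * H * (K3 * D) := by
        field_simp; ring
      rw [sq_abs] at h1
      linarith
    have e2 := mul_le_mul_of_nonneg_left e1 hκ0
    have e3 : κ * (2 * (K3 * D) ^ 2 / θ) ≤ 1 * (2 * (K3 * D) ^ 2 / θ) := by gcongr
    rw [hHsq] at e2
    calc κ * (|φ| * H * (K3 * D)) ≤ κ * (θ / 8 * (φ ^ 2 * h2) + 2 * (K3 * D) ^ 2 / θ) := e2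
      _ = θ / 8 * (φ ^ 2 * (κ * h2)) + κ * (2 * (K3 * D) ^ 2 / θ) := by ring
      _ ≤ _ := by linarith
  rw [hR1]
  have r1 := (abs_le.mp hR2).1
  have r2 := (abs_le.mp hR1a).1
  have r3 := q2 K hK0
  have r4 := q2 K3 hK30
  have hnn : 0 ≤ φ ^ 2 * (κ * h2) := by positivity
  have r5 : K * (2 * |φ| * D * M + φ ^ 2 * κ' * (s * v) + φ ^ 2 * κ * H) =
      2 * K * |φ| * D * M + K * (φ ^ 2 * κ' * (s * v)) + K * (φ ^ 2 * κ * H) := by ring
  rw [r5] at hL
  have r6 : φ ^ 2 * κ * (θ * h2) = θ * (φ ^ 2 * (κ * h2)) := by ring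
  have hnn' : 0 ≤ θ * (φ ^ 2 * (κ * h2)) := by positivity
  rw [r6] at p2
  linarith

section
variable [MeasurableSpace E] [BorelSpace E] [FiniteDimensional ℝ E] {μ : Measure E}
  [μ.IsAddHaarMeasure]

/-- the basic integration by parts identity -/
lemma swap_identity {a V Φ : E → ℝ} (ha : ContDiff ℝ ∞ a) (hV : ContDiff ℝ ∞ V)
    (hΦ : ContDiff ℝ ∞ Φ) (hc : HasCompactSupport Φ) (v w : E) :
    ∫ x, a x * rd v V x * rd w Φ x ∂μ = ∫ x, a x * rd w V x * rd v Φ x ∂μ +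
      ∫ x, (rd v a x * rd w V x - rd w a x * rd v V x) * Φ x ∂μ := by
  have key : ∀ v w : E, ∫ x, a x * rd v V x * rd w Φ x ∂μ =
      - ∫ x, (rd w a x * rd v V x + a x * rd w (rd v V) x) * Φ x ∂μ := by
    intro v w
    have h1 : ContDiff ℝ ∞ (fun x => a x * rd v V x) := ha.mul (rd_smooth v hV)
    have h2 := int_pdR (μ := μ) (hΦ.of_le (by simp)) (h1.of_le (by simp)) (f := Φ)
      (g := fun x => a x * rd v V x)
    have h3 := int_pdR (μ := μ) (f := fun x => a x * rd v V x) (g := Φ) (h1.of_le (by simp))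
      (hΦ.of_le (by simp)) hc w
    have h4 : ∫ x, a x * rd v V x * rd w Φ x ∂μ = ∫ x, fderiv ℝ Φ x w * (a x * rd v V x) ∂μ :=
      integral_congr_ae (Eventually.of_forall fun x => by simp only [rd]; ring)
    have h5 : ∫ x, Φ x * fderiv ℝ (fun x => a x * rd v V x) x w ∂μ =
        ∫ x, (rd w a x * rd v V x + a x * rd w (rd v V) x) * Φ x ∂μ := by
      refine integral_congr_ae (Eventually.of_forall fun x => ?_)
      have h6 := rd_mul (x := x) w (ha.differentiable (by simp) x)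
        ((rd_smooth v hV).differentiable (by simp) x)
      change Φ x * rd w (fun x => a x * rd v V x) x = _
      rw [h6]; ring
    rw [h4, ← h5, h3, neg_neg]
  have hint : ∀ v w : E, Integrable (fun x => (rd w a x * rd v V x + a x * rd w (rd v V) x) * Φ x) μ := by
    intro v w
    have c1 := (rd_smooth w ha).continuous
    have c2 := (rd_smooth v hV).continuous
    have c3 := (rd_smooth w (rd_smooth v hV)).continuous
    exact (((c1.mul c2).add (ha.continuous.mul c3)).mul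
      hΦ.continuous).integrable_of_hasCompactSupport hc.mul_left
  rw [key v w, key w v]
  have h7 : ∫ x, (rd v a x * rd w V x - rd w a x * rd v V x) * Φ x ∂μ =
      ∫ x, (rd v a x * rd w V x + a x * rd v (rd w V) x) * Φ x ∂μ -
      ∫ x, (rd w a x * rd v V x + a x * rd w (rd v V) x) * Φ x ∂μ := by
    rw [← integral_sub (hint w v) (hint v w)]
    refine integral_congr_ae (Eventually.of_forall fun x => ?_)
    simp only []
    rw [rd_comm hV v w]
    ring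
  rw [h7]
  ring

end

section energy
variable [MeasurableSpace E] [BorelSpace E] [FiniteDimensional ℝ E] {μ : Measure E}
  [μ.IsAddHaarMeasure] {ι τ : Type*} [Fintype ι] [Fintype τ]

/-- squared norm of the gradients -/
noncomputable def gS (e : ι → E) (u : τ → E → ℝ) (x : E) : ℝ := ∑ σ, ∑ k, (rd (e k) (u σ) x) ^ 2

/-- squared norm of the second derivatives -/
noncomputable def gH (e : ι → E) (u : τ → E → ℝ) (x : E) : ℝ :=
  ∑ σ, ∑ k, ∑ i, (rd (e i) (rd (e k) (u σ)) x) ^ 2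

lemma gS_smooth (e : ι → E) {u : τ → E → ℝ} (hu : ∀ σ, ContDiff ℝ ∞ (u σ)) :
    ContDiff ℝ ∞ (gS e u) := by
  unfold gS
  exact ContDiff.sum fun σ _ => ContDiff.sum fun k _ => (rd_smooth _ (hu σ)).pow 2

lemma gS_rd (e : ι → E) {u : τ → E → ℝ} (hu : ∀ σ, ContDiff ℝ ∞ (u σ)) (v x : E) :
    rd v (gS e u) x = ∑ σ, ∑ k, 2 * rd (e k) (u σ) x * rd v (rd (e k) (u σ)) x := by
  have hd : ∀ σ k, DifferentiableAt ℝ (rd (e k) (u σ)) x := fun σ k =>
    (rd_smooth _ (hu σ)).differentiable (by simp) x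
  have h1 : ∀ σ k, HasFDerivAt (fun y => rd (e k) (u σ) y ^ 2)
      ((2 * rd (e k) (u σ) x) • fderiv ℝ (rd (e k) (u σ)) x) x := by
    intro σ k
    have := (hd σ k).hasFDerivAt.pow 2
    simp only [nsmul_eq_mul, Nat.cast_ofNat, Nat.add_one_sub_one, pow_one] at this
    exact this
  have h2 : HasFDerivAt (gS e u) (∑ σ, ∑ k, (2 * rd (e k) (u σ) x) • fderiv ℝ (rd (e k) (u σ)) x) x :=
    HasFDerivAt.fun_sum fun σ _ => HasFDerivAt.fun_sum fun k _ => h1 σ k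
  change fderiv ℝ (gS e u) x v = _
  rw [h2.fderiv, ContinuousLinearMap.sum_apply]
  refine Finset.sum_congr rfl fun σ _ => ?_
  rw [ContinuousLinearMap.sum_apply]
  refine Finset.sum_congr rfl fun k _ => ?_
  rw [ContinuousLinearMap.smul_apply, smul_eq_mul]
  rfl

theorem energyB (e : ι → E) {φ : E → ℝ} (hφ : ContDiff ℝ ∞ φ) (hcs : HasCompactSupport φ)
    {θ A M Mg Ck : ℝ} (hθ : 0 < θ) (hA0 : 0 ≤ A) (hM0 : 0 ≤ M) (hMg0 : 0 ≤ Mg) (hCk0 : 0 ≤ Ck) :
    ∃ C, ∀ (a : ι → ι → E → ℝ) (u : τ → E → ℝ) (κ : ℝ → ℝ), (∀ i j, ContDiff ℝ ∞ (a i j)) →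
      (∀ σ, ContDiff ℝ ∞ (u σ)) → ContDiff ℝ ∞ κ → (∀ t, 0 ≤ κ t ∧ κ t ≤ 1) →
      (∀ t, 0 ≤ deriv κ t) → (∀ t, 0 ≤ t → t * deriv κ t ≤ Ck) →
      (∀ x, φ x ≠ 0 → ∀ i j, |a i j x| ≤ A) →
      (∀ x, φ x ≠ 0 → ∀ k i j, |rd (e k) (a i j) x| ≤ A) →
      (∀ x, φ x ≠ 0 → ∀ ξ : ι → ℝ, θ * ∑ i, ξ i ^ 2 ≤ ∑ i, ∑ j, a i j x * ξ i * ξ j) →
      (∀ x, φ x ≠ 0 → ∀ σ k, |rd (e k) (u σ) x| ≤ M) →
      (∀ x, φ x ≠ 0 → (κ (gS e u x) ≠ 0 ∨ deriv κ (gS e u x) ≠ 0) →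
        ∀ σ, |∑ i, ∑ j, a i j x * rd (e i) (rd (e j) (u σ)) x| ≤ Mg) →
      ∫ x, φ x ^ 2 * (κ (gS e u x) * gH e u x) ∂μ ≤ C := by
  set Bd : E → ℝ := fun x =>
    2 * (Fintype.card τ * Fintype.card ι * Mg) * |φ x| * (∑ k, |rd (e k) φ x|) * M +
        φ x ^ 2 * (Fintype.card τ * Fintype.card ι * Mg) ^ 2 * Ck / (2 * θ) +
        2 * φ x ^ 2 * (Fintype.card τ * Fintype.card ι * Mg) ^ 2 / θ +
        2 * φ x ^ 2 * (2 * Fintype.card τ * Fintype.card ι ^ 3 * A * M) ^ 2 / θ +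
        2 * ((2 * Fintype.card τ * Fintype.card ι ^ 3 * A * M) * ∑ k, |rd (e k) φ x|) ^ 2 / θ with hBd
  refine ⟨2 / θ * ∫ x, Bd x ∂μ, ?_⟩
  intro a u κ ha hu hκ hκ01 hκ' hCk haA hdA hco hV hg
  have hφ' : ∀ k, Continuous (rd (e k) φ) := fun k => (rd_smooth (e k) hφ).continuous
  have hφ0 : ∀ x, x ∉ tsupport φ → φ x = 0 ∧ ∀ k, rd (e k) φ x = 0 := fun x hx =>
    ⟨image_eq_zero_of_notMem_tsupport hx, fun k => rd_zero_off (e k) hx⟩
  have hBdc : Continuous Bd := by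
    have h1 : Continuous fun x => ∑ k, |rd (e k) φ x| := continuous_finsetSum _ fun k _ => (hφ' k).abs
    have h2 := hφ.continuous
    rw [hBd]
    fun_prop
  have hBd0 : ∀ x, 0 ≤ Bd x := by
    intro x
    have h1 : 0 ≤ ∑ k, |rd (e k) φ x| := Finset.sum_nonneg fun _ _ => abs_nonneg _
    simp only [hBd]
    positivity
  have hBdi : Integrable Bd μ := hBdc.integrable_of_hasCompactSupport
    (HasCompactSupport.intro hcs fun x hx => by
      obtain ⟨h1, h2⟩ := hφ0 x hx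
      simp [hBd, h1, h2])
  have hSs : ContDiff ℝ ∞ (gS e u) := gS_smooth e hu
  have hκS : ContDiff ℝ ∞ (fun x => κ (gS e u x)) := hκ.comp hSs
  have hVs : ∀ σ k, ContDiff ℝ ∞ (rd (e k) (u σ)) := fun σ k => rd_smooth _ (hu σ)
  set Φ : τ → ι → E → ℝ := fun σ k x => φ x ^ 2 * κ (gS e u x) * rd (e k) (u σ) x with hΦ
  have hΦs : ∀ σ k, ContDiff ℝ ∞ (Φ σ k) := fun σ k => ((hφ.pow 2).mul hκS).mul (hVs σ k)
  have hΦc : ∀ σ k, HasCompactSupport (Φ σ k) := fun σ k =>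
    HasCompactSupport.intro hcs fun x hx => by simp [hΦ, (hφ0 x hx).1]
  have hΦ' : ∀ σ k i x, rd (e i) (Φ σ k) x =
      (2 * φ x * rd (e i) φ x * κ (gS e u x) +
        φ x ^ 2 * deriv κ (gS e u x) * rd (e i) (gS e u) x) * rd (e k) (u σ) x +
        φ x ^ 2 * κ (gS e u x) * rd (e i) (rd (e k) (u σ)) x := by
    intro σ k i x
    have d1 : DifferentiableAt ℝ φ x := hφ.differentiable (by simp) x
    have d2 : DifferentiableAt ℝ (fun x => κ (gS e u x)) x := hκS.differentiable (by simp) x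
    have d3 : DifferentiableAt ℝ (rd (e k) (u σ)) x := (hVs σ k).differentiable (by simp) x
    have d4 : DifferentiableAt ℝ (fun x => φ x ^ 2) x := d1.pow 2
    have e1 : rd (e i) (fun x => φ x ^ 2) x = 2 * φ x * rd (e i) φ x := by
      have := (d1.hasFDerivAt).pow 2
      have h2 : HasFDerivAt (fun x => φ x ^ 2) _ x := this
      unfold rd
      rw [h2.fderiv]
      simp
    have e2 : rd (e i) (fun x => κ (gS e u x)) x = deriv κ (gS e u x) * rd (e i) (gS e u) x := by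
      have h2 : HasFDerivAt (fun x => κ (gS e u x)) (deriv κ (gS e u x) • fderiv ℝ (gS e u) x) x :=
        ((hκ.differentiable (by simp) _).hasDerivAt).comp_hasFDerivAt x
          (hSs.differentiable (by simp) x).hasFDerivAt
      unfold rd
      rw [h2.fderiv]
      rfl
    have e3 := rd_mul (f := fun x => φ x ^ 2 * κ (gS e u x)) (e i) (d4.mul d2) d3
    have e4 := rd_mul (f := fun x => φ x ^ 2) (e i) d4 d2
    simp only [hΦ]
    rw [e3, e4, e1, e2]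
    ring
  -- the terms
  set t : τ → ι → ι → ι → E → ℝ := fun σ i j k x =>
    a i j x * rd (e k) (rd (e j) (u σ)) x * rd (e i) (Φ σ k) x +
    (rd (e i) (a i j) x * rd (e k) (rd (e j) (u σ)) x -
      rd (e k) (a i j) x * rd (e i) (rd (e j) (u σ)) x) * Φ σ k x -
    a i j x * rd (e i) (rd (e j) (u σ)) x * rd (e k) (Φ σ k) x with ht
  have hcz : ∀ σ k i x, x ∉ tsupport (Φ σ k) → rd (e i) (Φ σ k) x = 0 := fun σ k i x hx =>
    rd_zero_off (e i) hx
  have hti1 : ∀ σ i j k, Integrable (fun x =>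
      a i j x * rd (e k) (rd (e j) (u σ)) x * rd (e i) (Φ σ k) x) μ := fun σ i j k =>
    (((ha i j).continuous.mul (rd_smooth _ (hVs σ j)).continuous).mul
      (rd_smooth _ (hΦs σ k)).continuous).integrable_of_hasCompactSupport
      (HasCompactSupport.intro (hΦc σ k) fun x hx => by
        change _ * rd (e i) (Φ σ k) x = 0
        rw [hcz σ k i x hx, mul_zero])
  have hti2 : ∀ σ i j k, Integrable (fun x => (rd (e i) (a i j) x * rd (e k) (rd (e j) (u σ)) x -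
      rd (e k) (a i j) x * rd (e i) (rd (e j) (u σ)) x) * Φ σ k x) μ := fun σ i j k =>
    ((((rd_smooth _ (ha i j)).continuous.mul (rd_smooth _ (hVs σ j)).continuous).sub
      ((rd_smooth _ (ha i j)).continuous.mul (rd_smooth _ (hVs σ j)).continuous)).mul
      (hΦs σ k).continuous).integrable_of_hasCompactSupport (hΦc σ k).mul_left
  have hti3 : ∀ σ i j k, Integrable (fun x =>
      a i j x * rd (e i) (rd (e j) (u σ)) x * rd (e k) (Φ σ k) x) μ := fun σ i j k =>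
    (((ha i j).continuous.mul (rd_smooth _ (hVs σ j)).continuous).mul
      (rd_smooth _ (hΦs σ k)).continuous).integrable_of_hasCompactSupport
      (HasCompactSupport.intro (hΦc σ k) fun x hx => by
        change _ * rd (e k) (Φ σ k) x = 0
        rw [hcz σ k k x hx, mul_zero])
  have hti12 : ∀ σ i j k, Integrable (fun x =>
      a i j x * rd (e k) (rd (e j) (u σ)) x * rd (e i) (Φ σ k) x +
    (rd (e i) (a i j) x * rd (e k) (rd (e j) (u σ)) x -
      rd (e k) (a i j) x * rd (e i) (rd (e j) (u σ)) x) * Φ σ k x) μ := fun σ i j k =>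
    (hti1 σ i j k).add (hti2 σ i j k)
  have hti : ∀ σ i j k, Integrable (t σ i j k) μ := fun σ i j k =>
    (hti12 σ i j k).sub (hti3 σ i j k)
  have ht0 : ∀ σ i j k, ∫ x, t σ i j k x ∂μ = 0 := by
    intro σ i j k
    have h1 := swap_identity (μ := μ) (ha i j) (hVs σ j) (hΦs σ k) (hΦc σ k) (e i) (e k)
    simp only [ht]
    rw [integral_sub (hti12 σ i j k) (hti3 σ i j k), integral_add (hti1 σ i j k) (hti2 σ i j k), h1]
    ring
  have hT0 : ∫ x, ∑ σ, ∑ i, ∑ j, ∑ k, t σ i j k x ∂μ = 0 := by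
    rw [integral_finsetSum _ fun σ _ => integrable_finsetSum _ fun i _ => integrable_finsetSum _
      fun j _ => integrable_finsetSum _ fun k _ => hti σ i j k]
    refine Finset.sum_eq_zero fun σ _ => ?_
    rw [integral_finsetSum _ fun i _ => integrable_finsetSum _
      fun j _ => integrable_finsetSum _ fun k _ => hti σ i j k]
    refine Finset.sum_eq_zero fun i _ => ?_
    rw [integral_finsetSum _ fun j _ => integrable_finsetSum _ fun k _ => hti σ i j k]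
    refine Finset.sum_eq_zero fun j _ => ?_
    rw [integral_finsetSum _ fun k _ => hti σ i j k]
    exact Finset.sum_eq_zero fun k _ => ht0 σ i j k
  have hTi : Integrable (fun x => ∑ σ, ∑ i, ∑ j, ∑ k, t σ i j k x) μ :=
    integrable_finsetSum _ fun σ _ => integrable_finsetSum _ fun i _ => integrable_finsetSum _
      fun j _ => integrable_finsetSum _ fun k _ => hti σ i j k
  -- the pointwise inequality
  have hpt : ∀ x, θ / 2 * (φ x ^ 2 * (κ (gS e u x) * gH e u x)) ≤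
      Bd x + ∑ σ, ∑ i, ∑ j, ∑ k, t σ i j k x := by
    intro x
    have hsum : ∑ σ, ∑ i, ∑ j, ∑ k, t σ i j k x =
      ((∑ σ, ∑ i, ∑ j, ∑ k, a i j x * rd (e k) (rd (e j) (u σ)) x *
          ((2 * φ x * rd (e i) φ x * κ (gS e u x) +
        φ x ^ 2 * deriv κ (gS e u x) * rd (e i) (gS e u) x) * rd (e k) (u σ) x +
        φ x ^ 2 * κ (gS e u x) * rd (e i) (rd (e k) (u σ)) x)) +
        (∑ σ, ∑ i, ∑ j, ∑ k, (rd (e i) (a i j) x * rd (e k) (rd (e j) (u σ)) x -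
      rd (e k) (a i j) x * rd (e i) (rd (e j) (u σ)) x) *
        (φ x ^ 2 * κ (gS e u x) * rd (e k) (u σ) x)) -
        ∑ σ, ∑ i, ∑ j, ∑ k, a i j x * rd (e i) (rd (e j) (u σ)) x *
          ((2 * φ x * rd (e k) φ x * κ (gS e u x) +
        φ x ^ 2 * deriv κ (gS e u x) * rd (e k) (gS e u) x) * rd (e k) (u σ) x +
        φ x ^ 2 * κ (gS e u x) * rd (e k) (rd (e k) (u σ)) x)) := by
      simp only [ht, hΦ', Finset.sum_add_distrib, Finset.sum_sub_distrib]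
      rfl
    rw [hsum]
    by_cases hx : φ x = 0
    · have := hBd0 x
      simp only [hx]
      simpa using this
    by_cases hk : κ (gS e u x) ≠ 0 ∨ deriv κ (gS e u x) ≠ 0
    · exact pointwiseB (V := fun σ k => rd (e k) (u σ) x)
        (V2 := fun σ k i => rd (e i) (rd (e k) (u σ)) x) (a := fun i j => a i j x)
        (da := fun k i j => rd (e k) (a i j) x) (dφ := fun k => rd (e k) φ x)
        (dS := fun k => rd (e k) (gS e u) x) (φ := φ x) (κ := κ (gS e u x))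
        (κ' := deriv κ (gS e u x)) (fun σ k i => rd_comm (hu σ) _ _ _)
        (fun i => gS_rd e hu (e i) x) hθ hA0 hM0 hMg0 (hκ01 _).1 (hκ01 _).2 (hκ' _)
        (hCk _ (Finset.sum_nonneg fun _ _ => Finset.sum_nonneg fun _ _ => sq_nonneg _))
        (haA x hx) (hdA x hx) (hco x hx) (hV x hx) (hg x hx hk)
    · push Not at hk
      have := hBd0 x
      simp only [hk.1, hk.2]
      simpa using this
  have hmain := integral_mono ?_ (hBdi.add hTi) hpt
  · rw [integral_const_mul, integral_add' hBdi hTi, hT0, add_zero] at hmain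
    calc ∫ x, φ x ^ 2 * (κ (gS e u x) * gH e u x) ∂μ =
        2 / θ * (θ / 2 * ∫ x, φ x ^ 2 * (κ (gS e u x) * gH e u x) ∂μ) := by field_simp
      _ ≤ _ := mul_le_mul_of_nonneg_left hmain (by positivity)
  · refine Integrable.const_mul ?_ _
    refine Continuous.integrable_of_hasCompactSupport ?_
      (HasCompactSupport.intro hcs fun x hx => by simp [(hφ0 x hx).1])
    refine (hφ.continuous.pow 2).mul (hκS.continuous.mul ?_)
    unfold gH
    exact continuous_finsetSum _ fun σ _ => continuous_finsetSum _ fun k _ =>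
      continuous_finsetSum _ fun i _ => ((rd_smooth _ (hVs σ k)).continuous).pow 2

end energy

end Pool.Agent.Work.MP_375441_an
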