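import Pool.Agent.Work.MP_375441_an.CommB
import Pool.Agent.Work.MP_375441_an.EnergyB

/-!
# Removal of the zero set of the gradient for a real second order equation
-/

open MeasureTheory Set Filter Topology Function Metric Module
open scoped ContDiff

namespace Pool.Agent.Work.MP_375441_an

set_option linter.unusedSectionVars false

section norms
variable {E : Type*} {ι : Type*} [Fintype ι]

/-- Euclidean length of a finite family of complex numbers -/
noncomputable def nE (V : ι → ℂ) : ℝ := Real.sqrt (∑ j, ‖V j‖ ^ 2)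

lemma nE_nonneg (V : ι → ℂ) : 0 ≤ nE V := Real.sqrt_nonneg _

lemma nE_sq (V : ι → ℂ) : nE V ^ 2 = ∑ j, ‖V j‖ ^ 2 :=
  Real.sq_sqrt (Finset.sum_nonneg fun _ _ => sq_nonneg _)

lemma nE_eq (V : ι → ℂ) : nE V = ‖(WithLp.toLp 2 V : EuclideanSpace ℂ ι)‖ := by
  rw [EuclideanSpace.norm_eq]
  rfl

lemma norm_le_nE (V : ι → ℂ) (j : ι) : ‖V j‖ ≤ nE V := by
  refine Real.le_sqrt_of_sq_le ?_
  exact Finset.single_le_sum (f := fun j => ‖V j‖ ^ 2) (fun _ _ => sq_nonneg _) (Finset.mem_univ j)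

lemma nE_eq_zero {V : ι → ℂ} : nE V = 0 ↔ ∀ j, V j = 0 := by
  constructor
  · intro h j
    have := norm_le_nE V j
    rw [h] at this
    exact norm_le_zero_iff.mp this
  · intro h
    unfold nE
    simp [h]

lemma nE_sub_le (V V' : ι → ℂ) {c : ℝ} (h : ∀ j, ‖V j - V' j‖ ≤ c) :
    |nE V - nE V'| ≤ Fintype.card ι * c := by
  rw [nE_eq, nE_eq]
  refine (abs_norm_sub_norm_le _ _).trans ?_
  rw [← WithLp.toLp_sub, EuclideanSpace.norm_eq]
  have h1 : Real.sqrt (∑ j, ‖(WithLp.toLp 2 (V - V') : EuclideanSpace ℂ ι) j‖ ^ 2) ≤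
      ∑ j, ‖V j - V' j‖ := by
    refine Real.sqrt_le_iff.mpr ⟨Finset.sum_nonneg fun _ _ => norm_nonneg _, ?_⟩
    exact Finset.sum_sq_le_sq_sum_of_nonneg fun _ _ => norm_nonneg _
  refine h1.trans ?_
  refine (Finset.sum_le_card_nsmul _ _ c fun i _ => h i).trans ?_
  rw [nsmul_eq_mul, Finset.card_univ]

lemma nE_continuous [TopologicalSpace E] {V : ι → E → ℂ} (hV : ∀ j, Continuous (V j)) :
    Continuous fun x => nE fun j => V j x := by
  unfold nE
  exact Real.continuous_sqrt.comp (continuous_finsetSum _ fun j _ => (hV j).norm.pow 2)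

end norms

variable {E : Type*} [NormedAddCommGroup E] [NormedSpace ℝ E] [MeasurableSpace E] [BorelSpace E]
  [FiniteDimensional ℝ E] {μ : Measure E} [μ.IsAddHaarMeasure] {ι : Type*} [Fintype ι]

/-- real and imaginary parts -/
noncomputable def parts (u : E → ℂ) : Bool → E → ℝ := fun b x => if b then (u x).re else (u x).im

lemma parts_smooth {u : E → ℂ} (hu : ContDiff ℝ ∞ u) (b : Bool) : ContDiff ℝ ∞ (parts u b) := by
  cases b
  · exact Complex.imCLM.contDiff.comp hu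
  · exact Complex.reCLM.contDiff.comp hu

lemma parts_rd {u : E → ℂ} (hu : ContDiff ℝ ∞ u) (v : E) (b : Bool) :
    rd v (parts u b) = parts (pd v u) b := by
  funext x
  cases b
  · exact pd_im (hu.differentiable (by simp) x) v
  · exact pd_re (hu.differentiable (by simp) x) v

lemma parts_sq (u : E → ℂ) (x : E) : ∑ b, parts u b x ^ 2 = ‖u x‖ ^ 2 := by
  rw [Fintype.sum_bool, ← Complex.normSq_eq_norm_sq, Complex.normSq_apply]
  simp [parts]
  ring

lemma pd_smooth {u : E → ℂ} (hu : ContDiff ℝ ∞ u) (v : E) : ContDiff ℝ ∞ (pd v u) :=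
  pd_contDiff v hu (by simp)

lemma gS_parts (e : ι → E) {u : E → ℂ} (hu : ContDiff ℝ ∞ u) (x : E) :
    gS e (parts u) x = ∑ k, ‖pd (e k) u x‖ ^ 2 := by
  unfold gS
  rw [Finset.sum_comm]
  refine Finset.sum_congr rfl fun k _ => ?_
  rw [← parts_sq]
  refine Finset.sum_congr rfl fun b _ => ?_
  rw [parts_rd hu]

lemma gH_parts (e : ι → E) {u : E → ℂ} (hu : ContDiff ℝ ∞ u) (x : E) :
    gH e (parts u) x = ∑ k, ∑ i, ‖pd (e i) (pd (e k) u) x‖ ^ 2 := by
  unfold gH
  rw [Finset.sum_comm]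
  refine Finset.sum_congr rfl fun k _ => ?_
  rw [Finset.sum_comm]
  refine Finset.sum_congr rfl fun i _ => ?_
  rw [← parts_sq]
  refine Finset.sum_congr rfl fun b _ => ?_
  rw [parts_rd hu, parts_rd (pd_smooth hu _)]

lemma parts_abs_le (u : E → ℂ) (b : Bool) (x : E) : |parts u b x| ≤ ‖u x‖ := by
  cases b
  · exact Complex.abs_im_le_norm _
  · exact Complex.abs_re_le_norm _

lemma parts_sum (a : ι → ι → ℝ) (Q : ι → ι → E → ℂ) (b : Bool) (x : E) :
    ∑ i, ∑ j, a i j * parts (Q i j) b x =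
      parts (fun x => ∑ i, ∑ j, (a i j : ℂ) * Q i j x) b x := by
  cases b
  · simp [parts, Complex.im_sum]
  · simp [parts, Complex.re_sum]

lemma mol_unif_ev {g : E → ℂ} (hg : Continuous g) (hc : HasCompactSupport g) {ε : ℝ} (hε : 0 < ε) :
    ∀ᶠ δ in 𝓝[>] (0:ℝ), ∀ x, ‖mol μ δ g x - g x‖ ≤ ε := by
  obtain ⟨δ₀, hδ₀, h⟩ := mol_unif μ hg hc hε
  filter_upwards [Ioc_mem_nhdsGT hδ₀] with δ hδ x
  rw [← dist_eq_norm]
  exact h δ hδ.1 hδ.2 x

lemma osc_ev {g : E → ℂ} (hg : Continuous g) (hc : HasCompactSupport g) {ε : ℝ} (hε : 0 < ε) :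
    ∀ᶠ δ in 𝓝[>] (0:ℝ), ∀ x, ∀ y ∈ closedBall x δ, ‖g y - g x‖ ≤ ε := by
  have huc : UniformContinuous g := hg.uniformContinuous_of_tendsto_cocompact hc.is_zero_at_infty
  obtain ⟨δc, hδc, hcc⟩ := Metric.uniformContinuous_iff.mp huc ε hε
  filter_upwards [Ioc_mem_nhdsGT (half_pos hδc)] with δ hδ x y hy
  rw [← dist_eq_norm]
  exact (hcc ((mem_closedBall.mp hy).trans_lt (lt_of_le_of_lt hδ.2 (half_lt_self hδc)))).le

lemma ball_ev {K U : Set E} (hK : IsCompact K) (hU : IsOpen U) (hKU : K ⊆ U) :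
    ∀ᶠ δ in 𝓝[>] (0:ℝ), ∀ x ∈ K, closedBall x δ ⊆ U := by
  obtain ⟨δd, hδd, hd⟩ := hK.exists_cthickening_subset_open hU hKU
  filter_upwards [Ioc_mem_nhdsGT hδd] with δ hδ x hx
  exact ((closedBall_subset_closedBall hδ.2).trans (closedBall_subset_cthickening hx δd)).trans hd

lemma bdd_of_cs {g : E → ℝ} (hg : Continuous g) (hc : HasCompactSupport g) :
    ∃ C, 0 ≤ C ∧ ∀ x, |g x| ≤ C := by
  obtain ⟨C, hC⟩ := hg.bounded_above_of_compact_support hc
  exact ⟨C, (norm_nonneg _).trans (hC 0), fun x => hC x⟩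

/-- uniform bound of the coefficients and their first derivatives -/
lemma coef_bdd (e : ι → E) {a : ι → ι → E → ℝ} (ha : ∀ i j, ContDiff ℝ ∞ (a i j))
    (hac : ∀ i j, HasCompactSupport (a i j)) :
    ∃ A, 0 ≤ A ∧ (∀ i j x, |a i j x| ≤ A) ∧ ∀ k i j x, |rd (e k) (a i j) x| ≤ A := by
  have h1 : ∀ i j, ∃ C, 0 ≤ C ∧ ∀ x, |a i j x| ≤ C := fun i j =>
    bdd_of_cs (ha i j).continuous (hac i j)
  have h2 : ∀ k i j, ∃ C, 0 ≤ C ∧ ∀ x, |rd (e k) (a i j) x| ≤ C := fun k i j =>
    bdd_of_cs (rd_smooth _ (ha i j)).continuous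
      (HasCompactSupport.intro (hac i j) fun x hx => rd_zero_off _ hx)
  choose C1 hC10 hC1 using h1
  choose C2 hC20 hC2 using h2
  refine ⟨∑ i, ∑ j, C1 i j + ∑ k, ∑ i, ∑ j, C2 k i j, ?_, ?_, ?_⟩
  · exact add_nonneg (Finset.sum_nonneg fun _ _ => Finset.sum_nonneg fun _ _ => hC10 _ _)
      (Finset.sum_nonneg fun _ _ => Finset.sum_nonneg fun _ _ => Finset.sum_nonneg fun _ _ =>
        hC20 _ _ _)
  · intro i j x
    have e1 : C1 i j ≤ ∑ j, C1 i j :=
      Finset.single_le_sum (f := fun j => C1 i j) (fun _ _ => hC10 _ _) (Finset.mem_univ j)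
    have e2 : ∑ j, C1 i j ≤ ∑ i, ∑ j, C1 i j :=
      Finset.single_le_sum (f := fun i => ∑ j, C1 i j)
        (fun _ _ => Finset.sum_nonneg fun _ _ => hC10 _ _) (Finset.mem_univ i)
    have e3 : 0 ≤ ∑ k, ∑ i, ∑ j, C2 k i j := Finset.sum_nonneg fun _ _ =>
      Finset.sum_nonneg fun _ _ => Finset.sum_nonneg fun _ _ => hC20 _ _ _
    linarith [hC1 i j x]
  · intro k i j x
    have e1 : C2 k i j ≤ ∑ j, C2 k i j :=
      Finset.single_le_sum (f := fun j => C2 k i j) (fun _ _ => hC20 _ _ _) (Finset.mem_univ j)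
    have e2 : ∑ j, C2 k i j ≤ ∑ i, ∑ j, C2 k i j :=
      Finset.single_le_sum (f := fun i => ∑ j, C2 k i j)
        (fun _ _ => Finset.sum_nonneg fun _ _ => hC20 _ _ _) (Finset.mem_univ i)
    have e4 : ∑ i, ∑ j, C2 k i j ≤ ∑ k, ∑ i, ∑ j, C2 k i j :=
      Finset.single_le_sum (f := fun k => ∑ i, ∑ j, C2 k i j)
        (fun _ _ => Finset.sum_nonneg fun _ _ => Finset.sum_nonneg fun _ _ => hC20 _ _ _)
        (Finset.mem_univ k)
    have e3 : 0 ≤ ∑ i, ∑ j, C1 i j := Finset.sum_nonneg fun _ _ =>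
      Finset.sum_nonneg fun _ _ => hC10 _ _
    linarith [hC2 k i j x]

lemma norm_sum_le_card {κ : Type*} [Fintype κ] {F : κ → ℂ} {B : ℝ} (h : ∀ i, ‖F i‖ ≤ B) :
    ‖∑ i, F i‖ ≤ Fintype.card κ * B := by
  refine (norm_sum_le _ _).trans ?_
  refine (Finset.sum_le_card_nsmul _ _ B fun i _ => h i).trans ?_
  rw [nsmul_eq_mul, Finset.card_univ]

theorem claimB_bound (e : ι → E) {B U : Set E} (hB : IsOpen B) (hU : IsOpen U)
    {W : E → ℂ} (hW : ContDiff ℝ 1 W) (hWc : HasCompactSupport W) {h : E → ℂ} (hh : Continuous h)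
    (hhc : HasCompactSupport h) {a : ι → ι → E → ℝ} (ha : ∀ i j, ContDiff ℝ ∞ (a i j))
    (hac : ∀ i j, HasCompactSupport (a i j)) {θ : ℝ} (hθ : 0 < θ)
    (hco : ∀ x ∈ B, ∀ ξ : ι → ℝ, θ * ∑ i, ξ i ^ 2 ≤ ∑ i, ∑ j, a i j x * ξ i * ξ j)
    (hWU : ∀ x ∈ B, x ∉ U → ∀ j, pd (e j) W x = 0)
    (heq : ∀ ψ, IsTest U ψ → ∑ i, ∑ j, ∫ x, pd (e j) W x *
      pd (e i) (fun y => ((a i j y : ℝ) : ℂ) * ψ y) x ∂μ = ∫ x, h x * ψ x ∂μ)
    {ψ : E → ℂ} (hψ : IsTest B ψ) :
    ∃ A D₁ D₂ F : ℝ, 0 ≤ F ∧ ∀ ε : ℝ, 0 < ε → ε ≤ 1 → ∀ η : ℝ, 0 < η →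
      ‖∑ i, ∑ j, ∫ x, pd (e j) W x * pd (e i) (fun y => ((a i j y : ℝ) : ℂ) * ψ y) x ∂μ
        - ∫ x, {x | nE (fun j => pd (e j) W x) ≠ 0}.indicator h x * ψ x ∂μ‖ ≤
      A * ε + (D₁ + D₂ / η) * μ.real {x ∈ tsupport ψ | nE (fun j => pd (e j) W x) ≠ 0 ∧
        nE (fun j => pd (e j) W x) ≤ 3 * ε} + F * η := by
  classical
  obtain ⟨φ, hφs, hφc, hφB, hφ01, Vn, hVn, hKV, hφ1⟩ := exists_cutoff hψ.comp hB hψ.supp
  set V : ι → E → ℂ := fun j => pd (e j) W with hV
  have hVc : ∀ j, Continuous (V j) := fun j => (pd_contDiff (m := 0) _ hW (by simp)).continuous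
  have hVcs : ∀ j, HasCompactSupport (V j) := fun j =>
    hWc.of_isClosed_subset (isClosed_tsupport _) (pd_tsupport _ W)
  obtain ⟨A, hA0, hA, hdA⟩ := coef_bdd e ha hac
  obtain ⟨Mh, hMh⟩ := hh.bounded_above_of_compact_support hhc
  obtain ⟨Mψ, hMψ⟩ := hψ.smooth.continuous.bounded_above_of_compact_support hψ.comp
  have hMh0 : 0 ≤ Mh := (norm_nonneg _).trans (hMh 0)
  have hMψ0 : 0 ≤ Mψ := (norm_nonneg _).trans (hMψ 0)
  set nV : E → ℝ := fun x => nE fun j => V j x with hnV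
  have hnVc : Continuous nV := nE_continuous hVc
  obtain ⟨MV, hMV0, hMV⟩ := bdd_of_cs hnVc (HasCompactSupport.intro hWc fun x hx => by
    change nE (fun j => V j x) = 0
    rw [nE_eq_zero]
    intro j
    exact image_eq_zero_of_notMem_tsupport fun h => hx (pd_tsupport _ _ h))
  -- the complex coefficients
  set ac : ι → ι → E → ℂ := fun i j x => ((a i j x : ℝ) : ℂ) with hac'
  have hacs : ∀ i j, ContDiff ℝ ∞ (ac i j) := fun i j => Complex.ofRealCLM.contDiff.comp (ha i j)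
  have haccs : ∀ i j, HasCompactSupport (ac i j) := fun i j =>
    (hac i j).comp_left (g := fun t : ℝ => (t : ℂ)) (by simp)
  -- the commutator constants
  have hcm : ∀ i j, ∃ C, 0 ≤ C ∧ ∀ δ, 0 < δ → ∀ x, ∀ η,
      (∀ y ∈ closedBall x δ, ‖V j y - V j x‖ ≤ η) →
      ‖∫ y, V j y * pd (e i) (fun y => ac i j y * psi μ δ x y) y ∂μ +
        ac i j x * pd (e i) (mol μ δ (V j)) x‖ ≤ C * η := fun i j =>
    comm_one μ (e i) (hVc j) ((hacs i j).of_le (by simp)) (haccs i j)
  choose Cc hCc0 hCc using hcm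
  set C₁ : ℝ := ∑ i, ∑ j, Cc i j with hC₁
  have hC₁0 : 0 ≤ C₁ := Finset.sum_nonneg fun _ _ => Finset.sum_nonneg fun _ _ => hCc0 _ _
  obtain ⟨Md, hMd0, hMd⟩ := kap_deriv_bdd
  obtain ⟨C, hC⟩ := energyB (μ := μ) (τ := Bool) e hφs hφc (θ := θ) (A := A) (M := MV + 1)
    (Mg := C₁ + Mh + 1) (Ck := 4 * Md) hθ hA0 (by positivity) (by positivity) (by positivity)
  set C' := max C 0 with hC'
  have hC'0 : 0 ≤ C' := le_max_right _ _
  set N : ℝ := (Fintype.card ι : ℝ) with hN
  have hN0 : 0 ≤ N := Nat.cast_nonneg _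
  set k : ι → ι → E → ℂ := fun i j => pd (e i) (fun y => ac i j y * ψ y) with hk
  set A1 : ℝ := ∑ i, ∑ j, ∫ x, ‖k i j x‖ ∂μ with hA1
  set Iψ : ℝ := ∫ x, ‖ψ x‖ ∂μ with hIψ
  set E₀ : ℝ := N ^ 3 * A * (4 * (4 * Md)) with hE₀
  have hE₀0 : 0 ≤ E₀ := by positivity
  refine ⟨3 * A1 + (C₁ + 1) * Iψ, Mψ * Mh, Mψ * E₀ / 2, Mψ * E₀ * C' / 2, by positivity,
    fun ε hε hε1 η hη => ?_⟩
  -- choice of δ
  have hKe : IsCompact {x ∈ tsupport φ | ε / 4 ≤ nV x} :=
    hφc.inter_right (isClosed_le continuous_const hnVc)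
  have hKeU : {x ∈ tsupport φ | ε / 4 ≤ nV x} ⊆ U := by
    rintro x ⟨hx1, hx2⟩
    by_contra hcon
    have h1 := hWU x (hφB hx1) hcon
    have h2 : nV x = 0 := nE_eq_zero.mpr h1
    rw [h2] at hx2
    linarith
  have ev1 : ∀ᶠ δ in 𝓝[>] (0:ℝ), ∀ j, ∀ x, ‖mol μ δ (V j) x - V j x‖ ≤ ε / (4 * (N + 1)) := by
    rw [eventually_all]
    exact fun j => mol_unif_ev (hVc j) (hVcs j) (by positivity)
  have ev2 : ∀ᶠ δ in 𝓝[>] (0:ℝ), ∀ j, ∀ x, ∀ y ∈ closedBall x δ, ‖V j y - V j x‖ ≤ ε := by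
    rw [eventually_all]
    exact fun j => osc_ev (hVc j) (hVcs j) hε
  have ev3 : ∀ᶠ δ in 𝓝[>] (0:ℝ), ∀ x, ‖mol μ δ h x - h x‖ ≤ ε := mol_unif_ev hh hhc hε
  have ev4 := ball_ev hKe hU hKeU
  have ev5 : ∀ᶠ δ in 𝓝[>] (0:ℝ), 0 < δ := self_mem_nhdsWithin
  obtain ⟨δ, ⟨⟨⟨⟨hδ1, hδ2⟩, hδ3⟩, hδ4⟩, hδ⟩⟩ := ((((ev1.and ev2).and ev3).and ev4).and ev5).exists
  set u := mol μ δ W with hu
  set hd' := mol μ δ h with hhd'
  have hus : ContDiff ℝ ∞ u := mol_contDiff μ hδ hW.continuous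
  set P : ι → E → ℂ := fun j => pd (e j) u with hP
  have hPs : ∀ j, ContDiff ℝ ∞ (P j) := fun j => pd_smooth hus _
  have hPV : ∀ j, P j = mol μ δ (V j) := fun j => mol_pd' μ hW hWc (e j)
  set nP : E → ℝ := fun x => nE fun j => P j x with hnP
  have hPV' : ∀ j x, ‖P j x - V j x‖ ≤ ε / 4 := by
    intro j x
    rw [hPV j]
    refine (hδ1 j x).trans ?_
    rw [div_le_div_iff₀ (by positivity) (by norm_num)]
    nlinarith
  have hnn : ∀ x, |nP x - nV x| ≤ ε / 4 := by
    intro x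
    refine (nE_sub_le (fun j => P j x) (fun j => V j x) (fun j => by
      rw [hPV j]; exact hδ1 j x)).trans ?_
    rw [← hN]
    have h1 : N * (ε / (4 * (N + 1))) = (ε / 4) * (N / (N + 1)) := by
      field_simp
    rw [h1]
    have h2 : N / (N + 1) ≤ 1 := by
      rw [div_le_one (by positivity)]; linarith
    nlinarith
  have hn1 : ∀ x, nP x ≤ nV x + ε / 4 := fun x => by linarith [(abs_le.mp (hnn x)).2]
  have hn2 : ∀ x, nV x ≤ nP x + ε / 4 := fun x => by linarith [(abs_le.mp (hnn x)).1]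
  have hhh : ∀ x, ‖hd' x - h x‖ ≤ ε := hδ3
  set Q : ι → ι → E → ℂ := fun i j => pd (e i) (P j) with hQ
  have hQs : ∀ i j, ContDiff ℝ ∞ (Q i j) := fun i j => pd_smooth (hPs j) _
  set S : E → ℝ := fun x => ∑ j, ‖P j x‖ ^ 2 with hS
  have hSn : ∀ x, S x = nP x ^ 2 := fun x => (nE_sq _).symm
  have hgS : ∀ x, gS e (parts u) x = nP x ^ 2 := fun x => by rw [gS_parts e hus, ← hSn]
  set Hh : E → ℝ := fun x => gH e (parts u) x with hHh
  have hHh' : ∀ x, Hh x = ∑ k, ∑ i, ‖Q i k x‖ ^ 2 := fun x => gH_parts e hus x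
  have hHh0 : ∀ x, 0 ≤ Hh x := fun x => by
    rw [hHh']
    exact Finset.sum_nonneg fun _ _ => Finset.sum_nonneg fun _ _ => sq_nonneg _
  have hQle : ∀ i j x, ‖Q i j x‖ ≤ Real.sqrt (Hh x) := by
    intro i j x
    refine Real.le_sqrt_of_sq_le ?_
    rw [hHh']
    have e1 : ‖Q i j x‖ ^ 2 ≤ ∑ i, ‖Q i j x‖ ^ 2 :=
      Finset.single_le_sum (f := fun i => ‖Q i j x‖ ^ 2) (fun _ _ => sq_nonneg _)
        (Finset.mem_univ i)
    have e2 : ∑ i, ‖Q i j x‖ ^ 2 ≤ ∑ k, ∑ i, ‖Q i k x‖ ^ 2 :=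
      Finset.single_le_sum (f := fun k => ∑ i, ‖Q i k x‖ ^ 2)
        (fun _ _ => Finset.sum_nonneg fun _ _ => sq_nonneg _) (Finset.mem_univ j)
    linarith
  -- the commutator estimate
  have hcomm : ∀ x, φ x ≠ 0 → ε / 2 ≤ nP x →
      ‖hd' x + ∑ i, ∑ j, ac i j x * Q i j x‖ ≤ C₁ * ε := by
    intro x hx hux
    have hxK : x ∈ {x ∈ tsupport φ | ε / 4 ≤ nV x} :=
      ⟨subset_tsupport _ hx, by linarith [hn1 x]⟩
    have h1 := heq _ (psi_test μ hδ (hδ4 x hxK))
    rw [← psi_mol] at h1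
    have h2 : hd' x + ∑ i, ∑ j, ac i j x * Q i j x = ∑ i, ∑ j,
        (∫ y, V j y * pd (e i) (fun y => ac i j y * psi μ δ x y) y ∂μ +
        ac i j x * pd (e i) (mol μ δ (V j)) x) := by
      simp only [Finset.sum_add_distrib]
      rw [hhd', ← h1]
      congr 1
      refine Finset.sum_congr rfl fun i _ => Finset.sum_congr rfl fun j _ => ?_
      rw [hQ, ← hPV j]
    rw [h2, hC₁, Finset.sum_mul]
    refine (norm_sum_le _ _).trans (Finset.sum_le_sum fun i _ => ?_)
    rw [Finset.sum_mul]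
    refine (norm_sum_le _ _).trans (Finset.sum_le_sum fun j _ => ?_)
    exact hCc i j δ hδ x ε (hδ2 j x)
  -- the energy estimate
  have hE := hC a (parts u) (kape (ε / 2)) ha (parts_smooth hus) (kape_contDiff _) (kape_mem _)
    (kape_deriv_nonneg _) (fun t ht => kape_mul_deriv hMd (ε := ε / 2) (by positivity) ht)
    (fun x _ i j => hA i j x) (fun x _ k i j => hdA k i j x)
    (fun x hx => hco x (hφB (subset_tsupport _ hx)))
    (fun x _ b j => by
      rw [parts_rd hus]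
      refine (parts_abs_le _ _ _).trans ((norm_le_nE (fun j => P j x) j).trans ?_)
      have h1 := hn1 x
      have h2 := (le_abs_self _).trans (hMV x)
      change nP x ≤ _
      linarith)
    (fun x hx hkx b => by
      rw [hgS] at hkx
      have h1 := kape_ne (ε := ε / 2) (by positivity) (nE_nonneg _) hkx
      have h2 := hcomm x hx h1
      have h3 : ∀ i j, a i j x * rd (e i) (rd (e j) (parts u b)) x =
          a i j x * parts (Q i j) b x := fun i j => by
        rw [parts_rd hus, parts_rd (hPs j)]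
      simp only [h3]
      rw [parts_sum (fun i j => a i j x) Q b x]
      refine (parts_abs_le _ _ _).trans ?_
      have h4 : ∑ i, ∑ j, ((a i j x : ℝ) : ℂ) * Q i j x =
          (hd' x + ∑ i, ∑ j, ac i j x * Q i j x) - (hd' x - h x) - h x := by
        simp only [hac']; ring
      change ‖∑ i, ∑ j, ((a i j x : ℝ) : ℂ) * Q i j x‖ ≤ _
      rw [h4]
      refine (norm_sub_le _ _).trans ?_
      refine (add_le_add (norm_sub_le _ _) le_rfl).trans ?_
      have h5 : C₁ * ε ≤ C₁ * 1 := mul_le_mul_of_nonneg_left hε1 hC₁0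
      linarith [hhh x, hMh x])
  have hE' := hE.trans (le_max_left C 0)
  rw [← hC'] at hE'
  -- the truncated field
  set kS : E → ℝ := fun x => kape ε (gS e (parts u) x) with hkS
  have hgSs : ContDiff ℝ ∞ (gS e (parts u)) := gS_smooth e (parts_smooth hus)
  have hkSs : ContDiff ℝ ∞ kS := (kape_contDiff ε).comp hgSs
  have hkSc : ContDiff ℝ ∞ (fun x => ((kS x : ℝ) : ℂ)) := Complex.ofRealCLM.contDiff.comp hkSs
  set g : ι → E → ℂ := fun j x => ((kS x : ℝ) : ℂ) * P j x with hg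
  have hgs : ∀ j, ContDiff ℝ ∞ (g j) := fun j => hkSc.mul (hPs j)
  have hkS' : ∀ i x, rd (e i) kS x =
      deriv (kape ε) (gS e (parts u) x) * rd (e i) (gS e (parts u)) x := by
    intro i x
    have h2 : HasFDerivAt kS (deriv (kape ε) (gS e (parts u) x) •
        fderiv ℝ (gS e (parts u)) x) x :=
      (((kape_contDiff ε).differentiable (by simp) _).hasDerivAt).comp_hasFDerivAt x
        (hgSs.differentiable (by simp) x).hasFDerivAt
    unfold rd
    rw [h2.fderiv]
    rfl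
  have hgp : ∀ i j x, pd (e i) (g j) x = ((rd (e i) kS x : ℝ) : ℂ) * P j x +
      ((kS x : ℝ) : ℂ) * Q i j x := by
    intro i j x
    have h1 : pd (e i) (fun x => ((kS x : ℝ) : ℂ)) x = ((rd (e i) kS x : ℝ) : ℂ) := by
      have h2 : HasFDerivAt (fun x => ((kS x : ℝ) : ℂ))
          (Complex.ofRealCLM.comp (fderiv ℝ kS x)) x :=
        Complex.ofRealCLM.hasFDerivAt.comp x (hkSs.differentiable (by simp) x).hasFDerivAt
      unfold pd
      rw [h2.fderiv]
      rfl
    simp only [hg]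
    rw [pd_mul (hkSc.differentiable (by simp) x) ((hPs j).differentiable (by simp) x), h1]
  have hψ1 : IsTestOne univ ψ := hψ.one.mono (subset_univ _)
  have haψ : ∀ i j, IsTestOne univ (fun y => ac i j y * ψ y) := fun i j =>
    hψ1.mul_left isOpen_univ subset_rfl ((hacs i j).of_le (by simp)).contDiffOn
  have hkc : ∀ i j, Continuous (k i j) := fun i j => (haψ i j).continuous_pd _
  have hkcs : ∀ i j, HasCompactSupport (k i j) := fun i j =>
    (haψ i j).comp.of_isClosed_subset (isClosed_tsupport _) (pd_tsupport _ _)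
  set Z : E → ℂ := fun x => ∑ i, ∑ j, pd (e i) (g j) x * (ac i j x * ψ x) with hZ
  have hpgc : ∀ i j, Continuous (pd (e i) (g j)) := fun i j => (pd_smooth (hgs j) _).continuous
  have hZi1 : ∀ i j, Integrable (fun x => pd (e i) (g j) x * (ac i j x * ψ x)) μ := fun i j =>
    ((hpgc i j).mul (haψ i j).continuous).integrable_of_hasCompactSupport (haψ i j).comp.mul_left
  have hZi : Integrable Z μ := integrable_finsetSum _ fun i _ => integrable_finsetSum _
    fun j _ => hZi1 i j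
  have hid : ∑ i, ∑ j, ∫ x, g j x * k i j x ∂μ = - ∫ x, Z x ∂μ := by
    rw [hZ, integral_finsetSum _ fun i _ => integrable_finsetSum _ fun j _ => hZi1 i j,
      ← Finset.sum_neg_distrib]
    refine Finset.sum_congr rfl fun i _ => ?_
    rw [integral_finsetSum _ fun j _ => hZi1 i j, ← Finset.sum_neg_distrib]
    refine Finset.sum_congr rfl fun j _ => ?_
    exact int_pd (μ := μ) isOpen_univ ((hgs j).of_le (by simp)).contDiffOn (haψ i j) (e i)
  -- the pointwise estimate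
  set Aε : Set E := {x ∈ tsupport ψ | nV x ≠ 0 ∧ nV x ≤ 3 * ε} with hAε
  set Pw : E → ℝ := fun x => φ x ^ 2 * (kape (ε / 2) (gS e (parts u) x) * Hh x) with hPw
  have hPw0 : ∀ x, 0 ≤ Pw x := fun x =>
    mul_nonneg (sq_nonneg _) (mul_nonneg (kape_mem _ _).1 (hHh0 x))
  have hind0 : ∀ x, 0 ≤ Aε.indicator (fun _ => (1:ℝ)) x := fun x =>
    indicator_nonneg (fun _ _ => zero_le_one) x
  have hpt : ∀ x, ‖- Z x - {x | nV x ≠ 0}.indicator h x * ψ x‖ ≤
      (C₁ + 1) * ε * ‖ψ x‖ + (Mψ * Mh + Mψ * E₀ / 2 / η) *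
        Aε.indicator (fun _ => (1:ℝ)) x + Mψ * E₀ * (η / 2) * Pw x := by
    intro x
    have hRHS : 0 ≤ (C₁ + 1) * ε * ‖ψ x‖ + (Mψ * Mh + Mψ * E₀ / 2 / η) *
        Aε.indicator (fun _ => (1:ℝ)) x + Mψ * E₀ * (η / 2) * Pw x := by
      have h1 := hPw0 x
      have h3 := hind0 x
      positivity
    by_cases hx : x ∈ tsupport ψ
    swap
    · have h0 : ψ x = 0 := image_eq_zero_of_notMem_tsupport hx
      have h1 : Z x = 0 := by
        simp only [hZ, h0, mul_zero, Finset.sum_const_zero]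
      rw [h1, h0, mul_zero, neg_zero, sub_zero, norm_zero]
      rw [h0, norm_zero] at hRHS
      exact hRHS
    have hφx : φ x = 1 := hφ1 x (hKV hx)
    have hφx0 : φ x ≠ 0 := by rw [hφx]; exact one_ne_zero
    set κ : ℝ := kS x with hκ
    have hκe : κ = kape ε (nP x ^ 2) := by rw [hκ, hkS, ← hgS x]
    set κ' : ℝ := deriv (kape ε) (gS e (parts u) x) with hκ'
    have hκ'e : κ' = deriv (kape ε) (nP x ^ 2) := by rw [hκ', hgS x]
    have hκ0 : 0 ≤ κ := (kape_mem _ _).1
    have hκ1 : κ ≤ 1 := (kape_mem _ _).2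
    have hnκ : ‖(κ : ℂ)‖ = κ := by rw [Complex.norm_real, Real.norm_of_nonneg hκ0]
    set Er : ℂ := ∑ i, ∑ j, ac i j x * (((rd (e i) kS x : ℝ) : ℂ) * P j x) with hEr
    set AQ : ℂ := ∑ i, ∑ j, ac i j x * Q i j x with hAQ
    have hZx : Z x = ((κ : ℂ) * AQ + Er) * ψ x := by
      simp only [hZ, hEr, hAQ, hgp]
      rw [Finset.mul_sum, ← Finset.sum_add_distrib, Finset.sum_mul]
      refine Finset.sum_congr rfl fun i _ => ?_
      rw [Finset.mul_sum, ← Finset.sum_add_distrib, Finset.sum_mul]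
      refine Finset.sum_congr rfl fun j _ => ?_
      ring
    have hdec : - Z x - {x | nV x ≠ 0}.indicator h x * ψ x =
        (-((κ : ℂ) * (hd' x + AQ)) + (κ : ℂ) * (hd' x - h x) +
          ((κ : ℂ) * h x - {x | nV x ≠ 0}.indicator h x) + -Er) * ψ x := by
      rw [hZx]; ring
    rw [hdec, norm_mul]
    have b1 : ‖-((κ : ℂ) * (hd' x + AQ))‖ ≤ C₁ * ε := by
      rw [norm_neg, norm_mul, hnκ]
      by_cases hk0 : κ = 0
      · rw [hk0, zero_mul]; positivity
      · have h1 : ε ≤ nP x := kape_ne hε (nE_nonneg _) (Or.inl (by rw [← hκe]; exact hk0))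
        have h2 := hcomm x hφx0 (by linarith)
        calc κ * ‖hd' x + AQ‖ ≤ 1 * (C₁ * ε) :=
              mul_le_mul hκ1 h2 (norm_nonneg _) zero_le_one
          _ = _ := one_mul _
    have b2 : ‖(κ : ℂ) * (hd' x - h x)‖ ≤ ε := by
      rw [norm_mul, hnκ]
      calc κ * ‖hd' x - h x‖ ≤ 1 * ε := mul_le_mul hκ1 (hhh x) (norm_nonneg _) zero_le_one
        _ = _ := one_mul _
    have b3 : ‖(κ : ℂ) * h x - {x | nV x ≠ 0}.indicator h x‖ ≤
        Mh * Aε.indicator (fun _ => (1:ℝ)) x := by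
      by_cases hW0 : nV x = 0
      · have h1 : x ∉ {x | nV x ≠ 0} := fun h => h hW0
        have h2 : κ = 0 := by
          rw [hκe]
          refine kape_zero hε (nE_nonneg _) ?_
          have := hn1 x
          rw [hW0] at this
          change nP x ≤ ε
          linarith
        rw [indicator_of_notMem h1, h2]
        simp only [Complex.ofReal_zero, zero_mul, sub_zero, norm_zero]
        exact mul_nonneg hMh0 (hind0 x)
      · have h1 : x ∈ {x | nV x ≠ 0} := hW0
        rw [indicator_of_mem h1]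
        by_cases hW3 : nV x ≤ 3 * ε
        · have h2 : x ∈ Aε := ⟨hx, hW0, hW3⟩
          rw [indicator_of_mem h2, mul_one]
          have h3 : (κ : ℂ) * h x - h x = (((κ - 1 : ℝ)) : ℂ) * h x := by push_cast; ring
          rw [h3, norm_mul, Complex.norm_real, Real.norm_eq_abs]
          have h4 : |κ - 1| ≤ 1 := by rw [abs_le]; constructor <;> linarith
          calc |κ - 1| * ‖h x‖ ≤ 1 * Mh := mul_le_mul h4 (hMh x) (norm_nonneg _) zero_le_one
            _ = Mh := one_mul _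
        · push Not at hW3
          have h2 : κ = 1 := by
            rw [hκe]
            refine kape_one hε ?_
            have := hn2 x
            change 2 * ε ≤ nP x
            linarith
          rw [h2]
          simp only [Complex.ofReal_one, one_mul, sub_self, norm_zero]
          exact mul_nonneg hMh0 (hind0 x)
    have b4 : ‖-Er‖ ≤ E₀ * (1 / 2 / η * Aε.indicator (fun _ => (1:ℝ)) x + η / 2 * Pw x) := by
      rw [norm_neg]
      by_cases hk0 : κ' = 0
      · have h1 : Er = 0 := by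
          rw [hEr]
          refine Finset.sum_eq_zero fun i _ => Finset.sum_eq_zero fun j _ => ?_
          rw [hkS' i x, ← hκ', hk0]
          simp
        rw [h1, norm_zero]
        have h1 := hPw0 x
        have h3 := hind0 x
        positivity
      · obtain ⟨h1, h2⟩ := kape_deriv_supp hε (nE_nonneg (fun j => P j x))
          (by rw [hκ'e] at hk0; exact hk0)
        change ε ≤ nP x at h1
        change nP x ≤ 2 * ε at h2
        have hxA : x ∈ Aε := by
          refine ⟨hx, fun h0 => ?_, by linarith [hn2 x]⟩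
          have := hn1 x
          rw [h0] at this
          linarith
        have hk1 : kape (ε / 2) (gS e (parts u) x) = 1 := by
          rw [hgS]
          exact kape_one (ε := ε / 2) (by positivity) (by linarith)
        have hPwx : Pw x = Hh x := by
          simp only [hPw, hφx, hk1]; ring
        rw [indicator_of_mem hxA, hPwx, mul_one]
        set H2 := Real.sqrt (Hh x) with hH2
        have hH20 : 0 ≤ H2 := Real.sqrt_nonneg _
        have hH2s : H2 ^ 2 = Hh x := Real.sq_sqrt (hHh0 x)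
        have hκ'0 : 0 ≤ κ' := kape_deriv_nonneg _ _
        have h3 : nP x ^ 2 * κ' ≤ 4 * Md := by
          rw [hκ'e]; exact kape_mul_deriv hMd hε (sq_nonneg _)
        have hnP0 : 0 ≤ nP x := nE_nonneg _
        have h4 : ∀ i, |rd (e i) (gS e (parts u)) x| ≤ 4 * N * (nP x * H2) := by
          intro i
          rw [gS_rd e (parts_smooth hus)]
          have h5 : |∑ b : Bool, ∑ k, 2 * rd (e k) (parts u b) x *
              rd (e i) (rd (e k) (parts u b)) x| ≤
              Fintype.card Bool * (N * (2 * nP x * H2)) := by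
            refine abs_sum_le_card fun b => abs_sum_le_card fun k => ?_
            rw [abs_mul, abs_mul, abs_of_pos (by norm_num : (0:ℝ) < 2), parts_rd hus,
              parts_rd (hPs k)]
            have e1 : |parts (P k) b x| ≤ nP x :=
              (parts_abs_le _ _ _).trans (norm_le_nE (fun j => P j x) k)
            have e2 : |parts (Q i k) b x| ≤ H2 := (parts_abs_le _ _ _).trans (hQle i k x)
            change 2 * |parts (P k) b x| * |parts (Q i k) b x| ≤ _
            gcongr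
          refine h5.trans (le_of_eq ?_)
          rw [Fintype.card_bool]
          push_cast
          ring
        have h6 : ‖Er‖ ≤ E₀ * H2 := by
          have h7 : ‖Er‖ ≤ N * (N * (A * (κ' * (4 * N * (nP x * H2)) * nP x))) := by
            rw [hEr]
            refine norm_sum_le_card fun i => norm_sum_le_card fun j => ?_
            have e0 : ‖((rd (e i) kS x : ℝ) : ℂ)‖ =
                κ' * |rd (e i) (gS e (parts u)) x| := by
              rw [Complex.norm_real, Real.norm_eq_abs, hkS' i x, abs_mul, ← hκ',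
                abs_of_nonneg hκ'0]
            rw [norm_mul, norm_mul, e0]
            have e1 : ‖ac i j x‖ ≤ A := by
              simp only [hac', Complex.norm_real, Real.norm_eq_abs]
              exact hA i j x
            have e2 := h4 i
            have e3 : ‖P j x‖ ≤ nP x := norm_le_nE (fun j => P j x) j
            gcongr
          refine h7.trans ?_
          calc N * (N * (A * (κ' * (4 * N * (nP x * H2)) * nP x))) =
              N ^ 3 * A * (4 * (nP x ^ 2 * κ')) * H2 := by ring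
            _ ≤ N ^ 3 * A * (4 * (4 * Md)) * H2 := by gcongr
        have h8 : H2 ≤ 1 / 2 / η + η / 2 * H2 ^ 2 := by
          have : 0 ≤ (η * H2 - 1) ^ 2 / (2 * η) := by positivity
          have h8 : (η * H2 - 1) ^ 2 / (2 * η) = 1 / 2 / η + η / 2 * H2 ^ 2 - H2 := by
            field_simp; ring
          linarith
        rw [← hH2s]
        exact h6.trans (mul_le_mul_of_nonneg_left h8 hE₀0)
    have hsum : ‖-((κ : ℂ) * (hd' x + AQ)) + (κ : ℂ) * (hd' x - h x) +
          ((κ : ℂ) * h x - {x | nV x ≠ 0}.indicator h x) + -Er‖ ≤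
        (C₁ * ε + ε) + (Mh * Aε.indicator (fun _ => (1:ℝ)) x +
          E₀ * (1 / 2 / η * Aε.indicator (fun _ => (1:ℝ)) x + η / 2 * Pw x)) := by
      refine (norm_add_le _ _).trans ?_
      refine (add_le_add ((norm_add_le _ _).trans (add_le_add (norm_add_le _ _) le_rfl)) le_rfl).trans ?_
      linarith
    have hnn' : 0 ≤ Mh * Aε.indicator (fun _ => (1:ℝ)) x +
          E₀ * (1 / 2 / η * Aε.indicator (fun _ => (1:ℝ)) x + η / 2 * Pw x) := by
      have h1 := hPw0 x
      have h3 := hind0 x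
      positivity
    refine (mul_le_mul_of_nonneg_right hsum (norm_nonneg _)).trans ?_
    rw [add_mul]
    have hψx := mul_le_mul_of_nonneg_left (hMψ x) hnn'
    calc _ ≤ (C₁ * ε + ε) * ‖ψ x‖ + (Mh * Aε.indicator (fun _ => (1:ℝ)) x +
          E₀ * (1 / 2 / η * Aε.indicator (fun _ => (1:ℝ)) x + η / 2 * Pw x)) * Mψ :=
          add_le_add le_rfl hψx
      _ = _ := by ring
  -- integrate
  have hAm : MeasurableSet Aε := by
    refine (isClosed_tsupport ψ).measurableSet.inter (MeasurableSet.inter ?_ ?_)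
    · exact (isOpen_ne_fun hnVc continuous_const).measurableSet
    · exact (isClosed_le hnVc continuous_const).measurableSet
  have hAfin : μ Aε < ⊤ :=
    (measure_mono (fun x hx => hx.1)).trans_lt hψ.comp.measure_lt_top
  have hAi : Integrable (Aε.indicator (fun _ => (1:ℝ))) μ :=
    (integrableOn_const hAfin.ne).integrable_indicator hAm
  have hψi : Integrable (fun x => ‖ψ x‖) μ :=
    (hψ.smooth.continuous.integrable_of_hasCompactSupport hψ.comp).norm
  have hHhc : Continuous Hh := by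
    have h1 : Hh = fun x => ∑ k, ∑ i, ‖Q i k x‖ ^ 2 := funext hHh'
    rw [h1]
    exact continuous_finsetSum _ fun k _ => continuous_finsetSum _ fun i _ =>
      ((hQs i k).continuous.norm).pow 2
  have hPwi : Integrable Pw μ :=
    ((hφs.continuous.pow 2).mul (((kape_contDiff (ε / 2)).continuous.comp
      hgSs.continuous).mul hHhc)).integrable_of_hasCompactSupport
      (HasCompactSupport.intro hφc fun x hx => by
        change φ x ^ 2 * _ = 0
        rw [image_eq_zero_of_notMem_tsupport hx]; simp)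
  have hopn : MeasurableSet {x | nV x ≠ 0} := (isOpen_ne_fun hnVc continuous_const).measurableSet
  have hindi : Integrable (fun x => {x | nV x ≠ 0}.indicator h x * ψ x) μ := by
    have h1 : (fun x => {x | nV x ≠ 0}.indicator h x * ψ x) =
        {x | nV x ≠ 0}.indicator (fun x => h x * ψ x) := by
      funext x
      by_cases hx : x ∈ {x | nV x ≠ 0}
      · rw [indicator_of_mem hx, indicator_of_mem hx]
      · rw [indicator_of_notMem hx, indicator_of_notMem hx, zero_mul]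
    rw [h1]
    exact ((hh.mul hψ.smooth.continuous).integrable_of_hasCompactSupport
      hψ.comp.mul_left).indicator hopn
  have hI1 : ‖∫ x, (- Z x - {x | nV x ≠ 0}.indicator h x * ψ x) ∂μ‖ ≤
      (C₁ + 1) * ε * Iψ + (Mψ * Mh + Mψ * E₀ / 2 / η) * μ.real Aε +
        Mψ * E₀ * (η / 2) * C' := by
    have i1 : Integrable (fun x => (C₁ + 1) * ε * ‖ψ x‖) μ := hψi.const_mul _
    have i2 : Integrable (fun x => (Mψ * Mh + Mψ * E₀ / 2 / η) *
        Aε.indicator (fun _ => (1:ℝ)) x) μ := hAi.const_mul _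
    have i4 : Integrable (fun x => Mψ * E₀ * (η / 2) * Pw x) μ := hPwi.const_mul _
    have i5 : Integrable (fun x => (C₁ + 1) * ε * ‖ψ x‖ +
        (Mψ * Mh + Mψ * E₀ / 2 / η) * Aε.indicator (fun _ => (1:ℝ)) x) μ := i1.add i2
    have hRi : Integrable (fun x => (C₁ + 1) * ε * ‖ψ x‖ +
        (Mψ * Mh + Mψ * E₀ / 2 / η) * Aε.indicator (fun _ => (1:ℝ)) x +
        Mψ * E₀ * (η / 2) * Pw x) μ := i5.add i4
    refine (norm_integral_le_of_norm_le hRi (Eventually.of_forall hpt)).trans ?_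
    rw [integral_add i5 i4, integral_add i1 i2, integral_const_mul, integral_const_mul,
      integral_const_mul, integral_indicator hAm, setIntegral_const, smul_eq_mul, mul_one]
    exact add_le_add le_rfl (mul_le_mul_of_nonneg_left hE' (by positivity))
  have hVg : ∀ j x, ‖V j x - g j x‖ ≤ 3 * ε := by
    intro j x
    have h1 : V j x - g j x = -(P j x - V j x) + (((1 - kS x : ℝ)) : ℂ) * P j x := by
      simp only [hg]; push_cast; ring
    rw [h1]
    refine (norm_add_le _ _).trans ?_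
    rw [norm_neg, norm_mul, Complex.norm_real, Real.norm_eq_abs]
    have h2 : |1 - kS x| * ‖P j x‖ ≤ 2 * ε := by
      have hk0 := (kape_mem ε (gS e (parts u) x)).1
      have hk1 := (kape_mem ε (gS e (parts u) x)).2
      by_cases hx : 2 * ε ≤ nP x
      · have : kS x = 1 := by
          simp only [hkS]
          rw [hgS]
          exact kape_one hε hx
        rw [this, sub_self, abs_zero, zero_mul]
        positivity
      · push Not at hx
        have e1 : |1 - kS x| ≤ 1 := by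
          rw [abs_le]
          constructor
          · simp only [hkS]; linarith
          · simp only [hkS]; linarith
        have e2 : ‖P j x‖ ≤ 2 * ε := (norm_le_nE (fun j => P j x) j).trans hx.le
        calc |1 - kS x| * ‖P j x‖ ≤ 1 * (2 * ε) := mul_le_mul e1 e2 (norm_nonneg _) zero_le_one
          _ = _ := one_mul _
    linarith [hPV' j x]
  have hcmp : ∀ i j, ‖∫ x, V j x * k i j x ∂μ - ∫ x, g j x * k i j x ∂μ‖ ≤
      3 * ε * ∫ x, ‖k i j x‖ ∂μ := by
    intro i j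
    have j1 : Integrable (fun x => V j x * k i j x) μ :=
      ((hVc j).mul (hkc i j)).integrable_of_hasCompactSupport (hkcs i j).mul_left
    have j2 : Integrable (fun x => g j x * k i j x) μ :=
      ((hgs j).continuous.mul (hkc i j)).integrable_of_hasCompactSupport (hkcs i j).mul_left
    rw [← integral_sub j1 j2, ← integral_const_mul]
    refine norm_integral_le_of_norm_le
      (((hkc i j).integrable_of_hasCompactSupport (hkcs i j)).norm.const_mul _)
      (Eventually.of_forall fun x => ?_)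
    rw [← sub_mul, norm_mul]
    exact mul_le_mul_of_nonneg_right (hVg j x) (norm_nonneg _)
  have hcmp2 : ‖∑ i, ∑ j, ∫ x, V j x * k i j x ∂μ - ∑ i, ∑ j, ∫ x, g j x * k i j x ∂μ‖ ≤
      3 * ε * A1 := by
    have h1 : ∑ i, ∑ j, ∫ x, V j x * k i j x ∂μ - ∑ i, ∑ j, ∫ x, g j x * k i j x ∂μ =
        ∑ i, ∑ j, (∫ x, V j x * k i j x ∂μ - ∫ x, g j x * k i j x ∂μ) := by
      simp only [Finset.sum_sub_distrib]
    rw [h1, hA1, Finset.mul_sum]
    refine (norm_sum_le _ _).trans (Finset.sum_le_sum fun i _ => ?_)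
    rw [Finset.mul_sum]
    exact (norm_sum_le _ _).trans (Finset.sum_le_sum fun j _ => hcmp i j)
  have i6 : Integrable (fun x => - Z x) μ := hZi.neg
  rw [integral_sub i6 hindi, integral_neg, ← hid] at hI1
  have hfin : ∑ i, ∑ j, ∫ x, V j x * k i j x ∂μ
        - ∫ x, {x | nV x ≠ 0}.indicator h x * ψ x ∂μ =
      (∑ i, ∑ j, ∫ x, V j x * k i j x ∂μ - ∑ i, ∑ j, ∫ x, g j x * k i j x ∂μ) +
      (∑ i, ∑ j, ∫ x, g j x * k i j x ∂μ - ∫ x, {x | nV x ≠ 0}.indicator h x * ψ x ∂μ) := by ring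
  change ‖∑ i, ∑ j, ∫ x, V j x * k i j x ∂μ
        - ∫ x, {x | nV x ≠ 0}.indicator h x * ψ x ∂μ‖ ≤ _
  rw [hfin]
  refine (norm_add_le _ _).trans ((add_le_add hcmp2 hI1).trans (le_of_eq ?_))
  change _ = (3 * A1 + (C₁ + 1) * Iψ) * ε + (Mψ * Mh + Mψ * E₀ / 2 / η) * μ.real Aε +
    Mψ * E₀ * C' / 2 * η
  ring

/-- **Removal of the zero set of the gradient.** -/
theorem claimB (e : ι → E) {B U : Set E} (hB : IsOpen B) (hU : IsOpen U)
    {W : E → ℂ} (hW : ContDiff ℝ 1 W) (hWc : HasCompactSupport W) {h : E → ℂ} (hh : Continuous h)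
    (hhc : HasCompactSupport h) {a : ι → ι → E → ℝ} (ha : ∀ i j, ContDiff ℝ ∞ (a i j))
    (hac : ∀ i j, HasCompactSupport (a i j)) {θ : ℝ} (hθ : 0 < θ)
    (hco : ∀ x ∈ B, ∀ ξ : ι → ℝ, θ * ∑ i, ξ i ^ 2 ≤ ∑ i, ∑ j, a i j x * ξ i * ξ j)
    (hWU : ∀ x ∈ B, x ∉ U → ∀ j, pd (e j) W x = 0)
    (heq : ∀ ψ, IsTest U ψ → ∑ i, ∑ j, ∫ x, pd (e j) W x *
      pd (e i) (fun y => ((a i j y : ℝ) : ℂ) * ψ y) x ∂μ = ∫ x, h x * ψ x ∂μ)
    {ψ : E → ℂ} (hψ : IsTest B ψ) :
    ∑ i, ∑ j, ∫ x, pd (e j) W x * pd (e i) (fun y => ((a i j y : ℝ) : ℂ) * ψ y) x ∂μ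
        = ∫ x, {x | nE (fun j => pd (e j) W x) ≠ 0}.indicator h x * ψ x ∂μ := by
  obtain ⟨A, D₁, D₂, F, hF, hmain⟩ := claimB_bound e hB hU hW hWc hh hhc ha hac hθ hco hWU
    heq hψ
  set nV : E → ℝ := fun x => nE fun j => pd (e j) W x with hnV
  have hnVc : Continuous nV :=
    nE_continuous fun j => (pd_contDiff (m := 0) _ hW (by simp)).continuous
  set X : ℝ := ‖∑ i, ∑ j, ∫ x, pd (e j) W x * pd (e i) (fun y => ((a i j y : ℝ) : ℂ) * ψ y) x ∂μ
        - ∫ x, {x | nV x ≠ 0}.indicator h x * ψ x ∂μ‖ with hX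
  set S : ℕ → Set E := fun n => {x ∈ tsupport ψ | nV x ≠ 0 ∧ nV x ≤ 3 * (1 / ((n:ℝ) + 1))} with hS
  have hSm : ∀ n, MeasurableSet (S n) := by
    intro n
    refine (isClosed_tsupport ψ).measurableSet.inter (MeasurableSet.inter ?_ ?_)
    · exact (isOpen_ne_fun hnVc continuous_const).measurableSet
    · exact (isClosed_le hnVc continuous_const).measurableSet
  have hSanti : Antitone S := by
    intro m n hmn x hx
    refine ⟨hx.1, hx.2.1, hx.2.2.trans ?_⟩
    have : (m:ℝ) ≤ n := by exact_mod_cast hmn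
    gcongr
  have hSe : ⋂ n, S n = ∅ := by
    rw [eq_empty_iff_forall_notMem]
    intro x hx
    rw [mem_iInter] at hx
    have h0 : 0 < nV x := lt_of_le_of_ne (nE_nonneg _) (Ne.symm (hx 0).2.1)
    obtain ⟨n, hn⟩ := exists_nat_one_div_lt (show (0:ℝ) < nV x / 3 by positivity)
    have := (hx n).2.2
    linarith
  have hlim : Tendsto (fun n => μ.real (S n)) atTop (𝓝 0) := by
    have h1 : Tendsto (μ ∘ S) atTop (𝓝 (μ (⋂ n, S n))) :=
      tendsto_measure_iInter_atTop (fun n => (hSm n).nullMeasurableSet) hSanti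
        ⟨0, ((measure_mono (fun x hx => hx.1)).trans_lt hψ.comp.measure_lt_top).ne⟩
    rw [hSe, measure_empty] at h1
    exact (ENNReal.tendsto_toReal ENNReal.zero_ne_top).comp h1
  have hle : ∀ η : ℝ, 0 < η → X ≤ F * η := by
    intro η hη
    have h1 : ∀ n : ℕ, X ≤ A * (1 / ((n:ℝ) + 1)) + (D₁ + D₂ / η) * μ.real (S n) + F * η := by
      intro n
      exact hmain (1 / ((n:ℝ) + 1)) (by positivity) (by
        rw [div_le_one (by positivity)]; linarith [(Nat.cast_nonneg n : (0:ℝ) ≤ n)]) η hη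
    have h2 : Tendsto (fun n : ℕ => A * (1 / ((n:ℝ) + 1)) + (D₁ + D₂ / η) * μ.real (S n) + F * η)
        atTop (𝓝 (A * 0 + (D₁ + D₂ / η) * 0 + F * η)) :=
      ((tendsto_one_div_add_atTop_nhds_zero_nat.const_mul A).add (hlim.const_mul _)).add
        tendsto_const_nhds
    have h3 := ge_of_tendsto' h2 h1
    simpa using h3
  have hX0 : X ≤ 0 := by
    have h1 : Tendsto (fun n : ℕ => F * (1 / ((n:ℝ) + 1))) atTop (𝓝 (F * 0)) :=
      tendsto_one_div_add_atTop_nhds_zero_nat.const_mul F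
    have h2 := ge_of_tendsto' h1 (fun n => hle (1 / ((n:ℝ) + 1)) (by positivity))
    simpa using h2
  have hX1 : X = 0 := le_antisymm hX0 (norm_nonneg _)
  rw [hX, norm_eq_zero, sub_eq_zero] at hX1
  exact hX1

end Pool.Agent.Work.MP_375441_an
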