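import Pool.Agent.Work.MP_375441_an.Defs

/-!
# Comparison of coefficients
-/

open MeasureTheory Set Filter Topology Function Metric Module
open scoped ContDiff

namespace Pool.Agent.Work.MP_375441_an

set_option linter.unusedSectionVars false

variable {n : ℕ}

lemma lst_count (α : Fin n → ℕ) (k : Fin n) : (lst α).count k = α k := by
  unfold lst
  rw [List.count_flatMap]
  have h1 : (List.count k ∘ fun j => List.replicate (α j) j) = fun j => if j = k then α j else 0 := by
    funext j
    simp only [comp_apply, List.count_replicate]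
    by_cases h : j = k
    · simp [h]
    · simp [h]
  rw [h1, ← List.ofFn_eq_map, List.sum_ofFn]
  simp

lemma lst_perm {α β : Fin n → ℕ} {i j : Fin n} (h : Pi.single i 1 + Pi.single j 1 + β = α) :
    (lst α).Perm ((lst β ++ [j]) ++ [i]) := by
  rw [List.perm_iff_count]
  intro k
  rw [lst_count, List.count_append, List.count_append, lst_count, ← h]
  have hs : ∀ i : Fin n, List.count k [i] = (Pi.single i 1 : Fin n → ℕ) k := by
    intro i
    rw [List.count_singleton, Pi.single_apply]
    by_cases h1 : k = i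
    · subst h1; simp
    · have h2 : ¬ i = k := fun h => h1 h.symm
      simp [h1, h2]
  rw [hs, hs, Pi.add_apply, Pi.add_apply]
  omega

lemma prod_single (z : Fin n → ℂ) (i : Fin n) :
    ∏ k, z k ^ (Pi.single i 1 : Fin n → ℕ) k = z i := by
  rw [Finset.prod_eq_single i]
  · simp
  · intro k _ hk
    simp [Pi.single_apply, hk]
  · intro h
    exact absurd (Finset.mem_univ i) h

lemma coef_identity {q : ℕ} {A : Fin n → Fin n → ℂ} {c r : (Fin n → ℕ) → ℂ}
    (h : ∀ z : Fin n → ℝ,
      ∑ α ∈ (multi n (q + 2)).filter (fun α => ∑ i, α i = q + 2), c α * ∏ i, (z i : ℂ) ^ α i =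
      (∑ i, ∑ j, A i j * z i * z j) *
        ∑ β ∈ (multi n q).filter (fun β => ∑ i, β i = q), r β * ∏ i, (z i : ℂ) ^ β i) :
    ∀ α ∈ (multi n (q + 2)).filter (fun α => ∑ i, α i = q + 2), c α =
      ∑ i, ∑ j, ∑ β ∈ (multi n q).filter (fun β => ∑ i, β i = q),
        if Pi.single i 1 + Pi.single j 1 + β = α then A i j * r β else 0 := by
  classical
  set T := (multi n (q + 2)).filter (fun α => ∑ i, α i = q + 2) with hT
  set T' := (multi n q).filter (fun β => ∑ i, β i = q) with hT'
  set ψ : (Fin n → ℕ) → (Fin n →₀ ℕ) := fun α => Finsupp.equivFunOnFinite.symm α with hψ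
  have hψi : Injective ψ := Finsupp.equivFunOnFinite.symm.injective
  have hmon : ∀ (α : Fin n → ℕ) (a : ℂ) (z : Fin n → ℂ),
      MvPolynomial.eval z (MvPolynomial.monomial (ψ α) a) = a * ∏ i, z i ^ α i := by
    intro α a z
    rw [MvPolynomial.eval_monomial, Finsupp.prod_fintype _ _ fun i => pow_zero _]
    rfl
  set p1 : MvPolynomial (Fin n) ℂ := ∑ α ∈ T, MvPolynomial.monomial (ψ α) (c α) with hp1
  set p2 : MvPolynomial (Fin n) ℂ := ∑ i, ∑ j, ∑ β ∈ T',
    MvPolynomial.monomial (ψ (Pi.single i 1 + Pi.single j 1 + β)) (A i j * r β) with hp2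
  have hpp : p1 = p2 := by
    refine MvPolynomial.funext_set (fun _ => Set.range ((↑) : ℝ → ℂ))
      (fun _ => Set.infinite_range_of_injective Complex.ofReal_injective) fun z hz => ?_
    have hz' : ∀ i, ∃ y : ℝ, (y : ℂ) = z i := fun i => hz i (mem_univ i)
    choose y hy using hz'
    have hyz : z = fun i => (y i : ℂ) := funext fun i => (hy i).symm
    rw [hyz]
    have e1 : MvPolynomial.eval (fun i => (y i : ℂ)) p1 =
        ∑ α ∈ T, c α * ∏ i, (y i : ℂ) ^ α i := by
      rw [hp1, map_sum]
      exact Finset.sum_congr rfl fun α _ => hmon α _ _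
    have e2 : MvPolynomial.eval (fun i => (y i : ℂ)) p2 = (∑ i, ∑ j, A i j * y i * y j) *
        ∑ β ∈ T', r β * ∏ i, (y i : ℂ) ^ β i := by
      rw [hp2, map_sum, Finset.sum_mul]
      refine Finset.sum_congr rfl fun i _ => ?_
      rw [map_sum, Finset.sum_mul]
      refine Finset.sum_congr rfl fun j _ => ?_
      rw [map_sum, Finset.mul_sum]
      refine Finset.sum_congr rfl fun β _ => ?_
      rw [hmon]
      simp only [Pi.add_apply, pow_add, Finset.prod_mul_distrib]
      rw [prod_single (fun i => (y i : ℂ)) i, prod_single (fun i => (y i : ℂ)) j]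
      ring
    rw [e1, e2]
    exact h y
  intro α hα
  have hc := congrArg (MvPolynomial.coeff (ψ α)) hpp
  rw [hp1, hp2, MvPolynomial.coeff_sum, MvPolynomial.coeff_sum] at hc
  rw [Finset.sum_eq_single α] at hc
  · rw [MvPolynomial.coeff_monomial, if_pos rfl] at hc
    rw [hc]
    refine Finset.sum_congr rfl fun i _ => ?_
    rw [MvPolynomial.coeff_sum]
    refine Finset.sum_congr rfl fun j _ => ?_
    rw [MvPolynomial.coeff_sum]
    refine Finset.sum_congr rfl fun β _ => ?_
    rw [MvPolynomial.coeff_monomial]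
    by_cases hb : Pi.single i 1 + Pi.single j 1 + β = α
    · rw [if_pos hb, if_pos (congrArg ψ hb)]
    · rw [if_neg hb, if_neg fun h => hb (hψi h)]
  · intro β _ hβ
    rw [MvPolynomial.coeff_monomial, if_neg fun h => hβ (hψi h)]
  · intro h
    exact absurd hα h

end Pool.Agent.Work.MP_375441_an
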