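import Pool.Agent.Work.MP_375441_an.Kap

/-!
# The commutator estimate
-/

open MeasureTheory Set Filter Topology Function Metric Module
open scoped ContDiff

namespace Pool.Agent.Work.MP_375441_an

set_option linter.unusedSectionVars false

variable {E : Type*} [NormedAddCommGroup E] [NormedSpace ℝ E] [MeasurableSpace E] [BorelSpace E]
  [FiniteDimensional ℝ E] (μ : Measure E) [μ.IsAddHaarMeasure]

/-- the weak form of `(∂_v - λ ∂_w) W = h`, tested against `ψ` -/
def WeakEq (v w : E) (W lam h ψ : E → ℂ) : Prop :=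
  - ∫ x, W x * pd v ψ x ∂μ + ∫ x, W x * pd w (fun y => lam y * ψ y) x ∂μ = ∫ x, h x * ψ x ∂μ

lemma commutator (v w : E) {W lam h : E → ℂ} (hW : Continuous W)
    (hh : Continuous h) (hlam : ContDiff ℝ 1 lam) (hlc : HasCompactSupport lam) :
    ∃ C, 0 ≤ C ∧ ∀ U : Set E, (∀ ψ, IsTest U ψ → WeakEq μ v w W lam h ψ) →
      ∀ δ, 0 < δ → ∀ x, closedBall x δ ⊆ U → ∀ η, (∀ y ∈ closedBall x δ, ‖W y - W x‖ ≤ η) →
      ‖pd v (mol μ δ W) x - lam x * pd w (mol μ δ W) x - mol μ δ h x‖ ≤ C * η := by
  obtain ⟨L, hL⟩ := hlam.lipschitzWith_of_hasCompactSupport hlc (by simp)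
  obtain ⟨Cρ, hCρ0, hCρ⟩ := rho_fderiv_int μ w
  have hpl : Continuous (pd w lam) := (pd_contDiff (m := 0) w hlam (by simp)).continuous
  obtain ⟨Ml, hMl⟩ := hpl.bounded_above_of_compact_support
    (hlc.of_isClosed_subset (isClosed_tsupport _) (pd_tsupport w lam))
  have hMl0 : 0 ≤ Ml := (norm_nonneg _).trans (hMl 0)
  refine ⟨Ml + L * Cρ, by positivity, fun U hU δ hδ x hx η hη => ?_⟩
  have hη0 : 0 ≤ η := (norm_nonneg _).trans (hη x (mem_closedBall_self hδ.le))
  -- the test function
  set ψ : E → ℂ := fun y => ((rho μ δ (x - y) : ℝ) : ℂ) with hψ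
  have hψs : ContDiff ℝ ∞ ψ :=
    Complex.ofRealCLM.contDiff.comp ((rho_contDiff μ δ).comp (contDiff_const.sub contDiff_id))
  have hψsupp : ∀ y, y ∉ closedBall x δ → ψ y = 0 := by
    intro y hy
    by_contra hne
    have h1 : x - y ∈ support (rho μ δ : E → ℝ) := fun h0 => hne (by simp [hψ, h0])
    have h2 := rho_support μ hδ h1
    rw [mem_ball_zero_iff] at h2
    exact hy (by rw [mem_closedBall, dist_eq_norm, norm_sub_rev]; exact h2.le)
  have hψts : tsupport ψ ⊆ closedBall x δ := by
    refine closure_minimal (fun y hy => ?_) isClosed_closedBall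
    by_contra hcon
    exact hy (hψsupp y hcon)
  have hψc : HasCompactSupport ψ := HasCompactSupport.intro (isCompact_closedBall x δ) hψsupp
  have hψt : IsTest U ψ := ⟨hψs, hψc, hψts.trans hx⟩
  have hψd : ∀ y, DifferentiableAt ℝ ψ y := fun y => hψs.differentiable (by simp) y
  have hψp : ∀ u y, pd u ψ y = -((fderiv ℝ (rho μ δ) (x - y) u : ℝ) : ℂ) := by
    intro u y
    have h1 : HasFDerivAt (rho μ δ : E → ℝ) (fderiv ℝ (rho μ δ) (x - y)) (x - y) :=
      ((rho_contDiff μ δ).differentiable (by simp) _).hasFDerivAt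
    have h2 : HasFDerivAt (fun y : E => x - y) (-ContinuousLinearMap.id ℝ E) y :=
      (hasFDerivAt_id y).const_sub x
    have h3 := Complex.ofRealCLM.hasFDerivAt.comp y (h1.comp y h2)
    have h4 : HasFDerivAt ψ _ y := h3
    unfold pd
    rw [h4.fderiv]
    simp
  have hlamd : ∀ y, DifferentiableAt ℝ lam y := fun y => hlam.differentiable (by simp) y
  have hpψ : ∀ u, Continuous (pd u ψ) := fun u => hψt.one.continuous_pd u
  have hpψc : ∀ u, HasCompactSupport (pd u ψ) := fun u =>
    hψc.of_isClosed_subset (isClosed_tsupport _) (pd_tsupport u ψ)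
  -- the weighted test function
  set χ : E → ℂ := fun y => (lam y - lam x) * ψ y with hχ
  have hχ1 : IsTestOne univ χ :=
    ⟨(hlam.sub contDiff_const).mul hψt.one.smooth, hψc.mul_left, subset_univ _⟩
  have hχp : ∀ y, pd w χ y = pd w (fun y => lam y * ψ y) y - lam x * pd w ψ y := by
    intro y
    have h1 : χ = fun y => lam y * ψ y + (-lam x) * ψ y := by
      funext y; simp only [hχ]; ring
    rw [h1, pd_add (f := fun y => lam y * ψ y) ((hlamd y).mul (hψd y)) ((hψd y).const_mul _),
      pd_const_mul _ (hψd y)]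
    ring
  have hχp' : ∀ y, pd w χ y = pd w lam y * ψ y + (lam y - lam x) * pd w ψ y := by
    intro y
    rw [hχp, pd_mul (hlamd y) (hψd y)]
    ring
  -- integrability
  have hcs : ∀ g : E → ℂ, HasCompactSupport g → HasCompactSupport (pd w g) := fun g hg =>
    hg.of_isClosed_subset (isClosed_tsupport _) (pd_tsupport w g)
  have hi1 : Integrable (fun y => W y * pd w (fun y => lam y * ψ y) y) μ := by
    have h1 : IsTestOne univ (fun y => lam y * ψ y) :=
      ⟨hlam.mul hψt.one.smooth, hψc.mul_left, subset_univ _⟩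
    exact (hW.mul (h1.continuous_pd w)).integrable_of_hasCompactSupport
      (hcs _ h1.comp).mul_left
  have hi2 : Integrable (fun y => W y * (lam x * pd w ψ y)) μ :=
    (hW.mul (continuous_const.mul (hpψ w))).integrable_of_hasCompactSupport
      ((hpψc w).mul_left.mul_left)
  have hi3 : Integrable (fun y => W y * pd w χ y) μ :=
    (hW.mul (hχ1.continuous_pd w)).integrable_of_hasCompactSupport
      (hcs _ hχ1.comp).mul_left
  have hi4 : Integrable (fun y => W x * pd w χ y) μ :=
    (continuous_const.mul (hχ1.continuous_pd w)).integrable_of_hasCompactSupport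
      (hcs _ hχ1.comp).mul_left
  -- the identity
  have e1 : ∀ u, pd u (mol μ δ W) x = - ∫ y, W y * pd u ψ y ∂μ := by
    intro u
    rw [mol_pd μ hδ hW, ← integral_neg]
    refine integral_congr_ae (Eventually.of_forall fun y => ?_)
    simp only [hψp, Complex.real_smul]
    ring
  have e2 : mol μ δ h x = ∫ y, h y * ψ y ∂μ := by
    rw [mol_eq]
    refine integral_congr_ae (Eventually.of_forall fun y => ?_)
    simp only [hψ, Complex.real_smul]
    ring
  have e3 : pd v (mol μ δ W) x - lam x * pd w (mol μ δ W) x - mol μ δ h x =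
      - ∫ y, (W y - W x) * pd w χ y ∂μ := by
    have h1 := hU ψ hψt
    unfold WeakEq at h1
    rw [e1 v, e1 w, e2, ← h1]
    have h2 : ∫ y, (W y - W x) * pd w χ y ∂μ = ∫ y, W y * pd w χ y ∂μ := by
      have h3 : ∀ y, (W y - W x) * pd w χ y = W y * pd w χ y - W x * pd w χ y := fun y => by ring
      rw [integral_congr_ae (Eventually.of_forall h3), integral_sub hi3 hi4, integral_const_mul,
        int_pd_test hχ1]
      simp
    have h4 : ∫ y, W y * pd w χ y ∂μ = ∫ y, W y * pd w (fun y => lam y * ψ y) y ∂μ -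
        lam x * ∫ y, W y * pd w ψ y ∂μ := by
      have h5 : ∀ y, W y * pd w χ y = W y * pd w (fun y => lam y * ψ y) y
          - W y * (lam x * pd w ψ y) := fun y => by rw [hχp]; ring
      rw [integral_congr_ae (Eventually.of_forall h5), integral_sub hi1 hi2]
      congr 1
      rw [← integral_const_mul]
      exact integral_congr_ae (Eventually.of_forall fun y => by ring)
    rw [h2, h4]
    ring
  rw [e3, norm_neg]
  -- the bound
  set F : E → ℝ := fun z => Ml * rho μ δ z + L * (‖z‖ * |fderiv ℝ (rho μ δ) z w|) with hF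
  have hfρ : Continuous fun z : E => fderiv ℝ (rho μ δ) z w :=
    ((rho_contDiff μ δ).continuous_fderiv (by simp)).clm_apply continuous_const
  have hi5 : Integrable (fun z => rho μ δ z) μ :=
    (rho_contDiff μ δ).continuous.integrable_of_hasCompactSupport (rho_comp μ hδ)
  have hi6 : Integrable (fun z : E => ‖z‖ * |fderiv ℝ (rho μ δ) z w|) μ := by
    refine (continuous_norm.mul hfρ.abs).integrable_of_hasCompactSupport
      (HasCompactSupport.intro (rho_comp μ hδ) fun z hz => ?_)
    rw [notMem_tsupport_iff_eventuallyEq] at hz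
    change ‖z‖ * |fderiv ℝ (rho μ δ) z w| = 0
    rw [hz.fderiv_eq]; simp
  have hFi : Integrable F μ := (hi5.const_mul Ml).add (hi6.const_mul L)
  have hFint : ∫ z, F z ∂μ ≤ Ml + L * Cρ := by
    rw [hF, integral_add (hi5.const_mul Ml) (hi6.const_mul L), integral_const_mul,
      integral_const_mul, rho_integral μ hδ, mul_one]
    exact add_le_add le_rfl (mul_le_mul_of_nonneg_left (hCρ δ hδ) L.2)
  have hpt : ∀ y, ‖(W y - W x) * pd w χ y‖ ≤ η * F (x - y) := by
    intro y
    by_cases hy : y ∈ closedBall x δ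
    · rw [norm_mul]
      refine mul_le_mul (hη y hy) ?_ (norm_nonneg _) hη0
      rw [hχp']
      refine (norm_add_le _ _).trans (add_le_add ?_ ?_)
      · rw [norm_mul]
        have h1 : ‖ψ y‖ = rho μ δ (x - y) := by
          simp only [hψ, Complex.norm_real, Real.norm_eq_abs]
          exact abs_of_nonneg (rho_nonneg μ hδ _)
        rw [h1]
        exact mul_le_mul_of_nonneg_right (hMl y) (rho_nonneg μ hδ _)
      · rw [norm_mul]
        have h1 : ‖pd w ψ y‖ = |fderiv ℝ (rho μ δ) (x - y) w| := by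
          rw [hψp, norm_neg, Complex.norm_real, Real.norm_eq_abs]
        rw [h1, ← mul_assoc]
        refine mul_le_mul_of_nonneg_right ?_ (abs_nonneg _)
        have h2 := hL.dist_le_mul y x
        rw [dist_eq_norm, dist_eq_norm, norm_sub_rev y x] at h2
        exact h2
    · have h1 : χ =ᶠ[𝓝 y] fun _ => 0 := by
        filter_upwards [isClosed_closedBall.isOpen_compl.mem_nhds hy] with z hz
        simp [hχ, hψsupp z hz]
      have h2 : pd w χ y = 0 := by
        rw [pd_congr h1]; simp [pd]
      rw [h2, mul_zero, norm_zero]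
      refine mul_nonneg hη0 ?_
      have := rho_nonneg μ hδ (x - y)
      positivity
  calc ‖∫ y, (W y - W x) * pd w χ y ∂μ‖ ≤ ∫ y, ‖(W y - W x) * pd w χ y‖ ∂μ :=
        norm_integral_le_integral_norm _
    _ ≤ ∫ y, η * F (x - y) ∂μ := by
        refine integral_mono ?_ ((hFi.comp_sub_left x).const_mul η) hpt
        have h3 : ∀ y, (W y - W x) * pd w χ y = W y * pd w χ y - W x * pd w χ y := fun y => by ring
        simp only [h3]
        exact (hi3.sub hi4).norm
    _ = η * ∫ z, F z ∂μ := by
        rw [integral_const_mul, integral_sub_left_eq_self F μ x]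
    _ ≤ η * (Ml + L * Cρ) := mul_le_mul_of_nonneg_left hFint hη0
    _ = (Ml + L * Cρ) * η := mul_comm _ _

end Pool.Agent.Work.MP_375441_an
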