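import Pool.Agent.Work.MP_375441_an.Two

/-!
# The two-dimensional core theorem, global form
-/

open MeasureTheory Set Filter Topology Function Metric Module
open scoped ContDiff

namespace Pool.Agent.Work.MP_375441_an

set_option linter.unusedSectionVars false

variable {E : Type*} [NormedAddCommGroup E] [NormedSpace ℝ E] [MeasurableSpace E] [BorelSpace E]
  [FiniteDimensional ℝ E] {μ : Measure E} [μ.IsAddHaarMeasure]

section
variable {κ : Type*} {e : κ → E} {O : Set E} {m : ℕ} {f : E → ℂ}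

/-- a top order term, integrated by parts `m` times -/
lemma top_term (hO : IsOpen O) (hf : ContDiffOn ℝ m f O) {l l' : List κ} {i : κ}
    (hl : l.length = m) (hp : l'.Perm (l ++ [i])) {g : E → ℂ} (hg : IsTest O g) :
    (-1) ^ (m + 1) * ∫ x, f x * dl e l' g x ∂μ = - J μ (dl e l.reverse f) (e i) g := by
  have h1 := int_dl (μ := μ) (e := e) hO (hg.pd (e i)) l m f hf hl.le
  rw [dl_perm hp hg.smooth, dl_append]
  simp only [dl_cons, dl_nil]
  rw [h1, hl]
  unfold J
  rw [pow_succ, ← mul_assoc]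
  have h2 : ((-1 : ℂ) ^ m * -1 * (-1) ^ m) = -1 := by
    have : ((-1 : ℂ) ^ m * (-1) ^ m) = 1 := by rw [← mul_pow]; simp
    linear_combination (-1 : ℂ) * this
  rw [h2, neg_one_mul]

/-- a lower order term -/
lemma low_term (hO : IsOpen O) (hf : ContDiffOn ℝ m f O) {l : List κ} (hl : l.length ≤ m)
    {g : E → ℂ} (hg : IsTest O g) :
    (-1) ^ l.length * ∫ x, f x * dl e l g x ∂μ = ∫ x, dl e l.reverse f x * g x ∂μ := by
  rw [int_dl (μ := μ) (e := e) hO hg l m f hf hl, ← mul_assoc]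
  have : ((-1 : ℂ) ^ l.length * (-1) ^ l.length) = 1 := by rw [← mul_pow]; simp
  rw [this, one_mul]

/-- the common zero set of the derivatives of order at most `m` -/
def FF (e : κ → E) (m : ℕ) (f : E → ℂ) : Set E := {x | ∀ l : List κ, l.length ≤ m → dl e l f x = 0}

lemma FF_open (hO : IsOpen O) (hf : ContDiffOn ℝ m f O) : IsOpen (O \ FF e m f) := by
  have h : O \ FF e m f = ⋃ l ∈ {l : List κ | l.length ≤ m}, (O ∩ (dl e l f) ⁻¹' {0}ᶜ) := by
    ext x
    simp only [FF, mem_diff, mem_setOf_eq, not_forall, mem_iUnion, mem_inter_iff, mem_preimage,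
      mem_compl_iff, mem_singleton_iff, exists_prop]
    constructor
    · rintro ⟨hx, l, hl, h⟩
      exact ⟨l, hl, hx, h⟩
    · rintro ⟨l, hl, hx, h⟩
      exact ⟨hx, l, hl, h⟩
  rw [h]
  refine isOpen_biUnion fun l hl => ?_
  exact (dl_continuousOn hO hf l hl).isOpen_inter_preimage hO isOpen_compl_singleton

end

/-- the list `1 … 1 2 … 2` -/
def ul (m k : ℕ) : List (Fin 2) := List.replicate k 0 ++ List.replicate (m - k) 1

lemma ul_length {m k : ℕ} (hk : k ≤ m) : (ul m k).length = m := by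
  simp [ul]; omega

/-- the derivatives of order `m` of `f` -/
noncomputable def uk (e : Fin 2 → E) (m : ℕ) (f : E → ℂ) (k : ℕ) : E → ℂ := dl e (ul m k).reverse f

variable {e : Fin 2 → E} {O : Set E} {m : ℕ} {f : E → ℂ}

lemma ul_perm_zero {m k : ℕ} (hk : k ≤ m) :
    (List.replicate (k + 1) 0 ++ List.replicate (m - k) 1 : List (Fin 2)).Perm (ul m k ++ [0]) := by
  unfold ul
  rw [List.replicate_succ, List.cons_append]
  exact (List.perm_append_singleton _ _).symm

lemma ul_one {m k : ℕ} (hk : k ≤ m) :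
    ul m k ++ [1] = List.replicate k 0 ++ List.replicate (m + 1 - k) 1 := by
  unfold ul
  rw [List.append_assoc, show m + 1 - k = (m - k) + 1 by omega, List.replicate_succ']

lemma uk_continuousOn (hO : IsOpen O) (hf : ContDiffOn ℝ m f O) {k : ℕ} (hk : k ≤ m) :
    ContinuousOn (uk e m f k) O :=
  dl_continuousOn hO hf _ (by rw [List.length_reverse, ul_length hk])

lemma swap_smooth (hO : IsOpen O) (hf : ContDiffOn ℝ m f O) {k : ℕ} (hk : k < m) {g : E → ℂ}
    (hg : IsTest O g) : J μ (uk e m f (k + 1)) (e 1) g = J μ (uk e m f k) (e 0) g := by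
  have h1 := top_term (μ := μ) (e := e) hO hf (ul_length (show k + 1 ≤ m from hk))
    (List.Perm.refl (ul m (k + 1) ++ [1])) hg
  have h2 := top_term (μ := μ) (e := e) hO hf (ul_length hk.le)
    (l' := ul m (k + 1) ++ [1]) (i := 0) (by
      rw [ul_one (show k + 1 ≤ m from hk), show m + 1 - (k + 1) = m - k by omega]
      exact ul_perm_zero hk.le) hg
  rw [h1] at h2
  unfold uk
  exact neg_injective h2

lemma swap_one (hO : IsOpen O) (hf : ContDiffOn ℝ m f O) {k : ℕ} (hk : k < m) {g : E → ℂ}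
    (hg : IsTestOne O g) : J μ (uk e m f (k + 1)) (e 1) g = J μ (uk e m f k) (e 0) g := by
  have hc1 := uk_continuousOn (e := e) hO hf (show k + 1 ≤ m from hk)
  have hc0 := uk_continuousOn (e := e) hO hf hk.le
  have key : ∀ g, IsTestOne O g →
      TF μ e ![fun x => - uk e m f k x, uk e m f (k + 1)] (fun _ => 0) g =
      J μ (uk e m f k) (e 0) g - J μ (uk e m f (k + 1)) (e 1) g := by
    intro g hg
    unfold TF J
    rw [← integral_sub (J_integrable hO hc0 hg) (J_integrable hO hc1 hg)]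
    refine integral_congr_ae (Eventually.of_forall fun x => ?_)
    simp only [Fin.sum_univ_two, Matrix.cons_val_zero, Matrix.cons_val_one]
    ring
  have h := van_one (μ := μ) (e := e) (G := ![fun x => - uk e m f k x, uk e m f (k + 1)])
    (H := fun _ => 0) hO ?_ continuousOn_const hO subset_rfl ?_ hg
  · rw [key g hg, sub_eq_zero] at h
    exact h.symm
  · intro i
    fin_cases i
    · exact hc0.neg
    · exact hc1
  · intro φ hφ
    rw [key φ hφ.one, swap_smooth hO hf hk hφ, sub_self]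

theorem core2 (hO : IsOpen O) (hf : ContDiffOn ℝ m f O) {c : ℕ → E → ℂ}
    (hc : ∀ k, AnalyticOnNhd ℝ (c k) O)
    (hell : ∀ x ∈ O, ∀ t : ℝ, ∑ k ∈ Finset.range (m + 2), c k x * (t : ℂ) ^ k ≠ 0)
    (hcp : ∀ x ∈ O, c (m + 1) x ≠ 0) {H0 : E → ℂ} (hH0 : ContinuousOn H0 O)
    (hH0F : ∀ x ∈ O, x ∈ FF e m f → H0 x = 0)
    (hT : ∀ φ, IsTest (O \ {x | f x = 0}) φ → Tc μ e m (uk e m f) c H0 φ = 0) :
    ∀ φ, IsTest O φ → Tc μ e m (uk e m f) c H0 φ = 0 := by
  have hcs : ∀ k, ContDiffOn ℝ 1 (c k) O := fun k x hx => (hc k x hx).contDiffAt.contDiffWithinAt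
  have huc : ∀ k ≤ m, ContinuousOn (uk e m f k) O := fun k hk => uk_continuousOn hO hf hk
  set G : Fin 2 → E → ℂ := ![fun x => ∑ k ∈ Finset.range (m + 1), c (k + 1) x * uk e m f k x,
    fun x => c 0 x * uk e m f 0 x] with hG
  set H : E → ℂ := fun x => H0 x - pd (e 1) (c 0) x * uk e m f 0 x -
        ∑ k ∈ Finset.range (m + 1), pd (e 0) (c (k + 1)) x * uk e m f k x with hH
  have hku : ∀ k ∈ Finset.range (m + 1), ContinuousOn (uk e m f k) O := fun k hk =>
    huc k (by simpa [Nat.lt_succ_iff] using hk)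
  have hpc : ∀ y k, ContinuousOn (pd y (c k)) O := fun y k =>
    (pd_contDiffOn (m := 0) y hO (hcs k) (by simp)).continuousOn
  have hGc : ∀ i, ContinuousOn (G i) O := by
    intro i
    fin_cases i
    · exact continuousOn_finsetSum _ fun k hk => (hcs (k + 1)).continuousOn.mul (hku k hk)
    · exact (hcs 0).continuousOn.mul (huc 0 (Nat.zero_le _))
  have hHc : ContinuousOn H O :=
    (hH0.sub ((hpc _ 0).mul (huc 0 (Nat.zero_le _)))).sub
      (continuousOn_finsetSum _ fun k hk => (hpc _ (k + 1)).mul (hku k hk))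
  have hTF : ∀ φ, IsTest O φ → Tc μ e m (uk e m f) c H0 φ = TF μ e G H φ := fun φ hφ =>
    Tc_eq_TF hO huc hcs hH0 hφ.one
  -- first step
  have hZ : IsOpen (O \ {x | f x = 0}) := by
    have : O \ {x | f x = 0} = O ∩ f ⁻¹' {0}ᶜ := rfl
    rw [this]
    exact hf.continuousOn.isOpen_inter_preimage hO isOpen_compl_singleton
  have h0 : ∀ x ∈ O, f x ≠ 0 → VanAt μ e G H x := fun x hx hfx =>
    ⟨O \ {x | f x = 0}, hZ, ⟨hx, hfx⟩, fun φ hφ => by
      rw [← hTF φ (hφ.mono sdiff_subset)]; exact hT φ hφ⟩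
  have h1 : ∀ x ∈ O \ FF e m f, VanAt μ e G H x := by
    rintro x ⟨hx, hxF⟩
    simp only [FF, mem_setOf_eq, not_forall] at hxF
    obtain ⟨l, hl, hne⟩ := hxF
    exact van_lists hO hGc hHc hO subset_rfl hf h0 l hl x hx hne
  have h2 : ∀ φ, IsTest (O \ FF e m f) φ → Tc μ e m (uk e m f) c H0 φ = 0 := by
    intro φ hφ
    rw [hTF φ (hφ.mono sdiff_subset)]
    exact van_of_local hO hGc hHc sdiff_subset h1 hφ
  -- second step
  have h3 : ∀ x ∈ O, VanAt μ e G H x := by
    intro x hx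
    obtain ⟨r, hr, hrO⟩ := Metric.isOpen_iff.mp hO x hx
    have hBc : IsPreconnected (ball x r) := (convex_ball x r).isPreconnected
    obtain ⟨D, hD, hDne, hDr⟩ := exists_generic_root (p := m + 1) isOpen_ball hBc
      ⟨x, mem_ball_self hr⟩ (by omega) (fun k y hy => hc k y (hrO hy))
      ⟨x, mem_ball_self hr, hcp x hx⟩
    refine van_analytic hO hGc hHc isOpen_ball hrO hBc hD hDne (fun y hy hDy => ?_) x
      (mem_ball_self hr)
    obtain ⟨lam, hlam, hroot⟩ := hDr y hy hDy
    have him : (lam y).im ≠ 0 := by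
      intro h
      refine hell y (hrO hy) (lam y).re ?_
      have h4 : (((lam y).re : ℝ) : ℂ) = lam y := by
        apply Complex.ext <;> simp [h]
      rw [h4]
      exact hroot.self_of_nhds
    obtain ⟨B, hB, hyB, hBT⟩ := local2 hO huc hcs hH0 (FF_open hO hf)
      (fun z _ hzF k hk => hzF _ (by rw [List.length_reverse, ul_length hk]))
      hH0F (fun k hk g hg => swap_one hO hf hk hg) h2 (hrO hy) hlam hroot him
    refine ⟨B ∩ O, hB.inter hO, ⟨hyB, hrO hy⟩, fun φ hφ => ?_⟩
    rw [← hTF φ (hφ.mono inter_subset_right)]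
    exact hBT φ (hφ.mono inter_subset_left)
  intro φ hφ
  rw [hTF φ hφ]
  exact van_of_local hO hGc hHc subset_rfl h3 hφ

end Pool.Agent.Work.MP_375441_an
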