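import Pool.Agent.Work.MP_375441_an.ClaimB
import Pool.Agent.Work.MP_375441_an.CoreTwo

/-!
# The core theorem for principal symbols with a real quadratic factor
-/

open MeasureTheory Set Filter Topology Function Metric Module
open scoped ContDiff

namespace Pool.Agent.Work.MP_375441_an

set_option linter.unusedSectionVars false

lemma contDiff_mul_of_tsupport_real {E : Type*} [NormedAddCommGroup E] [NormedSpace ℝ E]
    {n : WithTop ℕ∞} {g φ : E → ℝ} {O : Set E} (hO : IsOpen O)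
    (hg : ContDiffOn ℝ n g O) (hφ : ContDiff ℝ n φ) (hs : tsupport φ ⊆ O) :
    ContDiff ℝ n (fun x => g x * φ x) := by
  rw [contDiff_iff_contDiffAt]
  intro x
  by_cases hx : x ∈ tsupport φ
  · exact (hg.contDiffAt (hO.mem_nhds (hs hx))).mul hφ.contDiffAt
  · rw [notMem_tsupport_iff_eventuallyEq] at hx
    refine (contDiffAt_const (c := (0 : ℝ))).congr_of_eventuallyEq ?_
    filter_upwards [hx] with y hy
    simp [hy]

/-- uniform ellipticity on compact sets -/
lemma exists_theta {E : Type*} [TopologicalSpace E] {ι : Type*} [Fintype ι] {K : Set E}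
    (hK : IsCompact K) {a : ι → ι → E → ℝ} (ha : ∀ i j, ContinuousOn (a i j) K)
    (hpos : ∀ x ∈ K, ∀ ξ : ι → ℝ, ξ ≠ 0 → 0 < ∑ i, ∑ j, a i j x * ξ i * ξ j) :
    ∃ θ : ℝ, 0 < θ ∧ ∀ x ∈ K, ∀ ξ : ι → ℝ, θ * ∑ i, ξ i ^ 2 ≤ ∑ i, ∑ j, a i j x * ξ i * ξ j := by
  set Sp : Set (EuclideanSpace ℝ ι) := sphere 0 1 with hSp
  set q : E × EuclideanSpace ℝ ι → ℝ := fun z => ∑ i, ∑ j, a i j z.1 * z.2 i * z.2 j with hq
  have hqc : ContinuousOn q (K ×ˢ Sp) := by
    refine continuousOn_finsetSum _ fun i _ => continuousOn_finsetSum _ fun j _ => ?_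
    have h1 : ContinuousOn (fun z : E × EuclideanSpace ℝ ι => a i j z.1) (K ×ˢ Sp) :=
      (ha i j).comp continuousOn_fst fun z hz => hz.1
    have h2 : ∀ i, Continuous fun z : E × EuclideanSpace ℝ ι => z.2 i := fun i => by fun_prop
    exact (h1.mul (h2 i).continuousOn).mul (h2 j).continuousOn
  have hcomp : IsCompact (K ×ˢ Sp) := hK.prod (isCompact_sphere 0 1)
  -- a positive lower bound on the sphere
  obtain ⟨θ, hθ, hθq⟩ : ∃ θ : ℝ, 0 < θ ∧ ∀ z ∈ K ×ˢ Sp, θ ≤ q z := by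
    by_cases hne : (K ×ˢ Sp).Nonempty
    · obtain ⟨z, hz, hmin⟩ := hcomp.exists_isMinOn hne hqc
      refine ⟨q z, ?_, fun y hy => hmin hy⟩
      refine hpos z.1 hz.1 (fun i => z.2 i) ?_
      intro h0
      have h1 : z.2 = 0 := by
        ext i
        exact congrFun h0 i
      have h2 : ‖z.2‖ = 1 := mem_sphere_zero_iff_norm.mp hz.2
      rw [h1, norm_zero] at h2
      exact zero_ne_one h2
    · rw [not_nonempty_iff_eq_empty] at hne
      refine ⟨1, one_pos, fun z hz => ?_⟩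
      rw [hne] at hz
      exact absurd hz (notMem_empty z)
  refine ⟨θ, hθ, fun x hx ξ => ?_⟩
  set y : EuclideanSpace ℝ ι := WithLp.toLp 2 ξ with hy
  have hyi : ∀ i, y i = ξ i := fun i => rfl
  have hnorm : ‖y‖ ^ 2 = ∑ i, ξ i ^ 2 := by
    rw [EuclideanSpace.norm_sq_eq]
    exact Finset.sum_congr rfl fun i _ => by rw [hyi, Real.norm_eq_abs, sq_abs]
  by_cases h0 : y = 0
  · have h1 : ∀ i, ξ i = 0 := fun i => by rw [← hyi, h0]; rfl
    simp [h1]
  · have hyn : 0 < ‖y‖ := norm_pos_iff.mpr h0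
    have h1 := hθq (x, ‖y‖⁻¹ • y) ⟨hx, by
      rw [hSp, mem_sphere_zero_iff_norm, norm_smul, norm_inv, norm_norm, inv_mul_cancel₀ hyn.ne']⟩
    have h2 : q (x, ‖y‖⁻¹ • y) = (‖y‖ ^ 2)⁻¹ * ∑ i, ∑ j, a i j x * ξ i * ξ j := by
      simp only [hq]
      rw [Finset.mul_sum]
      refine Finset.sum_congr rfl fun i _ => ?_
      rw [Finset.mul_sum]
      refine Finset.sum_congr rfl fun j _ => ?_
      simp only [PiLp.smul_apply, smul_eq_mul, hyi]
      field_simp
    rw [h2] at h1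
    rw [← hnorm]
    have h3 : 0 < ‖y‖ ^ 2 := by positivity
    calc θ * ‖y‖ ^ 2 ≤ ((‖y‖ ^ 2)⁻¹ * ∑ i, ∑ j, a i j x * ξ i * ξ j) * ‖y‖ ^ 2 :=
          mul_le_mul_of_nonneg_right h1 h3.le
      _ = _ := by field_simp

variable {E : Type*} [NormedAddCommGroup E] [NormedSpace ℝ E] [MeasurableSpace E] [BorelSpace E]
  [FiniteDimensional ℝ E] {μ : Measure E} [μ.IsAddHaarMeasure] {ι : Type*} [Fintype ι]

/-- the functional -/
noncomputable def TB (μ : Measure E) (e : ι → E) (a : ι → ι → E → ℝ) (w H1 : E → ℂ)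
    (φ : E → ℂ) : ℂ :=
  ∫ x, H1 x * φ x ∂μ - ∑ i, ∑ j, ∫ x, pd (e j) w x *
    pd (e i) (fun y => ((a i j y : ℝ) : ℂ) * φ y) x ∂μ

variable {e : ι → E} {O : Set E} {a : ι → ι → E → ℝ} {w H1 : E → ℂ}

lemma ofReal_contDiffOn {g : E → ℝ} {n : WithTop ℕ∞} (hg : ContDiffOn ℝ n g O) :
    ContDiffOn ℝ n (fun x => ((g x : ℝ) : ℂ)) O :=
  Complex.ofRealCLM.contDiff.comp_contDiffOn hg

lemma TB_eq_TF (hO : IsOpen O) (hw : ContDiffOn ℝ 1 w O) (ha : ∀ i j, ContDiffOn ℝ ∞ (a i j) O)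
    (hH1 : ContinuousOn H1 O) {φ : E → ℂ} (hφ : IsTestOne O φ) :
    TB μ e a w H1 φ = TF μ e (fun i x => ∑ j, ((a i j x : ℝ) : ℂ) * pd (e j) w x)
      (fun x => H1 x - ∑ i, ∑ j, pd (e i) (fun y => ((a i j y : ℝ) : ℂ)) x * pd (e j) w x) φ := by
  have hac : ∀ i j, ContDiffOn ℝ 1 (fun x => ((a i j x : ℝ) : ℂ)) O := fun i j =>
    ofReal_contDiffOn ((ha i j).of_le (by simp))
  have hpw : ∀ j, ContinuousOn (pd (e j) w) O := fun j =>
    (pd_contDiffOn (m := 0) _ hO hw (by simp)).continuousOn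
  have haφ : ∀ i j, IsTestOne O (fun y => ((a i j y : ℝ) : ℂ) * φ y) := fun i j =>
    hφ.mul_left hO subset_rfl (hac i j)
  have i1 : Integrable (fun x => H1 x * φ x) μ :=
    integrable_mul_test hO hH1 hφ.continuous hφ.comp hφ.supp
  have i2 : ∀ i j, Integrable (fun x => pd (e j) w x *
      pd (e i) (fun y => ((a i j y : ℝ) : ℂ) * φ y) x) μ := fun i j =>
    J_integrable (μ := μ) (y := e i) hO (hpw j) (haφ i j)
  have i3 : ∀ i, Integrable (fun x => ∑ j, pd (e j) w x *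
      pd (e i) (fun y => ((a i j y : ℝ) : ℂ) * φ y) x) μ := fun i =>
    integrable_finsetSum _ fun j _ => i2 i j
  unfold TB TF
  have e0 : ∑ i, ∑ j, ∫ x, pd (e j) w x * pd (e i) (fun y => ((a i j y : ℝ) : ℂ) * φ y) x ∂μ =
      ∫ x, ∑ i, ∑ j, pd (e j) w x * pd (e i) (fun y => ((a i j y : ℝ) : ℂ) * φ y) x ∂μ := by
    rw [integral_finsetSum _ fun i _ => i3 i]
    exact Finset.sum_congr rfl fun i _ => (integral_finsetSum _ fun j _ => i2 i j).symm
  rw [e0, ← integral_sub i1 (integrable_finsetSum _ fun i _ => i3 i)]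
  refine integral_congr_ae (Eventually.of_forall fun x => ?_)
  simp only []
  by_cases hx : x ∈ O
  · have hda : ∀ i j, DifferentiableAt ℝ (fun x => ((a i j x : ℝ) : ℂ)) x := fun i j =>
      ((hac i j).differentiableOn (by simp)).differentiableAt (hO.mem_nhds hx)
    have hdφ : DifferentiableAt ℝ φ x := hφ.smooth.differentiable (by simp) x
    have e1 : ∀ i j, pd (e i) (fun y => ((a i j y : ℝ) : ℂ) * φ y) x =
        pd (e i) (fun y => ((a i j y : ℝ) : ℂ)) x * φ x +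
          ((a i j x : ℝ) : ℂ) * pd (e i) φ x := fun i j => pd_mul (hda i j) hdφ
    simp only [e1]
    rw [sub_mul, Finset.sum_mul, sub_sub, ← Finset.sum_add_distrib]
    congr 1
    refine Finset.sum_congr rfl fun i _ => ?_
    rw [Finset.sum_mul, Finset.sum_mul, ← Finset.sum_add_distrib]
    exact Finset.sum_congr rfl fun j _ => by ring
  · have hx' : x ∉ tsupport φ := fun h => hx (hφ.supp h)
    have h0 : φ x = 0 := image_eq_zero_of_notMem_tsupport hx'
    have h1 : ∀ y, pd y φ x = 0 := fun y =>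
      image_eq_zero_of_notMem_tsupport fun h => hx' (pd_tsupport _ _ h)
    have h2 : ∀ (a : E → ℂ) y, pd y (fun z => a z * φ z) x = 0 := fun a y =>
      image_eq_zero_of_notMem_tsupport fun h =>
        hx' (tsupport_mul_subset_right' a φ (pd_tsupport _ _ h))
    simp [h0, h1, h2]

theorem localB (hO : IsOpen O) (hw : ContDiffOn ℝ 1 w O) (ha : ∀ i j, ContDiffOn ℝ ∞ (a i j) O)
    (hpos : ∀ x ∈ O, ∀ ξ : ι → ℝ, ξ ≠ 0 → 0 < ∑ i, ∑ j, a i j x * ξ i * ξ j)
    (hH1 : ContinuousOn H1 O) {F : Set E} (hF : IsOpen (O \ F))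
    (hwF : ∀ x ∈ O, x ∈ F → ∀ j, pd (e j) w x = 0) (hH1F : ∀ x ∈ O, x ∈ F → H1 x = 0)
    (hT : ∀ φ, IsTest (O \ F) φ → TB μ e a w H1 φ = 0) {x₀ : E} (hx₀ : x₀ ∈ O) :
    ∃ B, IsOpen B ∧ x₀ ∈ B ∧ ∀ φ, IsTest B φ → TB μ e a w H1 φ = 0 := by
  obtain ⟨r, hr, hrO⟩ := Metric.nhds_basis_closedBall.mem_iff.mp (hO.mem_nhds hx₀)
  have hKc : IsCompact (closedBall x₀ r) := isCompact_closedBall x₀ r
  obtain ⟨χ, hχs, hχc, hχO, -, V, hV, hKV, hχ1⟩ := exists_cutoff hKc hO hrO
  obtain ⟨θ, hθ, hθq⟩ := exists_theta hKc (fun i j => ((ha i j).continuousOn).mono hrO)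
    (fun x hx => hpos x (hrO hx))
  set B := ball x₀ r with hB
  have hBO : B ⊆ O := ball_subset_closedBall.trans hrO
  have hBV : B ⊆ V := ball_subset_closedBall.trans hKV
  set χc : E → ℂ := fun x => ((χ x : ℝ) : ℂ) with hχc'
  have hχcs : ContDiff ℝ ∞ χc := Complex.ofRealCLM.contDiff.comp hχs
  have hχcc : HasCompactSupport χc := hχc.comp_left (g := fun t : ℝ => (t : ℂ)) (by simp)
  have hχcO : tsupport χc ⊆ O := by
    refine (closure_mono fun x hx => ?_ : tsupport χc ⊆ tsupport χ).trans hχO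
    simp only [mem_support, hχc'] at hx ⊢
    exact fun h => hx (by simp [h])
  have hχcB : ∀ x ∈ B, χc x = 1 := fun x hx => by simp [hχc', hχ1 x (hBV hx)]
  set W : E → ℂ := fun x => w x * χc x with hW
  set h : E → ℂ := fun x => H1 x * χc x with hh
  set a' : ι → ι → E → ℝ := fun i j x => a i j x * χ x with ha'
  have hWd : ContDiff ℝ 1 W := contDiff_mul_of_tsupport hO hw (hχcs.of_le (by simp)) hχcO
  have hhc : Continuous h := continuous_mul_of_tsupport hO hH1 hχcs.continuous hχcO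
  have ha's : ∀ i j, ContDiff ℝ ∞ (a' i j) := fun i j =>
    contDiff_mul_of_tsupport_real hO (ha i j) hχs hχO
  have hWB : ∀ x ∈ B, ∀ j, pd (e j) W x = pd (e j) w x := by
    intro x hx j
    refine pd_congr ?_
    filter_upwards [isOpen_ball.mem_nhds hx] with y hy
    simp only [hW]
    rw [hχcB y hy, mul_one]
  have ha'B : ∀ x ∈ B, ∀ i j, a' i j x = a i j x := fun x hx i j => by
    simp only [ha']
    rw [hχ1 x (hBV hx), mul_one]
  -- the functional in terms of the cut-off data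
  have hTB : ∀ φ, IsTest B φ → TB μ e a w H1 φ = ∫ x, h x * φ x ∂μ -
      ∑ i, ∑ j, ∫ x, pd (e j) W x * pd (e i) (fun y => ((a' i j y : ℝ) : ℂ) * φ y) x ∂μ := by
    intro φ hφ
    have h0 : ∀ x, x ∉ B → φ x = 0 := fun x hx =>
      image_eq_zero_of_notMem_tsupport fun h => hx (hφ.supp h)
    unfold TB
    congr 1
    · refine integral_congr_ae (Eventually.of_forall fun x => ?_)
      by_cases hx : x ∈ B
      · simp only [hh]
        rw [hχcB x hx, mul_one]
      · simp only [h0 x hx, mul_zero]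
    · refine Finset.sum_congr rfl fun i _ => Finset.sum_congr rfl fun j _ => ?_
      have e1 : (fun y => ((a' i j y : ℝ) : ℂ) * φ y) = fun y => ((a i j y : ℝ) : ℂ) * φ y := by
        funext y
        by_cases hy : y ∈ B
        · rw [ha'B y hy]
        · rw [h0 y hy, mul_zero, mul_zero]
      rw [e1]
      refine integral_congr_ae (Eventually.of_forall fun x => ?_)
      by_cases hx : x ∈ B
      · simp only [hWB x hx]
      · have h2 : pd (e i) (fun z => ((a i j z : ℝ) : ℂ) * φ z) x = 0 :=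
          image_eq_zero_of_notMem_tsupport fun h =>
            hx (hφ.supp (tsupport_mul_subset_right' _ φ (pd_tsupport _ _ h)))
        simp only [h2, mul_zero]
  have hUo : IsOpen (B \ F) := by
    have : B \ F = B ∩ (O \ F) := by
      ext x
      exact ⟨fun hx => ⟨hx.1, hBO hx.1, hx.2⟩, fun hx => ⟨hx.1, hx.2.2⟩⟩
    rw [this]
    exact isOpen_ball.inter hF
  have hBF : B \ F ⊆ O \ F := fun x hx => ⟨hBO hx.1, hx.2⟩
  set nV : E → ℝ := fun x => nE fun j => pd (e j) W x with hnV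
  have hnVc : Continuous nV :=
    nE_continuous fun j => (pd_contDiff (m := 0) _ hWd (by simp)).continuous
  have hclaim : ∀ ψ, IsTest B ψ → ∑ i, ∑ j, ∫ x, pd (e j) W x *
      pd (e i) (fun y => ((a' i j y : ℝ) : ℂ) * ψ y) x ∂μ =
      ∫ x, {x | nV x ≠ 0}.indicator h x * ψ x ∂μ := by
    intro ψ hψ
    refine claimB e isOpen_ball hUo hWd hχcc.mul_left hhc hχcc.mul_left ha's
      (fun i j => hχc.mul_left) hθ (fun x hx ξ => ?_) (fun x hx hxU j => ?_)
      (fun ψ hψ => ?_) hψ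
    · simp only [ha'B x hx]
      exact hθq x (ball_subset_closedBall hx) ξ
    · rw [hWB x hx]
      refine hwF x (hBO hx) ?_ j
      by_contra hcon
      exact hxU ⟨hx, hcon⟩
    · have h1 := hTB ψ (hψ.mono sdiff_subset)
      rw [hT ψ (hψ.mono hBF)] at h1
      exact (sub_eq_zero.mp h1.symm).symm
  have hop : IsOpen {x | nV x ≠ 0} := isOpen_ne_fun hnVc continuous_const
  have hhi : Integrable h μ := hhc.integrable_of_hasCompactSupport hχcc.mul_left
  set g : E → ℂ := {x | nV x ≠ 0}ᶜ.indicator h with hg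
  have hgi : Integrable g μ := hhi.indicator hop.measurableSet.compl
  have hTg : ∀ ψ, IsTest B ψ → TB μ e a w H1 ψ = ∫ x, g x * ψ x ∂μ := by
    intro ψ hψ
    rw [hTB ψ hψ, hclaim ψ hψ]
    obtain ⟨Cψ, hCψ⟩ := hψ.comp.exists_bound_of_continuous hψ.smooth.continuous
    have j : ∀ k : E → ℂ, Integrable k μ → Integrable (fun x => k x * ψ x) μ := fun k hk =>
      hk.mul_bdd hψ.smooth.continuous.aestronglyMeasurable (Eventually.of_forall hCψ)
    rw [← integral_sub (j _ hhi) (j _ (hhi.indicator hop.measurableSet))]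
    refine integral_congr_ae (Eventually.of_forall fun x => ?_)
    simp only [hg]
    rw [← sub_mul]
    congr 1
    have h5 := congrFun (indicator_self_add_compl {x | nV x ≠ 0} h) x
    simp only [Pi.add_apply] at h5
    linear_combination -h5
  have hae : ∀ᵐ x ∂μ, x ∈ B \ F → g x = 0 := by
    refine hUo.ae_eq_zero_of_integral_contDiff_smul_eq_zero
      (hgi.locallyIntegrable.locallyIntegrableOn _) fun ψ hψ1 hψ2 hψ3 => ?_
    have hψt : IsTest (B \ F) (fun x => ((ψ x : ℝ) : ℂ)) := by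
      refine ⟨Complex.ofRealCLM.contDiff.comp hψ1,
        hψ2.comp_left (g := fun t : ℝ => (t : ℂ)) (by simp), ?_⟩
      refine (closure_mono fun x hx => ?_ : tsupport (fun x => ((ψ x : ℝ) : ℂ)) ⊆ tsupport ψ).trans
        hψ3
      simp only [mem_support] at hx ⊢
      exact fun h => hx (by simp [h])
    have h1 := hTg _ (hψt.mono sdiff_subset)
    rw [hT _ (hψt.mono hBF)] at h1
    have h2 : ∫ x, ψ x • g x ∂μ = ∫ x, g x * ((ψ x : ℝ) : ℂ) ∂μ :=
      integral_congr_ae (Eventually.of_forall fun x => by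
        simp only [Complex.real_smul]; ring)
    rw [h2]
    exact h1.symm
  refine ⟨B, isOpen_ball, mem_ball_self hr, fun ψ hψ => ?_⟩
  rw [hTg ψ hψ]
  refine integral_eq_zero_of_ae ?_
  filter_upwards [hae] with x hx
  by_cases hxB : x ∈ B
  · by_cases hxF : x ∈ F
    · have hh0 : h x = 0 := by
        simp only [hh]
        rw [hH1F x (hBO hxB) hxF, zero_mul]
      have : g x = 0 := by
        simp only [hg]
        by_cases hxW : x ∈ {x | nV x ≠ 0}ᶜ
        · rw [indicator_of_mem hxW]; exact hh0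
        · rw [indicator_of_notMem hxW]
      simp [this]
    · simp [hx ⟨hxB, hxF⟩]
  · have : ψ x = 0 := image_eq_zero_of_notMem_tsupport fun h => hxB (hψ.supp h)
    simp [this]

theorem coreB (hO : IsOpen O) {m : ℕ} {f : E → ℂ} (hf : ContDiffOn ℝ m f O)
    (hw : ContDiffOn ℝ 1 w O) (ha : ∀ i j, ContDiffOn ℝ ∞ (a i j) O)
    (hpos : ∀ x ∈ O, ∀ ξ : ι → ℝ, ξ ≠ 0 → 0 < ∑ i, ∑ j, a i j x * ξ i * ξ j)
    (hH1 : ContinuousOn H1 O)
    (hwF : ∀ x ∈ O, x ∈ FF e m f → ∀ j, pd (e j) w x = 0)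
    (hH1F : ∀ x ∈ O, x ∈ FF e m f → H1 x = 0)
    (hT : ∀ φ, IsTest (O \ {x | f x = 0}) φ → TB μ e a w H1 φ = 0) :
    ∀ φ, IsTest O φ → TB μ e a w H1 φ = 0 := by
  set G : ι → E → ℂ := fun i x => ∑ j, ((a i j x : ℝ) : ℂ) * pd (e j) w x with hG
  set H : E → ℂ := fun x => H1 x - ∑ i, ∑ j, pd (e i) (fun y => ((a i j y : ℝ) : ℂ)) x *
    pd (e j) w x with hH
  have hac : ∀ i j, ContDiffOn ℝ 1 (fun x => ((a i j x : ℝ) : ℂ)) O := fun i j =>
    ofReal_contDiffOn ((ha i j).of_le (by simp))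
  have hpw : ∀ j, ContinuousOn (pd (e j) w) O := fun j =>
    (pd_contDiffOn (m := 0) _ hO hw (by simp)).continuousOn
  have hGc : ∀ i, ContinuousOn (G i) O := fun i =>
    continuousOn_finsetSum _ fun j _ => (hac i j).continuousOn.mul (hpw j)
  have hHc : ContinuousOn H O := hH1.sub (continuousOn_finsetSum _ fun i _ =>
    continuousOn_finsetSum _ fun j _ =>
      ((pd_contDiffOn (m := 0) _ hO (hac i j) (by simp)).continuousOn).mul (hpw j))
  have hTF : ∀ φ, IsTest O φ → TB μ e a w H1 φ = TF μ e G H φ := fun φ hφ =>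
    TB_eq_TF hO hw ha hH1 hφ.one
  have hZ : IsOpen (O \ {x | f x = 0}) := by
    have : O \ {x | f x = 0} = O ∩ f ⁻¹' {0}ᶜ := rfl
    rw [this]
    exact hf.continuousOn.isOpen_inter_preimage hO isOpen_compl_singleton
  have h0 : ∀ x ∈ O, f x ≠ 0 → VanAt μ e G H x := fun x hx hfx =>
    ⟨O \ {x | f x = 0}, hZ, ⟨hx, hfx⟩, fun φ hφ => by
      rw [← hTF φ (hφ.mono sdiff_subset)]; exact hT φ hφ⟩
  have h1 : ∀ x ∈ O \ FF e m f, VanAt μ e G H x := by
    rintro x ⟨hx, hxF⟩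
    simp only [FF, mem_setOf_eq, not_forall] at hxF
    obtain ⟨l, hl, hne⟩ := hxF
    exact van_lists hO hGc hHc hO subset_rfl hf h0 l hl x hx hne
  have h2 : ∀ φ, IsTest (O \ FF e m f) φ → TB μ e a w H1 φ = 0 := by
    intro φ hφ
    rw [hTF φ (hφ.mono sdiff_subset)]
    exact van_of_local hO hGc hHc sdiff_subset h1 hφ
  have h3 : ∀ x ∈ O, VanAt μ e G H x := by
    intro x hx
    obtain ⟨B, hB, hxB, hBT⟩ := localB hO hw ha hpos hH1 (FF_open hO hf) hwF hH1F h2 hx
    refine ⟨B ∩ O, hB.inter hO, ⟨hxB, hx⟩, fun φ hφ => ?_⟩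
    rw [← hTF φ (hφ.mono inter_subset_right)]
    exact hBT φ (hφ.mono inter_subset_left)
  intro φ hφ
  rw [hTF φ hφ]
  exact van_of_local hO hGc hHc subset_rfl h3 hφ

end Pool.Agent.Work.MP_375441_an
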