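import Pool.Agent.Work.MP_375441_an.Multi

/-!
# Linear differential operators on open subsets of `ℝⁿ`, and distributional solutions
-/

open MeasureTheory Set Filter Topology Function Metric Module
open scoped ContDiff

namespace Pool.Agent.Work.MP_375441_an

set_option linter.unusedSectionVars false

/-- `ℝⁿ` -/
abbrev Sp (n : ℕ) := EuclideanSpace ℝ (Fin n)

/-- `D_j = (1/√-1) ∂/∂x_j` -/
noncomputable def DD {n : ℕ} (j : Fin n) (g : Sp n → ℂ) (x : Sp n) : ℂ :=
  (1 / Complex.I) * fderiv ℝ g x (EuclideanSpace.single j 1)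

/-- `D^α = D_1^{α_1} ⋯ D_n^{α_n}` -/
noncomputable def Dpow {n : ℕ} (α : Fin n → ℕ) (g : Sp n → ℂ) : Sp n → ℂ :=
  (List.finRange n).foldr (fun j h => (DD j)^[α j] h) g

/-- the multi-indices `α` with `|α| ≤ p` -/
def multi (n p : ℕ) : Finset (Fin n → ℕ) :=
  (Fintype.piFinset fun _ => Finset.range (p + 1)).filter fun α => ∑ i, α i ≤ p

/-- The formal transpose `ᵗPφ = ∑_{|α| ≤ p} (-1)^{|α|} D^α (P_α φ)` of
`P = ∑_{|α| ≤ p} P_α D^α`. -/
noncomputable def transp {n : ℕ} (p : ℕ) (P : (Fin n → ℕ) → Sp n → ℂ) (φ : Sp n → ℂ)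
    (x : Sp n) : ℂ :=
  ∑ α ∈ multi n p, (-1) ^ (∑ i, α i) * Dpow α (fun y => P α y * φ y) x

/-- `Pf = 0` on `U` in the sense of distributions: `⟨Pf, φ⟩ = ∫ f · ᵗPφ = 0` for every
`φ ∈ C_c^∞(U)` -/
def Solves {n : ℕ} (p : ℕ) (P : (Fin n → ℕ) → Sp n → ℂ) (f : Sp n → ℂ) (U : Set (Sp n)) : Prop :=
  ∀ φ : Sp n → ℂ, ContDiff ℝ ∞ φ → HasCompactSupport φ → tsupport φ ⊆ U →
    ∫ x, f x * transp p P φ x = 0

/-- `P` is elliptic on `X`: `∑_{|α| = p} P_α(x) z^α ≠ 0` for `x ∈ X` and `z ∈ ℝⁿ ∖ {0}` -/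
def Ellip {n : ℕ} (p : ℕ) (P : (Fin n → ℕ) → Sp n → ℂ) (X : Set (Sp n)) : Prop :=
  ∀ x ∈ X, ∀ z : Fin n → ℝ, z ≠ 0 →
    ∑ α ∈ (multi n p).filter (fun α => ∑ i, α i = p), P α x * ∏ i, (z i : ℂ) ^ α i ≠ 0

/-- the coordinate directions -/
noncomputable def ee (n : ℕ) (j : Fin n) : Sp n := EuclideanSpace.single j 1

/-- the list of directions of a multi-index -/
def lst {n : ℕ} (α : Fin n → ℕ) : List (Fin n) :=
  (List.finRange n).flatMap fun j => List.replicate (α j) j

variable {n : ℕ}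

lemma lst_length (α : Fin n → ℕ) : (lst α).length = ∑ i, α i := by
  unfold lst
  rw [List.length_flatMap]
  simp [List.sum_ofFn, ← List.ofFn_eq_map]

lemma DD_iter {h : Sp n → ℂ} (hh : ContDiff ℝ ∞ h) (a : ℂ) (j : Fin n) (k : ℕ) :
    (DD j)^[k] (fun x => a * h x) =
      fun x => (1 / Complex.I) ^ k * a * dl (ee n) (List.replicate k j) h x := by
  induction k with
  | zero => simp
  | succ k ih =>
    rw [iterate_succ_apply', ih]
    funext x
    change 1 / Complex.I * pd (ee n j)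
      (fun x => (1 / Complex.I) ^ k * a * dl (ee n) (List.replicate k j) h x) x = _
    rw [pd_const_mul _ ((dl_smooth (e := ee n) hh (List.replicate k j)).differentiable (by simp) x),
      List.replicate_succ, dl_cons, pow_succ]
    ring

lemma Dpow_aux (α : Fin n → ℕ) {g : Sp n → ℂ} (hg : ContDiff ℝ ∞ g) (L : List (Fin n)) :
    L.foldr (fun j h => (DD j)^[α j] h) g = fun x => (1 / Complex.I) ^ ((L.map α).sum) *
      dl (ee n) (L.flatMap fun j => List.replicate (α j) j) g x := by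
  induction L with
  | nil => funext x; simp
  | cons j L ih =>
    rw [List.foldr_cons, ih, DD_iter (dl_smooth hg _), List.flatMap_cons, dl_append, List.map_cons,
      List.sum_cons, pow_add]

lemma Dpow_eq (α : Fin n → ℕ) {g : Sp n → ℂ} (hg : ContDiff ℝ ∞ g) :
    Dpow α g = fun x => (1 / Complex.I) ^ (∑ i, α i) * dl (ee n) (lst α) g x := by
  unfold Dpow lst
  rw [Dpow_aux α hg]
  have : ((List.finRange n).map α).sum = ∑ i, α i := by
    rw [← List.ofFn_eq_map, List.sum_ofFn]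
  rw [this]

lemma mem_multi {p : ℕ} {α : Fin n → ℕ} : α ∈ multi n p ↔ ∑ i, α i ≤ p := by
  unfold multi
  rw [Finset.mem_filter, Fintype.mem_piFinset]
  constructor
  · exact fun h => h.2
  · intro h
    refine ⟨fun i => ?_, h⟩
    have := Finset.single_le_sum (f := α) (fun i _ => Nat.zero_le _) (Finset.mem_univ i)
    rw [Finset.mem_range]
    omega

/-- the pairing `⟨Pf, φ⟩` as a sum -/
lemma pairing {p : ℕ} {P : (Fin n → ℕ) → Sp n → ℂ} {X O : Set (Sp n)} (hX : IsOpen X)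
    (hO : IsOpen O) (hOX : O ⊆ X) (hP : ∀ α ∈ multi n p, ContDiffOn ℝ ∞ (P α) X) {f : Sp n → ℂ}
    (hf : ContinuousOn f O) {φ : Sp n → ℂ} (hφ : IsTest O φ) :
    ∫ x, f x * transp p P φ x = ∑ α ∈ multi n p, (-1) ^ (∑ i, α i) * ((1 / Complex.I) ^ (∑ i, α i) *
      ∫ x, f x * dl (ee n) (lst α) (fun y => P α y * φ y) x) := by
  have ht : ∀ α ∈ multi n p, IsTest O (fun y => P α y * φ y) := fun α hα =>
    hφ.mul_left hX hOX (hP α hα)
  have hi : ∀ α ∈ multi n p, Integrable (fun x => (-1) ^ (∑ i, α i) * ((1 / Complex.I) ^ (∑ i, α i) *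
      (f x * dl (ee n) (lst α) (fun y => P α y * φ y) x))) := by
    intro α hα
    have h1 := dl_test (e := ee n) (ht α hα) (lst α)
    exact ((integrable_mul_test hO hf h1.smooth.continuous h1.comp h1.supp).const_mul _).const_mul _
  have h1 : ∀ x, f x * transp p P φ x = ∑ α ∈ multi n p, (-1) ^ (∑ i, α i) *
      ((1 / Complex.I) ^ (∑ i, α i) * (f x * dl (ee n) (lst α) (fun y => P α y * φ y) x)) := by
    intro x
    unfold transp
    rw [Finset.mul_sum]
    refine Finset.sum_congr rfl fun α hα => ?_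
    rw [Dpow_eq α (ht α hα).smooth]
    ring
  rw [integral_congr_ae (Eventually.of_forall h1), integral_finsetSum _ hi]
  refine Finset.sum_congr rfl fun α _ => ?_
  rw [integral_const_mul, integral_const_mul]

end Pool.Agent.Work.MP_375441_an
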