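import Pool.Agent.Work.MP_375441_an.Strata

/-!
# The Jacobian identity and the energy estimate
-/

open MeasureTheory Set Filter Topology Function Metric Module
open scoped ContDiff

namespace Pool.Agent.Work.MP_375441_an

set_option linter.unusedSectionVars false

section general

variable {E : Type*} [NormedAddCommGroup E] [NormedSpace ℝ E] [MeasurableSpace E] [BorelSpace E]
  [FiniteDimensional ℝ E] {μ : Measure E} [μ.IsAddHaarMeasure]

lemma int_pdR {f g : E → ℝ} (hf : ContDiff ℝ 1 f) (hg : ContDiff ℝ 1 g)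
    (hc : HasCompactSupport g) (v : E) :
    ∫ x, g x * fderiv ℝ f x v ∂μ = - ∫ x, fderiv ℝ g x v * f x ∂μ := by
  have hf' : Continuous fun x => fderiv ℝ f x v :=
    (hf.continuous_fderiv (by simp)).clm_apply continuous_const
  have hg' : Continuous fun x => fderiv ℝ g x v :=
    (hg.continuous_fderiv (by simp)).clm_apply continuous_const
  have hgc : HasCompactSupport fun x => fderiv ℝ g x v := by
    refine HasCompactSupport.intro hc fun x hx => ?_
    rw [notMem_tsupport_iff_eventuallyEq] at hx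
    rw [hx.fderiv_eq]; simp
  refine integral_bilinear_hasLineDerivAt_right_eq_neg_left_of_integrable (v := v)
    (B := ContinuousLinearMap.mul ℝ ℝ) (f := g) (g := f) ?_ ?_ ?_ ?_ ?_
  · exact (hg'.mul hf.continuous).integrable_of_hasCompactSupport hgc.mul_right
  · exact (hg.continuous.mul hf').integrable_of_hasCompactSupport hc.mul_right
  · exact (hg.continuous.mul hf.continuous).integrable_of_hasCompactSupport hc.mul_right
  · intro x _
    exact ((hg.differentiable (by simp)) x).hasFDerivAt.hasLineDerivAt v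
  · intro x _
    exact ((hf.differentiable (by simp)) x).hasFDerivAt.hasLineDerivAt v

/-- the form `κ(t) (a db - b da)`, `t = a² + b²` -/
noncomputable def om (κ : ℝ → ℝ) (a b : E → ℝ) (w x : E) : ℝ :=
  κ (a x ^ 2 + b x ^ 2) * (a x * fderiv ℝ b x w - b x * fderiv ℝ a x w)

lemma fderiv_om {κ : ℝ → ℝ} (hκ : ContDiff ℝ 1 κ) {a b : E → ℝ} (ha : ContDiff ℝ 2 a)
    (hb : ContDiff ℝ 2 b) (v w x : E) :
    fderiv ℝ (om κ a b w) x v =
      deriv κ (a x ^ 2 + b x ^ 2) * (2 * a x * fderiv ℝ a x v + 2 * b x * fderiv ℝ b x v) *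
        (a x * fderiv ℝ b x w - b x * fderiv ℝ a x w) +
      κ (a x ^ 2 + b x ^ 2) * (fderiv ℝ a x v * fderiv ℝ b x w
        + a x * fderiv ℝ (fderiv ℝ b) x v w - fderiv ℝ b x v * fderiv ℝ a x w
        - b x * fderiv ℝ (fderiv ℝ a) x v w) := by
  have ha1 : HasFDerivAt a (fderiv ℝ a x) x := (ha.differentiable (by simp) x).hasFDerivAt
  have hb1 : HasFDerivAt b (fderiv ℝ b x) x := (hb.differentiable (by simp) x).hasFDerivAt
  have ha2 : HasFDerivAt (fun y => fderiv ℝ a y w)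
      ((ContinuousLinearMap.apply ℝ ℝ w).comp (fderiv ℝ (fderiv ℝ a) x)) x :=
    (ContinuousLinearMap.apply ℝ ℝ w).hasFDerivAt.comp x
      (((ha.fderiv_right (m := 1) (by norm_num)).differentiable (by simp) x).hasFDerivAt)
  have hb2 : HasFDerivAt (fun y => fderiv ℝ b y w)
      ((ContinuousLinearMap.apply ℝ ℝ w).comp (fderiv ℝ (fderiv ℝ b) x)) x :=
    (ContinuousLinearMap.apply ℝ ℝ w).hasFDerivAt.comp x
      (((hb.fderiv_right (m := 1) (by norm_num)).differentiable (by simp) x).hasFDerivAt)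
  have ht : HasFDerivAt (fun y => a y ^ 2 + b y ^ 2)
      ((2 * a x) • fderiv ℝ a x + (2 * b x) • fderiv ℝ b x) x := by
    have := (ha1.pow 2).add (hb1.pow 2)
    simp only [nsmul_eq_mul, Nat.cast_ofNat, Nat.add_one_sub_one, pow_one] at this
    exact this
  have hk : HasFDerivAt (fun y => κ (a y ^ 2 + b y ^ 2))
      (deriv κ (a x ^ 2 + b x ^ 2) • ((2 * a x) • fderiv ℝ a x + (2 * b x) • fderiv ℝ b x)) x :=
    ((hκ.differentiable (by simp) _).hasDerivAt).comp_hasFDerivAt x ht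
  have hm := hk.mul ((ha1.mul hb2).sub (hb1.mul ha2))
  have hm' : HasFDerivAt (om κ a b w) _ x := hm
  rw [hm'.fderiv]
  simp
  ring

/-- the Jacobian identity -/
lemma jacobian_identity {κ : ℝ → ℝ} (hκ : ContDiff ℝ 1 κ) {a b : E → ℝ} (ha : ContDiff ℝ 2 a)
    (hb : ContDiff ℝ 2 b) {ψ : E → ℝ} (hψ : ContDiff ℝ 1 ψ) (hc : HasCompactSupport ψ) (v w : E) :
    ∫ x, ψ x * (2 * (κ (a x ^ 2 + b x ^ 2) + (a x ^ 2 + b x ^ 2) * deriv κ (a x ^ 2 + b x ^ 2)) *
      (fderiv ℝ a x v * fderiv ℝ b x w - fderiv ℝ a x w * fderiv ℝ b x v)) ∂μ =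
    - ∫ x, (fderiv ℝ ψ x v * om κ a b w x - fderiv ℝ ψ x w * om κ a b v x) ∂μ := by
  have homd : ∀ w, ContDiff ℝ 1 (om κ a b w) := by
    intro w
    unfold om
    have ha1 : ContDiff ℝ 1 a := ha.of_le (by norm_num)
    have hb1 : ContDiff ℝ 1 b := hb.of_le (by norm_num)
    have ha2 : ContDiff ℝ 1 fun x => fderiv ℝ a x w :=
      (ha.fderiv_right (m := 1) (by norm_num)).clm_apply contDiff_const
    have hb2 : ContDiff ℝ 1 fun x => fderiv ℝ b x w :=
      (hb.fderiv_right (m := 1) (by norm_num)).clm_apply contDiff_const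
    exact (hκ.comp ((ha1.pow 2).add (hb1.pow 2))).mul ((ha1.mul hb2).sub (hb1.mul ha2))
  have hψc : ∀ u : E, HasCompactSupport fun x => fderiv ℝ ψ x u := by
    intro u
    refine HasCompactSupport.intro hc fun x hx => ?_
    rw [notMem_tsupport_iff_eventuallyEq] at hx
    rw [hx.fderiv_eq]; simp
  have hψ' : ∀ u : E, Continuous fun x => fderiv ℝ ψ x u := fun u =>
    (hψ.continuous_fderiv (by simp)).clm_apply continuous_const
  have h1 := int_pdR (μ := μ) (homd w) hψ hc v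
  have h2 := int_pdR (μ := μ) (homd v) hψ hc w
  have hi : ∀ u u' : E, Integrable (fun x => ψ x * fderiv ℝ (om κ a b u) x u') μ := fun u u' =>
    (hψ.continuous.mul (((homd u).continuous_fderiv (by simp)).clm_apply
      continuous_const)).integrable_of_hasCompactSupport hc.mul_right
  have hi' : ∀ u u' : E, Integrable (fun x => fderiv ℝ ψ x u * om κ a b u' x) μ := fun u u' =>
    ((hψ' u).mul (homd u').continuous).integrable_of_hasCompactSupport (hψc u).mul_right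
  have h3 : ∫ x, (fderiv ℝ ψ x v * om κ a b w x - fderiv ℝ ψ x w * om κ a b v x) ∂μ =
      ∫ x, fderiv ℝ ψ x v * om κ a b w x ∂μ - ∫ x, fderiv ℝ ψ x w * om κ a b v x ∂μ :=
    integral_sub (hi' v w) (hi' w v)
  have h4 : ∫ x, (ψ x * fderiv ℝ (om κ a b w) x v - ψ x * fderiv ℝ (om κ a b v) x w) ∂μ =
      ∫ x, ψ x * fderiv ℝ (om κ a b w) x v ∂μ - ∫ x, ψ x * fderiv ℝ (om κ a b v) x w ∂μ :=
    integral_sub (hi w v) (hi v w)
  have h5 : ∫ x, ψ x * (2 * (κ (a x ^ 2 + b x ^ 2) + (a x ^ 2 + b x ^ 2) *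
        deriv κ (a x ^ 2 + b x ^ 2)) *
      (fderiv ℝ a x v * fderiv ℝ b x w - fderiv ℝ a x w * fderiv ℝ b x v)) ∂μ =
      ∫ x, (ψ x * fderiv ℝ (om κ a b w) x v - ψ x * fderiv ℝ (om κ a b v) x w) ∂μ := by
    refine integral_congr_ae (Eventually.of_forall fun x => ?_)
    have sa : fderiv ℝ (fderiv ℝ a) x v w = fderiv ℝ (fderiv ℝ a) x w v :=
      (ha.contDiffAt.isSymmSndFDerivAt (by simp)) v w
    have sb : fderiv ℝ (fderiv ℝ b) x v w = fderiv ℝ (fderiv ℝ b) x w v :=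
      (hb.contDiffAt.isSymmSndFDerivAt (by simp)) v w
    simp only []
    rw [fderiv_om hκ ha hb, fderiv_om hκ ha hb, sa, sb]
    ring
  rw [h5, h4, h3, h1, h2]
  ring

end general

section energy

variable {E : Type*} [NormedAddCommGroup E] [NormedSpace ℝ E] [MeasurableSpace E] [BorelSpace E]
  [FiniteDimensional ℝ E] {μ : Measure E} [μ.IsAddHaarMeasure]

/-- pointwise lower bound of the Jacobian -/
lemma jac_lower {v1 v2 lam : ℂ} {s c M : ℝ} (hs : |s| ≤ 1) (hc : 0 < c) (hl : s * lam.im ≤ -c)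
    (hM : ‖v1 - lam * v2‖ ≤ M) :
    c / 2 * ‖v2‖ ^ 2 - M ^ 2 / (2 * c) ≤ s * (v1.re * v2.im - v2.re * v1.im) := by
  set l := v1 - lam * v2 with hldef
  have hv1 : v1 = lam * v2 + l := by rw [hldef]; ring
  have h1 : v1.re * v2.im - v2.re * v1.im = -lam.im * ‖v2‖ ^ 2 + (l.re * v2.im - v2.re * l.im) := by
    rw [hv1, ← Complex.normSq_eq_norm_sq, Complex.normSq_apply]
    simp
    ring
  have h2 : |l.re * v2.im - v2.re * l.im| ≤ M * ‖v2‖ := by
    have h3 : l.re * v2.im - v2.re * l.im = (starRingEnd ℂ l * v2).im := by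
      simp; ring
    rw [h3]
    refine (Complex.abs_im_le_norm _).trans ?_
    rw [norm_mul, RCLike.norm_conj]
    exact mul_le_mul_of_nonneg_right hM (norm_nonneg _)
  have h4 : -(M * ‖v2‖) ≤ s * (l.re * v2.im - v2.re * l.im) := by
    have h5 : |s * (l.re * v2.im - v2.re * l.im)| ≤ M * ‖v2‖ := by
      rw [abs_mul]
      calc |s| * |l.re * v2.im - v2.re * l.im| ≤ 1 * |l.re * v2.im - v2.re * l.im| :=
            mul_le_mul_of_nonneg_right hs (abs_nonneg _)
        _ ≤ M * ‖v2‖ := by rw [one_mul]; exact h2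
    exact (abs_le.mp h5).1
  have h6 : c * ‖v2‖ ^ 2 ≤ s * (-lam.im * ‖v2‖ ^ 2) := by nlinarith [sq_nonneg ‖v2‖]
  have h7 : M * ‖v2‖ ≤ c / 2 * ‖v2‖ ^ 2 + M ^ 2 / (2 * c) := by
    have : 0 ≤ (c * ‖v2‖ - M) ^ 2 / (2 * c) := by positivity
    have h8 : (c * ‖v2‖ - M) ^ 2 / (2 * c) = c / 2 * ‖v2‖ ^ 2 + M ^ 2 / (2 * c) - M * ‖v2‖ := by
      field_simp; ring
    linarith
  rw [h1, mul_add]
  linarith

lemma pd_re {u : E → ℂ} {x : E} (hu : DifferentiableAt ℝ u x) (v : E) :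
    fderiv ℝ (fun y => (u y).re) x v = (pd v u x).re := by
  have h : HasFDerivAt (fun y => (u y).re) (Complex.reCLM.comp (fderiv ℝ u x)) x :=
    Complex.reCLM.hasFDerivAt.comp x hu.hasFDerivAt
  rw [h.fderiv]; rfl

lemma pd_im {u : E → ℂ} {x : E} (hu : DifferentiableAt ℝ u x) (v : E) :
    fderiv ℝ (fun y => (u y).im) x v = (pd v u x).im := by
  have h : HasFDerivAt (fun y => (u y).im) (Complex.imCLM.comp (fderiv ℝ u x)) x :=
    Complex.imCLM.hasFDerivAt.comp x hu.hasFDerivAt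
  rw [h.fderiv]; rfl

/-- the energy estimate -/
theorem energy_bound {φ : E → ℝ} (hφ : ContDiff ℝ ∞ φ) (hcs : HasCompactSupport φ) (v w : E)
    {c Λ Mv Ml Ck : ℝ} (hc : 0 < c) (hΛ : 0 ≤ Λ) (hMv : 0 ≤ Mv) (hMl : 0 ≤ Ml) (hCk : 0 ≤ Ck) :
    ∃ C, ∀ (u : E → ℂ) (κ : ℝ → ℝ) (lam : E → ℂ) (s : ℝ), ContDiff ℝ ∞ u → ContDiff ℝ ∞ κ →
      (∀ t, 0 ≤ κ t ∧ κ t ≤ 1) → (∀ t, 0 ≤ deriv κ t) → (∀ t, 0 ≤ t → κ t + t * deriv κ t ≤ Ck) →
      |s| ≤ 1 → (∀ x, φ x ≠ 0 → ‖u x‖ ≤ Mv) →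
      (∀ x, φ x ≠ 0 → (κ (‖u x‖ ^ 2) ≠ 0 ∨ deriv κ (‖u x‖ ^ 2) ≠ 0) →
        s * (lam x).im ≤ -c ∧ ‖lam x‖ ≤ Λ ∧ ‖pd v u x - lam x * pd w u x‖ ≤ Ml) →
      ∫ x, φ x ^ 2 * (κ (‖u x‖ ^ 2) * ‖pd w u x‖ ^ 2) ∂μ ≤ C ∧
      ∫ x, φ x ^ 2 * (κ (‖u x‖ ^ 2) * ‖pd v u x‖ ^ 2) ∂μ ≤ C := by
  set R : E → ℝ := fun x => 2 / c * Mv ^ 2 * (|fderiv ℝ φ x v| + Λ * |fderiv ℝ φ x w|) ^ 2
    + 2 * |φ x| * Mv * Ml * |fderiv ℝ φ x w| with hR
  set C1 : ℝ := 2 / c * (∫ x, R x ∂μ + Ck * Ml ^ 2 / c * ∫ x, φ x ^ 2 ∂μ) with hC1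
  refine ⟨max C1 (2 * Λ ^ 2 * C1 + 2 * Ml ^ 2 * ∫ x, φ x ^ 2 ∂μ), ?_⟩
  intro u κ lam s hu hκ hκ01 hκ' hκk hs huM hrel
  have hφ' : ∀ y : E, Continuous fun x => fderiv ℝ φ x y := fun y =>
    (hφ.continuous_fderiv (by simp)).clm_apply continuous_const
  have hφ0 : ∀ x, x ∉ tsupport φ → φ x = 0 ∧ ∀ y, fderiv ℝ φ x y = 0 := by
    intro x hx
    refine ⟨image_eq_zero_of_notMem_tsupport hx, fun y => ?_⟩
    rw [notMem_tsupport_iff_eventuallyEq] at hx
    rw [hx.fderiv_eq]; simp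
  have hRc : Continuous R := by
    have h1 := (hφ' v).abs
    have h2 := (hφ' w).abs
    have h3 := hφ.continuous.abs
    rw [hR]
    fun_prop
  have hRi : Integrable R μ := hRc.integrable_of_hasCompactSupport
    (HasCompactSupport.intro hcs fun x hx => by
      obtain ⟨h1, h2⟩ := hφ0 x hx
      simp [hR, h1, h2])
  have hφi : Integrable (fun x => φ x ^ 2) μ :=
    (hφ.continuous.pow 2).integrable_of_hasCompactSupport
      (HasCompactSupport.intro hcs fun x hx => by simp [(hφ0 x hx).1])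
  -- real and imaginary parts
  set a : E → ℝ := fun x => (u x).re with ha
  set b : E → ℝ := fun x => (u x).im with hb
  have h2t : (2 : WithTop ℕ∞) ≤ ∞ :=
    show ((2 : ℕ∞) : WithTop ℕ∞) ≤ ((⊤ : ℕ∞) : WithTop ℕ∞) from WithTop.coe_le_coe.2 le_top
  have had : ContDiff ℝ 2 a := (Complex.reCLM.contDiff.comp hu).of_le h2t
  have hbd : ContDiff ℝ 2 b := (Complex.imCLM.contDiff.comp hu).of_le h2t
  have hud : ∀ x, DifferentiableAt ℝ u x := fun x => hu.differentiable (by simp) x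
  have hab : ∀ x, a x ^ 2 + b x ^ 2 = ‖u x‖ ^ 2 := by
    intro x
    rw [← Complex.normSq_eq_norm_sq, Complex.normSq_apply]; ring
  have hκc : Continuous fun x => κ (‖u x‖ ^ 2) := hκ.continuous.comp (hu.continuous.norm.pow 2)
  have hκ'c : Continuous fun x => deriv κ (‖u x‖ ^ 2) :=
    (hκ.continuous_deriv (by simp)).comp (hu.continuous.norm.pow 2)
  have hpu : ∀ y : E, Continuous (pd y u) := fun y => (pd_contDiff (m := 0) y hu (by simp)).continuous
  have hident := jacobian_identity (μ := μ) (hκ.of_le (by simp)) had hbd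
    (ψ := fun x => φ x ^ 2) ((hφ.pow 2).of_le (by simp))
    (HasCompactSupport.intro hcs fun x hx => by simp [(hφ0 x hx).1]) v w
  -- rewrite everything with `u`
  set J : E → ℝ := fun x => (pd v u x).re * (pd w u x).im - (pd w u x).re * (pd v u x).im with hJ
  set L : E → ℝ := fun x => φ x ^ 2 * (2 * (κ (‖u x‖ ^ 2) + ‖u x‖ ^ 2 * deriv κ (‖u x‖ ^ 2)) * J x)
    with hL
  set B : E → ℝ := fun x => 2 * φ x * fderiv ℝ φ x v *
      (κ (‖u x‖ ^ 2) * (starRingEnd ℂ (u x) * pd w u x).im) -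
    2 * φ x * fderiv ℝ φ x w * (κ (‖u x‖ ^ 2) * (starRingEnd ℂ (u x) * pd v u x).im) with hB
  have hψ' : ∀ x y, fderiv ℝ (fun x => φ x ^ 2) x y = 2 * φ x * fderiv ℝ φ x y := by
    intro x y
    have := ((hφ.differentiable (by simp) x).hasFDerivAt).pow 2
    have h2 : HasFDerivAt (fun x => φ x ^ 2) _ x := this
    rw [h2.fderiv]
    simp
  have homu : ∀ x y, om κ a b y x = κ (‖u x‖ ^ 2) * (starRingEnd ℂ (u x) * pd y u x).im := by
    intro x y
    unfold om
    have e : (starRingEnd ℂ (u x) * pd y u x).im =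
        (u x).re * (pd y u x).im - (u x).im * (pd y u x).re := by
      rw [Complex.mul_im, Complex.conj_re, Complex.conj_im]; ring
    rw [hab, ha, hb, pd_re (hud x), pd_im (hud x), e]
  have hab' : ∀ x, (u x).re ^ 2 + (u x).im ^ 2 = ‖u x‖ ^ 2 := hab
  have hident' : ∫ x, L x ∂μ = - ∫ x, B x ∂μ := by
    have e1 : ∫ x, L x ∂μ = ∫ x, φ x ^ 2 * (2 * (κ (a x ^ 2 + b x ^ 2) + (a x ^ 2 + b x ^ 2) *
        deriv κ (a x ^ 2 + b x ^ 2)) *
      (fderiv ℝ a x v * fderiv ℝ b x w - fderiv ℝ a x w * fderiv ℝ b x v)) ∂μ := by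
      refine integral_congr_ae (Eventually.of_forall fun x => ?_)
      simp only [hL, hJ, hab', ha, hb, pd_re (hud x), pd_im (hud x)]
    rw [e1, hident]
    congr 1
    refine integral_congr_ae (Eventually.of_forall fun x => ?_)
    simp only [hB, hψ', homu]
  -- integrability
  set I : E → ℝ := fun x => φ x ^ 2 * (κ (‖u x‖ ^ 2) * ‖pd w u x‖ ^ 2) with hI
  have hIi : Integrable I μ := by
    refine Continuous.integrable_of_hasCompactSupport ?_
      (HasCompactSupport.intro hcs fun x hx => by simp [hI, (hφ0 x hx).1])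
    exact (hφ.continuous.pow 2).mul (hκc.mul ((hpu w).norm.pow 2))
  have hLi : Integrable L μ := by
    refine Continuous.integrable_of_hasCompactSupport ?_
      (HasCompactSupport.intro hcs fun x hx => by simp [hL, (hφ0 x hx).1])
    have h1 : Continuous J := ((Complex.continuous_re.comp (hpu v)).mul
      (Complex.continuous_im.comp (hpu w))).sub ((Complex.continuous_re.comp (hpu w)).mul
      (Complex.continuous_im.comp (hpu v)))
    exact (hφ.continuous.pow 2).mul ((continuous_const.mul (hκc.add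
      ((hu.continuous.norm.pow 2).mul hκ'c))).mul h1)
  have hBi : Integrable B μ := by
    refine Continuous.integrable_of_hasCompactSupport ?_
      (HasCompactSupport.intro hcs fun x hx => by simp [hB, (hφ0 x hx).1])
    have h1 : ∀ y, Continuous fun x => (starRingEnd ℂ (u x) * pd y u x).im := fun y =>
      Complex.continuous_im.comp ((Complex.continuous_conj.comp hu.continuous).mul (hpu y))
    exact (((continuous_const.mul hφ.continuous).mul (hφ' v)).mul (hκc.mul (h1 w))).sub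
      (((continuous_const.mul hφ.continuous).mul (hφ' w)).mul (hκc.mul (h1 v)))
  have hI0 : ∀ x, 0 ≤ I x := fun x => mul_nonneg (sq_nonneg _) (mul_nonneg (hκ01 _).1 (sq_nonneg _))
  -- pointwise inequality 1
  have hP1 : ∀ x, c * I x ≤ s * L x + Ck * Ml ^ 2 / c * φ x ^ 2 := by
    intro x
    have hnn : 0 ≤ Ck * Ml ^ 2 / c * φ x ^ 2 := by positivity
    by_cases hx : φ x = 0
    · simp [hI, hL, hx]
    by_cases hk : κ (‖u x‖ ^ 2) ≠ 0 ∨ deriv κ (‖u x‖ ^ 2) ≠ 0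
    · obtain ⟨h1, h2, h3⟩ := hrel x hx hk
      have h4 := jac_lower (v1 := pd v u x) (v2 := pd w u x) hs hc h1 h3
      have hk0 := (hκ01 (‖u x‖ ^ 2)).1
      have hk1 := mul_nonneg (sq_nonneg ‖u x‖) (hκ' (‖u x‖ ^ 2))
      have hk2 := hκk (‖u x‖ ^ 2) (sq_nonneg _)
      have h5 : (κ (‖u x‖ ^ 2) + ‖u x‖ ^ 2 * deriv κ (‖u x‖ ^ 2)) *
          (c / 2 * ‖pd w u x‖ ^ 2 - Ml ^ 2 / (2 * c)) ≤
          (κ (‖u x‖ ^ 2) + ‖u x‖ ^ 2 * deriv κ (‖u x‖ ^ 2)) * (s * J x) :=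
        mul_le_mul_of_nonneg_left h4 (by linarith)
      have h6 : κ (‖u x‖ ^ 2) * (c / 2 * ‖pd w u x‖ ^ 2) ≤
          (κ (‖u x‖ ^ 2) + ‖u x‖ ^ 2 * deriv κ (‖u x‖ ^ 2)) * (c / 2 * ‖pd w u x‖ ^ 2) :=
        mul_le_mul_of_nonneg_right (by linarith) (by positivity)
      have h7 : (κ (‖u x‖ ^ 2) + ‖u x‖ ^ 2 * deriv κ (‖u x‖ ^ 2)) * (Ml ^ 2 / (2 * c)) ≤
          Ck * (Ml ^ 2 / (2 * c)) := mul_le_mul_of_nonneg_right hk2 (by positivity)
      have h8 : κ (‖u x‖ ^ 2) * (c / 2 * ‖pd w u x‖ ^ 2) ≤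
          (κ (‖u x‖ ^ 2) + ‖u x‖ ^ 2 * deriv κ (‖u x‖ ^ 2)) * (s * J x)
            + Ck * (Ml ^ 2 / (2 * c)) := by linarith
      have h9 := mul_le_mul_of_nonneg_left h8 (by positivity : (0:ℝ) ≤ 2 * φ x ^ 2)
      calc c * I x = 2 * φ x ^ 2 * (κ (‖u x‖ ^ 2) * (c / 2 * ‖pd w u x‖ ^ 2)) := by
            rw [hI]; ring
        _ ≤ _ := h9
        _ = s * L x + Ck * Ml ^ 2 / c * φ x ^ 2 := by
            rw [hL]; field_simp
    · push Not at hk
      simp only [hI, hL, hk.1, hk.2]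
      simpa using hnn
  -- pointwise inequality 2
  have hP2 : ∀ x, -s * B x ≤ c / 2 * I x + R x := by
    intro x
    have hRn : 0 ≤ R x := by
      rw [hR]; positivity
    by_cases hx : φ x = 0
    · simp only [hI, hB, hx]
      simpa using hRn
    by_cases hk : κ (‖u x‖ ^ 2) ≠ 0
    · obtain ⟨h1, h2, h3⟩ := hrel x hx (Or.inl hk)
      have hk0 := (hκ01 (‖u x‖ ^ 2)).1
      have hk1 := (hκ01 (‖u x‖ ^ 2)).2
      set k := κ (‖u x‖ ^ 2) with hkdef
      set nw := ‖pd w u x‖ with hnw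
      have hnw0 : 0 ≤ nw := norm_nonneg _
      set fv := |fderiv ℝ φ x v| with hfv
      set fw := |fderiv ℝ φ x w| with hfw
      have hfv0 : 0 ≤ fv := abs_nonneg _
      have hfw0 : 0 ≤ fw := abs_nonneg _
      have huv : ‖pd v u x‖ ≤ Λ * nw + Ml := by
        have h4 : pd v u x = lam x * pd w u x + (pd v u x - lam x * pd w u x) := by ring
        rw [h4]
        refine (norm_add_le _ _).trans (add_le_add ?_ h3)
        rw [norm_mul]
        exact mul_le_mul_of_nonneg_right h2 hnw0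
      have hi1 : |(starRingEnd ℂ (u x) * pd w u x).im| ≤ Mv * nw := by
        refine (Complex.abs_im_le_norm _).trans ?_
        rw [norm_mul, RCLike.norm_conj]
        exact mul_le_mul_of_nonneg_right (huM x hx) hnw0
      have hi2 : |(starRingEnd ℂ (u x) * pd v u x).im| ≤ Mv * (Λ * nw + Ml) := by
        refine (Complex.abs_im_le_norm _).trans ?_
        rw [norm_mul, RCLike.norm_conj]
        exact mul_le_mul (huM x hx) huv (norm_nonneg _) hMv
      have hBabs : |B x| ≤ 2 * |φ x| * fv * (k * (Mv * nw)) +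
          2 * |φ x| * fw * (k * (Mv * (Λ * nw + Ml))) := by
        rw [hB]
        refine (abs_sub _ _).trans (add_le_add ?_ ?_)
        · rw [abs_mul, abs_mul, abs_mul, abs_mul, abs_of_nonneg hk0]
          rw [abs_of_pos (by norm_num : (0:ℝ) < 2)]
          exact mul_le_mul_of_nonneg_left (mul_le_mul_of_nonneg_left hi1 hk0) (by positivity)
        · rw [abs_mul, abs_mul, abs_mul, abs_mul, abs_of_nonneg hk0]
          rw [abs_of_pos (by norm_num : (0:ℝ) < 2)]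
          exact mul_le_mul_of_nonneg_left (mul_le_mul_of_nonneg_left hi2 hk0) (by positivity)
      have hsB : -s * B x ≤ |B x| := by
        refine (le_abs_self _).trans ?_
        rw [abs_mul, abs_neg]
        exact (mul_le_mul_of_nonneg_right hs (abs_nonneg _)).trans (one_mul _).le
      refine (hsB.trans hBabs).trans ?_
      have hφn : 0 ≤ |φ x| := abs_nonneg _
      have hamgm : 2 * (|φ x| * nw) * (Mv * (fv + Λ * fw)) ≤
          c / 2 * (|φ x| * nw) ^ 2 + 2 / c * (Mv * (fv + Λ * fw)) ^ 2 := by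
        have h0 : 0 ≤ (c * (|φ x| * nw) - 2 * (Mv * (fv + Λ * fw))) ^ 2 / (2 * c) := by positivity
        have h1 : (c * (|φ x| * nw) - 2 * (Mv * (fv + Λ * fw))) ^ 2 / (2 * c) =
            c / 2 * (|φ x| * nw) ^ 2 + 2 / c * (Mv * (fv + Λ * fw)) ^ 2 -
              2 * (|φ x| * nw) * (Mv * (fv + Λ * fw)) := by
          field_simp; ring
        linarith
      have hcalc : 2 * |φ x| * fv * (k * (Mv * nw)) + 2 * |φ x| * fw * (k * (Mv * (Λ * nw + Ml)))
          = k * (2 * (|φ x| * nw) * (Mv * (fv + Λ * fw))) + k * (2 * |φ x| * Mv * Ml * fw) := by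
        ring
      rw [hcalc]
      have e1 : k * (2 * (|φ x| * nw) * (Mv * (fv + Λ * fw))) ≤
          k * (c / 2 * (|φ x| * nw) ^ 2) + 2 / c * (Mv * (fv + Λ * fw)) ^ 2 := by
        have h2 := mul_le_mul_of_nonneg_left hamgm hk0
        have h3 : k * (2 / c * (Mv * (fv + Λ * fw)) ^ 2) ≤ 1 * (2 / c * (Mv * (fv + Λ * fw)) ^ 2) :=
          mul_le_mul_of_nonneg_right hk1 (by positivity)
        linarith
      have e2 : k * (2 * |φ x| * Mv * Ml * fw) ≤ 1 * (2 * |φ x| * Mv * Ml * fw) :=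
        mul_le_mul_of_nonneg_right hk1 (by positivity)
      have e3 : c / 2 * I x = k * (c / 2 * (|φ x| * nw) ^ 2) := by
        rw [hI, mul_pow, sq_abs]; ring
      have e4 : R x = 2 / c * (Mv * (fv + Λ * fw)) ^ 2 + 2 * |φ x| * Mv * Ml * fw := by
        rw [hR]; ring
      rw [e3, e4]
      linarith
    · push Not at hk
      simp only [hI, hB, hk]
      simpa using hRn
  -- integrate
  have hmain : ∫ x, I x ∂μ ≤ C1 := by
    have e1 : ∫ x, c * I x ∂μ ≤ ∫ x, (s * L x + Ck * Ml ^ 2 / c * φ x ^ 2) ∂μ :=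
      integral_mono (hIi.const_mul c) ((hLi.const_mul s).add (hφi.const_mul _)) hP1
    have e2 : ∫ x, (-s * B x) ∂μ ≤ ∫ x, (c / 2 * I x + R x) ∂μ :=
      integral_mono (hBi.const_mul _) ((hIi.const_mul _).add hRi) hP2
    rw [integral_const_mul, integral_add (hLi.const_mul s) (hφi.const_mul _), integral_const_mul,
      integral_const_mul, hident'] at e1
    rw [integral_const_mul, integral_add (hIi.const_mul _) hRi, integral_const_mul] at e2
    have e3 : c / 2 * ∫ x, I x ∂μ ≤ ∫ x, R x ∂μ + Ck * Ml ^ 2 / c * ∫ x, φ x ^ 2 ∂μ := by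
      linarith
    rw [hC1]
    calc ∫ x, I x ∂μ = 2 / c * (c / 2 * ∫ x, I x ∂μ) := by field_simp
      _ ≤ _ := mul_le_mul_of_nonneg_left e3 (by positivity)
  refine ⟨hmain.trans (le_max_left _ _), ?_⟩
  have hP3 : ∀ x, φ x ^ 2 * (κ (‖u x‖ ^ 2) * ‖pd v u x‖ ^ 2) ≤
      2 * Λ ^ 2 * I x + 2 * Ml ^ 2 * φ x ^ 2 := by
    intro x
    have hnn : 0 ≤ 2 * Λ ^ 2 * I x + 2 * Ml ^ 2 * φ x ^ 2 := by
      have := hI0 x
      positivity
    by_cases hx : φ x = 0
    · simp only [hx]; simp [hI, hx]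
    by_cases hk : κ (‖u x‖ ^ 2) ≠ 0
    · obtain ⟨h1, h2, h3⟩ := hrel x hx (Or.inl hk)
      have hk0 := (hκ01 (‖u x‖ ^ 2)).1
      have hk1 := (hκ01 (‖u x‖ ^ 2)).2
      have huv : ‖pd v u x‖ ≤ Λ * ‖pd w u x‖ + Ml := by
        have h4 : pd v u x = lam x * pd w u x + (pd v u x - lam x * pd w u x) := by ring
        rw [h4]
        refine (norm_add_le _ _).trans (add_le_add ?_ h3)
        rw [norm_mul]
        exact mul_le_mul_of_nonneg_right h2 (norm_nonneg _)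
      have h5 : ‖pd v u x‖ ^ 2 ≤ 2 * Λ ^ 2 * ‖pd w u x‖ ^ 2 + 2 * Ml ^ 2 := by
        have := pow_le_pow_left₀ (norm_nonneg _) huv 2
        nlinarith [sq_nonneg (Λ * ‖pd w u x‖ - Ml)]
      have h6 := mul_le_mul_of_nonneg_left h5 hk0
      have h7 : κ (‖u x‖ ^ 2) * (2 * Ml ^ 2) ≤ 1 * (2 * Ml ^ 2) :=
        mul_le_mul_of_nonneg_right hk1 (by positivity)
      have h8 : κ (‖u x‖ ^ 2) * ‖pd v u x‖ ^ 2 ≤
          2 * Λ ^ 2 * (κ (‖u x‖ ^ 2) * ‖pd w u x‖ ^ 2) + 2 * Ml ^ 2 := by linarith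
      have h9 := mul_le_mul_of_nonneg_left h8 (sq_nonneg (φ x))
      refine h9.trans (le_of_eq ?_)
      rw [hI]; ring
    · push Not at hk
      rw [hk]; simpa using hnn
  have hVi : Integrable (fun x => φ x ^ 2 * (κ (‖u x‖ ^ 2) * ‖pd v u x‖ ^ 2)) μ := by
    refine Continuous.integrable_of_hasCompactSupport ?_
      (HasCompactSupport.intro hcs fun x hx => by simp [(hφ0 x hx).1])
    exact (hφ.continuous.pow 2).mul (hκc.mul ((hpu v).norm.pow 2))
  have e4 := integral_mono hVi ((hIi.const_mul (2 * Λ ^ 2)).add (hφi.const_mul (2 * Ml ^ 2))) hP3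
  rw [integral_add' (hIi.const_mul (2 * Λ ^ 2)) (hφi.const_mul (2 * Ml ^ 2)), integral_const_mul,
    integral_const_mul] at e4
  refine e4.trans (le_trans ?_ (le_max_right _ _))
  have := mul_le_mul_of_nonneg_left hmain (by positivity : (0:ℝ) ≤ 2 * Λ ^ 2)
  linarith

end energy

end Pool.Agent.Work.MP_375441_an
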