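import Pool.Agent.Work.MP_375441_an.CoreB
import Pool.Agent.Work.MP_375441_an.Coef

/-!
# Operators whose principal symbol has a real quadratic factor
-/

open MeasureTheory Set Filter Topology Function Metric Module
open scoped ContDiff

namespace Pool.Agent.Work.MP_375441_an

set_option linter.unusedSectionVars false

section
variable {E : Type*} [NormedAddCommGroup E] [NormedSpace ℝ E] [MeasurableSpace E] [BorelSpace E]
  [FiniteDimensional ℝ E] {μ : Measure E} [μ.IsAddHaarMeasure]

/-- moving the coefficients through one derivative -/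
lemma red_one {κ : Type*} {O : Set E} (hO : IsOpen O) {s : Finset κ} {F R : κ → E → ℂ}
    (hF : ∀ β ∈ s, ContDiffOn ℝ 1 (F β) O) (hR : ∀ β ∈ s, ContDiffOn ℝ ∞ (R β) O) {g : E → ℂ}
    (hg : IsTest O g) (vi vj : E) :
    ∑ β ∈ s, ∫ x, pd vj (F β) x * pd vi (fun y => R β y * g y) x ∂μ =
      ∫ x, pd vj (fun y => ∑ β ∈ s, R β y * F β y) x * pd vi g x ∂μ +
      ∫ x, (∑ β ∈ s, (pd vi (fun y => pd vj (R β) y * F β y) x +
        pd vj (F β) x * pd vi (R β) x)) * g x ∂μ := by
  have hR1 : ∀ β ∈ s, ContDiffOn ℝ 1 (R β) O := fun β hβ => (hR β hβ).of_le (by simp)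
  have hpR : ∀ v, ∀ β ∈ s, ContDiffOn ℝ 1 (pd v (R β)) O := fun v β hβ =>
    (pd_contDiffOn (m := ∞) v hO (hR β hβ) (by simp)).of_le (by simp)
  have hpF : ∀ v, ∀ β ∈ s, ContinuousOn (pd v (F β)) O := fun v β hβ =>
    (pd_contDiffOn (m := 0) v hO (hF β hβ) (by simp)).continuousOn
  have hRg : ∀ β ∈ s, IsTest O (fun y => R β y * g y) := fun β hβ =>
    hg.mul_left hO subset_rfl (hR β hβ)
  have hRF : ∀ β ∈ s, ContDiffOn ℝ 1 (fun y => pd vj (R β) y * F β y) O := fun β hβ =>
    (hpR vj β hβ).mul (hF β hβ)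
  have hwd : ContDiffOn ℝ 1 (fun y => ∑ β ∈ s, R β y * F β y) O :=
    ContDiffOn.sum fun β hβ => (hR1 β hβ).mul (hF β hβ)
  have hpw : ContinuousOn (pd vj (fun y => ∑ β ∈ s, R β y * F β y)) O :=
    (pd_contDiffOn (m := 0) vj hO hwd (by simp)).continuousOn
  have i1 : ∀ β ∈ s, Integrable (fun x => pd vj (F β) x * pd vi (fun y => R β y * g y) x) μ :=
    fun β hβ => J_integrable hO (hpF vj β hβ) (hRg β hβ).one
  have i2 : Integrable (fun x => pd vj (fun y => ∑ β ∈ s, R β y * F β y) x * pd vi g x) μ :=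
    J_integrable hO hpw hg.one
  have i3 : ∀ β ∈ s, Integrable (fun x => (pd vj (R β) x * F β x) * pd vi g x) μ := fun β hβ =>
    J_integrable hO (hRF β hβ).continuousOn hg.one
  have i4 : ∀ β ∈ s, Integrable (fun x => (pd vj (F β) x * pd vi (R β) x) * g x) μ := fun β hβ =>
    integrable_mul_test hO ((hpF vj β hβ).mul (hpR vi β hβ).continuousOn) hg.smooth.continuous
      hg.comp hg.supp
  have i5 : ∀ β ∈ s, Integrable (fun x => pd vi (fun y => pd vj (R β) y * F β y) x * g x) μ :=
    fun β hβ => integrable_mul_test hO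
      (pd_contDiffOn (m := 0) vi hO (hRF β hβ) (by simp)).continuousOn hg.smooth.continuous
      hg.comp hg.supp
  -- the pointwise identity
  have hpt : ∀ x, ∑ β ∈ s, pd vj (F β) x * pd vi (fun y => R β y * g y) x =
      pd vj (fun y => ∑ β ∈ s, R β y * F β y) x * pd vi g x -
        ∑ β ∈ s, (pd vj (R β) x * F β x) * pd vi g x +
        ∑ β ∈ s, (pd vj (F β) x * pd vi (R β) x) * g x := by
    intro x
    by_cases hx : x ∈ O
    · have dR : ∀ β ∈ s, DifferentiableAt ℝ (R β) x := fun β hβ =>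
        ((hR1 β hβ).differentiableOn (by simp)).differentiableAt (hO.mem_nhds hx)
      have dF : ∀ β ∈ s, DifferentiableAt ℝ (F β) x := fun β hβ =>
        ((hF β hβ).differentiableOn (by simp)).differentiableAt (hO.mem_nhds hx)
      have dg : DifferentiableAt ℝ g x := hg.smooth.differentiable (by simp) x
      have e1 : pd vj (fun y => ∑ β ∈ s, R β y * F β y) x =
          ∑ β ∈ s, (pd vj (R β) x * F β x + R β x * pd vj (F β) x) := by
        rw [pd_sum (f := fun β y => R β y * F β y) (fun β hβ => (dR β hβ).mul (dF β hβ))]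
        exact Finset.sum_congr rfl fun β hβ => pd_mul (dR β hβ) (dF β hβ)
      have e2 : ∀ β ∈ s, pd vi (fun y => R β y * g y) x = pd vi (R β) x * g x + R β x * pd vi g x :=
        fun β hβ => pd_mul (dR β hβ) dg
      rw [e1, Finset.sum_mul, ← Finset.sum_sub_distrib, ← Finset.sum_add_distrib]
      refine Finset.sum_congr rfl fun β hβ => ?_
      rw [e2 β hβ]
      ring
    · have hx' : x ∉ tsupport g := fun h => hx (hg.supp h)
      have h0 : g x = 0 := image_eq_zero_of_notMem_tsupport hx'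
      have h1 : ∀ y, pd y g x = 0 := fun y =>
        image_eq_zero_of_notMem_tsupport fun h => hx' (pd_tsupport _ _ h)
      have h2 : ∀ (a : E → ℂ) y, pd y (fun z => a z * g z) x = 0 := fun a y =>
        image_eq_zero_of_notMem_tsupport fun h =>
          hx' (tsupport_mul_subset_right' a g (pd_tsupport _ _ h))
      simp [h0, h1, h2]
  have e3 : ∑ β ∈ s, ∫ x, pd vj (F β) x * pd vi (fun y => R β y * g y) x ∂μ =
      ∫ x, pd vj (fun y => ∑ β ∈ s, R β y * F β y) x * pd vi g x ∂μ -
        ∑ β ∈ s, ∫ x, (pd vj (R β) x * F β x) * pd vi g x ∂μ +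
        ∑ β ∈ s, ∫ x, (pd vj (F β) x * pd vi (R β) x) * g x ∂μ := by
    rw [← integral_finsetSum _ i1, ← integral_finsetSum _ i3, ← integral_finsetSum _ i4,
      ← integral_sub i2 (integrable_finsetSum _ i3)]
    have i6 : Integrable (fun x => pd vj (fun y => ∑ β ∈ s, R β y * F β y) x * pd vi g x -
        ∑ β ∈ s, (pd vj (R β) x * F β x) * pd vi g x) μ := i2.sub (integrable_finsetSum _ i3)
    rw [← integral_add i6 (integrable_finsetSum _ i4)]
    exact integral_congr_ae (Eventually.of_forall hpt)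
  have e4 : ∀ β ∈ s, ∫ x, (pd vj (R β) x * F β x) * pd vi g x ∂μ =
      - ∫ x, pd vi (fun y => pd vj (R β) y * F β y) x * g x ∂μ := fun β hβ =>
    int_pd hO (hRF β hβ) hg.one vi
  have e5 : ∫ x, (∑ β ∈ s, (pd vi (fun y => pd vj (R β) y * F β y) x +
        pd vj (F β) x * pd vi (R β) x)) * g x ∂μ =
      ∑ β ∈ s, ∫ x, pd vi (fun y => pd vj (R β) y * F β y) x * g x ∂μ +
      ∑ β ∈ s, ∫ x, (pd vj (F β) x * pd vi (R β) x) * g x ∂μ := by
    rw [← integral_finsetSum _ i5, ← integral_finsetSum _ i4,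
      ← integral_add (integrable_finsetSum _ i5) (integrable_finsetSum _ i4)]
    refine integral_congr_ae (Eventually.of_forall fun x => ?_)
    simp only []
    rw [Finset.sum_mul, ← Finset.sum_add_distrib]
    exact Finset.sum_congr rfl fun β _ => by ring
  rw [e3, e5, Finset.sum_congr rfl e4, Finset.sum_neg_distrib]
  ring

lemma IsTest.zero {O : Set E} : IsTest O (fun _ => (0:ℂ)) := by
  refine ⟨contDiff_const, HasCompactSupport.zero, ?_⟩
  have : tsupport (fun _ : E => (0:ℂ)) = ∅ := by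
    rw [tsupport_eq_empty_iff]; rfl
  rw [this]
  exact empty_subset _

lemma IsTest.sum {κ : Type*} {O : Set E} {s : Finset κ} {g : κ → E → ℂ}
    (hg : ∀ i ∈ s, IsTest O (g i)) : IsTest O (fun y => ∑ i ∈ s, g i y) := by
  classical
  induction s using Finset.induction_on with
  | empty => simpa using IsTest.zero
  | insert a s ha ih =>
    have h1 := (hg a (Finset.mem_insert_self _ _)).add
      (ih fun i hi => hg i (Finset.mem_insert_of_mem hi))
    have h2 : (fun y => ∑ i ∈ insert a s, g i y) = fun y => g a y + ∑ i ∈ s, g i y := by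
      funext y
      rw [Finset.sum_insert ha]
    rw [h2]
    exact h1

lemma dl_sum {κ κ' : Type*} {e : κ → E} {s : Finset κ'} {g : κ' → E → ℂ}
    (hg : ∀ i ∈ s, ContDiff ℝ ∞ (g i)) (l : List κ) :
    dl e l (fun y => ∑ i ∈ s, g i y) = fun y => ∑ i ∈ s, dl e l (g i) y := by
  induction l with
  | nil => rfl
  | cons k l ih =>
    rw [dl_cons, ih]
    funext y
    rw [pd_sum (f := fun i => dl e l (g i))
      (fun i hi => (dl_smooth (hg i hi) l).differentiable (by simp) y)]
    rfl

lemma int_dl_sum {κ κ' : Type*} {e : κ → E} {O : Set E} (hO : IsOpen O) {f : E → ℂ}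
    (hf : ContinuousOn f O) {s : Finset κ'} {g : κ' → E → ℂ} (hg : ∀ i ∈ s, IsTest O (g i))
    (l : List κ) :
    ∫ x, f x * dl e l (fun y => ∑ i ∈ s, g i y) x ∂μ = ∑ i ∈ s, ∫ x, f x * dl e l (g i) x ∂μ := by
  rw [dl_sum (fun i hi => (hg i hi).smooth) l, ← integral_finsetSum]
  · refine integral_congr_ae (Eventually.of_forall fun x => ?_)
    simp only []
    rw [Finset.mul_sum]
  · intro i hi
    have h1 := dl_test (e := e) (hg i hi) l
    exact integrable_mul_test hO hf h1.smooth.continuous h1.comp h1.supp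

lemma int_dl_ite {κ : Type*} {e : κ → E} {f : E → ℂ} {g : E → ℂ} (c : Prop) [Decidable c]
    (l : List κ) :
    ∫ x, f x * dl e l (fun y => if c then g y else 0) x ∂μ =
      if c then ∫ x, f x * dl e l g x ∂μ else 0 := by
  split_ifs with h
  · rfl
  · have h1 : dl e l (fun _ : E => (0:ℂ)) = fun _ => 0 := by
      induction l with
      | nil => rfl
      | cons k l ih =>
        rw [dl_cons, ih]
        funext y
        simp [pd]
    simp [h1]

end

theorem main_B {n p : ℕ} (hp : 2 ≤ p) {X : Set (Sp n)} (hX : IsOpen X)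
    {P : (Fin n → ℕ) → Sp n → ℂ} (hP : ∀ α ∈ multi n p, ContDiffOn ℝ ∞ (P α) X)
    {a : Fin n → Fin n → Sp n → ℝ} (ha : ∀ i j, ContDiffOn ℝ ∞ (a i j) X)
    (hpos : ∀ x ∈ X, ∀ ξ : Fin n → ℝ, ξ ≠ 0 → 0 < ∑ i, ∑ j, a i j x * ξ i * ξ j)
    {r : (Fin n → ℕ) → Sp n → ℂ} (hr : ∀ β ∈ multi n (p - 2), ContDiffOn ℝ ∞ (r β) X)
    (hfac : ∀ x ∈ X, ∀ z : Fin n → ℝ,
      ∑ α ∈ (multi n p).filter (fun α => ∑ i, α i = p), P α x * ∏ i, (z i : ℂ) ^ α i =
      (∑ i, ∑ j, (a i j x : ℂ) * z i * z j) *
        ∑ β ∈ (multi n (p - 2)).filter (fun β => ∑ i, β i = p - 2),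
          r β x * ∏ i, (z i : ℂ) ^ β i)
    {O : Set (Sp n)} (hO : IsOpen O) (hOX : O ⊆ X) {f : Sp n → ℂ}
    (hf : ContDiffOn ℝ ((p - 1 : ℕ) : WithTop ℕ∞) f O) (h : Solves p P f (O \ {x | f x = 0})) :
    Solves p P f O := by
  obtain ⟨q, rfl⟩ : ∃ q, p = q + 2 := ⟨p - 2, by omega⟩
  rw [show q + 2 - 1 = q + 1 by omega] at hf
  rw [show q + 2 - 2 = q by omega] at hr hfac
  set T := (multi n (q + 2)).filter (fun α => ∑ i, α i = q + 2) with hT
  set T' := (multi n q).filter (fun β => ∑ i, β i = q) with hT'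
  set e : Fin n → Sp n := ee n with he
  have hcoef : ∀ x ∈ X, ∀ α ∈ T, P α x = ∑ i, ∑ j, ∑ β ∈ T',
      if Pi.single i 1 + Pi.single j 1 + β = α then (a i j x : ℂ) * r β x else 0 := fun x hx =>
    coef_identity (A := fun i j => (a i j x : ℂ)) (c := fun α => P α x) (r := fun β => r β x)
      (hfac x hx)
  set c0 : ℂ := (1 / Complex.I) ^ (q + 2) with hc0
  set R : (Fin n → ℕ) → Sp n → ℂ := fun β x => c0 * r β x with hR
  have hRs : ∀ β ∈ T', ContDiffOn ℝ ∞ (R β) O := fun β hβ =>
    (contDiffOn_const.mul (hr β (Finset.mem_filter.mp hβ).1)).mono hOX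
  have hlst : ∀ β ∈ T', (lst β).length = q := fun β hβ => by
    rw [lst_length]; exact (Finset.mem_filter.mp hβ).2
  set fb : (Fin n → ℕ) → Sp n → ℂ := fun β => dl e (lst β).reverse f with hfb
  have hfb1 : ∀ β ∈ T', ContDiffOn ℝ 1 (fb β) O := fun β hβ => by
    have := dl_contDiffOn (e := e) hO hf (lst β).reverse 1 (by
      rw [List.length_reverse, hlst β hβ]; omega)
    exact_mod_cast this
  set w : Sp n → ℂ := fun y => ∑ β ∈ T', R β y * fb β y with hw
  have hw1 : ContDiffOn ℝ 1 w O :=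
    ContDiffOn.sum fun β hβ => ((hRs β hβ).of_le (by simp)).mul (hfb1 β hβ)
  have hac : ∀ i j, ContDiffOn ℝ ∞ (fun x => ((a i j x : ℝ) : ℂ)) O := fun i j =>
    ofReal_contDiffOn ((ha i j).mono hOX)
  -- lower order terms
  set H0 : Sp n → ℂ := fun x => ∑ α ∈ (multi n (q + 2)).filter (fun α => ¬ ∑ i, α i = q + 2),
    (1 / Complex.I) ^ (∑ i, α i) * (P α x * dl e (lst α).reverse f x) with hH0
  have hlow : ∀ α ∈ (multi n (q + 2)).filter (fun α => ¬ ∑ i, α i = q + 2),
      (lst α).length ≤ q + 1 := by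
    intro α hα
    rw [Finset.mem_filter, mem_multi] at hα
    rw [lst_length]
    omega
  have hdc : ∀ α ∈ (multi n (q + 2)).filter (fun α => ¬ ∑ i, α i = q + 2),
      ContinuousOn (dl e (lst α).reverse f) O := fun α hα =>
    dl_continuousOn hO hf _ (by rw [List.length_reverse]; exact hlow α hα)
  have hH0c : ContinuousOn H0 O := by
    refine continuousOn_finsetSum _ fun α hα => continuousOn_const.mul (ContinuousOn.mul ?_
      (hdc α hα))
    exact (hP α (Finset.mem_filter.mp hα).1).continuousOn.mono hOX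
  have hH0F : ∀ x ∈ O, x ∈ FF e (q + 1) f → H0 x = 0 := by
    intro x _ hxF
    simp only [hH0]
    refine Finset.sum_eq_zero fun α hα => ?_
    rw [hxF _ (by rw [List.length_reverse]; exact hlow α hα), mul_zero, mul_zero]
  -- the remainder terms
  set K : Fin n → Fin n → Sp n → ℂ := fun i j x => ∑ β ∈ T',
    (pd (e i) (fun y => pd (e j) (R β) y * fb β y) x + pd (e j) (fb β) x * pd (e i) (R β) x) with hK
  have hpR : ∀ v, ∀ β ∈ T', ContDiffOn ℝ 1 (pd v (R β)) O := fun v β hβ =>
    (pd_contDiffOn (m := ∞) v hO (hRs β hβ) (by simp)).of_le (by simp)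
  have hpF : ∀ v, ∀ β ∈ T', ContinuousOn (pd v (fb β)) O := fun v β hβ =>
    (pd_contDiffOn (m := 0) v hO (hfb1 β hβ) (by simp)).continuousOn
  have hKc : ∀ i j, ContinuousOn (K i j) O := fun i j =>
    continuousOn_finsetSum _ fun β hβ => ((pd_contDiffOn (m := 0) (e i) hO
      ((hpR (e j) β hβ).mul (hfb1 β hβ)) (by simp)).continuousOn).add
      ((hpF (e j) β hβ).mul (hpR (e i) β hβ).continuousOn)
  have hfbF : ∀ x, x ∈ FF e (q + 1) f → ∀ β ∈ T', fb β x = 0 ∧ ∀ i, pd (e i) (fb β) x = 0 := by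
    intro x hxF β hβ
    refine ⟨hxF _ (by rw [List.length_reverse, hlst β hβ]; omega), fun i => ?_⟩
    have := hxF (i :: (lst β).reverse) (by
      rw [List.length_cons, List.length_reverse, hlst β hβ])
    exact this
  have hKF : ∀ i j, ∀ x ∈ O, x ∈ FF e (q + 1) f → K i j x = 0 := by
    intro i j x hx hxF
    simp only [hK]
    refine Finset.sum_eq_zero fun β hβ => ?_
    obtain ⟨h1, h2⟩ := hfbF x hxF β hβ
    have d1 : DifferentiableAt ℝ (pd (e j) (R β)) x :=
      ((hpR (e j) β hβ).differentiableOn (by simp)).differentiableAt (hO.mem_nhds hx)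
    have d2 : DifferentiableAt ℝ (fb β) x :=
      ((hfb1 β hβ).differentiableOn (by simp)).differentiableAt (hO.mem_nhds hx)
    rw [pd_mul d1 d2, h1, h2 i, h2 j]
    ring
  set H1 : Sp n → ℂ := fun x => H0 x - ∑ i, ∑ j, K i j x * ((a i j x : ℝ) : ℂ) with hH1
  have hH1c : ContinuousOn H1 O := hH0c.sub (continuousOn_finsetSum _ fun i _ =>
    continuousOn_finsetSum _ fun j _ => (hKc i j).mul (hac i j).continuousOn)
  have hH1F : ∀ x ∈ O, x ∈ FF e (q + 1) f → H1 x = 0 := by
    intro x hx hxF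
    simp only [hH1]
    rw [hH0F x hx hxF, Finset.sum_eq_zero, sub_zero]
    intro i _
    refine Finset.sum_eq_zero fun j _ => ?_
    rw [hKF i j x hx hxF, zero_mul]
  have hwF : ∀ x ∈ O, x ∈ FF e (q + 1) f → ∀ j, pd (e j) w x = 0 := by
    intro x hx hxF j
    have dR : ∀ β ∈ T', DifferentiableAt ℝ (R β) x := fun β hβ =>
      ((hRs β hβ).differentiableOn (by simp)).differentiableAt (hO.mem_nhds hx)
    have dF : ∀ β ∈ T', DifferentiableAt ℝ (fb β) x := fun β hβ =>
      ((hfb1 β hβ).differentiableOn (by simp)).differentiableAt (hO.mem_nhds hx)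
    simp only [hw]
    rw [pd_sum (f := fun β y => R β y * fb β y) (fun β hβ => (dR β hβ).mul (dF β hβ))]
    refine Finset.sum_eq_zero fun β hβ => ?_
    obtain ⟨h1, h2⟩ := hfbF x hxF β hβ
    rw [pd_mul (dR β hβ) (dF β hβ), h1, h2 j]
    ring
  -- the pairing
  have hpair : ∀ φ, IsTest O φ → ∫ x, f x * transp (q + 2) P φ x =
      TB volume e a w H1 φ := by
    intro φ hφ
    have ht : ∀ α ∈ multi n (q + 2), IsTest O (fun y => P α y * φ y) := fun α hα =>
      hφ.mul_left hX hOX (hP α hα)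
    have haφ : ∀ i j, IsTest O (fun y => ((a i j y : ℝ) : ℂ) * φ y) := fun i j =>
      hφ.mul_left hO subset_rfl (hac i j)
    have hg : ∀ i j, ∀ β ∈ T', IsTest O (fun y => R β y * (((a i j y : ℝ) : ℂ) * φ y)) :=
      fun i j β hβ => (haφ i j).mul_left hO subset_rfl (hRs β hβ)
    rw [pairing hX hO hOX hP hf.continuousOn hφ,
      ← Finset.sum_filter_add_sum_filter_not _ (fun α => ∑ i, α i = q + 2)]
    have e1 : ∑ α ∈ (multi n (q + 2)).filter (fun α => ¬ ∑ i, α i = q + 2),
        (-1) ^ (∑ i, α i) * ((1 / Complex.I) ^ (∑ i, α i) *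
          ∫ x, f x * dl (ee n) (lst α) (fun y => P α y * φ y) x) = ∫ x, H0 x * φ x := by
      have hi : ∀ α ∈ (multi n (q + 2)).filter (fun α => ¬ ∑ i, α i = q + 2),
          Integrable (fun x => (1 / Complex.I) ^ (∑ i, α i) *
            (dl e (lst α).reverse f x * (P α x * φ x))) := by
        intro α hα
        have h1 := ht α (Finset.mem_filter.mp hα).1
        exact (integrable_mul_test hO (hdc α hα) h1.smooth.continuous h1.comp h1.supp).const_mul _
      have e2 : ∀ x, H0 x * φ x = ∑ α ∈ (multi n (q + 2)).filter (fun α => ¬ ∑ i, α i = q + 2),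
          (1 / Complex.I) ^ (∑ i, α i) * (dl e (lst α).reverse f x * (P α x * φ x)) := by
        intro x
        simp only [hH0]
        rw [Finset.sum_mul]
        exact Finset.sum_congr rfl fun α _ => by ring
      rw [integral_congr_ae (Eventually.of_forall e2), integral_finsetSum _ hi]
      refine Finset.sum_congr rfl fun α hα => ?_
      have h1 := low_term (μ := volume) (e := e) hO hf (hlow α hα)
        (ht α (Finset.mem_filter.mp hα).1)
      rw [lst_length] at h1
      rw [integral_const_mul, ← h1]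
      ring
    -- the top order terms
    have e2 : ∀ α ∈ T, (fun y => c0 * (P α y * φ y)) = fun y => ∑ i, ∑ j, ∑ β ∈ T',
        if Pi.single i 1 + Pi.single j 1 + β = α then
          R β y * (((a i j y : ℝ) : ℂ) * φ y) else 0 := by
      intro α hα
      funext y
      by_cases hy : y ∈ O
      · rw [hcoef y (hOX hy) α hα, Finset.sum_mul, Finset.mul_sum]
        refine Finset.sum_congr rfl fun i _ => ?_
        rw [Finset.sum_mul, Finset.mul_sum]
        refine Finset.sum_congr rfl fun j _ => ?_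
        rw [Finset.sum_mul, Finset.mul_sum]
        refine Finset.sum_congr rfl fun β _ => ?_
        simp only [hR]
        split_ifs
        · ring
        · ring
      · have : φ y = 0 := image_eq_zero_of_notMem_tsupport fun h => hy (hφ.supp h)
        simp [this]
    have e3 : ∀ α ∈ T, (-1) ^ (∑ i, α i) * ((1 / Complex.I) ^ (∑ i, α i) *
          ∫ x, f x * dl (ee n) (lst α) (fun y => P α y * φ y) x) =
        ∑ i, ∑ j, ∑ β ∈ T', if Pi.single i 1 + Pi.single j 1 + β = α then
          (-1) ^ (q + 1 + 1) * ∫ x, f x * dl e (lst α)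
            (fun y => R β y * (((a i j y : ℝ) : ℂ) * φ y)) x else 0 := by
      intro α hα
      have hα' := (Finset.mem_filter.mp hα)
      rw [hα'.2]
      have h1 : (1 / Complex.I) ^ (q + 2) *
          ∫ x, f x * dl (ee n) (lst α) (fun y => P α y * φ y) x =
          ∫ x, f x * dl e (lst α) (fun y => c0 * (P α y * φ y)) x := by
        rw [dl_const_mul (ht α hα'.1).smooth, ← integral_const_mul]
        refine integral_congr_ae (Eventually.of_forall fun x => ?_)
        simp only []
        ring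
      have hite : ∀ i j, ∀ β ∈ T', IsTest O (fun y => if Pi.single i 1 + Pi.single j 1 + β = α then
          R β y * (((a i j y : ℝ) : ℂ) * φ y) else 0) := by
        intro i j β hβ
        split_ifs
        · exact hg i j β hβ
        · exact IsTest.zero
      rw [h1, e2 α hα, int_dl_sum hO hf.continuousOn fun i _ => IsTest.sum fun j _ =>
        IsTest.sum fun β hβ => hite i j β hβ, Finset.mul_sum]
      refine Finset.sum_congr rfl fun i _ => ?_
      rw [int_dl_sum hO hf.continuousOn fun j _ => IsTest.sum fun β hβ => hite i j β hβ,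
        Finset.mul_sum]
      refine Finset.sum_congr rfl fun j _ => ?_
      rw [int_dl_sum hO hf.continuousOn fun β hβ => hite i j β hβ, Finset.mul_sum]
      refine Finset.sum_congr rfl fun β _ => ?_
      rw [int_dl_ite, mul_ite, mul_zero]
    have e4 : ∑ α ∈ T, (-1) ^ (∑ i, α i) * ((1 / Complex.I) ^ (∑ i, α i) *
          ∫ x, f x * dl (ee n) (lst α) (fun y => P α y * φ y) x) =
        ∑ i, ∑ j, ∑ β ∈ T', - ∫ x, pd (e j) (fb β) x *
          pd (e i) (fun y => R β y * (((a i j y : ℝ) : ℂ) * φ y)) x := by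
      rw [Finset.sum_congr rfl e3, Finset.sum_comm]
      refine Finset.sum_congr rfl fun i _ => ?_
      rw [Finset.sum_comm]
      refine Finset.sum_congr rfl fun j _ => ?_
      rw [Finset.sum_comm]
      refine Finset.sum_congr rfl fun β hβ => ?_
      rw [Finset.sum_ite_eq, if_pos]
      · have h1 := top_term (μ := volume) (e := e) hO hf (l := lst β ++ [j])
          (l' := lst (Pi.single i 1 + Pi.single j 1 + β)) (i := i)
          (by rw [List.length_append, hlst β hβ]; rfl) (lst_perm rfl) (hg i j β hβ)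
        rw [h1]
        simp only [List.reverse_append, List.reverse_cons, List.reverse_nil, List.nil_append,
          List.cons_append, dl_cons]
        rfl
      · rw [hT, Finset.mem_filter, mem_multi]
        have h1 : ∑ k, (Pi.single i 1 + Pi.single j 1 + β : Fin n → ℕ) k = q + 2 := by
          simp only [Pi.add_apply, Finset.sum_add_distrib]
          rw [(Finset.mem_filter.mp hβ).2]
          simp
          omega
        exact ⟨h1.le, h1⟩
    rw [e1, e4]
    unfold TB
    have e5 : ∀ i j, ∑ β ∈ T', - ∫ x, pd (e j) (fb β) x *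
          pd (e i) (fun y => R β y * (((a i j y : ℝ) : ℂ) * φ y)) x =
        - ((∫ x, pd (e j) w x * pd (e i) (fun y => ((a i j y : ℝ) : ℂ) * φ y) x) +
          ∫ x, K i j x * (((a i j x : ℝ) : ℂ) * φ x)) := by
      intro i j
      rw [Finset.sum_neg_distrib, red_one hO hfb1 hRs (haφ i j) (e i) (e j)]
    simp only [e5]
    have hKi : ∀ i j, Integrable (fun x => K i j x * (((a i j x : ℝ) : ℂ) * φ x)) := fun i j =>
      integrable_mul_test hO (hKc i j) (haφ i j).smooth.continuous (haφ i j).comp (haφ i j).supp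
    have e6 : ∫ x, H1 x * φ x = (∫ x, H0 x * φ x) -
        ∑ i, ∑ j, ∫ x, K i j x * (((a i j x : ℝ) : ℂ) * φ x) := by
      have e7 : ∑ i, ∑ j, ∫ x, K i j x * (((a i j x : ℝ) : ℂ) * φ x) =
          ∫ x, ∑ i, ∑ j, K i j x * (((a i j x : ℝ) : ℂ) * φ x) := by
        rw [integral_finsetSum _ fun i _ => integrable_finsetSum _ fun j _ => hKi i j]
        exact Finset.sum_congr rfl fun i _ => (integral_finsetSum _ fun j _ => hKi i j).symm
      have i7 : Integrable (fun x => H0 x * φ x) :=
        integrable_mul_test hO hH0c hφ.smooth.continuous hφ.comp hφ.supp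
      have i8 : Integrable (fun x => ∑ i, ∑ j, K i j x * (((a i j x : ℝ) : ℂ) * φ x)) :=
        integrable_finsetSum _ fun i _ => integrable_finsetSum _ fun j _ => hKi i j
      rw [e7, ← integral_sub i7 i8]
      refine integral_congr_ae (Eventually.of_forall fun x => ?_)
      simp only [hH1]
      rw [sub_mul]
      congr 1
      rw [Finset.sum_mul]
      refine Finset.sum_congr rfl fun i _ => ?_
      rw [Finset.sum_mul]
      exact Finset.sum_congr rfl fun j _ => by ring
    rw [e6]
    simp only [neg_add, Finset.sum_add_distrib, Finset.sum_neg_distrib]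
    ring
  intro φ hφ1 hφ2 hφ3
  have hφ : IsTest O φ := ⟨hφ1, hφ2, hφ3⟩
  rw [hpair φ hφ]
  refine coreB hO hf hw1 (fun i j => (ha i j).mono hOX) (fun x hx => hpos x (hOX hx)) hH1c hwF hH1F
    (fun ψ hψ => ?_) φ hφ
  rw [← hpair ψ (hψ.mono sdiff_subset)]
  exact h ψ hψ.smooth hψ.comp hψ.supp

end Pool.Agent.Work.MP_375441_an
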