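import Pool.Agent.Work.MP_375441_an.CoreTwo
import Pool.Agent.Work.MP_375441_an.Defs

/-!
# The two-dimensional theorem
-/

open MeasureTheory Set Filter Topology Function Metric Module
open scoped ContDiff

namespace Pool.Agent.Work.MP_375441_an

set_option linter.unusedSectionVars false

lemma sum_two (p : ℕ) (F : (Fin 2 → ℕ) → ℂ) :
    ∑ α ∈ (multi 2 p).filter (fun α => ∑ i, α i = p), F α =
      ∑ k ∈ Finset.range (p + 1), F ![k, p - k] := by
  symm
  refine Finset.sum_nbij' (fun k => ![k, p - k]) (fun α => α 0) ?_ ?_ ?_ ?_ ?_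
  · intro k hk
    have hk' : k ≤ p := Nat.lt_succ_iff.mp (Finset.mem_range.mp hk)
    rw [Finset.mem_filter, mem_multi]
    simp only [Fin.sum_univ_two, Matrix.cons_val_zero, Matrix.cons_val_one]
    omega
  · intro α hα
    rw [Finset.mem_filter, Fin.sum_univ_two] at hα
    rw [Finset.mem_range]
    omega
  · intro k _
    rfl
  · intro α hα
    rw [Finset.mem_filter, Fin.sum_univ_two] at hα
    funext i
    fin_cases i
    · rfl
    · simp only [Matrix.cons_val_one]
      change p - α 0 = α 1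
      omega
  · intro k _
    rfl

lemma lst_two (k l : ℕ) : lst (![k, l] : Fin 2 → ℕ) = List.replicate k 0 ++ List.replicate l 1 := by
  simp [lst, List.finRange_succ]

theorem main_two {p : ℕ} (hp : 1 ≤ p) {P : (Fin 2 → ℕ) → Sp 2 → ℂ} {X : Set (Sp 2)}
    (hX : IsOpen X) (hP : ∀ α ∈ multi 2 p, AnalyticOnNhd ℝ (P α) X) (hell : Ellip p P X)
    {O : Set (Sp 2)} (hO : IsOpen O) (hOX : O ⊆ X) {f : Sp 2 → ℂ}
    (hf : ContDiffOn ℝ ((p - 1 : ℕ) : WithTop ℕ∞) f O) (h : Solves p P f (O \ {x | f x = 0})) :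
    Solves p P f O := by
  obtain ⟨m, rfl⟩ : ∃ m, p = m + 1 := ⟨p - 1, by omega⟩
  rw [Nat.add_sub_cancel] at hf
  have hPs : ∀ α ∈ multi 2 (m + 1), ContDiffOn ℝ ∞ (P α) X := fun α hα x hx =>
    ((hP α hα x hx).contDiffAt).contDiffWithinAt
  -- coefficients
  set c : ℕ → Sp 2 → ℂ := fun k x => if k ≤ m + 1 then
    (1 / Complex.I) ^ (m + 1) * P ![k, m + 1 - k] x else 0 with hc
  have hmem : ∀ k ≤ m + 1, (![k, m + 1 - k] : Fin 2 → ℕ) ∈ multi 2 (m + 1) := by
    intro k hk
    rw [mem_multi, Fin.sum_univ_two]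
    simp only [Matrix.cons_val_zero, Matrix.cons_val_one]
    omega
  have hck : ∀ k ≤ m + 1, c k = fun x => (1 / Complex.I) ^ (m + 1) * P ![k, m + 1 - k] x := by
    intro k hk
    funext x
    simp only [hc, if_pos hk]
  have hca : ∀ k, AnalyticOnNhd ℝ (c k) O := by
    intro k
    by_cases hk : k ≤ m + 1
    · rw [hck k hk]
      exact fun x hx => analyticAt_const.mul (hP _ (hmem k hk) x (hOX hx))
    · have : c k = fun _ => 0 := by
        funext x
        simp only [hc, if_neg hk]
      rw [this]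
      exact fun x _ => analyticAt_const
  -- lower order terms
  set H0 : Sp 2 → ℂ := fun x => ∑ α ∈ (multi 2 (m + 1)).filter (fun α => ¬ ∑ i, α i = m + 1),
    (1 / Complex.I) ^ (∑ i, α i) * (P α x * dl (ee 2) (lst α).reverse f x) with hH0
  have hlow : ∀ α ∈ (multi 2 (m + 1)).filter (fun α => ¬ ∑ i, α i = m + 1),
      (lst α).length ≤ m := by
    intro α hα
    rw [Finset.mem_filter, mem_multi] at hα
    rw [lst_length]
    omega
  have hdc : ∀ α ∈ (multi 2 (m + 1)).filter (fun α => ¬ ∑ i, α i = m + 1),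
      ContinuousOn (dl (ee 2) (lst α).reverse f) O := fun α hα =>
    dl_continuousOn hO hf _ (by rw [List.length_reverse]; exact hlow α hα)
  have hH0c : ContinuousOn H0 O := by
    refine continuousOn_finsetSum _ fun α hα => continuousOn_const.mul (ContinuousOn.mul ?_
      (hdc α hα))
    exact (hPs α (Finset.mem_filter.mp hα).1).continuousOn.mono hOX
  have hH0F : ∀ x ∈ O, x ∈ FF (ee 2) m f → H0 x = 0 := by
    intro x _ hxF
    simp only [hH0]
    refine Finset.sum_eq_zero fun α hα => ?_
    rw [hxF _ (by rw [List.length_reverse]; exact hlow α hα), mul_zero, mul_zero]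
  -- the pairing
  have hpair : ∀ φ, IsTest O φ → ∫ x, f x * transp (m + 1) P φ x =
      Tc volume (ee 2) m (uk (ee 2) m f) c H0 φ := by
    intro φ hφ
    have ht : ∀ α ∈ multi 2 (m + 1), IsTest O (fun y => P α y * φ y) := fun α hα =>
      hφ.mul_left hX hOX (hPs α hα)
    have hcφ : ∀ k, IsTest O (fun y => c k y * φ y) := fun k =>
      hφ.mul_left hO subset_rfl (fun x hx => (hca k x hx).contDiffAt.contDiffWithinAt)
    rw [pairing hX hO hOX hPs hf.continuousOn hφ,
      ← Finset.sum_filter_add_sum_filter_not _ (fun α => ∑ i, α i = m + 1), sum_two]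
    have e1 : ∑ α ∈ (multi 2 (m + 1)).filter (fun α => ¬ ∑ i, α i = m + 1),
        (-1) ^ (∑ i, α i) * ((1 / Complex.I) ^ (∑ i, α i) *
          ∫ x, f x * dl (ee 2) (lst α) (fun y => P α y * φ y) x) = ∫ x, H0 x * φ x := by
      have hi : ∀ α ∈ (multi 2 (m + 1)).filter (fun α => ¬ ∑ i, α i = m + 1),
          Integrable (fun x => (1 / Complex.I) ^ (∑ i, α i) *
            (dl (ee 2) (lst α).reverse f x * (P α x * φ x))) := by
        intro α hα
        have h1 := ht α (Finset.mem_filter.mp hα).1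
        exact (integrable_mul_test hO (hdc α hα) h1.smooth.continuous h1.comp h1.supp).const_mul _
      have e2 : ∀ x, H0 x * φ x = ∑ α ∈ (multi 2 (m + 1)).filter (fun α => ¬ ∑ i, α i = m + 1),
          (1 / Complex.I) ^ (∑ i, α i) * (dl (ee 2) (lst α).reverse f x * (P α x * φ x)) := by
        intro x
        simp only [hH0]
        rw [Finset.sum_mul]
        exact Finset.sum_congr rfl fun α _ => by ring
      rw [integral_congr_ae (Eventually.of_forall e2), integral_finsetSum _ hi]
      refine Finset.sum_congr rfl fun α hα => ?_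
      have h1 := low_term (μ := volume) (e := ee 2) hO hf (hlow α hα)
        (ht α (Finset.mem_filter.mp hα).1)
      rw [lst_length] at h1
      rw [integral_const_mul, ← h1]
      ring
    have e3 : ∀ k ≤ m + 1, (-1) ^ (∑ i, (![k, m + 1 - k] : Fin 2 → ℕ) i) *
        ((1 / Complex.I) ^ (∑ i, (![k, m + 1 - k] : Fin 2 → ℕ) i) *
          ∫ x, f x * dl (ee 2) (lst (![k, m + 1 - k] : Fin 2 → ℕ))
            (fun y => P ![k, m + 1 - k] y * φ y) x) =
        (-1) ^ (m + 1) * ∫ x, f x * dl (ee 2)
          (List.replicate k 0 ++ List.replicate (m + 1 - k) 1) (fun y => c k y * φ y) x := by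
      intro k hk
      have h1 : ∑ i, (![k, m + 1 - k] : Fin 2 → ℕ) i = m + 1 := by
        rw [Fin.sum_univ_two]
        simp only [Matrix.cons_val_zero, Matrix.cons_val_one]
        omega
      rw [h1, lst_two]
      have h2 : (fun y => c k y * φ y) = fun y => (1 / Complex.I) ^ (m + 1) *
          (P ![k, m + 1 - k] y * φ y) := by
        rw [hck k hk]
        funext y
        ring
      rw [h2, dl_const_mul (ht _ (hmem k hk)).smooth, ← integral_const_mul]
      congr 1
      refine integral_congr_ae (Eventually.of_forall fun x => ?_)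
      simp only []
      ring
    have e4 : ∑ k ∈ Finset.range (m + 1 + 1), (-1) ^ (∑ i, (![k, m + 1 - k] : Fin 2 → ℕ) i) *
        ((1 / Complex.I) ^ (∑ i, (![k, m + 1 - k] : Fin 2 → ℕ) i) *
          ∫ x, f x * dl (ee 2) (lst (![k, m + 1 - k] : Fin 2 → ℕ))
            (fun y => P ![k, m + 1 - k] y * φ y) x) =
        - J volume (uk (ee 2) m f 0) (ee 2 1) (fun x => c 0 x * φ x)
        - ∑ k ∈ Finset.range (m + 1), J volume (uk (ee 2) m f k) (ee 2 0)
          (fun x => c (k + 1) x * φ x) := by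
      rw [Finset.sum_congr rfl fun k hk => e3 k (Nat.lt_succ_iff.mp (Finset.mem_range.mp hk)),
        Finset.sum_range_succ']
      have t0 := top_term (μ := volume) (e := ee 2) hO hf (ul_length (Nat.zero_le m))
        (List.Perm.refl (ul m 0 ++ [1])) (hcφ 0)
      rw [ul_one (Nat.zero_le m)] at t0
      rw [t0]
      have tk : ∀ k ∈ Finset.range (m + 1), (-1) ^ (m + 1) * ∫ x, f x * dl (ee 2)
          (List.replicate (k + 1) 0 ++ List.replicate (m + 1 - (k + 1)) 1)
          (fun y => c (k + 1) y * φ y) x =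
          - J volume (uk (ee 2) m f k) (ee 2 0) (fun x => c (k + 1) x * φ x) := by
        intro k hk
        have hk' : k ≤ m := Nat.lt_succ_iff.mp (Finset.mem_range.mp hk)
        rw [show m + 1 - (k + 1) = m - k by omega]
        exact top_term (μ := volume) (e := ee 2) hO hf (ul_length hk') (ul_perm_zero hk')
          (hcφ (k + 1))
      rw [Finset.sum_congr rfl tk, Finset.sum_neg_distrib]
      unfold uk
      ring
    rw [e1, e4]
    unfold Tc
    ring
  -- ellipticity
  have hI : ((1 : ℂ) / Complex.I) ^ (m + 1) ≠ 0 := pow_ne_zero _ (by simp)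
  have hell' : ∀ x ∈ O, ∀ t : ℝ, ∑ k ∈ Finset.range (m + 2), c k x * (t : ℂ) ^ k ≠ 0 := by
    intro x hx t
    have h1 := hell x (hOX hx) ![t, 1] (by
      intro h
      have := congrFun h 1
      simp at this)
    rw [sum_two] at h1
    have h2 : ∑ k ∈ Finset.range (m + 2), c k x * (t : ℂ) ^ k = (1 / Complex.I) ^ (m + 1) *
        ∑ k ∈ Finset.range (m + 1 + 1), P ![k, m + 1 - k] x *
          ∏ i, (((![t, 1] : Fin 2 → ℝ) i : ℝ) : ℂ) ^ (![k, m + 1 - k] : Fin 2 → ℕ) i := by
      rw [Finset.mul_sum]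
      refine Finset.sum_congr rfl fun k hk => ?_
      rw [hck k (Nat.lt_succ_iff.mp (Finset.mem_range.mp hk)), Fin.prod_univ_two]
      simp
      ring
    rw [h2]
    exact mul_ne_zero hI h1
  have hcp : ∀ x ∈ O, c (m + 1) x ≠ 0 := by
    intro x hx
    have h1 := hell x (hOX hx) ![1, 0] (by
      intro h
      have := congrFun h 0
      simp at this)
    rw [sum_two, Finset.sum_range_succ, Finset.sum_eq_zero, zero_add] at h1
    · rw [hck (m + 1) le_rfl]
      refine mul_ne_zero hI ?_
      intro h0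
      apply h1
      rw [h0, zero_mul]
    · intro k hk
      have hk' : k < m + 1 := Finset.mem_range.mp hk
      rw [Fin.prod_univ_two]
      have : m + 1 - k ≠ 0 := by omega
      simp [this]
  -- conclusion
  intro φ hφ1 hφ2 hφ3
  have hφ : IsTest O φ := ⟨hφ1, hφ2, hφ3⟩
  rw [hpair φ hφ]
  refine core2 hO hf hca hell' hcp hH0c hH0F (fun ψ hψ => ?_) φ hφ
  rw [← hpair ψ (hψ.mono sdiff_subset)]
  exact h ψ hψ.smooth hψ.comp hψ.supp

end Pool.Agent.Work.MP_375441_an
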