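import Pool.Agent.Work.MP_375441_an.Loc

/-!
# A first order functional supported in a `C¹` hypersurface vanishes
-/

open MeasureTheory Set Filter Topology Function Metric Module
open scoped ContDiff Manifold

namespace Pool.Agent.Work.MP_375441_an

set_option linter.unusedSectionVars false

variable {E : Type*} [NormedAddCommGroup E] [NormedSpace ℝ E] [MeasurableSpace E] [BorelSpace E]
  [FiniteDimensional ℝ E] {μ : Measure E} [μ.IsAddHaarMeasure]
  {ι : Type*} [Fintype ι] {e : ι → E} {G : ι → E → ℂ} {H : E → ℂ} {O : Set E}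

omit [MeasurableSpace E] [BorelSpace E] in
lemma exists_cutoff {K U : Set E} (hK : IsCompact K) (hU : IsOpen U) (hKU : K ⊆ U) :
    ∃ χ : E → ℝ, ContDiff ℝ ∞ χ ∧ HasCompactSupport χ ∧ tsupport χ ⊆ U ∧
      (∀ x, 0 ≤ χ x ∧ χ x ≤ 1) ∧ ∃ V, IsOpen V ∧ K ⊆ V ∧ ∀ x ∈ V, χ x = 1 := by
  obtain ⟨r, hr, hrU⟩ := hK.exists_cthickening_subset_open hU hKU
  have hd : Disjoint (thickening r K)ᶜ (cthickening (r / 2) K) := by
    rw [disjoint_compl_left_iff_subset]
    exact cthickening_subset_thickening' hr (by linarith) K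
  obtain ⟨f, h0, h1, h01⟩ := exists_contMDiffMap_zero_one_of_isClosed (n := (⊤ : ℕ∞)) 𝓘(ℝ, E)
    isOpen_thickening.isClosed_compl isClosed_cthickening hd
  have hs : tsupport f ⊆ cthickening r K := by
    refine closure_minimal (fun x hx => ?_) isClosed_cthickening
    by_contra hcon
    exact hx (h0 fun h => hcon (thickening_subset_cthickening r K h))
  refine ⟨f, f.contMDiff.contDiff, ?_, hs.trans hrU, fun x => h01 x,
    thickening (r / 2) K, isOpen_thickening, self_subset_thickening (by linarith) K, fun x hx =>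
      h1 (thickening_subset_cthickening _ _ hx)⟩
  exact hK.cthickening.of_isClosed_subset (isClosed_tsupport _) hs

/-- the measure of a thin strip around the hypersurface `s = 0` -/
lemma strip_bound {U : Set E} (hU : IsOpen U) {s : E → ℝ} (hs : ContDiffOn ℝ 1 s U) {v : E}
    {c : ℝ} (hc : 0 < c) (hv : ∀ x ∈ U, c ≤ fderiv ℝ s x v) {K : Set E} (hK : IsCompact K)
    (hKU : K ⊆ U) :
    ∃ C, 0 ≤ C ∧ ∀ ε > 0, μ.real {x ∈ K | |s x| ≤ 2 * ε} ≤ C * ε := by
  obtain ⟨χ, hχs, hχc, hχU, hχ01, V, hV, hKV, hχ1⟩ := exists_cutoff hK hU hKU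
  set χc : E → ℂ := fun x => ((χ x : ℝ) : ℂ) with hχc'
  have hχt : IsTest U χc := by
    refine ⟨Complex.ofRealCLM.contDiff.comp hχs, hχc.comp_left (g := fun t : ℝ => (t : ℂ)) (by simp),
      ?_⟩
    refine (closure_mono fun x hx => ?_ : tsupport χc ⊆ tsupport χ).trans hχU
    simp only [mem_support, hχc'] at hx ⊢
    exact fun h => hx (by simp [h])
  have hpχ : Integrable (fun x => pd v χc x) μ :=
    (hχt.one.continuous_pd v).integrable_of_hasCompactSupport
      (hχt.comp.of_isClosed_subset (isClosed_tsupport _) (pd_tsupport v χc))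
  refine ⟨8 * (∫ x, ‖pd v χc x‖ ∂μ) / c, by positivity, fun ε hε => ?_⟩
  -- the bounded function
  set θ : ℝ → ℝ := fun t => 5 * Real.arctan t with hθ
  set F : E → ℂ := fun x => ((θ (s x / ε) : ℝ) : ℂ) with hF
  have hsd : ∀ x ∈ U, DifferentiableAt ℝ s x := fun x hx =>
    (hs.differentiableOn (by simp)).differentiableAt (hU.mem_nhds hx)
  have hFd : ContDiffOn ℝ 1 F U := by
    have h1 : ContDiffOn ℝ 1 (fun x => s x / ε) U := hs.div_const ε
    have h2 : ContDiff ℝ 1 (fun t : ℝ => ((θ t : ℝ) : ℂ)) :=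
      Complex.ofRealCLM.contDiff.comp (contDiff_const.mul Real.contDiff_arctan)
    exact h2.comp_contDiffOn h1
  have hFp : ∀ x ∈ U, pd v F x = ((5 / (1 + (s x / ε) ^ 2) * (fderiv ℝ s x v / ε) : ℝ) : ℂ) := by
    intro x hx
    have h1 : HasFDerivAt (fun x => s x / ε) (ε⁻¹ • fderiv ℝ s x) x := by
      have := (hsd x hx).hasFDerivAt.mul_const ε⁻¹
      simpa [div_eq_mul_inv] using this
    have h2 : HasDerivAt θ (5 * (1 / (1 + (s x / ε) ^ 2))) (s x / ε) :=
      (Real.hasDerivAt_arctan _).const_mul 5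
    have h3 := h2.comp_hasFDerivAt x h1
    have h4 : HasFDerivAt F (Complex.ofRealCLM.comp
        ((5 * (1 / (1 + (s x / ε) ^ 2))) • (ε⁻¹ • fderiv ℝ s x))) x :=
      Complex.ofRealCLM.hasFDerivAt.comp x h3
    unfold pd
    rw [h4.fderiv]
    simp only [ContinuousLinearMap.comp_apply, Complex.ofRealCLM_apply]
    congr 1
    simp
    ring
  have hFb : ∀ x, ‖F x‖ ≤ 8 := by
    intro x
    rw [hF, Complex.norm_real, Real.norm_eq_abs, hθ, abs_mul, abs_of_pos (by norm_num : (0:ℝ) < 5)]
    have h1 : |Real.arctan (s x / ε)| ≤ Real.pi / 2 :=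
      abs_le.mpr ⟨(Real.neg_pi_div_two_lt_arctan _).le, (Real.arctan_lt_pi_div_two _).le⟩
    have h2 := Real.pi_lt_d2
    linarith
  have hibp := int_pd (μ := μ) hU hFd hχt.one v
  -- upper bound
  have hup : ‖∫ x, pd v F x * χc x ∂μ‖ ≤ 8 * ∫ x, ‖pd v χc x‖ ∂μ := by
    rw [← norm_neg, ← hibp, ← integral_const_mul]
    refine (norm_integral_le_integral_norm _).trans (integral_mono_of_nonneg
      (Eventually.of_forall fun x => norm_nonneg _) (hpχ.norm.const_mul 8)
      (Eventually.of_forall fun x => ?_))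
    simp only [norm_mul]
    exact mul_le_mul_of_nonneg_right (hFb x) (norm_nonneg _)
  -- lower bound
  set g : E → ℝ := fun x => 5 / (1 + (s x / ε) ^ 2) * (fderiv ℝ s x v / ε) * χ x with hg
  have hgeq : ∀ x, pd v F x * χc x = ((g x : ℝ) : ℂ) := by
    intro x
    by_cases hx : x ∈ U
    · rw [hFp x hx, hg, hχc']; push_cast; ring
    · have : χ x = 0 := image_eq_zero_of_notMem_tsupport fun h => hx (hχU h)
      simp [hg, hχc', this]
  have hgint : Integrable g μ := by
    have h1 : Integrable (fun x => pd v F x * χc x) μ :=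
      integrable_mul_test hU (pd_contDiffOn (m := 0) v hU hFd (by simp)).continuousOn
        hχt.one.continuous hχt.comp hχt.supp
    have h2 := h1.re
    refine h2.congr (Eventually.of_forall fun x => ?_)
    simp [hgeq]
  have hg0 : ∀ x, 0 ≤ g x := by
    intro x
    by_cases hx : x ∈ U
    · have := hv x hx
      have := (hχ01 x).1
      have : 0 < fderiv ℝ s x v := by linarith [hv x hx]
      positivity
    · have : χ x = 0 := image_eq_zero_of_notMem_tsupport fun h => hx (hχU h)
      simp [hg, this]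
  have hint : ‖∫ x, pd v F x * χc x ∂μ‖ = ∫ x, g x ∂μ := by
    have : ∫ x, pd v F x * χc x ∂μ = ((∫ x, g x ∂μ : ℝ) : ℂ) := by
      rw [← integral_complex_ofReal]
      exact integral_congr_ae (Eventually.of_forall hgeq)
    rw [this, Complex.norm_real, Real.norm_of_nonneg (integral_nonneg hg0)]
  set S : Set E := {x ∈ K | |s x| ≤ 2 * ε} with hS
  have hSsub : S ⊆ K := fun x hx => hx.1
  have hSclosed : IsCompact S := by
    have : S = K ∩ (fun x => |s x|) ⁻¹' Iic (2 * ε) := by
      ext x; simp [hS]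
    rw [this]
    exact hK.of_isClosed_subset ((hs.continuousOn.mono hKU).abs.preimage_isClosed_of_isClosed
      hK.isClosed isClosed_Iic) inter_subset_left
  have hlow : ∀ x ∈ S, c / ε ≤ g x := by
    intro x hx
    have hxU := hKU hx.1
    have h1 : χ x = 1 := hχ1 x (hKV hx.1)
    have h2 : (s x / ε) ^ 2 ≤ 4 := by
      rw [div_pow, div_le_iff₀ (by positivity), ← sq_abs]
      have := hx.2
      have h0 := abs_nonneg (s x)
      nlinarith
    have h3 : 1 ≤ 5 / (1 + (s x / ε) ^ 2) := by
      rw [le_div_iff₀ (by positivity)]; linarith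
    rw [hg]
    simp only [h1, mul_one]
    have h4 : c / ε ≤ fderiv ℝ s x v / ε := by
      exact div_le_div_of_nonneg_right (hv x hxU) hε.le
    have h5 : 0 ≤ c / ε := by positivity
    nlinarith
  have hfin : c / ε * μ.real S ≤ ∫ x, g x ∂μ := by
    have h1 : ∫ x in S, (c / ε) ∂μ ≤ ∫ x in S, g x ∂μ :=
      setIntegral_mono_on (integrableOn_const hSclosed.measure_lt_top.ne) hgint.integrableOn
        hSclosed.measurableSet hlow
    rw [setIntegral_const, smul_eq_mul, mul_comm] at h1
    exact h1.trans (setIntegral_le_integral hgint (Eventually.of_forall hg0))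
  rw [← hint] at hfin
  have := hfin.trans hup
  rw [div_mul_eq_mul_div, div_le_iff₀ hε] at this
  rw [div_mul_eq_mul_div, le_div_iff₀ hc]
  linarith

lemma norm_int_le_strip {S : Set E} (hfin : μ S < ⊤) {ψ : E → ℂ} {M : ℝ}
    (h0 : ∀ x, x ∉ S → ψ x = 0) (hM : ∀ x ∈ S, ‖ψ x‖ ≤ M) : ‖∫ x, ψ x ∂μ‖ ≤ M * μ.real S := by
  rw [← setIntegral_eq_integral_of_forall_compl_eq_zero h0]
  exact norm_setIntegral_le_of_norm_le_const hfin hM

/-- the hypersurface lemma -/
theorem van_hyp (hO : IsOpen O) (hG : ∀ i, ContinuousOn (G i) O) (hH : ContinuousOn H O) {x₀ : E}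
    (hx₀ : x₀ ∈ O) {s : E → ℝ} (hs : ContDiffAt ℝ 1 s x₀) {v : E} (hv : fderiv ℝ s x₀ v ≠ 0)
    (h : ∀ᶠ x in 𝓝 x₀, s x ≠ 0 → VanAt μ e G H x) : VanAt μ e G H x₀ := by
  -- reduction to a positive derivative
  wlog hvpos : 0 < fderiv ℝ s x₀ v generalizing v
  · exact this (v := -v) (by simpa using hv)
      (by rw [map_neg]; rcases lt_or_gt_of_ne hv with h | h <;> [linarith; exact absurd h hvpos])
  set c := fderiv ℝ s x₀ v / 2 with hc
  have hcpos : 0 < c := by positivity
  have hev1 : ∀ᶠ x in 𝓝 x₀, ContDiffAt ℝ 1 s x := hs.eventually (by simp)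
  have hev2 : ∀ᶠ x in 𝓝 x₀, c < fderiv ℝ s x v := by
    have hcont : ContinuousAt (fun x => fderiv ℝ s x v) x₀ :=
      ((hs.fderiv_right (m := 0) (by simp)).continuousAt).clm_apply continuousAt_const
    exact hcont.eventually (lt_mem_nhds (by rw [hc]; linarith))
  obtain ⟨r₀, hr₀, hball⟩ := Metric.eventually_nhds_iff_ball.mp
    (((hev1.and hev2).and h).and (hO.mem_nhds hx₀))
  set U := ball x₀ r₀ with hU'
  have hU : IsOpen U := isOpen_ball
  have hUO : U ⊆ O := fun x hx => (hball x hx).2
  have hsU : ContDiffOn ℝ 1 s U := fun x hx => (hball x hx).1.1.1.contDiffWithinAt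
  have hsc : ∀ x ∈ U, c ≤ fderiv ℝ s x v := fun x hx => (hball x hx).1.1.2.le
  have hsV : ∀ x ∈ U, s x ≠ 0 → VanAt μ e G H x := fun x hx => (hball x hx).1.2
  refine ⟨U, hU, mem_ball_self hr₀, fun φ hφ => ?_⟩
  have hsd : ∀ x ∈ U, DifferentiableAt ℝ s x := fun x hx =>
    (hsU.differentiableOn (by simp)).differentiableAt (hU.mem_nhds hx)
  have hsf : ContinuousOn (fderiv ℝ s) U := hsU.continuousOn_fderiv_of_isOpen hU (by simp)
  -- compact sets
  obtain ⟨r, hr, hrU⟩ := hφ.comp.isCompact.exists_cthickening_subset_open hU hφ.supp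
  set K := cthickening r (tsupport φ) with hK
  have hKc : IsCompact K := hφ.comp.isCompact.cthickening
  have hφK : tsupport φ ⊆ K := self_subset_cthickening _
  obtain ⟨C, hC0, hC⟩ := strip_bound (μ := μ) hU hsU hcpos hsc hKc hrU
  -- the cutoff function
  let b : ContDiffBump (0 : ℝ) := ⟨1, 2, by norm_num, by norm_num⟩
  have hbd : ContDiff ℝ ∞ b := b.contDiff
  have hb0 : ∀ t : ℝ, 2 ≤ |t| → b t = 0 := fun t ht =>
    b.zero_of_le_dist (by simpa [Real.dist_eq] using ht)
  have hb1 : ∀ t : ℝ, |t| ≤ 1 → b t = 1 := fun t ht =>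
    b.one_of_mem_closedBall (by simpa [Real.dist_eq] using ht)
  have hb01 : ∀ t : ℝ, |b t| ≤ 1 := fun t => by
    rw [abs_of_nonneg b.nonneg]; exact b.le_one
  have hb' : ∀ t : ℝ, 2 < |t| → deriv b t = 0 := by
    intro t ht
    have : b =ᶠ[𝓝 t] fun _ => (0:ℝ) := by
      have hc : ∀ᶠ u in 𝓝 t, 2 < |u| := continuous_abs.continuousAt.eventually (lt_mem_nhds ht)
      filter_upwards [hc] with u hu using hb0 u hu.le
    rw [this.deriv_eq]; simp
  obtain ⟨Mb, hMb⟩ : ∃ M, ∀ t, ‖deriv b t‖ ≤ M := by
    have hcs : HasCompactSupport (deriv b) := b.hasCompactSupport.deriv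
    exact hcs.exists_bound_of_continuous (hbd.continuous_deriv (by simp))
  set X : ℝ → E → ℂ := fun ε x => ((b (s x / ε) : ℝ) : ℂ) with hX
  have hXd : ∀ ε, ContDiffOn ℝ 1 (X ε) U := by
    intro ε
    have h1 : ContDiffOn ℝ 1 (fun x => s x / ε) U := hsU.div_const ε
    have h2 : ContDiff ℝ 1 (fun t : ℝ => ((b t : ℝ) : ℂ)) :=
      Complex.ofRealCLM.contDiff.comp (hbd.of_le (by simp))
    exact h2.comp_contDiffOn h1
  have hXp : ∀ ε, ∀ u : E, ∀ x ∈ U,
      pd u (X ε) x = (((deriv b (s x / ε) / ε * fderiv ℝ s x u : ℝ)) : ℂ) := by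
    intro ε u x hx
    have h1 : HasFDerivAt (fun x => s x / ε) (ε⁻¹ • fderiv ℝ s x) x := by
      have := (hsd x hx).hasFDerivAt.mul_const ε⁻¹
      simpa [div_eq_mul_inv] using this
    have h2 : HasDerivAt b (deriv b (s x / ε)) (s x / ε) :=
      ((hbd.differentiable (by simp)) _).hasDerivAt
    have h4 := Complex.ofRealCLM.hasFDerivAt.comp x (h2.comp_hasFDerivAt x h1)
    have h5 : HasFDerivAt (X ε) _ x := h4
    unfold pd
    rw [h5.fderiv]
    simp only [ContinuousLinearMap.comp_apply, Complex.ofRealCLM_apply]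
    congr 1
    simp
    ring
  -- first reduction
  have hred : ∀ ε > 0, TF μ e G H φ = TF μ e G H (fun x => X ε x * φ x) := by
    intro ε hε
    have h1 : IsTestOne U (fun x => X ε x * φ x) := hφ.one.mul_left hU le_rfl (hXd ε)
    have h2 : IsTestOne U (fun x => (1 - X ε x) * φ x) :=
      hφ.one.mul_left hU le_rfl (contDiffOn_const.sub (hXd ε))
    have hsp : φ = fun x => X ε x * φ x + (1 - X ε x) * φ x := by
      funext x; ring
    have hz : TF μ e G H (fun x => (1 - X ε x) * φ x) = 0 := by
      set V : Set E := U ∩ s ⁻¹' {0}ᶜ with hV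
      have hVo : IsOpen V := hsU.continuousOn.isOpen_inter_preimage hU isOpen_compl_singleton
      refine van_one hO hG hH hVo (inter_subset_left.trans hUO) (fun ψ hψ => ?_) ⟨h2.smooth, h2.comp,
        ?_⟩
      · exact van_of_local hO hG hH (inter_subset_left.trans hUO)
          (fun x hx => hsV x hx.1 hx.2) hψ
      · have hcl : IsClosed (tsupport φ ∩ (fun x => |s x|) ⁻¹' Ici ε) :=
          (hsU.continuousOn.mono hφ.supp).abs.preimage_isClosed_of_isClosed
            (isClosed_tsupport φ) isClosed_Ici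
        have hsub : tsupport (fun x => (1 - X ε x) * φ x) ⊆
            tsupport φ ∩ (fun x => |s x|) ⁻¹' Ici ε := by
          refine closure_minimal (fun x hx => ?_) hcl
          simp only [mem_support] at hx
          refine ⟨subset_tsupport _ (right_ne_zero_of_mul hx), ?_⟩
          by_contra hlt
          simp only [mem_preimage, mem_Ici, not_le] at hlt
          apply left_ne_zero_of_mul hx
          have : b (s x / ε) = 1 := hb1 _ (by
            rw [abs_div, abs_of_pos hε, div_le_one hε]; exact hlt.le)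
          simp [hX, this]
        intro x hx
        obtain ⟨h1, h2⟩ := hsub hx
        refine ⟨hφ.supp h1, fun h0 => ?_⟩
        simp only [mem_singleton_iff] at h0
        simp only [mem_preimage, mem_Ici, h0, abs_zero] at h2
        linarith
    conv_lhs => rw [hsp]
    rw [TF_add hO hG hH (h1.mono hUO) (h2.mono hUO), hz, add_zero]
  -- the two pieces
  set A : E → ℂ := fun x => H x * φ x - ∑ i, G i x * pd (e i) φ x with hA
  have hAc : Continuous A := tf_integrand_continuous hO hG hH (hφ.mono hUO).one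
  have hA0 : ∀ x, x ∉ tsupport φ → A x = 0 := fun x hx => tf_integrand_zero hx
  have hAcs : HasCompactSupport A := HasCompactSupport.intro hφ.comp.isCompact hA0
  obtain ⟨MA, hMA⟩ := hAcs.exists_bound_of_continuous hAc
  set a : E → ℂ := fun x => ((∑ i, G i x * ((fderiv ℝ s x (e i) : ℝ) : ℂ)) *
    (((fderiv ℝ s x v)⁻¹ : ℝ) : ℂ)) * φ x with ha
  have haO : ContinuousOn (fun x => (∑ i, G i x * ((fderiv ℝ s x (e i) : ℝ) : ℂ)) *
      (((fderiv ℝ s x v)⁻¹ : ℝ) : ℂ)) U := by
    refine ContinuousOn.mul (continuousOn_finsetSum _ fun i _ => ?_) ?_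
    · exact ((hG i).mono hUO).mul (Complex.continuous_ofReal.comp_continuousOn
        (hsf.clm_apply continuousOn_const))
    · refine Complex.continuous_ofReal.comp_continuousOn
        ((hsf.clm_apply continuousOn_const).inv₀ fun x hx => ?_)
      have := hsc x hx
      linarith
  have hac : Continuous a := continuous_mul_of_tsupport hU haO hφ.one.continuous hφ.supp
  have hats : tsupport a ⊆ tsupport φ := tsupport_mul_subset_right' _ φ
  have hacs : HasCompactSupport a := hφ.comp.of_isClosed_subset (isClosed_tsupport _) hats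
  obtain ⟨Ms, hMs⟩ : ∃ M, ∀ x ∈ K, ‖fderiv ℝ s x v‖ ≤ M :=
    hKc.exists_bound_of_continuousOn ((hsf.clm_apply continuousOn_const).mono hrU)
  have hMs0 : 0 ≤ max Ms 0 := le_max_right _ _
  have hMb0 : 0 ≤ Mb := (norm_nonneg _).trans (hMb 0)
  have hMA0 : 0 ≤ MA := (norm_nonneg _).trans (hMA x₀)
  -- the strip
  have hSc : ∀ ε > 0, MeasurableSet {x ∈ K | |s x| ≤ 2 * ε} := by
    intro ε _
    have : {x ∈ K | |s x| ≤ 2 * ε} = K ∩ (fun x => |s x|) ⁻¹' Iic (2 * ε) := by
      ext x; simp
    rw [this]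
    exact (((hsU.continuousOn.mono hrU).abs.preimage_isClosed_of_isClosed
      hKc.isClosed isClosed_Iic)).measurableSet
  have hSfin : ∀ ε, μ {x ∈ K | |s x| ≤ 2 * ε} < ⊤ := fun ε =>
    (measure_mono fun x hx => hx.1).trans_lt hKc.measure_lt_top
  have hbX : ∀ ε > 0, ∀ x, 2 * ε < |s x| → b (s x / ε) = 0 ∧ deriv b (s x / ε) = 0 := by
    intro ε hε x hx
    have : 2 < |s x / ε| := by
      rw [abs_div, abs_of_pos hε, lt_div_iff₀ hε]; exact hx
    exact ⟨hb0 _ this.le, hb' _ this⟩
  have hmain : ∀ η > 0, ‖TF μ e G H φ‖ ≤ η * (max Ms 0 * Mb * C) := by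
    intro η hη
    obtain ⟨δ₀, hδ₀, hδ⟩ := mol_unif μ hac hacs hη
    set δ := min δ₀ r with hδdef
    have hδpos : 0 < δ := lt_min hδ₀ hr
    set q := mol μ δ a with hq
    have hqd : ∀ x, dist (q x) (a x) ≤ η := hδ δ hδpos (min_le_left _ _)
    have hqK : tsupport q ⊆ K :=
      (mol_tsupport μ hδpos).trans ((cthickening_mono (min_le_right _ _) _).trans
        (cthickening_subset_of_subset r hats))
    have hqt : IsTest U q := ⟨mol_contDiff μ hδpos hac, mol_comp μ hδpos hacs, hqK.trans hrU⟩
    have hpq : HasCompactSupport (pd v q) :=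
      hqt.comp.of_isClosed_subset (isClosed_tsupport _) (pd_tsupport v q)
    obtain ⟨Mq, hMq⟩ := hpq.exists_bound_of_continuous (hqt.one.continuous_pd v)
    have hMq0 : 0 ≤ Mq := (norm_nonneg _).trans (hMq x₀)
    -- estimate for all ε
    have hest : ∀ ε > 0, ‖TF μ e G H φ‖ ≤ η * (max Ms 0 * Mb * C) + (MA + Mq) * C * ε := by
      intro ε hε
      rw [hred ε hε]
      have hid : TF μ e G H (fun x => X ε x * φ x) =
          ∫ x, X ε x * A x ∂μ - ∫ x, (q x * pd v (X ε) x) ∂μ
            - ∫ x, ((a x - q x) * (((deriv b (s x / ε) / ε * fderiv ℝ s x v : ℝ)) : ℂ)) ∂μ := by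
        have hi1 : Integrable (fun x => X ε x * A x) μ :=
          integrable_mul_test hU (hXd ε).continuousOn hAc hAcs
            ((closure_minimal (fun x hx => by
              by_contra hcon
              exact hx (hA0 x hcon)) (isClosed_tsupport φ)).trans hφ.supp)
        have hXpc : ContinuousOn (pd v (X ε)) U :=
          (pd_contDiffOn (m := 0) v hU (hXd ε) (by simp)).continuousOn
        have hi2 : Integrable (fun x => q x * pd v (X ε) x) μ := by
          have := integrable_mul_test (μ := μ) hU hXpc hqt.one.continuous hqt.comp hqt.supp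
          exact this.congr (Eventually.of_forall fun x => mul_comm _ _)
        have hdc : ContinuousOn
            (fun x => (((deriv b (s x / ε) / ε * fderiv ℝ s x v : ℝ)) : ℂ)) U := by
          refine hXpc.congr fun x hx => (hXp ε v x hx).symm
        have hi3 : Integrable (fun x => (a x - q x) *
            (((deriv b (s x / ε) / ε * fderiv ℝ s x v : ℝ)) : ℂ)) μ := by
          have h3 := integrable_mul_test (μ := μ) hU hdc (hac.sub hqt.one.continuous)
            (hacs.sub hqt.comp) ((tsupport_sub a q).trans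
              (union_subset (hats.trans hφ.supp) hqt.supp))
          exact h3.congr (Eventually.of_forall fun x => mul_comm _ _)
        have hi12 : Integrable (fun x => X ε x * A x - q x * pd v (X ε) x) μ := hi1.sub hi2
        rw [← integral_sub hi1 hi2, ← integral_sub hi12 hi3]
        unfold TF
        refine integral_congr_ae (Eventually.of_forall fun x => ?_)
        by_cases hx : x ∈ U
        · have hd1 : DifferentiableAt ℝ (X ε) x :=
            ((hXd ε).differentiableOn (by simp)).differentiableAt (hU.mem_nhds hx)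
          have hd2 : DifferentiableAt ℝ φ x := hφ.smooth.differentiable (by simp) x
          have hpdm : ∀ i, pd (e i) (fun x => X ε x * φ x) x =
              (((deriv b (s x / ε) / ε * fderiv ℝ s x (e i) : ℝ)) : ℂ) * φ x +
                X ε x * pd (e i) φ x := fun i => by
            rw [pd_mul hd1 hd2, hXp ε _ x hx]
          simp only [hpdm, hXp ε v x hx, hA, ha]
          have hne : ((fderiv ℝ s x v : ℝ) : ℂ) ≠ 0 := by
            have := hsc x hx
            exact_mod_cast (by linarith : (0:ℝ) < fderiv ℝ s x v).ne'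
          push_cast
          have e1 : ∑ i, G i x * (((deriv b (s x / ε) : ℝ) : ℂ) / ε * (fderiv ℝ s x (e i) : ℂ) *
              φ x + X ε x * pd (e i) φ x) = (((deriv b (s x / ε) : ℝ) : ℂ) / ε) *
                (∑ i, G i x * (fderiv ℝ s x (e i) : ℂ)) * φ x
                + X ε x * ∑ i, G i x * pd (e i) φ x := by
            rw [Finset.mul_sum, Finset.mul_sum, Finset.sum_mul, ← Finset.sum_add_distrib]
            exact Finset.sum_congr rfl fun i _ => by ring
          rw [e1]
          have e2 : (∑ i, G i x * ((fderiv ℝ s x) (e i) : ℂ)) * ((fderiv ℝ s x v : ℝ) : ℂ)⁻¹ *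
              φ x * (((deriv b (s x / ε) : ℝ) : ℂ) / ε * (fderiv ℝ s x v : ℂ)) =
              ((deriv b (s x / ε) : ℝ) : ℂ) / ε * (∑ i, G i x * ((fderiv ℝ s x) (e i) : ℂ)) * φ x := by
            field_simp
          linear_combination e2
        · have hxφ : x ∉ tsupport φ := fun h => hx (hφ.supp h)
          have h0 : (fun y => X ε y * φ y) =ᶠ[𝓝 x] fun _ => 0 := by
            rw [notMem_tsupport_iff_eventuallyEq] at hxφ
            filter_upwards [hxφ] with y hy
            simp [hy]
          have h1 : ∀ i, pd (e i) (fun y => X ε y * φ y) x = 0 := fun i => by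
            rw [pd_congr h0]; simp [pd]
          have h2 : φ x = 0 := image_eq_zero_of_notMem_tsupport hxφ
          have h3 : q x = 0 := image_eq_zero_of_notMem_tsupport fun h => hx (hqt.supp h)
          have h4 : a x = 0 := by simp [ha, h2]
          simp [h1, h2, h3, h4, hA0 x hxφ]
      have hsecond : ∫ x, (q x * pd v (X ε) x) ∂μ = - ∫ x, X ε x * pd v q x ∂μ := by
        rw [int_pd hU (hXd ε) hqt.one v, neg_neg]
        exact integral_congr_ae (Eventually.of_forall fun x => mul_comm _ _)
      have hn1 : ‖∫ x, X ε x * A x ∂μ‖ ≤ MA * μ.real {x ∈ K | |s x| ≤ 2 * ε} := by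
        refine norm_int_le_strip (hSfin ε) (fun x hx => ?_) fun x _ => ?_
        · by_cases hxK : x ∈ K
          · have : 2 * ε < |s x| := by
              by_contra hcon
              exact hx ⟨hxK, not_lt.mp hcon⟩
            simp [hX, (hbX ε hε x this).1]
          · rw [hA0 x fun h => hxK (hφK h), mul_zero]
        · rw [norm_mul, hX]
          simp only [Complex.norm_real, Real.norm_eq_abs]
          have := mul_le_mul (hb01 (s x / ε)) (hMA x) (norm_nonneg _) zero_le_one
          linarith
      have hn2 : ‖∫ x, X ε x * pd v q x ∂μ‖ ≤ Mq * μ.real {x ∈ K | |s x| ≤ 2 * ε} := by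
        refine norm_int_le_strip (hSfin ε) (fun x hx => ?_) fun x _ => ?_
        · by_cases hxK : x ∈ K
          · have : 2 * ε < |s x| := by
              by_contra hcon
              exact hx ⟨hxK, not_lt.mp hcon⟩
            simp [hX, (hbX ε hε x this).1]
          · rw [image_eq_zero_of_notMem_tsupport fun h => hxK (hqK (pd_tsupport v q h)), mul_zero]
        · rw [norm_mul, hX]
          simp only [Complex.norm_real, Real.norm_eq_abs]
          have := mul_le_mul (hb01 (s x / ε)) (hMq x) (norm_nonneg _) zero_le_one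
          linarith
      have hn3 : ‖∫ x, ((a x - q x) * (((deriv b (s x / ε) / ε * fderiv ℝ s x v : ℝ)) : ℂ)) ∂μ‖ ≤
          (η * (Mb / ε * max Ms 0)) * μ.real {x ∈ K | |s x| ≤ 2 * ε} := by
        refine norm_int_le_strip (hSfin ε) (fun x hx => ?_) fun x hx => ?_
        · by_cases hxK : x ∈ K
          · have : 2 * ε < |s x| := by
              by_contra hcon
              exact hx ⟨hxK, not_lt.mp hcon⟩
            simp [(hbX ε hε x this).2]
          · have h3 : q x = 0 := image_eq_zero_of_notMem_tsupport fun h => hxK (hqK h)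
            have h4 : a x = 0 := image_eq_zero_of_notMem_tsupport fun h => hxK (hφK (hats h))
            simp [h3, h4]
        · rw [norm_mul, Complex.norm_real, norm_mul, norm_div, Real.norm_of_nonneg hε.le]
          have h1 : ‖a x - q x‖ ≤ η := by
            rw [← dist_eq_norm, dist_comm]; exact hqd x
          have h2 : ‖deriv b (s x / ε)‖ / ε ≤ Mb / ε :=
            div_le_div_of_nonneg_right (hMb _) hε.le
          have h3 : ‖fderiv ℝ s x v‖ ≤ max Ms 0 := (hMs x hx.1).trans (le_max_left _ _)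
          exact mul_le_mul h1 (mul_le_mul h2 h3 (norm_nonneg _) (by positivity))
            (by positivity) hη.le
      rw [hid, hsecond]
      have hCε := hC ε hε
      have t1 : MA * μ.real {x ∈ K | |s x| ≤ 2 * ε} ≤ MA * (C * ε) :=
        mul_le_mul_of_nonneg_left hCε hMA0
      have t2 : Mq * μ.real {x ∈ K | |s x| ≤ 2 * ε} ≤ Mq * (C * ε) :=
        mul_le_mul_of_nonneg_left hCε hMq0
      have t3 : (η * (Mb / ε * max Ms 0)) * μ.real {x ∈ K | |s x| ≤ 2 * ε} ≤
          (η * (Mb / ε * max Ms 0)) * (C * ε) :=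
        mul_le_mul_of_nonneg_left hCε (by positivity)
      have t4 : (η * (Mb / ε * max Ms 0)) * (C * ε) = η * (max Ms 0 * Mb * C) := by
        field_simp
      have t5 := norm_sub_le (∫ x, X ε x * A x ∂μ - -∫ x, X ε x * pd v q x ∂μ)
        (∫ x, ((a x - q x) * (((deriv b (s x / ε) / ε * fderiv ℝ s x v : ℝ)) : ℂ)) ∂μ)
      have t6 := norm_sub_le (∫ x, X ε x * A x ∂μ) (-∫ x, X ε x * pd v q x ∂μ)
      rw [norm_neg] at t6
      rw [t4] at t3
      linarith
    refine le_of_forall_pos_le_add fun τ hτ => ?_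
    by_cases hD : (MA + Mq) * C = 0
    · have := hest 1 one_pos
      rw [hD] at this
      linarith
    · have hDpos : 0 < (MA + Mq) * C := lt_of_le_of_ne (by positivity) (Ne.symm hD)
      have := hest (τ / ((MA + Mq) * C)) (by positivity)
      rwa [mul_div_cancel₀ _ hD] at this
  have hzero : ‖TF μ e G H φ‖ ≤ 0 := by
    refine le_of_forall_pos_le_add fun τ hτ => ?_
    rw [zero_add]
    by_cases hD : max Ms 0 * Mb * C = 0
    · have := hmain 1 one_pos
      rw [hD] at this
      linarith
    · have hDpos : 0 < max Ms 0 * Mb * C := lt_of_le_of_ne (by positivity) (Ne.symm hD)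
      have := hmain (τ / (max Ms 0 * Mb * C)) (by positivity)
      rwa [div_mul_cancel₀ _ hD] at this
  exact norm_le_zero_iff.mp hzero

end Pool.Agent.Work.MP_375441_an
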