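import Pool.Agent.Work.MP_375441_an.Multi

/-!
# The algebraic identity behind the factorisation in two variables
-/

open MeasureTheory Set Filter Topology Function Metric Module
open scoped ContDiff

namespace Pool.Agent.Work.MP_375441_an

set_option linter.unusedSectionVars false

variable {E : Type*} [NormedAddCommGroup E] [NormedSpace ℝ E] [MeasurableSpace E] [BorelSpace E]
  [FiniteDimensional ℝ E] {μ : Measure E} [μ.IsAddHaarMeasure]

/-- the pairing `∫ u ∂_y g` -/
noncomputable def J (μ : Measure E) (u : E → ℂ) (y : E) (g : E → ℂ) : ℂ := ∫ x, u x * pd y g x ∂μ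

variable {O N : Set E} {u : E → ℂ} {y : E} {g g' : E → ℂ}

lemma J_integrable (hO : IsOpen O) (hu : ContinuousOn u O) (hg : IsTestOne O g) :
    Integrable (fun x => u x * pd y g x) μ :=
  integrable_mul_test hO hu (hg.continuous_pd y)
    (hg.comp.of_isClosed_subset (isClosed_tsupport _) (pd_tsupport y g))
    ((pd_tsupport y g).trans hg.supp)

lemma J_sub (hO : IsOpen O) (hu : ContinuousOn u O) (hg : IsTestOne O g) (hg' : IsTestOne O g') :
    J μ u y (fun x => g x - g' x) = J μ u y g - J μ u y g' := by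
  unfold J
  rw [← integral_sub (J_integrable hO hu hg) (J_integrable hO hu hg')]
  refine integral_congr_ae (Eventually.of_forall fun x => ?_)
  have h1 : pd y (fun x => g x - g' x) x = pd y g x - pd y g' x := by
    unfold pd
    rw [fderiv_fun_sub (hg.smooth.differentiable (by simp) x)
      (hg'.smooth.differentiable (by simp) x)]
    rfl
  simp only [h1]
  ring

lemma J_neg : J μ u y (fun x => - g x) = - J μ u y g := by
  unfold J
  rw [← integral_neg]
  refine integral_congr_ae (Eventually.of_forall fun x => ?_)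
  have h1 : pd y (fun x => - g x) x = - pd y g x := by
    unfold pd
    rw [fderiv_fun_neg]
    rfl
  simp only [h1]
  ring

lemma mul_test_congr {a b : E → ℂ} {φ : E → ℂ} (hφ : IsTestOne N φ) (h : ∀ x ∈ N, a x = b x) :
    (fun x => a x * φ x) = fun x => b x * φ x := by
  funext x
  by_cases hx : x ∈ N
  · rw [h x hx]
  · have : φ x = 0 := image_eq_zero_of_notMem_tsupport fun h => hx (hφ.supp h)
    rw [this, mul_zero, mul_zero]

theorem ident {e : Fin 2 → E} (hN : IsOpen N) {m : ℕ} {u : ℕ → E → ℂ}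
    (hu : ∀ k ≤ m, ContinuousOn (u k) N) {c R : ℕ → E → ℂ} {lam : E → ℂ}
    (hc : ∀ k, ContDiffOn ℝ 1 (c k) N)
    (hR : ∀ k, ContDiffOn ℝ 1 (R k) N) (hlam : ContDiffOn ℝ 1 lam N)
    (hrec : ∀ k ≤ m, ∀ x ∈ N, lam x * R (k + 1) x = R k x - c k x)
    (hR0 : ∀ x ∈ N, R 0 x = 0) (hRt : ∀ x ∈ N, R (m + 1) x = c (m + 1) x)
    (hswap : ∀ k < m, ∀ g, IsTestOne N g → J μ (u (k + 1)) (e 1) g = J μ (u k) (e 0) g)
    {φ : E → ℂ} (hφ : IsTestOne N φ) :
    - ∫ x, (∑ k ∈ Finset.range (m + 1), R (k + 1) x * u k x) * pd (e 0) φ x ∂μ +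
      ∫ x, (∑ k ∈ Finset.range (m + 1), R (k + 1) x * u k x) *
        pd (e 1) (fun y => lam y * φ y) x ∂μ =
    - J μ (u 0) (e 1) (fun x => c 0 x * φ x)
      - ∑ k ∈ Finset.range (m + 1), J μ (u k) (e 0) (fun x => c (k + 1) x * φ x)
      + ∫ x, (∑ k ∈ Finset.range (m + 1), u k x *
        (pd (e 0) (R (k + 1)) x - lam x * pd (e 1) (R (k + 1)) x)) * φ x ∂μ := by
  have hRφ : ∀ k, IsTestOne N (fun x => R k x * φ x) := fun k =>
    hφ.mul_left hN subset_rfl (hR k)
  have hcφ : ∀ k, IsTestOne N (fun x => c k x * φ x) := fun k =>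
    hφ.mul_left hN subset_rfl (hc k)
  have hlφ : IsTestOne N (fun x => lam x * φ x) := hφ.mul_left hN subset_rfl hlam
  have hlR : ∀ k, IsTestOne N (fun x => (lam x * R k x) * φ x) := fun k =>
    hφ.mul_left hN subset_rfl (hlam.mul (hR k))
  have hw : ContinuousOn (fun x => ∑ k ∈ Finset.range (m + 1), R (k + 1) x * u k x) N :=
    continuousOn_finsetSum _ fun k hk => (hR (k + 1)).continuousOn.mul
      (hu k (by simpa [Nat.lt_succ_iff] using hk))
  have hku : ∀ k ∈ Finset.range (m + 1), ContinuousOn (u k) N := fun k hk =>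
    hu k (by simpa [Nat.lt_succ_iff] using hk)
  -- step a
  have ha : - ∫ x, (∑ k ∈ Finset.range (m + 1), R (k + 1) x * u k x) * pd (e 0) φ x ∂μ +
      ∫ x, (∑ k ∈ Finset.range (m + 1), R (k + 1) x * u k x) *
        pd (e 1) (fun y => lam y * φ y) x ∂μ =
      (∑ k ∈ Finset.range (m + 1), (- J μ (u k) (e 0) (fun x => R (k + 1) x * φ x) +
        J μ (u k) (e 1) (fun x => (lam x * R (k + 1) x) * φ x))) +
      ∫ x, (∑ k ∈ Finset.range (m + 1), u k x *
        (pd (e 0) (R (k + 1)) x - lam x * pd (e 1) (R (k + 1)) x)) * φ x ∂μ := by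
    have i1 : Integrable (fun x => (∑ k ∈ Finset.range (m + 1), R (k + 1) x * u k x) *
        pd (e 0) φ x) μ := J_integrable hN hw hφ
    have i2 : Integrable (fun x => (∑ k ∈ Finset.range (m + 1), R (k + 1) x * u k x) *
        pd (e 1) (fun y => lam y * φ y) x) μ := J_integrable hN hw hlφ
    have i3 : ∀ k ∈ Finset.range (m + 1), Integrable (fun x => - (u k x *
        pd (e 0) (fun x => R (k + 1) x * φ x) x) +
        u k x * pd (e 1) (fun x => (lam x * R (k + 1) x) * φ x) x) μ := fun k hk =>
      (J_integrable hN (hku k hk) (hRφ (k + 1))).neg.add (J_integrable hN (hku k hk) (hlR (k + 1)))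
    have i4 : Integrable (fun x => (∑ k ∈ Finset.range (m + 1), u k x *
        (pd (e 0) (R (k + 1)) x - lam x * pd (e 1) (R (k + 1)) x)) * φ x) μ := by
      refine integrable_mul_test hN ?_ hφ.continuous hφ.comp hφ.supp
      refine continuousOn_finsetSum _ fun k hk => (hku k hk).mul (ContinuousOn.sub ?_
        (hlam.continuousOn.mul ?_))
      · exact (pd_contDiffOn (m := 0) _ hN (hR (k + 1)) (by simp)).continuousOn
      · exact (pd_contDiffOn (m := 0) _ hN (hR (k + 1)) (by simp)).continuousOn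
    have e1 : ∑ k ∈ Finset.range (m + 1), (- J μ (u k) (e 0) (fun x => R (k + 1) x * φ x) +
        J μ (u k) (e 1) (fun x => (lam x * R (k + 1) x) * φ x)) =
        ∫ x, ∑ k ∈ Finset.range (m + 1), (- (u k x * pd (e 0) (fun x => R (k + 1) x * φ x) x) +
        u k x * pd (e 1) (fun x => (lam x * R (k + 1) x) * φ x) x) ∂μ := by
      rw [integral_finsetSum _ i3]
      refine Finset.sum_congr rfl fun k hk => ?_
      unfold J
      have j1 : Integrable (fun x => -(u k x * pd (e 0) (fun x => R (k + 1) x * φ x) x)) μ :=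
        (J_integrable hN (hku k hk) (hRφ (k + 1))).neg
      rw [← integral_neg, ← integral_add j1 (J_integrable hN (hku k hk) (hlR (k + 1)))]
    have i1' : Integrable (fun x => -((∑ k ∈ Finset.range (m + 1), R (k + 1) x * u k x) *
        pd (e 0) φ x)) μ := i1.neg
    rw [e1, ← integral_neg, ← integral_add i1' i2, ← integral_add (integrable_finsetSum _ i3) i4]
    refine integral_congr_ae (Eventually.of_forall fun x => ?_)
    by_cases hx : x ∈ N
    · have hdR : ∀ k, DifferentiableAt ℝ (R k) x := fun k =>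
        ((hR k).differentiableOn (by simp)).differentiableAt (hN.mem_nhds hx)
      have hdl : DifferentiableAt ℝ lam x :=
        (hlam.differentiableOn (by simp)).differentiableAt (hN.mem_nhds hx)
      have hdφ : DifferentiableAt ℝ φ x := hφ.smooth.differentiable (by simp) x
      simp only []
      rw [pd_mul hdl hdφ, Finset.sum_mul, Finset.sum_mul, Finset.sum_mul, ← Finset.sum_neg_distrib,
        ← Finset.sum_add_distrib, ← Finset.sum_add_distrib]
      refine Finset.sum_congr rfl fun k _ => ?_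
      rw [pd_mul (hdR (k + 1)) hdφ, pd_mul (f := fun x => lam x * R (k + 1) x)
        (hdl.mul (hdR (k + 1))) hdφ, pd_mul hdl (hdR (k + 1))]
      ring
    · have hx' : x ∉ tsupport φ := fun h => hx (hφ.supp h)
      have h0 : φ x = 0 := image_eq_zero_of_notMem_tsupport hx'
      have h1 : ∀ y, pd y φ x = 0 := fun y =>
        image_eq_zero_of_notMem_tsupport fun h => hx' (pd_tsupport _ _ h)
      have h2 : ∀ (a : E → ℂ) y, pd y (fun z => a z * φ z) x = 0 := fun a y =>
        image_eq_zero_of_notMem_tsupport fun h =>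
          hx' (tsupport_mul_subset_right' a φ (pd_tsupport _ _ h))
      simp [h0, h1, h2]
  -- step b
  have hb : ∑ k ∈ Finset.range (m + 1), J μ (u k) (e 1) (fun x => (lam x * R (k + 1) x) * φ x) =
      - J μ (u 0) (e 1) (fun x => c 0 x * φ x) +
      ∑ k ∈ Finset.range m, (J μ (u k) (e 0) (fun x => R (k + 1) x * φ x) -
        J μ (u k) (e 0) (fun x => c (k + 1) x * φ x)) := by
    rw [Finset.sum_range_succ']
    have e1 : J μ (u 0) (e 1) (fun x => (lam x * R (0 + 1) x) * φ x) =
        - J μ (u 0) (e 1) (fun x => c 0 x * φ x) := by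
      rw [← J_neg]
      congr 1
      have h1 := mul_test_congr (a := fun x => lam x * R (0 + 1) x) (b := fun x => - c 0 x) hφ
        (fun x hx => by
          change lam x * R (0 + 1) x = - c 0 x
          rw [hrec 0 (Nat.zero_le _) x hx, hR0 x hx, zero_sub])
      rw [h1]
      funext x; ring
    rw [e1, add_comm]
    congr 1
    refine Finset.sum_congr rfl fun k hk => ?_
    have hk' : k < m := Finset.mem_range.mp hk
    rw [hswap k hk' _ (hlR (k + 1 + 1)), ← J_sub hN (hu k hk'.le) (hRφ _) (hcφ _)]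
    congr 1
    have h1 := mul_test_congr (a := fun x => lam x * R (k + 1 + 1) x)
      (b := fun x => R (k + 1) x - c (k + 1) x) hφ
      (fun x hx => hrec (k + 1) hk' x hx)
    rw [h1]
    funext x; ring
  have hcc : J μ (u m) (e 0) (fun x => R (m + 1) x * φ x) =
      J μ (u m) (e 0) (fun x => c (m + 1) x * φ x) := by
    congr 1
    exact mul_test_congr hφ hRt
  rw [ha, Finset.sum_add_distrib, hb, Finset.sum_neg_distrib, Finset.sum_range_succ, hcc,
    Finset.sum_range_succ (fun k => J μ (u k) (e 0) (fun x => c (k + 1) x * φ x)),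
    Finset.sum_sub_distrib]
  ring

end Pool.Agent.Work.MP_375441_an
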