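import Pool.Agent.Work.MP_375441_an.Energy

/-!
# The truncation profile and the commutator estimate
-/

open MeasureTheory Set Filter Topology Function Metric Module
open scoped ContDiff

namespace Pool.Agent.Work.MP_375441_an

set_option linter.unusedSectionVars false

/-- the profile -/
noncomputable def kap (t : ℝ) : ℝ := Real.smoothTransition ((t - 1) / 3)

lemma kap_contDiff : ContDiff ℝ ∞ kap := by
  unfold kap
  exact Real.smoothTransition.contDiff.comp ((contDiff_id.sub contDiff_const).div_const 3)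

lemma kap_mem (t : ℝ) : 0 ≤ kap t ∧ kap t ≤ 1 :=
  ⟨Real.smoothTransition.nonneg _, Real.smoothTransition.le_one _⟩

lemma kap_zero {t : ℝ} (ht : t ≤ 1) : kap t = 0 :=
  Real.smoothTransition.zero_of_nonpos (by linarith)

lemma kap_one {t : ℝ} (ht : 4 ≤ t) : kap t = 1 :=
  Real.smoothTransition.one_of_one_le (by linarith)

lemma kap_mono : Monotone kap := by
  intro a b hab
  exact Real.smoothTransition.monotone (by linarith)

lemma kap_deriv_nonneg (t : ℝ) : 0 ≤ deriv kap t := kap_mono.deriv_nonneg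

lemma kap_deriv_supp {t : ℝ} (h : deriv kap t ≠ 0) : 1 ≤ t ∧ t ≤ 4 := by
  constructor
  · by_contra hcon
    push Not at hcon
    apply h
    have : kap =ᶠ[𝓝 t] fun _ => 0 := by
      filter_upwards [Iio_mem_nhds hcon] with y hy using kap_zero (le_of_lt hy)
    rw [this.deriv_eq]; simp
  · by_contra hcon
    push Not at hcon
    apply h
    have : kap =ᶠ[𝓝 t] fun _ => 1 := by
      filter_upwards [Ioi_mem_nhds hcon] with y hy using kap_one (le_of_lt hy)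
    rw [this.deriv_eq]; simp

lemma kap_deriv_bdd : ∃ M, 0 ≤ M ∧ ∀ t, deriv kap t ≤ M := by
  have hc : Continuous (deriv kap) := kap_contDiff.continuous_deriv (by simp)
  have hs : HasCompactSupport (deriv kap) :=
    HasCompactSupport.intro (isCompact_Icc (a := (1:ℝ)) (b := 4)) fun x hx => by
      by_contra h
      exact hx (kap_deriv_supp h)
  obtain ⟨M, hM⟩ := hc.bounded_above_of_compact_support hs
  exact ⟨M, (norm_nonneg _).trans (hM 0), fun t => (le_abs_self _).trans (hM t)⟩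

/-- the scaled profile -/
noncomputable def kape (ε t : ℝ) : ℝ := kap (t / ε ^ 2)

lemma kape_contDiff (ε : ℝ) : ContDiff ℝ ∞ (kape ε) :=
  kap_contDiff.comp (contDiff_id.div_const _)

lemma kape_mem (ε t : ℝ) : 0 ≤ kape ε t ∧ kape ε t ≤ 1 := kap_mem _

lemma kape_deriv (ε t : ℝ) : deriv (kape ε) t = deriv kap (t / ε ^ 2) / ε ^ 2 := by
  have h1 : HasDerivAt (fun t : ℝ => t / ε ^ 2) (1 / ε ^ 2) t := (hasDerivAt_id t).div_const _
  have h2 : HasDerivAt kap (deriv kap (t / ε ^ 2)) (t / ε ^ 2) :=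
    (kap_contDiff.differentiable (by simp) _).hasDerivAt
  have h3 : HasDerivAt (kape ε) (deriv kap (t / ε ^ 2) * (1 / ε ^ 2)) t := h2.comp t h1
  rw [h3.deriv]; ring

lemma kape_deriv_nonneg (ε t : ℝ) : 0 ≤ deriv (kape ε) t := by
  rw [kape_deriv]
  exact div_nonneg (kap_deriv_nonneg _) (sq_nonneg _)

lemma kape_zero {ε : ℝ} (hε : 0 < ε) {r : ℝ} (hr0 : 0 ≤ r) (hr : r ≤ ε) : kape ε (r ^ 2) = 0 := by
  apply kap_zero
  rw [div_le_one (by positivity)]
  exact pow_le_pow_left₀ hr0 hr 2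

lemma kape_one {ε : ℝ} (hε : 0 < ε) {r : ℝ} (hr : 2 * ε ≤ r) : kape ε (r ^ 2) = 1 := by
  apply kap_one
  rw [le_div_iff₀ (by positivity)]
  calc 4 * ε ^ 2 = (2 * ε) ^ 2 := by ring
    _ ≤ r ^ 2 := pow_le_pow_left₀ (by positivity) hr 2

lemma kape_ne {ε : ℝ} (hε : 0 < ε) {r : ℝ} (hr0 : 0 ≤ r)
    (h : kape ε (r ^ 2) ≠ 0 ∨ deriv (kape ε) (r ^ 2) ≠ 0) : ε ≤ r := by
  rcases h with h | h
  · by_contra hcon
    push Not at hcon
    exact h (kape_zero hε hr0 hcon.le)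
  · rw [kape_deriv] at h
    have h1 : deriv kap (r ^ 2 / ε ^ 2) ≠ 0 := fun h0 => h (by simp [h0])
    have h2 := (kap_deriv_supp h1).1
    rw [le_div_iff₀ (by positivity), one_mul] at h2
    exact (pow_le_pow_iff_left₀ hε.le hr0 (by norm_num)).mp h2

lemma kape_deriv_supp {ε : ℝ} (hε : 0 < ε) {r : ℝ} (hr0 : 0 ≤ r)
    (h : deriv (kape ε) (r ^ 2) ≠ 0) : ε ≤ r ∧ r ≤ 2 * ε := by
  rw [kape_deriv] at h
  have h1 : deriv kap (r ^ 2 / ε ^ 2) ≠ 0 := fun h0 => h (by simp [h0])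
  have h2 := kap_deriv_supp h1
  rw [le_div_iff₀ (by positivity), div_le_iff₀ (by positivity), one_mul] at h2
  refine ⟨(pow_le_pow_iff_left₀ hε.le hr0 (by norm_num)).mp h2.1, ?_⟩
  refine (pow_le_pow_iff_left₀ hr0 (by positivity : (0:ℝ) ≤ 2 * ε) (by norm_num : 2 ≠ 0)).mp ?_
  calc r ^ 2 ≤ 4 * ε ^ 2 := h2.2
    _ = _ := by ring

lemma kape_mul_deriv {M : ℝ} (hM : ∀ t, deriv kap t ≤ M) {ε : ℝ} (hε : 0 < ε)
    {t : ℝ} (ht : 0 ≤ t) : t * deriv (kape ε) t ≤ 4 * M := by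
  have hM0 : 0 ≤ M := (kap_deriv_nonneg 0).trans (hM 0)
  rw [kape_deriv]
  by_cases h : deriv kap (t / ε ^ 2) = 0
  · rw [h]; simp; exact hM0
  · have h1 := kap_deriv_supp h
    have h2 := hM (t / ε ^ 2)
    have h3 := kap_deriv_nonneg (t / ε ^ 2)
    calc t * (deriv kap (t / ε ^ 2) / ε ^ 2) = (t / ε ^ 2) * deriv kap (t / ε ^ 2) := by ring
      _ ≤ 4 * M := mul_le_mul h1.2 h2 h3 (by norm_num)

/-- the truncation `z ↦ κ(|z|²) z` composed with `u` -/
noncomputable def trunc {E : Type*} (ε : ℝ) (u : E → ℂ) (x : E) : ℂ :=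
  ((kape ε (‖u x‖ ^ 2) : ℝ) : ℂ) * u x

section trunc
variable {E : Type*} [NormedAddCommGroup E] [NormedSpace ℝ E]

lemma kape_comp_contDiff (ε : ℝ) {u : E → ℂ} {n : WithTop ℕ∞} (hn : n ≤ ∞)
    (hu : ContDiff ℝ n u) : ContDiff ℝ n (fun x => ((kape ε (‖u x‖ ^ 2) : ℝ) : ℂ)) :=
  Complex.ofRealCLM.contDiff.comp (((kape_contDiff ε).of_le hn).comp (hu.norm_sq ℝ))

lemma trunc_contDiff (ε : ℝ) {u : E → ℂ} {n : WithTop ℕ∞} (hn : n ≤ ∞) (hu : ContDiff ℝ n u) :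
    ContDiff ℝ n (trunc ε u) :=
  (kape_comp_contDiff ε hn hu).mul hu

lemma trunc_pd (ε : ℝ) {u : E → ℂ} (hu : ContDiff ℝ 1 u) (v x : E) :
    pd v (trunc ε u) x = ((kape ε (‖u x‖ ^ 2) : ℝ) : ℂ) * pd v u x +
      ((deriv (kape ε) (‖u x‖ ^ 2) * (2 * (starRingEnd ℂ (u x) * pd v u x).re) : ℝ) : ℂ) * u x := by
  have hud : DifferentiableAt ℝ u x := hu.differentiable (by simp) x
  have h1 : HasFDerivAt (fun y => ‖u y‖ ^ 2) _ x := (hud.hasFDerivAt).norm_sq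
  have h2 : HasDerivAt (kape ε) (deriv (kape ε) (‖u x‖ ^ 2)) (‖u x‖ ^ 2) :=
    ((kape_contDiff ε).differentiable (by simp) _).hasDerivAt
  have h3 := h2.comp_hasFDerivAt x h1
  have h4 : HasFDerivAt (fun x => ((kape ε (‖u x‖ ^ 2) : ℝ) : ℂ)) _ x :=
    Complex.ofRealCLM.hasFDerivAt.comp x h3
  unfold trunc
  rw [pd_mul h4.differentiableAt hud]
  rw [add_comm]
  congr 2
  unfold pd
  rw [h4.fderiv]
  simp [innerSL_apply_apply, Complex.inner]
  ring

lemma trunc_dist {ε : ℝ} (hε : 0 < ε) (u : E → ℂ) (x : E) : ‖trunc ε u x - u x‖ ≤ 2 * ε := by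
  have h : trunc ε u x - u x = (((kape ε (‖u x‖ ^ 2) - 1 : ℝ)) : ℂ) * u x := by
    unfold trunc; push_cast; ring
  rw [h, norm_mul, Complex.norm_real, Real.norm_eq_abs]
  obtain ⟨h0, h1⟩ := kape_mem ε (‖u x‖ ^ 2)
  by_cases hx : 2 * ε ≤ ‖u x‖
  · rw [kape_one hε hx]; simp; exact hε.le
  · push Not at hx
    have : |kape ε (‖u x‖ ^ 2) - 1| ≤ 1 := by rw [abs_le]; constructor <;> linarith
    calc |kape ε (‖u x‖ ^ 2) - 1| * ‖u x‖ ≤ 1 * (2 * ε) :=
          mul_le_mul this hx.le (norm_nonneg _) zero_le_one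
      _ = 2 * ε := one_mul _

end trunc

end Pool.Agent.Work.MP_375441_an
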