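import Pool.Agent.Work.MP_375441_an.Moll

/-!
# First order functionals: locality, and `C¹` test functions
-/

open MeasureTheory Set Filter Topology Function Metric Module
open scoped ContDiff

namespace Pool.Agent.Work.MP_375441_an

set_option linter.unusedSectionVars false

variable {E : Type*} [NormedAddCommGroup E] [NormedSpace ℝ E] [MeasurableSpace E] [BorelSpace E]
  [FiniteDimensional ℝ E] {μ : Measure E} [μ.IsAddHaarMeasure]
  {ι : Type*} [Fintype ι] {e : ι → E} {G : ι → E → ℂ} {H : E → ℂ} {O : Set E}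

lemma IsTestOne.continuous {U : Set E} {φ : E → ℂ} (h : IsTestOne U φ) : Continuous φ :=
  h.smooth.continuous

lemma IsTestOne.continuous_pd {U : Set E} {φ : E → ℂ} (h : IsTestOne U φ) (v : E) :
    Continuous (Pool.Agent.Work.MP_375441_an.pd v φ) :=
  (pd_contDiff (m := 0) v h.smooth (by simp)).continuous

lemma tf_integrand_continuous (hO : IsOpen O) (hG : ∀ i, ContinuousOn (G i) O)
    (hH : ContinuousOn H O) {φ : E → ℂ} (hφ : IsTestOne O φ) :
    Continuous (fun x => H x * φ x - ∑ i, G i x * pd (e i) φ x) := by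
  refine (continuous_mul_of_tsupport hO hH hφ.continuous hφ.supp).sub
    (continuous_finsetSum _ fun i _ => ?_)
  exact continuous_mul_of_tsupport hO (hG i) (hφ.continuous_pd _)
    ((pd_tsupport _ _).trans hφ.supp)

lemma tf_integrand_zero {φ : E → ℂ} {x : E} (hx : x ∉ tsupport φ) :
    H x * φ x - ∑ i, G i x * pd (e i) φ x = 0 := by
  have h1 : φ x = 0 := image_eq_zero_of_notMem_tsupport hx
  have h2 : ∀ i, pd (e i) φ x = 0 := fun i =>
    image_eq_zero_of_notMem_tsupport fun h => hx (pd_tsupport _ _ h)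
  simp [h1, h2]

lemma tf_integrable (hO : IsOpen O) (hG : ∀ i, ContinuousOn (G i) O)
    (hH : ContinuousOn H O) {φ : E → ℂ} (hφ : IsTestOne O φ) :
    Integrable (fun x => H x * φ x - ∑ i, G i x * pd (e i) φ x) μ := by
  refine (tf_integrand_continuous hO hG hH hφ).integrable_of_hasCompactSupport ?_
  exact HasCompactSupport.intro hφ.comp.isCompact fun x hx => tf_integrand_zero hx

lemma TF_add (hO : IsOpen O) (hG : ∀ i, ContinuousOn (G i) O)
    (hH : ContinuousOn H O) {φ ψ : E → ℂ} (hφ : IsTestOne O φ) (hψ : IsTestOne O ψ) :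
    TF μ e G H (fun x => φ x + ψ x) = TF μ e G H φ + TF μ e G H ψ := by
  unfold TF
  rw [← integral_add (tf_integrable hO hG hH hφ) (tf_integrable hO hG hH hψ)]
  refine integral_congr_ae (Eventually.of_forall fun x => ?_)
  have h : ∀ i, pd (e i) (fun x => φ x + ψ x) x = pd (e i) φ x + pd (e i) ψ x := fun i =>
    pd_add (hφ.smooth.differentiable (by simp) x) (hψ.smooth.differentiable (by simp) x)
  simp only [h, mul_add, Finset.sum_add_distrib]
  ring

lemma TF_zero : TF μ e G H (fun _ => (0:ℂ)) = 0 := by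
  unfold TF
  have h : ∀ (x : E) (i : ι), pd (e i) (fun _ : E => (0:ℂ)) x = 0 := fun x i => by
    simp [pd]
  simp [h]

lemma TF_congr_on {G' : ι → E → ℂ} {H' : E → ℂ} {φ : E → ℂ}
    (hG : ∀ i, ∀ x ∈ tsupport φ, G i x = G' i x) (hH : ∀ x ∈ tsupport φ, H x = H' x) :
    TF μ e G H φ = TF μ e G' H' φ := by
  unfold TF
  refine integral_congr_ae (Eventually.of_forall fun x => ?_)
  by_cases hx : x ∈ tsupport φ
  · simp only [hG _ x hx, hH x hx]
  · exact (tf_integrand_zero hx).trans (tf_integrand_zero hx).symm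

/-- `T` vanishes near `x` -/
def VanAt (μ : Measure E) (e : ι → E) (G : ι → E → ℂ) (H : E → ℂ) (x : E) : Prop :=
  ∃ U, IsOpen U ∧ x ∈ U ∧ ∀ φ, IsTest U φ → TF μ e G H φ = 0

/-- locality -/
lemma van_of_local (hO : IsOpen O) (hG : ∀ i, ContinuousOn (G i) O)
    (hH : ContinuousOn H O) {V : Set E} (hVO : V ⊆ O) (hV : ∀ x ∈ V, VanAt μ e G H x) {φ : E → ℂ}
    (hφ : IsTest V φ) : TF μ e G H φ = 0 := by
  classical
  have hφO := hφ.mono hVO
  -- choose bumps
  have hb : ∀ x ∈ tsupport φ, ∃ b : ContDiffBump x, ∀ ψ, IsTest (closedBall x b.rOut) ψ →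
      TF μ e G H ψ = 0 := by
    intro x hx
    obtain ⟨U, hU, hxU, h⟩ := hV x (hφ.supp hx)
    obtain ⟨r, hr, hrU⟩ := Metric.isOpen_iff.mp hU x hxU
    refine ⟨⟨r / 3, r / 2, by linarith, by linarith⟩, fun ψ hψ => h ψ (hψ.mono ?_)⟩
    exact (closedBall_subset_ball (by simp; linarith)).trans hrU
  choose! b hbT using hb
  obtain ⟨t, ht, hcov⟩ := hφ.comp.isCompact.elim_nhds_subcover
    (fun x => ball x (b x).rIn) (fun x _ => ball_mem_nhds x (b x).rIn_pos)
  have hbs : ∀ x, ContDiff ℝ ∞ (fun y => ((b x y : ℝ) : ℂ)) := fun x =>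
    Complex.ofRealCLM.contDiff.comp (b x).contDiff
  have hm : ∀ s : Finset E, ContDiff ℝ ∞ (fun y => ∏ x ∈ s, (1 - ((b x y : ℝ) : ℂ))) := by
    intro s
    exact contDiff_prod fun x _ => contDiff_const.sub (hbs x)
  have hind : ∀ s : Finset E, (∀ x ∈ s, x ∈ tsupport φ) →
      TF μ e G H (fun y => (∏ x ∈ s, (1 - ((b x y : ℝ) : ℂ))) * φ y) = TF μ e G H φ := by
    intro s
    induction s using Finset.induction_on with
    | empty => intro _; simp
    | insert a s ha ih =>
      intro hs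
      have ih' := ih fun x hx => hs x (Finset.mem_insert_of_mem hx)
      rw [← ih']
      set ψ : E → ℂ := fun y => (∏ x ∈ s, (1 - ((b x y : ℝ) : ℂ))) * φ y with hψ
      have hψt : IsTest O ψ :=
        hφO.mul_left isOpen_univ (subset_univ _) (hm s).contDiffOn
      have h1 : IsTest O (fun y => (1 - ((b a y : ℝ) : ℂ)) * ψ y) :=
        hψt.mul_left isOpen_univ (subset_univ _) (contDiff_const.sub (hbs a)).contDiffOn
      have h2 : IsTest O (fun y => ((b a y : ℝ) : ℂ) * ψ y) :=
        hψt.mul_left isOpen_univ (subset_univ _) (hbs a).contDiffOn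
      have hsplit : ψ = fun y => (1 - ((b a y : ℝ) : ℂ)) * ψ y + ((b a y : ℝ) : ℂ) * ψ y := by
        funext y; ring
      have hzero : TF μ e G H (fun y => ((b a y : ℝ) : ℂ) * ψ y) = 0 := by
        apply hbT a (hs a (Finset.mem_insert_self _ _))
        refine ⟨h2.smooth, h2.comp, ?_⟩
        have : tsupport (fun y => ((b a y : ℝ) : ℂ) * ψ y) ⊆ tsupport (b a) := by
          refine closure_mono fun y hy => ?_
          simp only [mem_support] at hy ⊢
          intro h0
          exact hy (by simp [h0])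
        exact this.trans (b a).tsupport_eq.subset
      have hfin : TF μ e G H ψ = TF μ e G H (fun y => (1 - ((b a y : ℝ) : ℂ)) * ψ y) := by
        conv_lhs => rw [hsplit]
        rw [TF_add hO hG hH h1.one h2.one, hzero, add_zero]
      rw [hfin]
      congr 1
      funext y
      rw [Finset.prod_insert ha, hψ]
      ring
  have h := hind t ht
  rw [← h]
  have h0 : (fun y => (∏ x ∈ t, (1 - ((b x y : ℝ) : ℂ))) * φ y) = fun _ => 0 := by
    funext y
    by_cases hy : y ∈ tsupport φ
    · obtain ⟨x, hx, hxy⟩ := mem_iUnion₂.mp (hcov hy)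
      have : (b x y : ℝ) = 1 := (b x).one_of_mem_closedBall (ball_subset_closedBall hxy)
      rw [Finset.prod_eq_zero hx (by simp [this]), zero_mul]
    · rw [image_eq_zero_of_notMem_tsupport hy, mul_zero]
  rw [h0]
  exact TF_zero

/-- passage to `C¹` test functions -/
lemma van_one (hO : IsOpen O) (hG : ∀ i, ContinuousOn (G i) O)
    (hH : ContinuousOn H O) {U : Set E} (hU : IsOpen U) (hUO : U ⊆ O)
    (hV : ∀ φ, IsTest U φ → TF μ e G H φ = 0) {φ : E → ℂ} (hφ : IsTestOne U φ) :
    TF μ e G H φ = 0 := by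
  obtain ⟨r, hr, hrU⟩ := hφ.comp.isCompact.exists_cthickening_subset_open hU hφ.supp
  set K := cthickening r (tsupport φ) with hK
  have hKc : IsCompact K := hφ.comp.isCompact.cthickening
  -- bounds
  have hGb : ∀ i, ∃ C, ∀ x ∈ K, ‖G i x‖ ≤ C := fun i =>
    hKc.exists_bound_of_continuousOn ((hG i).mono (hrU.trans hUO))
  choose CG hCG using hGb
  obtain ⟨CH, hCH⟩ := hKc.exists_bound_of_continuousOn (hH.mono (hrU.trans hUO))
  have hφt : ∀ δ, 0 < δ → δ ≤ r → IsTest U (mol μ δ φ) := fun δ hδ hle =>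
    ⟨mol_contDiff μ hδ hφ.continuous, mol_comp μ hδ hφ.comp,
      ((mol_tsupport μ hδ).trans (cthickening_mono hle _)).trans hrU⟩
  have hpc : ∀ v, HasCompactSupport (pd v φ) := fun v =>
    hφ.comp.of_isClosed_subset (isClosed_tsupport _) (pd_tsupport v φ)
  -- convergence of the integrals
  have hconv : Tendsto (fun δ => TF μ e G H (mol μ δ φ)) (𝓝[>] 0) (𝓝 (TF μ e G H φ)) := by
    obtain ⟨Cφ, hCφ⟩ := (hφ.comp.exists_bound_of_continuous hφ.continuous)
    have hp : ∀ i, ∃ C, ∀ x, ‖pd (e i) φ x‖ ≤ C := fun i =>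
      (hpc (e i)).exists_bound_of_continuous (hφ.continuous_pd (e i))
    choose Cp hCp using hp
    have hδφ : ∃ δ₁ > 0, ∀ δ, 0 < δ → δ ≤ δ₁ → ∀ x, ‖mol μ δ φ x‖ ≤ Cφ + 1 := by
      obtain ⟨δ₁, h1, h2⟩ := mol_unif μ hφ.continuous hφ.comp one_pos
      refine ⟨δ₁, h1, fun δ hδ hle x => ?_⟩
      have := h2 δ hδ hle x
      rw [dist_eq_norm] at this
      have h3 := norm_le_norm_add_norm_sub' (mol μ δ φ x) (φ x)
      have h4 := hCφ x
      linarith
    obtain ⟨δ₁, hδ₁, hb1⟩ := hδφ
    have hδp : ∀ i, ∃ δ₂ > 0, ∀ δ, 0 < δ → δ ≤ δ₂ → ∀ x, ‖pd (e i) (mol μ δ φ) x‖ ≤ Cp i + 1 := by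
      intro i
      obtain ⟨δ₂, h1, h2⟩ := mol_unif μ (hφ.continuous_pd (e i)) (hpc (e i)) one_pos
      refine ⟨δ₂, h1, fun δ hδ hle x => ?_⟩
      have := h2 δ hδ hle x
      rw [← mol_pd' μ hφ.smooth hφ.comp, dist_eq_norm] at this
      have h3 := norm_le_norm_add_norm_sub' (pd (e i) (mol μ δ φ) x) (pd (e i) φ x)
      have h4 := hCp i x
      linarith
    choose δ₂ hδ₂ hb2 using hδp
    unfold TF
    refine tendsto_integral_filter_of_dominated_convergence
      (K.indicator fun _ => CH * (Cφ + 1) + ∑ i, CG i * (Cp i + 1)) ?_ ?_ ?_ ?_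
    · filter_upwards [Ioc_mem_nhdsGT hr] with δ hδ
      exact (tf_integrand_continuous hO hG hH ((hφt δ hδ.1 hδ.2).mono hUO).one).aestronglyMeasurable
    · have hall : ∀ᶠ δ in 𝓝[>] (0:ℝ), ∀ i, δ ≤ δ₂ i := by
        rw [eventually_all]
        intro i
        filter_upwards [Ioc_mem_nhdsGT (hδ₂ i)] with δ hδ using hδ.2
      filter_upwards [Ioc_mem_nhdsGT hr, Ioc_mem_nhdsGT hδ₁, hall] with δ hδ hδ' hδ''
      refine Eventually.of_forall fun x => ?_
      by_cases hx : x ∈ K
      · rw [indicator_of_mem hx]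
        refine (norm_sub_le _ _).trans (add_le_add ?_ ((norm_sum_le _ _).trans
          (Finset.sum_le_sum fun i _ => ?_)))
        · rw [norm_mul]
          exact mul_le_mul (hCH x hx) (hb1 δ hδ.1 hδ'.2 x) (norm_nonneg _)
            ((norm_nonneg _).trans (hCH x hx))
        · rw [norm_mul]
          exact mul_le_mul (hCG i x hx) (hb2 i δ hδ.1 (hδ'' i) x) (norm_nonneg _)
            ((norm_nonneg _).trans (hCG i x hx))
      · rw [indicator_of_notMem hx]
        have : x ∉ tsupport (mol μ δ φ) := fun h =>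
          hx (cthickening_mono hδ.2 _ (mol_tsupport μ hδ.1 h))
        rw [tf_integrand_zero this, norm_zero]
    · exact (integrable_indicator_iff hKc.measurableSet).mpr
        (integrableOn_const hKc.measure_lt_top.ne)
    · refine Eventually.of_forall fun x => ?_
      refine Tendsto.sub (Tendsto.const_mul _ (mol_tendsto μ hφ.continuous hφ.comp x))
        (tendsto_finsetSum _ fun i _ => Tendsto.const_mul _ ?_)
      have := mol_tendsto μ (hφ.continuous_pd (e i)) (hpc (e i)) x
      refine this.congr fun δ => ?_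
      rw [mol_pd' μ hφ.smooth hφ.comp]
  have hz : Tendsto (fun δ => TF μ e G H (mol μ δ φ)) (𝓝[>] 0) (𝓝 0) := by
    refine tendsto_const_nhds.congr' ?_
    filter_upwards [Ioc_mem_nhdsGT hr] with δ hδ
    exact (hV _ (hφt δ hδ.1 hδ.2)).symm
  exact tendsto_nhds_unique hconv hz

end Pool.Agent.Work.MP_375441_an
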