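import Pool.Agent.Work.MP_375441_an.Basic

/-!
# Mollification
-/

open MeasureTheory Set Filter Topology Function Metric Module
open scoped ContDiff Convolution
open ContinuousLinearMap

namespace Pool.Agent.Work.MP_375441_an

set_option linter.unusedSectionVars false

variable {E : Type*} [NormedAddCommGroup E] [NormedSpace ℝ E] [MeasurableSpace E] [BorelSpace E]
  [FiniteDimensional ℝ E] (μ : Measure E) [μ.IsAddHaarMeasure]

/-- the standard bump -/
noncomputable def bmp : ContDiffBump (0 : E) := ⟨1 / 2, 1, by norm_num, by norm_num⟩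

/-- the standard mollifier -/
noncomputable def rho1 (x : E) : ℝ := (bmp (E := E)).normed μ x

/-- the scaled mollifier -/
noncomputable def rho (δ : ℝ) (x : E) : ℝ := (δ ^ finrank ℝ E)⁻¹ * rho1 μ (δ⁻¹ • x)

lemma rho1_contDiff : ContDiff ℝ ∞ (rho1 μ : E → ℝ) := (bmp (E := E)).contDiff_normed

lemma rho1_support : support (rho1 μ : E → ℝ) = ball 0 1 := (bmp (E := E)).support_normed_eq

lemma rho1_comp : HasCompactSupport (rho1 μ : E → ℝ) := (bmp (E := E)).hasCompactSupport_normed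

lemma rho1_nonneg (x : E) : 0 ≤ rho1 μ x := (bmp (E := E)).nonneg_normed x

lemma rho1_integral : ∫ x, rho1 μ x ∂μ = 1 := (bmp (E := E)).integral_normed

lemma rho_contDiff (δ : ℝ) : ContDiff ℝ ∞ (rho μ δ : E → ℝ) := by
  unfold rho
  exact contDiff_const.mul ((rho1_contDiff μ).comp (contDiff_const.smul contDiff_id))

lemma rho_support {δ : ℝ} (hδ : 0 < δ) : support (rho μ δ : E → ℝ) ⊆ ball 0 δ := by
  intro x hx
  have h1 : rho1 μ (δ⁻¹ • x) ≠ 0 := fun h => hx (by simp [rho, h])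
  have h2 : δ⁻¹ • x ∈ ball (0 : E) 1 := by
    rw [← rho1_support μ]; exact h1
  rw [mem_ball_zero_iff, norm_smul, norm_inv, Real.norm_of_nonneg hδ.le,
    inv_mul_lt_iff₀ hδ, mul_one] at h2
  rw [mem_ball_zero_iff]; exact h2

lemma rho_tsupport {δ : ℝ} (hδ : 0 < δ) : tsupport (rho μ δ : E → ℝ) ⊆ closedBall 0 δ :=
  closure_minimal ((rho_support μ hδ).trans ball_subset_closedBall) isClosed_closedBall

lemma rho_comp {δ : ℝ} (hδ : 0 < δ) : HasCompactSupport (rho μ δ : E → ℝ) :=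
  HasCompactSupport.intro (isCompact_closedBall 0 δ) fun x hx => by
    by_contra h
    exact hx (ball_subset_closedBall (rho_support μ hδ h))

lemma rho_nonneg {δ : ℝ} (hδ : 0 < δ) (x : E) : 0 ≤ rho μ δ x :=
  mul_nonneg (by positivity) (rho1_nonneg μ _)

lemma rho_integral {δ : ℝ} (hδ : 0 < δ) : ∫ x, rho μ δ x ∂μ = 1 := by
  unfold rho
  rw [integral_const_mul, Measure.integral_comp_inv_smul_of_nonneg μ _ hδ.le, rho1_integral,
    smul_eq_mul, mul_one]
  exact inv_mul_cancel₀ (by positivity)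

lemma rho_fderiv {δ : ℝ} (x v : E) :
    fderiv ℝ (rho μ δ) x v = (δ ^ finrank ℝ E)⁻¹ * (δ⁻¹ * fderiv ℝ (rho1 μ) (δ⁻¹ • x) v) := by
  have h1 : HasFDerivAt (rho1 μ : E → ℝ) (fderiv ℝ (rho1 μ) (δ⁻¹ • x)) (δ⁻¹ • x) :=
    ((rho1_contDiff μ).differentiable (by simp) _).hasFDerivAt
  have h2 : HasFDerivAt (fun x : E => δ⁻¹ • x) (δ⁻¹ • ContinuousLinearMap.id ℝ E) x :=
    (hasFDerivAt_id x).const_smul δ⁻¹
  have h3 := (h1.comp x h2).const_mul ((δ ^ finrank ℝ E)⁻¹)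
  have h4 : HasFDerivAt (rho μ δ : E → ℝ) _ x := h3
  rw [h4.fderiv]
  simp

lemma rho_fderiv_int (v : E) : ∃ C, 0 ≤ C ∧ ∀ δ : ℝ, 0 < δ →
    ∫ x, ‖x‖ * |fderiv ℝ (rho μ δ) x v| ∂μ ≤ C := by
  refine ⟨∫ x, ‖x‖ * |fderiv ℝ (rho1 μ) x v| ∂μ,
    integral_nonneg fun x => by positivity, fun δ hδ => le_of_eq ?_⟩
  have h : ∀ x : E, ‖x‖ * |fderiv ℝ (rho μ δ) x v| = (δ ^ finrank ℝ E)⁻¹ *
      ((fun z : E => ‖z‖ * |fderiv ℝ (rho1 μ) z v|) (δ⁻¹ • x)) := by
    intro x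
    have hd : (0:ℝ) ≤ (δ ^ finrank ℝ E)⁻¹ := by positivity
    rw [rho_fderiv]
    simp only [norm_smul, norm_inv, Real.norm_of_nonneg hδ.le, abs_mul, abs_of_nonneg hd,
      abs_of_pos (inv_pos.mpr hδ)]
    ring
  have h2 := Measure.integral_comp_inv_smul_of_nonneg μ
    (fun z : E => ‖z‖ * |fderiv ℝ (rho1 μ) z v|) hδ.le
  rw [integral_congr_ae (Eventually.of_forall h), integral_const_mul, h2, smul_eq_mul,
    ← mul_assoc, inv_mul_cancel₀ (by positivity), one_mul]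

/-- mollification -/
noncomputable def mol (δ : ℝ) (g : E → ℂ) : E → ℂ := (rho μ δ) ⋆[lsmul ℝ ℝ, μ] g

lemma mol_contDiff {δ : ℝ} (hδ : 0 < δ) {g : E → ℂ} (hg : Continuous g) :
    ContDiff ℝ ∞ (mol μ δ g) :=
  (rho_comp μ hδ).contDiff_convolution_left _ (rho_contDiff μ δ) hg.locallyIntegrable

lemma mol_eq (δ : ℝ) (g : E → ℂ) (x : E) : mol μ δ g x = ∫ y, rho μ δ (x - y) • g y ∂μ := by
  unfold mol
  rw [convolution_lsmul_swap]

lemma mol_pd {δ : ℝ} (hδ : 0 < δ) {g : E → ℂ} (hg : Continuous g) (v x : E) :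
    pd v (mol μ δ g) x = ∫ y, (fderiv ℝ (rho μ δ) (x - y) v) • g y ∂μ := by
  have h := (rho_comp μ hδ).hasFDerivAt_convolution_left (lsmul ℝ ℝ : ℝ →L[ℝ] ℂ →L[ℝ] ℂ)
    ((rho_contDiff μ δ).of_le (by simp)) hg.locallyIntegrable (μ := μ) x
  have h1 : Continuous (fderiv ℝ (rho μ δ : E → ℝ)) :=
    (rho_contDiff μ δ).continuous_fderiv (by simp)
  obtain ⟨P, hP⟩ : ∃ P : (E →L[ℝ] ℝ) →L[ℝ] ℂ →L[ℝ] (E →L[ℝ] ℂ),
      P = (lsmul ℝ ℝ : ℝ →L[ℝ] ℂ →L[ℝ] ℂ).precompL E := ⟨_, rfl⟩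
  rw [← hP] at h
  have hc : Continuous fun y => P (fderiv ℝ (rho μ δ) (x - y)) (g y) := by
    have h2 : Continuous fun y => fderiv ℝ (rho μ δ) (x - y) := h1.comp (by fun_prop)
    exact (P.continuous.comp h2).clm_apply hg
  have hs : HasCompactSupport fun y => P (fderiv ℝ (rho μ δ) (x - y)) (g y) := by
    refine HasCompactSupport.intro (isCompact_closedBall x δ) fun y hy => ?_
    have : fderiv ℝ (rho μ δ) (x - y) = 0 := by
      by_contra hne
      apply hy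
      have hmem : x - y ∈ tsupport (rho μ δ : E → ℝ) :=
        support_fderiv_subset ℝ hne
      have := rho_tsupport μ hδ hmem
      rw [mem_closedBall_zero_iff] at this
      rw [mem_closedBall, dist_eq_norm, norm_sub_rev]
      exact this
    rw [this]
    simp
  have hi : Integrable (fun y => P (fderiv ℝ (rho μ δ) (x - y)) (g y)) μ :=
    hc.integrable_of_hasCompactSupport hs
  have key : (∫ y, P (fderiv ℝ (rho μ δ) (x - y)) (g y) ∂μ) v =
      ∫ y, (P (fderiv ℝ (rho μ δ) (x - y)) (g y)) v ∂μ := ContinuousLinearMap.integral_apply hi v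
  have h3 : pd v (mol μ δ g) x = (∫ y, P (fderiv ℝ (rho μ δ) (x - y)) (g y) ∂μ) v := by
    unfold pd mol
    rw [h.fderiv, convolution_eq_swap]
  rw [h3, key]
  subst hP
  rfl

lemma mol_pd' {δ : ℝ} {g : E → ℂ} (hg : ContDiff ℝ 1 g) (hc : HasCompactSupport g) (v : E) :
    pd v (mol μ δ g) = mol μ δ (pd v g) := by
  funext x
  have hr : LocallyIntegrable (rho μ δ) μ := (rho_contDiff μ δ).continuous.locallyIntegrable
  have h := hc.hasFDerivAt_convolution_right (lsmul ℝ ℝ : ℝ →L[ℝ] ℂ →L[ℝ] ℂ)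
    hr hg (μ := μ) x
  unfold pd mol
  rw [h.fderiv]
  rw [convolution_precompR_apply _ hr (hc.fderiv ℝ) (hg.continuous_fderiv one_ne_zero)]

lemma mol_dist {δ ε : ℝ} (hδ : 0 < δ) {g : E → ℂ} (hg : Continuous g) {x : E} (hε : 0 ≤ ε)
    (h : ∀ y ∈ ball x δ, dist (g y) (g x) ≤ ε) : dist (mol μ δ g x) (g x) ≤ ε :=
  dist_convolution_le hε (rho_support μ hδ) (rho_nonneg μ hδ) (rho_integral μ hδ)
    hg.aestronglyMeasurable h

lemma mol_support {δ : ℝ} (hδ : 0 < δ) {g : E → ℂ} :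
    support (mol μ δ g) ⊆ thickening δ (support g) := by
  intro x hx
  have h := support_convolution_subset (lsmul ℝ ℝ : ℝ →L[ℝ] ℂ →L[ℝ] ℂ) hx
  obtain ⟨a, ha, b, hb, rfl⟩ := Set.mem_add.mp h
  rw [mem_thickening_iff]
  refine ⟨b, hb, ?_⟩
  have := rho_support μ hδ ha
  rw [mem_ball_zero_iff] at this
  simpa [dist_eq_norm] using this

lemma mol_tsupport {δ : ℝ} (hδ : 0 < δ) {g : E → ℂ} :
    tsupport (mol μ δ g) ⊆ cthickening δ (tsupport g) :=
  closure_minimal ((mol_support μ hδ).trans ((thickening_mono le_rfl _).trans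
    ((thickening_subset_cthickening δ _).trans
      (cthickening_subset_of_subset δ subset_closure)))) isClosed_cthickening

lemma mol_comp {δ : ℝ} (hδ : 0 < δ) {g : E → ℂ} (hg : HasCompactSupport g) :
    HasCompactSupport (mol μ δ g) :=
  (hg.isCompact.cthickening).of_isClosed_subset (isClosed_tsupport _) (mol_tsupport μ hδ)

/-- uniform approximation -/
lemma mol_unif {g : E → ℂ} (hg : Continuous g) (hc : HasCompactSupport g) {ε : ℝ} (hε : 0 < ε) :
    ∃ δ₀ > 0, ∀ δ, 0 < δ → δ ≤ δ₀ → ∀ x, dist (mol μ δ g x) (g x) ≤ ε := by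
  have hu : UniformContinuous g := hg.uniformContinuous_of_tendsto_cocompact
    hc.is_zero_at_infty
  obtain ⟨δ₀, hδ₀, h⟩ := Metric.uniformContinuous_iff.mp hu ε hε
  refine ⟨δ₀, hδ₀, fun δ hδ hle x => mol_dist μ hδ hg hε.le fun y hy => ?_⟩
  exact (h (lt_of_lt_of_le (mem_ball.mp hy) hle)).le

lemma mol_tendsto {g : E → ℂ} (hg : Continuous g) (hc : HasCompactSupport g) (x : E) :
    Tendsto (fun δ => mol μ δ g x) (𝓝[>] 0) (𝓝 (g x)) := by
  rw [Metric.tendsto_nhds]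
  intro ε hε
  obtain ⟨δ₀, hδ₀, h⟩ := mol_unif μ hg hc (half_pos hε)
  filter_upwards [Ioo_mem_nhdsGT hδ₀] with δ hδ
  exact (h δ hδ.1 hδ.2.le x).trans_lt (half_lt_self hε)

end Pool.Agent.Work.MP_375441_an
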