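import Pool.Agent.Work.MP_375441_an.Strata

/-!
# Iterated directional derivatives along lists of directions
-/

open MeasureTheory Set Filter Topology Function Metric Module
open scoped ContDiff

namespace Pool.Agent.Work.MP_375441_an

set_option linter.unusedSectionVars false

section
variable {E : Type*} [NormedAddCommGroup E] [NormedSpace ℝ E] {κ : Type*}

/-- iterated directional derivatives -/
noncomputable def dl (e : κ → E) (l : List κ) (g : E → ℂ) : E → ℂ :=
  l.foldr (fun i h => pd (e i) h) g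

variable {e : κ → E}

@[simp] lemma dl_nil (g : E → ℂ) : dl e [] g = g := rfl

@[simp] lemma dl_cons (i : κ) (l : List κ) (g : E → ℂ) : dl e (i :: l) g = pd (e i) (dl e l g) := rfl

lemma dl_append (l l' : List κ) (g : E → ℂ) : dl e (l ++ l') g = dl e l (dl e l' g) := by
  simp [dl, List.foldr_append]

lemma dl_contDiffOn {O : Set E} (hO : IsOpen O) {m : ℕ} {f : E → ℂ} (hf : ContDiffOn ℝ m f O) :
    ∀ (l : List κ) (k : ℕ), k + l.length ≤ m → ContDiffOn ℝ k (dl e l f) O := by
  intro l
  induction l with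
  | nil => intro k hk; exact hf.of_le (by exact_mod_cast hk)
  | cons i l ih =>
    intro k hk
    rw [dl_cons]
    refine pd_contDiffOn (n := ((k + 1 : ℕ) : WithTop ℕ∞)) (e i) hO (ih (k + 1) ?_) (by simp)
    rw [List.length_cons] at hk
    omega

lemma dl_continuousOn {O : Set E} (hO : IsOpen O) {m : ℕ} {f : E → ℂ} (hf : ContDiffOn ℝ m f O)
    (l : List κ) (hl : l.length ≤ m) : ContinuousOn (dl e l f) O :=
  (dl_contDiffOn hO hf l 0 (by omega)).continuousOn

lemma dl_test {U : Set E} {φ : E → ℂ} (hφ : IsTest U φ) (l : List κ) : IsTest U (dl e l φ) := by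
  induction l with
  | nil => exact hφ
  | cons i l ih => exact ih.pd (e i)

lemma pd_comm {g : E → ℂ} (hg : ContDiff ℝ ∞ g) (v w : E) : pd v (pd w g) = pd w (pd v g) := by
  funext x
  have h2t : (2 : WithTop ℕ∞) ≤ ∞ :=
    show ((2 : ℕ∞) : WithTop ℕ∞) ≤ ((⊤ : ℕ∞) : WithTop ℕ∞) from WithTop.coe_le_coe.2 le_top
  have h2 : ContDiffAt ℝ 2 g x := (hg.of_le h2t).contDiffAt
  have hd : DifferentiableAt ℝ (fderiv ℝ g) x :=
    (h2.fderiv_right (m := 1) (by norm_num)).differentiableAt (by simp)
  have e1 : ∀ a b : E, pd a (pd b g) x = fderiv ℝ (fderiv ℝ g) x a b := by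
    intro a b
    have h3 : HasFDerivAt (fun y => fderiv ℝ g y b)
      ((ContinuousLinearMap.apply ℝ ℂ b).comp (fderiv ℝ (fderiv ℝ g) x)) x :=
      (ContinuousLinearMap.apply ℝ ℂ b).hasFDerivAt.comp x hd.hasFDerivAt
    change fderiv ℝ (fun y => fderiv ℝ g y b) x a = _
    rw [h3.fderiv]
    rfl
  rw [e1, e1]
  exact h2.isSymmSndFDerivAt (by simp) v w

lemma dl_smooth {g : E → ℂ} (hg : ContDiff ℝ ∞ g) (l : List κ) : ContDiff ℝ ∞ (dl e l g) := by
  induction l with
  | nil => exact hg
  | cons i l ih => exact pd_contDiff (e i) ih (by simp)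

lemma dl_perm {l l' : List κ} (h : l.Perm l') {g : E → ℂ} (hg : ContDiff ℝ ∞ g) :
    dl e l g = dl e l' g := by
  induction h with
  | nil => rfl
  | cons x _ ih => rw [dl_cons, dl_cons, ih]
  | swap x y l => rw [dl_cons, dl_cons, dl_cons, dl_cons, pd_comm (dl_smooth hg l)]
  | trans _ _ ih1 ih2 => rw [ih1, ih2]

lemma dl_const_mul {g : E → ℂ} (hg : ContDiff ℝ ∞ g) (a : ℂ) (l : List κ) :
    dl e l (fun x => a * g x) = fun x => a * dl e l g x := by
  induction l with
  | nil => rfl
  | cons i l ih =>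
    rw [dl_cons, ih]
    funext x
    rw [pd_const_mul a ((dl_smooth hg l).differentiable (by simp) x)]
    rfl

end

section
variable {E : Type*} [NormedAddCommGroup E] [NormedSpace ℝ E] [MeasurableSpace E] [BorelSpace E]
  [FiniteDimensional ℝ E] {μ : Measure E} [μ.IsAddHaarMeasure] {κ : Type*} {e : κ → E}

/-- iterated integration by parts -/
lemma int_dl {O : Set E} (hO : IsOpen O) {g : E → ℂ} (hg : IsTest O g) :
    ∀ (l : List κ) (m : ℕ) (f : E → ℂ), ContDiffOn ℝ m f O → l.length ≤ m →
      ∫ x, f x * dl e l g x ∂μ = (-1) ^ l.length * ∫ x, dl e l.reverse f x * g x ∂μ := by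
  intro l
  induction l with
  | nil => intro m f _ _; simp
  | cons i l ih =>
    intro m f hf hl
    rw [List.length_cons] at hl
    have h1 := int_pd (μ := μ) hO (hf.of_le (by exact_mod_cast (by omega : 1 ≤ m)))
      (dl_test (e := e) hg l).one (e i)
    have h2 := ih (m - 1) (pd (e i) f)
      (pd_contDiffOn (e i) hO hf (by exact_mod_cast (by omega : m - 1 + 1 ≤ m))) (by omega)
    rw [dl_cons, h1, h2, List.reverse_cons, dl_append, List.length_cons, pow_succ]
    simp only [dl_cons, dl_nil]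
    ring

variable {ι : Type*} [Fintype ι] {ε : ι → E} {G : ι → E → ℂ} {H : E → ℂ} {O : Set E}

theorem van_lists (hO : IsOpen O) (hG : ∀ i, ContinuousOn (G i) O) (hH : ContinuousOn H O)
    {V : Set E} (hV : IsOpen V) (hVO : V ⊆ O) {f : E → ℂ} {m : ℕ} (hf : ContDiffOn ℝ m f V)
    (h0 : ∀ x ∈ V, f x ≠ 0 → VanAt μ ε G H x) :
    ∀ l : List κ, l.length ≤ m → ∀ x ∈ V, dl e l f x ≠ 0 → VanAt μ ε G H x := by
  intro l
  induction l with
  | nil => intro _ x hx hne; exact h0 x hx hne
  | cons i l ih =>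
    intro hl x hx hne
    rw [List.length_cons] at hl
    have h1 : ContDiffAt ℝ 1 (dl e l f) x := by
      have := dl_contDiffOn (e := e) hV hf l 1 (by omega)
      exact_mod_cast this.contDiffAt (hV.mem_nhds hx)
    refine van_step hO hG hH (hVO hx) (g := dl e l f) h1 (fun h => hne ?_) ?_
    · rw [dl_cons]
      simp [pd, h]
    · filter_upwards [hV.mem_nhds hx] with y hy hne'
      exact ih (by omega) y hy hne'

end

end Pool.Agent.Work.MP_375441_an
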