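import Pool.Agent.Work.MP_375441_an.Hyp

/-!
# Strata
-/

open MeasureTheory Set Filter Topology Function Metric Module
open scoped ContDiff

namespace Pool.Agent.Work.MP_375441_an

set_option linter.unusedSectionVars false

variable {E : Type*} [NormedAddCommGroup E] [NormedSpace ℝ E] [MeasurableSpace E] [BorelSpace E]
  [FiniteDimensional ℝ E] {μ : Measure E} [μ.IsAddHaarMeasure]
  {ι : Type*} [Fintype ι] {e : ι → E} {G : ι → E → ℂ} {H : E → ℂ} {O : Set E}

lemma van_step (hO : IsOpen O) (hG : ∀ i, ContinuousOn (G i) O) (hH : ContinuousOn H O) {x₀ : E}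
    (hx₀ : x₀ ∈ O) {F : Type*} [NormedAddCommGroup F] [NormedSpace ℝ F] {g : E → F}
    (hg : ContDiffAt ℝ 1 g x₀) (hg' : fderiv ℝ g x₀ ≠ 0)
    (h : ∀ᶠ x in 𝓝 x₀, g x ≠ 0 → VanAt μ e G H x) : VanAt μ e G H x₀ := by
  obtain ⟨v, hv⟩ : ∃ v, fderiv ℝ g x₀ v ≠ 0 := by
    by_contra hcon
    push Not at hcon
    exact hg' (ContinuousLinearMap.ext hcon)
  obtain ⟨l, hl⟩ := SeparatingDual.exists_ne_zero (R := ℝ) hv
  refine van_hyp hO hG hH hx₀ (s := fun x => l (g x)) (v := v) ?_ ?_ ?_
  · exact l.contDiff.contDiffAt.comp x₀ hg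
  · have h1 : HasFDerivAt (fun x => l (g x)) (l.comp (fderiv ℝ g x₀)) x₀ :=
      l.hasFDerivAt.comp x₀ (hg.differentiableAt (by simp)).hasFDerivAt
    rw [h1.fderiv]
    exact hl
  · filter_upwards [h] with x hx hne
    refine hx fun h0 => hne ?_
    simp [h0]

/-- if the functional vanishes near each point where `f ≠ 0`, then it vanishes near each point
where some derivative of `f` of order `≤ m` does not vanish -/
theorem van_strata (hO : IsOpen O) (hG : ∀ i, ContinuousOn (G i) O) (hH : ContinuousOn H O)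
    {V : Set E} (hV : IsOpen V) (hVO : V ⊆ O) {f : E → ℂ} {m : ℕ} (hf : ContDiffOn ℝ m f V)
    (h0 : ∀ x ∈ V, f x ≠ 0 → VanAt μ e G H x) :
    ∀ k ≤ m, ∀ x ∈ V, iteratedFDeriv ℝ k f x ≠ 0 → VanAt μ e G H x := by
  intro k
  induction k with
  | zero =>
    intro _ x hx hne
    refine h0 x hx fun h => hne ?_
    ext w
    simp [h]
  | succ k ih =>
    intro hk x hx hne
    have hfx : ContDiffAt ℝ m f x := hf.contDiffAt (hV.mem_nhds hx)
    refine van_step hO hG hH (hVO hx) (g := iteratedFDeriv ℝ k f)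
      (hfx.iteratedFDeriv_right (m := 1) (by exact_mod_cast (by omega : 1 + k ≤ m))) ?_ ?_
    · intro h
      apply hne
      rw [iteratedFDeriv_succ_eq_comp_left, Function.comp_apply, h]
      exact LinearIsometryEquiv.map_zero _
    · filter_upwards [hV.mem_nhds hx] with y hy hne'
      exact ih (by omega) y hy hne'

/-- same for an analytic function that does not vanish identically -/
theorem van_analytic (hO : IsOpen O) (hG : ∀ i, ContinuousOn (G i) O) (hH : ContinuousOn H O)
    {V : Set E} (hV : IsOpen V) (hVO : V ⊆ O) (hVc : IsPreconnected V) {f : E → ℂ}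
    (hf : AnalyticOnNhd ℝ f V) (hne : ∃ x ∈ V, f x ≠ 0)
    (h0 : ∀ x ∈ V, f x ≠ 0 → VanAt μ e G H x) : ∀ x ∈ V, VanAt μ e G H x := by
  intro x hx
  by_cases hall : ∀ k, iteratedFDeriv ℝ k f x = 0
  · exfalso
    obtain ⟨y, hy, hfy⟩ := hne
    have hz : f =ᶠ[𝓝 x] 0 := by
      obtain ⟨p, r, hp⟩ := hf x hx
      filter_upwards [Metric.eball_mem_nhds x hp.r_pos] with z hz
      have hz' : z - x ∈ Metric.eball (0 : E) r := by
        simpa [edist_eq_enorm_sub] using hz
      have h1 := hp.hasSum hz'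
      rw [add_sub_cancel] at h1
      have h2 : ∀ n, (p n fun _ => z - x) = 0 := by
        intro n
        have h3 := hp.factorial_smul (y := z - x) n
        rw [hall n] at h3
        simp only [zero_apply, smul_eq_zero] at h3
        rcases h3 with h3 | h3
        · exact absurd h3 (Nat.factorial_ne_zero n)
        · exact h3
      simp only [h2] at h1
      exact h1.unique hasSum_zero
    exact hfy (hf.eqOn_zero_of_preconnected_of_eventuallyEq_zero hVc hx hz hy)
  · push Not at hall
    obtain ⟨k, hk⟩ := hall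
    exact van_strata hO hG hH hV hVO (m := k) (fun z hz => ((hf z hz).contDiffAt).contDiffWithinAt)
      h0 k le_rfl x hx hk

end Pool.Agent.Work.MP_375441_an
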