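import Pool.Agent.Work.MP_375441_an.Claim
import Pool.Agent.Work.MP_375441_an.Ident
import Pool.Agent.Work.MP_375441_an.Alg

/-!
# The two-dimensional core theorem
-/

open MeasureTheory Set Filter Topology Function Metric Module
open scoped ContDiff

namespace Pool.Agent.Work.MP_375441_an

set_option linter.unusedSectionVars false

variable {E : Type*} [NormedAddCommGroup E] [NormedSpace ℝ E] [MeasurableSpace E] [BorelSpace E]
  [FiniteDimensional ℝ E] {μ : Measure E} [μ.IsAddHaarMeasure]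

/-- the functional -/
noncomputable def Tc (μ : Measure E) (e : Fin 2 → E) (m : ℕ) (u c : ℕ → E → ℂ) (H0 : E → ℂ)
    (φ : E → ℂ) : ℂ :=
  ∫ x, H0 x * φ x ∂μ - J μ (u 0) (e 1) (fun x => c 0 x * φ x)
    - ∑ k ∈ Finset.range (m + 1), J μ (u k) (e 0) (fun x => c (k + 1) x * φ x)

variable {e : Fin 2 → E} {O : Set E} {m : ℕ} {u c : ℕ → E → ℂ} {H0 : E → ℂ}

lemma Tc_eq_TF (hO : IsOpen O) (hu : ∀ k ≤ m, ContinuousOn (u k) O)
    (hc : ∀ k, ContDiffOn ℝ 1 (c k) O) (hH0 : ContinuousOn H0 O) {φ : E → ℂ}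
    (hφ : IsTestOne O φ) :
    Tc μ e m u c H0 φ = TF μ e
      ![fun x => ∑ k ∈ Finset.range (m + 1), c (k + 1) x * u k x, fun x => c 0 x * u 0 x]
      (fun x => H0 x - pd (e 1) (c 0) x * u 0 x -
        ∑ k ∈ Finset.range (m + 1), pd (e 0) (c (k + 1)) x * u k x) φ := by
  have hku : ∀ k ∈ Finset.range (m + 1), ContinuousOn (u k) O := fun k hk =>
    hu k (by simpa [Nat.lt_succ_iff] using hk)
  have hcφ : ∀ k, IsTestOne O (fun x => c k x * φ x) := fun k =>
    hφ.mul_left hO subset_rfl (hc k)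
  have i1 : Integrable (fun x => H0 x * φ x) μ :=
    integrable_mul_test hO hH0 hφ.continuous hφ.comp hφ.supp
  have i2 := J_integrable (μ := μ) (y := e 1) hO (hu 0 (Nat.zero_le _)) (hcφ 0)
  have i3 : ∀ k ∈ Finset.range (m + 1), Integrable (fun x => u k x *
      pd (e 0) (fun x => c (k + 1) x * φ x) x) μ := fun k hk =>
    J_integrable (μ := μ) (y := e 0) hO (hku k hk) (hcφ (k + 1))
  have i12 : Integrable (fun x => H0 x * φ x - u 0 x * pd (e 1) (fun x => c 0 x * φ x) x) μ :=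
    i1.sub i2
  unfold Tc TF J
  rw [← integral_sub i1 i2, ← integral_finsetSum _ i3, ← integral_sub i12 (integrable_finsetSum _ i3)]
  refine integral_congr_ae (Eventually.of_forall fun x => ?_)
  simp only [Fin.sum_univ_two, Matrix.cons_val_zero, Matrix.cons_val_one]
  by_cases hx : x ∈ O
  · have hdc : ∀ k, DifferentiableAt ℝ (c k) x := fun k =>
      ((hc k).differentiableOn (by simp)).differentiableAt (hO.mem_nhds hx)
    have hdφ : DifferentiableAt ℝ φ x := hφ.smooth.differentiable (by simp) x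
    have e1 : ∀ k, pd (e 0) (fun x => c (k + 1) x * φ x) x =
        pd (e 0) (c (k + 1)) x * φ x + c (k + 1) x * pd (e 0) φ x := fun k =>
      pd_mul (hdc (k + 1)) hdφ
    rw [pd_mul (hdc 0) hdφ]
    simp only [e1]
    rw [sub_mul, sub_mul, Finset.sum_mul, Finset.sum_mul]
    have e2 : ∑ k ∈ Finset.range (m + 1), u k x * (pd (e 0) (c (k + 1)) x * φ x +
        c (k + 1) x * pd (e 0) φ x) =
        ∑ k ∈ Finset.range (m + 1), pd (e 0) (c (k + 1)) x * u k x * φ x +
        ∑ k ∈ Finset.range (m + 1), c (k + 1) x * u k x * pd (e 0) φ x := by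
      rw [← Finset.sum_add_distrib]
      exact Finset.sum_congr rfl fun k _ => by ring
    rw [e2]
    ring
  · have hx' : x ∉ tsupport φ := fun h => hx (hφ.supp h)
    have h0 : φ x = 0 := image_eq_zero_of_notMem_tsupport hx'
    have h1 : ∀ y, pd y φ x = 0 := fun y =>
      image_eq_zero_of_notMem_tsupport fun h => hx' (pd_tsupport _ _ h)
    have h2 : ∀ (a : E → ℂ) y, pd y (fun z => a z * φ z) x = 0 := fun a y =>
      image_eq_zero_of_notMem_tsupport fun h =>
        hx' (tsupport_mul_subset_right' a φ (pd_tsupport _ _ h))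
    simp [h0, h1, h2]

lemma exists_good_nhd (hO : IsOpen O) {x₀ : E} (hx₀ : x₀ ∈ O) {lam : E → ℂ}
    (hlam : ContDiffAt ℝ 1 lam x₀)
    (hroot : ∀ᶠ x in 𝓝 x₀, ∑ k ∈ Finset.range (m + 2), c k x * lam x ^ k = 0)
    (him : (lam x₀).im ≠ 0) :
    ∃ (N : Set E) (s a : ℝ), IsOpen N ∧ x₀ ∈ N ∧ N ⊆ O ∧ |s| ≤ 1 ∧ 0 < a ∧
      ContDiffOn ℝ 1 lam N ∧ (∀ x ∈ N, ∑ k ∈ Finset.range (m + 2), c k x * lam x ^ k = 0) ∧
      ∀ x ∈ N, s * (lam x).im ≤ -a := by
  have hc : ContinuousAt (fun x => (lam x).im) x₀ :=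
    Complex.continuous_im.continuousAt.comp hlam.continuousAt
  obtain ⟨s, a, hs, ha, hsa⟩ : ∃ s a : ℝ, |s| ≤ 1 ∧ 0 < a ∧ ∀ᶠ x in 𝓝 x₀, s * (lam x).im ≤ -a := by
    rcases lt_or_gt_of_ne him with h | h
    · refine ⟨1, -(lam x₀).im / 2, by simp, by linarith, ?_⟩
      have h1 : (lam x₀).im < (lam x₀).im / 2 := by linarith
      filter_upwards [hc.eventually (gt_mem_nhds h1)] with x hx
      linarith
    · refine ⟨-1, (lam x₀).im / 2, by simp, by linarith, ?_⟩
      have h1 : (lam x₀).im / 2 < (lam x₀).im := by linarith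
      filter_upwards [hc.eventually (lt_mem_nhds h1)] with x hx
      linarith
  have hev := (((hlam.eventually (by simp)).and hroot).and hsa).and (hO.mem_nhds hx₀)
  obtain ⟨N, hNs, hNo, hxN⟩ := _root_.mem_nhds_iff.mp hev
  refine ⟨N, s, a, hNo, hxN, fun x hx => (hNs hx).2, hs, ha,
    fun x hx => (hNs hx).1.1.1.contDiffWithinAt, fun x hx => (hNs hx).1.1.2,
    fun x hx => (hNs hx).1.2⟩

theorem local2 (hO : IsOpen O) (hu : ∀ k ≤ m, ContinuousOn (u k) O)
    (hc : ∀ k, ContDiffOn ℝ 1 (c k) O) (hH0 : ContinuousOn H0 O) {F : Set E}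
    (hF : IsOpen (O \ F)) (huF : ∀ x ∈ O, x ∈ F → ∀ k ≤ m, u k x = 0)
    (hH0F : ∀ x ∈ O, x ∈ F → H0 x = 0)
    (hswap : ∀ k < m, ∀ g, IsTestOne O g → J μ (u (k + 1)) (e 1) g = J μ (u k) (e 0) g)
    (hT : ∀ φ, IsTest (O \ F) φ → Tc μ e m u c H0 φ = 0) {x₀ : E} (hx₀ : x₀ ∈ O) {lam : E → ℂ}
    (hlam : ContDiffAt ℝ 1 lam x₀)
    (hroot : ∀ᶠ x in 𝓝 x₀, ∑ k ∈ Finset.range (m + 2), c k x * lam x ^ k = 0)
    (him : (lam x₀).im ≠ 0) :
    ∃ B, IsOpen B ∧ x₀ ∈ B ∧ ∀ φ, IsTest B φ → Tc μ e m u c H0 φ = 0 := by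
  obtain ⟨N, s, a, hN, hxN, hNO, hs, ha, hlamN, hrootN, himN⟩ :=
    exists_good_nhd hO hx₀ hlam hroot him
  obtain ⟨r, hr, hrN⟩ := Metric.nhds_basis_closedBall.mem_iff.mp (hN.mem_nhds hxN)
  obtain ⟨χ, hχs, hχc, hχN, -, V, hV, hKV, hχ1⟩ :=
    exists_cutoff (isCompact_closedBall x₀ r) hN hrN
  set B := ball x₀ r with hB
  have hBN : B ⊆ N := ball_subset_closedBall.trans hrN
  have hBχ : ∀ x ∈ B, χ x = 1 := fun x hx => hχ1 x (hKV (ball_subset_closedBall hx))
  set χc : E → ℂ := fun x => ((χ x : ℝ) : ℂ) with hχc'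
  have hχcs : ContDiff ℝ ∞ χc := Complex.ofRealCLM.contDiff.comp hχs
  have hχcc : HasCompactSupport χc := hχc.comp_left (g := fun t : ℝ => (t : ℂ)) (by simp)
  have hχcN : tsupport χc ⊆ N := by
    refine (closure_mono fun x hx => ?_ : tsupport χc ⊆ tsupport χ).trans hχN
    simp only [mem_support, hχc'] at hx ⊢
    exact fun h => hx (by simp [h])
  have hχcB : ∀ x ∈ B, χc x = 1 := fun x hx => by simp [hχc', hBχ x hx]
  -- the Horner polynomials
  set R : ℕ → E → ℂ := fun k x => ∑ j ∈ Finset.range (m + 2 - k), c (k + j) x * lam x ^ j with hR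
  have hRd : ∀ k, ContDiffOn ℝ 1 (R k) N := fun k =>
    ContDiffOn.sum fun j _ => ((hc (k + j)).mono hNO).mul (hlamN.pow j)
  have hrec : ∀ k ≤ m, ∀ x ∈ N, lam x * R (k + 1) x = R k x - c k x := by
    intro k hk x _
    simp only [hR]
    rw [show m + 2 - k = (m + 2 - (k + 1)) + 1 by omega, Finset.sum_range_succ', Finset.mul_sum]
    simp only [add_zero, pow_zero, mul_one, add_sub_cancel_right]
    refine Finset.sum_congr rfl fun j _ => ?_
    rw [show k + 1 + j = k + (j + 1) by ring]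
    ring
  have hR0 : ∀ x ∈ N, R 0 x = 0 := by
    intro x hx
    simp only [hR, zero_add, Nat.sub_zero]
    exact hrootN x hx
  have hRt : ∀ x ∈ N, R (m + 1) x = c (m + 1) x := by
    intro x _
    simp only [hR, show m + 2 - (m + 1) = 1 by omega, Finset.sum_range_one, add_zero, pow_zero,
      mul_one]
  have huN : ∀ k ≤ m, ContinuousOn (u k) N := fun k hk => (hu k hk).mono hNO
  have hku : ∀ k ∈ Finset.range (m + 1), ContinuousOn (u k) N := fun k hk =>
    huN k (by simpa [Nat.lt_succ_iff] using hk)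
  -- the functions
  set w : E → ℂ := fun x => ∑ k ∈ Finset.range (m + 1), R (k + 1) x * u k x with hw
  set S : E → ℂ := fun x => ∑ k ∈ Finset.range (m + 1), u k x *
    (pd (e 0) (R (k + 1)) x - lam x * pd (e 1) (R (k + 1)) x) with hS
  set h0 : E → ℂ := fun x => S x - H0 x with hh0
  have hwc : ContinuousOn w N :=
    continuousOn_finsetSum _ fun k hk => (hRd (k + 1)).continuousOn.mul (hku k hk)
  have hSc : ContinuousOn S N := by
    refine continuousOn_finsetSum _ fun k hk => (hku k hk).mul (ContinuousOn.sub ?_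
      (hlamN.continuousOn.mul ?_))
    · exact (pd_contDiffOn (m := 0) _ hN (hRd (k + 1)) (by simp)).continuousOn
    · exact (pd_contDiffOn (m := 0) _ hN (hRd (k + 1)) (by simp)).continuousOn
  have hhc : ContinuousOn h0 N := hSc.sub (hH0.mono hNO)
  set W : E → ℂ := fun x => w x * χc x with hW
  set h : E → ℂ := fun x => h0 x * χc x with hh
  set lamχ : E → ℂ := fun x => lam x * χc x with hlamχ
  have hWcont : Continuous W := continuous_mul_of_tsupport hN hwc hχcs.continuous hχcN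
  have hhcont : Continuous h := continuous_mul_of_tsupport hN hhc hχcs.continuous hχcN
  have hlamd : ContDiff ℝ 1 lamχ :=
    contDiff_mul_of_tsupport hN hlamN (hχcs.of_le (by simp)) hχcN
  -- the weak identity
  have hweak : ∀ φ, IsTest B φ →
      - ∫ x, W x * pd (e 0) φ x ∂μ + ∫ x, W x * pd (e 1) (fun y => lamχ y * φ y) x ∂μ =
      Tc μ e m u c H0 φ + ∫ x, h x * φ x ∂μ := by
    intro φ hφ
    have hφN : IsTestOne N φ := hφ.one.mono hBN
    have hφO : IsTestOne O φ := hφN.mono hNO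
    have hid := ident (μ := μ) (e := e) hN huN (fun k => (hc k).mono hNO) hRd hlamN hrec hR0 hRt
      (fun k hk g hg => hswap k hk g (hg.mono hNO)) hφN
    have e1 : (fun y => lamχ y * φ y) = fun y => lam y * φ y := by
      funext y
      by_cases hy : y ∈ B
      · simp only [hlamχ]
        rw [hχcB y hy, mul_one]
      · have : φ y = 0 := image_eq_zero_of_notMem_tsupport fun h => hy (hφ.supp h)
        rw [this, mul_zero, mul_zero]
    have e2 : ∀ k : E → ℂ, (∀ x, x ∉ tsupport φ → k x = 0) →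
        ∫ x, W x * k x ∂μ = ∫ x, w x * k x ∂μ := by
      intro k hk
      refine integral_congr_ae (Eventually.of_forall fun x => ?_)
      by_cases hx : x ∈ tsupport φ
      · simp only [hW]
        rw [hχcB x (hφ.supp hx), mul_one]
      · simp only [hk x hx, mul_zero]
    have e3 : ∫ x, W x * pd (e 0) φ x ∂μ = ∫ x, w x * pd (e 0) φ x ∂μ :=
      e2 _ fun x hx => image_eq_zero_of_notMem_tsupport fun h => hx (pd_tsupport _ _ h)
    have e4 : ∫ x, W x * pd (e 1) (fun y => lam y * φ y) x ∂μ =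
        ∫ x, w x * pd (e 1) (fun y => lam y * φ y) x ∂μ :=
      e2 _ fun x hx => image_eq_zero_of_notMem_tsupport fun h =>
        hx (tsupport_mul_subset_right' lam φ (pd_tsupport _ _ h))
    have e5 : ∫ x, h x * φ x ∂μ = ∫ x, S x * φ x ∂μ - ∫ x, H0 x * φ x ∂μ := by
      rw [← integral_sub (integrable_mul_test hN hSc hφN.continuous hφN.comp hφN.supp)
        (integrable_mul_test hO hH0 hφO.continuous hφO.comp hφO.supp)]
      refine integral_congr_ae (Eventually.of_forall fun x => ?_)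
      by_cases hx : x ∈ B
      · simp only [hh, hh0]
        rw [hχcB x hx]
        ring
      · have : φ x = 0 := image_eq_zero_of_notMem_tsupport fun h => hx (hφ.supp h)
        simp only [this, mul_zero, sub_zero]
    rw [e1, e3, e4, e5]
    unfold Tc
    rw [hid]
    ring
  -- the claim
  have hUo : IsOpen (B \ F) := by
    have : B \ F = B ∩ (O \ F) := by
      ext x
      exact ⟨fun hx => ⟨hx.1, hNO (hBN hx.1), hx.2⟩, fun hx => ⟨hx.1, hx.2.2⟩⟩
    rw [this]
    exact isOpen_ball.inter hF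
  have hBF : B \ F ⊆ O \ F := fun x hx => ⟨hNO (hBN hx.1), hx.2⟩
  have hWF : ∀ x ∈ B, x ∈ F → W x = 0 := by
    intro x hx hxF
    simp only [hW, hw]
    rw [Finset.sum_eq_zero, zero_mul]
    intro k hk
    rw [huF x (hNO (hBN hx)) hxF k (by simpa [Nat.lt_succ_iff] using hk), mul_zero]
  have hhF : ∀ x ∈ B, x ∈ F → h x = 0 := by
    intro x hx hxF
    simp only [hh, hh0, hS]
    rw [Finset.sum_eq_zero, hH0F x (hNO (hBN hx)) hxF, sub_zero, zero_mul]
    intro k hk
    rw [huF x (hNO (hBN hx)) hxF k (by simpa [Nat.lt_succ_iff] using hk), zero_mul]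
  have hclaim : ∀ ψ, IsTest B ψ → WeakEq μ (e 0) (e 1) W lamχ ({x | W x ≠ 0}.indicator h) ψ := by
    intro ψ hψ
    refine claim (s := s) (c := a) (U := B \ F) isOpen_ball hUo hWcont hχcc.mul_left hhcont
      hχcc.mul_left hlamd hχcc.mul_left hs ha (fun x hx => ?_) (fun x hx hxU => ?_)
      (fun ψ hψ => ?_) hψ
    · simp only [hlamχ]
      rw [hχcB x hx, mul_one]
      exact himN x (hBN hx)
    · refine hWF x hx ?_
      by_contra hcon
      exact hxU ⟨hx, hcon⟩
    · unfold WeakEq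
      rw [hweak ψ (hψ.mono sdiff_subset), hT ψ (hψ.mono hBF), zero_add]
  -- conclusion
  have hop : IsOpen {x | W x ≠ 0} := isOpen_ne_fun hWcont continuous_const
  have hhi : Integrable h μ := hhcont.integrable_of_hasCompactSupport hχcc.mul_left
  set g : E → ℂ := {x | W x ≠ 0}ᶜ.indicator h with hg
  have hgi : Integrable g μ := hhi.indicator hop.measurableSet.compl
  have hTg : ∀ ψ, IsTest B ψ → Tc μ e m u c H0 ψ = - ∫ x, g x * ψ x ∂μ := by
    intro ψ hψ
    have h1 := hweak ψ hψ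
    have h2 := hclaim ψ hψ
    unfold WeakEq at h2
    rw [h2] at h1
    obtain ⟨Cψ, hCψ⟩ := hψ.comp.exists_bound_of_continuous hψ.smooth.continuous
    have j : ∀ k : E → ℂ, Integrable k μ → Integrable (fun x => k x * ψ x) μ := fun k hk =>
      hk.mul_bdd hψ.smooth.continuous.aestronglyMeasurable (Eventually.of_forall hCψ)
    have h3 : ∫ x, h x * ψ x ∂μ = ∫ x, {x | W x ≠ 0}.indicator h x * ψ x ∂μ +
        ∫ x, g x * ψ x ∂μ := by
      rw [← integral_add (j _ (hhi.indicator hop.measurableSet)) (j _ hgi)]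
      refine integral_congr_ae (Eventually.of_forall fun x => ?_)
      simp only [hg]
      rw [← add_mul]
      congr 1
      exact (congrFun (indicator_self_add_compl {x | W x ≠ 0} h) x).symm
    rw [h3] at h1
    linear_combination (norm := skip) - h1
    ring
  have hae : ∀ᵐ x ∂μ, x ∈ B \ F → g x = 0 := by
    refine hUo.ae_eq_zero_of_integral_contDiff_smul_eq_zero
      (hgi.locallyIntegrable.locallyIntegrableOn _) fun ψ hψ1 hψ2 hψ3 => ?_
    have hψt : IsTest (B \ F) (fun x => ((ψ x : ℝ) : ℂ)) := by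
      refine ⟨Complex.ofRealCLM.contDiff.comp hψ1,
        hψ2.comp_left (g := fun t : ℝ => (t : ℂ)) (by simp), ?_⟩
      refine (closure_mono fun x hx => ?_ : tsupport (fun x => ((ψ x : ℝ) : ℂ)) ⊆ tsupport ψ).trans
        hψ3
      simp only [mem_support] at hx ⊢
      exact fun h => hx (by simp [h])
    have h1 := hTg _ (hψt.mono sdiff_subset)
    rw [hT _ (hψt.mono hBF)] at h1
    have h2 : ∫ x, ψ x • g x ∂μ = ∫ x, g x * ((ψ x : ℝ) : ℂ) ∂μ :=
      integral_congr_ae (Eventually.of_forall fun x => by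
        simp only [Complex.real_smul]; ring)
    rw [h2]
    exact neg_eq_zero.mp h1.symm
  refine ⟨B, isOpen_ball, mem_ball_self hr, fun ψ hψ => ?_⟩
  rw [hTg ψ hψ, neg_eq_zero]
  refine integral_eq_zero_of_ae ?_
  filter_upwards [hae] with x hx
  by_cases hxB : x ∈ B
  · by_cases hxF : x ∈ F
    · have : g x = 0 := by
        simp only [hg]
        by_cases hxW : x ∈ {x | W x ≠ 0}ᶜ
        · rw [indicator_of_mem hxW]; exact hhF x hxB hxF
        · rw [indicator_of_notMem hxW]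
      simp [this]
    · simp [hx ⟨hxB, hxF⟩]
  · have : ψ x = 0 := image_eq_zero_of_notMem_tsupport fun h => hxB (hψ.supp h)
    simp [this]

end Pool.Agent.Work.MP_375441_an
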